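import Mathlib

/-!
# Matroid polytopes and matroid subdivisions: basic combinatorial tools

Bases are `Finset`s of a finite type; a matroid is given by its family of bases.
-/

namespace Pool.Agent.V11152.MatroidSubdiv

open Finset

variable {E : Type} [Fintype E] [DecidableEq E]

/-- A family of sets is the set of bases of a matroid: it is nonempty and satisfies the basis
exchange property. -/
def IsMatroid (N : Finset (Finset E)) : Prop :=
  N.Nonempty ∧ ∀ B ∈ N, ∀ B' ∈ N, ∀ x ∈ B \ B', ∃ y ∈ B' \ B, insert y (B.erase x) ∈ N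

/-- The indicator vector `e_B`. -/
def indic (B : Finset E) : E → ℝ := fun i => if i ∈ B then 1 else 0

/-- The matroid polytope: the convex hull of the indicator vectors of the bases. -/
def poly (N : Finset (Finset E)) : Set (E → ℝ) := convexHull ℝ (indic '' (N : Set (Finset E)))

/-- A matroid subdivision of `P_M`, given by a family `S` of cells: every cell is a matroid
polytope, the union of the cells is `P_M`, and any two cells intersect in a common (possibly empty)
face. -/
def IsMatroidSubdivision (M : Finset (Finset E)) (S : Set (Finset (Finset E))) : Prop :=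
  (∀ N ∈ S, IsMatroid N) ∧ (⋃ N ∈ S, poly N) = poly M ∧
  ∀ N ∈ S, ∀ N' ∈ S, IsExposed ℝ (poly N) (poly N ∩ poly N')

lemma mem_poly_iff (N : Finset (Finset E)) (v : E → ℝ) : v ∈ poly N ↔
    ∃ w : Finset E → ℝ, (∀ B, 0 ≤ w B) ∧ (∀ B, B ∉ N → w B = 0) ∧ ∑ B, w B = 1 ∧
      ∀ i, v i = ∑ B, w B * indic B i := by
  constructor
  · intro hv
    unfold poly at hv
    have hc : convexHull ℝ (indic '' (N : Set (Finset E))) ⊆ {v : E → ℝ |
        ∃ w : Finset E → ℝ, (∀ B, 0 ≤ w B) ∧ (∀ B, B ∉ N → w B = 0) ∧ ∑ B, w B = 1 ∧
      ∀ i, v i = ∑ B, w B * indic B i} := by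
      refine convexHull_min ?_ ?_
      · rintro _ ⟨B, hB, rfl⟩
        refine ⟨fun B' => if B' = B then 1 else 0, fun B' => ?_, fun B' hB' => ?_, ?_, fun i => ?_⟩
        · show (0 : ℝ) ≤ if B' = B then 1 else 0
          split_ifs
          · exact zero_le_one
          · exact le_refl _
        · show (if B' = B then (1 : ℝ) else 0) = 0
          rw [if_neg]
          rintro rfl
          exact hB' hB
        · simp
        · simp
      · rintro u ⟨w, hw1, hw2, hw3, hw4⟩ v ⟨w', hw1', hw2', hw3', hw4'⟩ a b ha hb hab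
        refine ⟨fun B => a * w B + b * w' B, fun B => ?_, fun B hB => ?_, ?_, fun i => ?_⟩
        · exact add_nonneg (mul_nonneg ha (hw1 B)) (mul_nonneg hb (hw1' B))
        · simp only [hw2 B hB, hw2' B hB]; ring
        · rw [Finset.sum_add_distrib, ← Finset.mul_sum, ← Finset.mul_sum, hw3, hw3']
          linarith
        · simp only [Pi.add_apply, Pi.smul_apply, smul_eq_mul, hw4 i, hw4' i, Finset.mul_sum]
          rw [← Finset.sum_add_distrib]
          refine Finset.sum_congr rfl ?_
          intro B _
          ring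
    exact hc hv
  · rintro ⟨w, hw1, hw2, hw3, hw4⟩
    have hv : v = ∑ B ∈ N, w B • indic B := by
      funext i
      rw [Finset.sum_apply, hw4 i]
      simp only [Pi.smul_apply, smul_eq_mul]
      symm
      apply Finset.sum_subset (Finset.subset_univ N)
      intro B _ hB
      rw [hw2 B hB, zero_mul]
    rw [hv]
    refine (convex_convexHull ℝ _).sum_mem (fun B _ => hw1 B) ?_
      (fun B hB => subset_convexHull ℝ _ ⟨B, hB, rfl⟩)
    rw [← hw3]
    apply Finset.sum_subset (Finset.subset_univ N)
    intro B _ hB
    exact hw2 B hB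

lemma indic_mem (N : Finset (Finset E)) (B : Finset E) (hB : B ∈ N) : indic B ∈ poly N :=
  subset_convexHull ℝ _ ⟨B, hB, rfl⟩

lemma poly_mono {N M : Finset (Finset E)} (h : N ⊆ M) : poly N ⊆ poly M :=
  convexHull_mono (Set.image_mono (by exact_mod_cast h))

/-- The basic selection tool: a linear functional exceeding `t` at a point of the polytope exceeds
`t` at a base compatible with the coordinates of the point equal to `0` or `1`. -/
lemma pick {N : Finset (Finset E)} {v : E → ℝ} (hv : v ∈ poly N) (c : E → ℝ) (t : ℝ)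
    (h : t < ∑ i, c i * v i) :
    ∃ B ∈ N, (∀ i, v i = 1 → i ∈ B) ∧ (∀ i, v i = 0 → i ∉ B) ∧ t < ∑ i ∈ B, c i := by
  obtain ⟨w, hw1, hw2, hw3, hw4⟩ := (mem_poly_iff N v).1 hv
  by_contra hcon
  push Not at hcon
  have hval : ∀ B, ∑ i, c i * indic B i = ∑ i ∈ B, c i := by
    intro B
    unfold indic
    simp only [mul_ite, mul_one, mul_zero]
    rw [Finset.sum_ite_mem, Finset.univ_inter]
  have h1 : ∑ i, c i * v i = ∑ B, w B * ∑ i ∈ B, c i := by
    calc ∑ i, c i * v i = ∑ i, ∑ B, w B * (c i * indic B i) := by
          refine Finset.sum_congr rfl ?_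
          intro i _
          rw [hw4 i, Finset.mul_sum]
          refine Finset.sum_congr rfl ?_
          intro B _
          ring
      _ = ∑ B, ∑ i, w B * (c i * indic B i) := Finset.sum_comm
      _ = ∑ B, w B * ∑ i ∈ B, c i := by
          refine Finset.sum_congr rfl ?_
          intro B _
          rw [← Finset.mul_sum, hval]
  have hle : ∀ B, w B * ∑ i ∈ B, c i ≤ w B * t := by
    intro B
    rcases (hw1 B).eq_or_lt with h0 | h0
    · rw [← h0]; simp
    · have hBN : B ∈ N := by
        by_contra hB
        rw [hw2 B hB] at h0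
        exact lt_irrefl _ h0
      have hone : ∀ i, v i = 1 → i ∈ B := by
        intro i hi
        by_contra hiB
        have h2 : ∑ B', w B' * indic B' i < ∑ B', w B' := by
          apply Finset.sum_lt_sum
          · intro B' _
            unfold indic
            split_ifs
            · rw [mul_one]
            · rw [mul_zero]; exact hw1 B'
          · refine ⟨B, Finset.mem_univ _, ?_⟩
            unfold indic
            rw [if_neg hiB, mul_zero]
            exact h0
        rw [← hw4 i, hw3, hi] at h2
        exact lt_irrefl _ h2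
      have hzero : ∀ i, v i = 0 → i ∉ B := by
        intro i hi hiB
        have h2 : 0 < ∑ B', w B' * indic B' i := by
          apply Finset.sum_pos'
          · intro B' _
            unfold indic
            split_ifs
            · rw [mul_one]; exact hw1 B'
            · rw [mul_zero]
          · refine ⟨B, Finset.mem_univ _, ?_⟩
            unfold indic
            rw [if_pos hiB, mul_one]
            exact h0
        rw [← hw4 i, hi] at h2
        exact lt_irrefl _ h2
      exact mul_le_mul_of_nonneg_left (hcon B hBN hone hzero) h0.le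
  have h3 : ∑ B, w B * ∑ i ∈ B, c i ≤ t := by
    calc ∑ B, w B * ∑ i ∈ B, c i ≤ ∑ B, w B * t := Finset.sum_le_sum (fun B _ => hle B)
      _ = t := by rw [← Finset.sum_mul, hw3, one_mul]
  rw [← h1] at h3
  linarith

/-- an indicator vector in the polytope is the indicator vector of a base -/
lemma mem_of_indic {N : Finset (Finset E)} {B : Finset E} (h : indic B ∈ poly N) : B ∈ N := by
  obtain ⟨B', hB', h1, h0, _⟩ := pick h (fun _ => 0) (-1) (by simp)
  have : B' = B := by
    ext i
    constructor
    · intro hi
      by_contra hiB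
      exact h0 i (by unfold indic; rw [if_neg hiB]) hi
    · intro hi
      exact h1 i (by unfold indic; rw [if_pos hi])
  rw [← this]
  exact hB'

lemma subset_of_poly {N M : Finset (Finset E)} (h : poly N ⊆ poly M) : N ⊆ M := by
  intro B hB
  exact mem_of_indic (h (indic_mem N B hB))

lemma cell_subset {M : Finset (Finset E)} {S : Set (Finset (Finset E))}
    (hS : IsMatroidSubdivision M S) {N : Finset (Finset E)} (hN : N ∈ S) : N ⊆ M := by
  apply subset_of_poly
  rw [← hS.2.1]
  exact Set.subset_biUnion_of_mem hN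

/-- midpoint of two bases -/
noncomputable def mid (B B' : Finset E) : E → ℝ := fun i => (indic B i + indic B' i) / 2

lemma mid_mem {N : Finset (Finset E)} {B B' : Finset E} (hB : B ∈ N) (hB' : B' ∈ N) :
    mid B B' ∈ poly N := by
  have h := (convex_convexHull ℝ (indic '' (N : Set (Finset E)))) (indic_mem N B hB)
    (indic_mem N B' hB') (by norm_num : (0 : ℝ) ≤ 1 / 2) (by norm_num : (0 : ℝ) ≤ 1 / 2)
    (by norm_num)
  have e : mid B B' = (1 / 2 : ℝ) • indic B + (1 / 2 : ℝ) • indic B' := by
    funext i
    simp only [mid, Pi.add_apply, Pi.smul_apply, smul_eq_mul]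
    ring
  rw [e]
  exact h

/-- Well-definedness: if two bases lie in a common cell, then they lie in every cell containing
their midpoint. -/
lemma common {M : Finset (Finset E)} {S : Set (Finset (Finset E))}
    (hS : IsMatroidSubdivision M S) {N N' : Finset (Finset E)} (hN : N ∈ S) (hN' : N' ∈ S)
    {B B' : Finset E} (hB : B ∈ N') (hB' : B' ∈ N') (hm : mid B B' ∈ poly N) : B ∈ N ∧ B' ∈ N := by
  have hext : IsExtreme ℝ (poly N') (poly N' ∩ poly N) := (hS.2.2 N' hN' N hN).isExtreme
  have h1 : indic B ∈ poly N' := indic_mem N' B hB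
  have h2 : indic B' ∈ poly N' := indic_mem N' B' hB'
  have hseg : mid B B' ∈ openSegment ℝ (indic B) (indic B') := by
    refine ⟨1 / 2, 1 / 2, by norm_num, by norm_num, by norm_num, ?_⟩
    funext i
    simp only [mid, Pi.add_apply, Pi.smul_apply, smul_eq_mul]
    ring
  have h3 := hext.2 h1 h2 ⟨mid_mem hB hB', hm⟩ hseg
  have h4 := hext.2 h2 h1 ⟨mid_mem hB hB', hm⟩ (by rw [openSegment_symm]; exact hseg)
  exact ⟨mem_of_indic h3.2, mem_of_indic h4.2⟩

/-- two bases lie in a common cell -/
def Tog (S : Set (Finset (Finset E))) (B B' : Finset E) : Prop := ∃ N ∈ S, B ∈ N ∧ B' ∈ N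

lemma Tog.symm {S : Set (Finset (Finset E))} {B B' : Finset E} (h : Tog S B B') : Tog S B' B := by
  obtain ⟨N, hN, h1, h2⟩ := h
  exact ⟨N, hN, h2, h1⟩

lemma tog_mem {M : Finset (Finset E)} {S : Set (Finset (Finset E))}
    (hS : IsMatroidSubdivision M S) {B B' : Finset E} (h : Tog S B B')
    {N : Finset (Finset E)} (hN : N ∈ S) (hm : mid B B' ∈ poly N) : B ∈ N ∧ B' ∈ N := by
  obtain ⟨N', hN', h1, h2⟩ := h
  exact common hS hN hN' h1 h2 hm

lemma exists_cell {M : Finset (Finset E)} {S : Set (Finset (Finset E))}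
    (hS : IsMatroidSubdivision M S) {v : E → ℝ} (hv : v ∈ poly M) : ∃ N ∈ S, v ∈ poly N := by
  rw [← hS.2.1] at hv
  simpa using hv

lemma poly_closed (N : Finset (Finset E)) : IsClosed (poly N) := by
  unfold poly
  exact ((N.finite_toSet).image indic).isClosed_convexHull (𝕜 := ℝ)

/-- Pushing: a point of the polytope lies in a cell that also contains points slightly moved towards
any other given point. -/
lemma push {M : Finset (Finset E)} {S : Set (Finset (Finset E))}
    (hS : IsMatroidSubdivision M S) {v u : E → ℝ} (hv : v ∈ poly M) (hu : u ∈ poly M) :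
    ∃ N ∈ S, v ∈ poly N ∧ ∃ t : ℝ, 0 < t ∧ t < 1 ∧ (fun i => (1 - t) * v i + t * u i) ∈ poly N := by
  let p : ℝ → (E → ℝ) := fun t i => (1 - t) * v i + t * u i
  have hp : ∀ t, 0 ≤ t → t ≤ 1 → p t ∈ poly M := by
    intro t h0 h1
    have h := (convex_convexHull ℝ (indic '' (M : Set (Finset E)))) hv hu
      (by linarith : (0 : ℝ) ≤ 1 - t) h0 (by ring)
    exact h
  let T : ℕ → ℝ := fun n => 1 / ((n : ℝ) + 2)
  have hT0 : ∀ n, 0 < T n := fun n => by positivity
  have hT1 : ∀ n, T n < 1 := by
    intro n
    simp only [T]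
    rw [div_lt_one (by positivity)]
    have : (0 : ℝ) ≤ n := Nat.cast_nonneg n
    linarith
  have hex : ∀ n, ∃ N ∈ S, p (T n) ∈ poly N := fun n =>
    exists_cell hS (hp _ (hT0 n).le (hT1 n).le)
  choose f hf1 hf2 using hex
  obtain ⟨N, hN⟩ := Finite.exists_infinite_fiber f
  have hinf : (f ⁻¹' {N}).Infinite := Set.infinite_coe_iff.1 hN
  obtain ⟨n0, hn0⟩ := hinf.nonempty
  have hNn : f n0 = N := hn0
  refine ⟨N, hNn ▸ hf1 n0, ?_, T n0, hT0 n0, hT1 n0, hNn ▸ hf2 n0⟩
  have htend : Filter.Tendsto (fun n => p (T n)) Filter.atTop (nhds v) := by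
    rw [tendsto_pi_nhds]
    intro i
    have hTt : Filter.Tendsto T Filter.atTop (nhds 0) := by
      have h1 : Filter.Tendsto (fun n : ℕ => (n : ℝ) + 2) Filter.atTop Filter.atTop :=
        Filter.tendsto_atTop_add_const_right _ _ tendsto_natCast_atTop_atTop
      have e : T = (fun n : ℕ => (n : ℝ) + 2)⁻¹ := by
        funext n
        simp [T]
      rw [e]
      exact h1.inv_tendsto_atTop
    have h2 : Filter.Tendsto (fun n => (1 - T n) * v i + T n * u i) Filter.atTop
        (nhds ((1 - 0) * v i + 0 * u i)) :=
      ((tendsto_const_nhds.sub hTt).mul_const _).add (hTt.mul_const _)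
    simpa using h2
  have hfreq : ∃ᶠ n in Filter.atTop, p (T n) ∈ poly N := by
    rw [Filter.frequently_atTop]
    intro k
    obtain ⟨n, hn, hkn⟩ := hinf.exists_gt k
    refine ⟨n, hkn.le, ?_⟩
    have : f n = N := hn
    rw [← this]
    exact hf2 n
  have hcl := mem_closure_of_frequently_of_tendsto hfreq htend
  rwa [(poly_closed N).closure_eq] at hcl

/-! ### Exchange lemmas -/

/-- two elements added to `K` -/
def i2 (K : Finset E) (x y : E) : Finset E := insert x (insert y K)

/-- three elements added to `K` -/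
def i3 (K : Finset E) (x y z : E) : Finset E := insert x (insert y (insert z K))

omit [Fintype E] in
lemma i2_comm (K : Finset E) (x y : E) : i2 K x y = i2 K y x := Finset.insert_comm x y K

omit [Fintype E] in
lemma i2_card {K : Finset E} {x y : E} (hxy : x ≠ y) (hx : x ∉ K) (hy : y ∉ K) :
    (i2 K x y).card = K.card + 2 := by
  unfold i2
  rw [Finset.card_insert_of_notMem, Finset.card_insert_of_notMem hy]
  simp [hxy, hx]

omit [Fintype E] in
lemma eq_i2 {K B : Finset E} {x y : E} (hxy : x ≠ y) (hx : x ∉ K) (hy : y ∉ K) (hK : K ⊆ B)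
    (hxB : x ∈ B) (hyB : y ∈ B) (hc : B.card = K.card + 2) : B = i2 K x y := by
  symm
  apply Finset.eq_of_subset_of_card_le
  · intro z hz
    simp only [i2, Finset.mem_insert] at hz
    rcases hz with rfl | rfl | hz
    · exact hxB
    · exact hyB
    · exact hK hz
  · rw [i2_card hxy hx hy, hc]

omit [Fintype E] in
/-- exchange in rank two: if `K x z` is a base and `y` is a nonloop over `K`, then `K x y` or
`K z y` is a base -/
lemma exch2 {N : Finset (Finset E)} (hN : IsMatroid N) {K : Finset E} {x y z w : E}
    (hxy : x ≠ y) (hzy : z ≠ y) (hy : y ∉ K) (hw : w ∉ K) (hyw : y ≠ w)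
    (h1 : i2 K x z ∈ N) (h2 : i2 K y w ∈ N) : i2 K x y ∈ N ∨ i2 K z y ∈ N := by
  by_cases hwx : w = x
  · left; rw [i2_comm, ← hwx]; exact h2
  by_cases hwz : w = z
  · right; rw [i2_comm, ← hwz]; exact h2
  have hmem : w ∈ i2 K y w \ i2 K x z := by
    rw [Finset.mem_sdiff]
    refine ⟨by simp [i2], ?_⟩
    simp [i2, hwx, hwz, hw]
  obtain ⟨u, hu, huN⟩ := hN.2 _ h2 _ h1 w hmem
  have he : (i2 K y w).erase w = insert y K := by
    unfold i2
    rw [Finset.insert_comm, Finset.erase_insert]
    simp [hw, Ne.symm hyw]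
  rw [he] at huN
  rw [Finset.mem_sdiff] at hu
  have hu1 : u ∈ i2 K x z := hu.1
  simp only [i2, Finset.mem_insert] at hu1
  rcases hu1 with rfl | rfl | hu1
  · left; exact huN
  · right; exact huN
  · exfalso
    apply hu.2
    simp [i2, hu1]

omit [Fintype E] in
/-- all bases have the same number of elements -/
lemma card_eq {N : Finset (Finset E)} (hN : IsMatroid N) : ∀ B ∈ N, ∀ B' ∈ N, B.card = B'.card := by
  have key : ∀ n : ℕ, ∀ B ∈ N, ∀ B' ∈ N, (B \ B').card = n → B.card = B'.card := by
    intro n
    induction n using Nat.strong_induction_on with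
    | _ n ih =>
      intro B hB B' hB' hn
      rcases (B \ B').eq_empty_or_nonempty with h0 | ⟨x, hx⟩
      · have hsub : B ⊆ B' := Finset.sdiff_eq_empty_iff_subset.1 h0
        have : B' \ B = ∅ := by
          by_contra hne
          obtain ⟨y, hy⟩ := Finset.nonempty_iff_ne_empty.2 hne
          obtain ⟨u, hu, _⟩ := hN.2 B' hB' B hB y hy
          rw [h0] at hu
          exact absurd hu (Finset.notMem_empty u)
        rw [Finset.Subset.antisymm hsub (Finset.sdiff_eq_empty_iff_subset.1 this)]
      · obtain ⟨y, hy, hyN⟩ := hN.2 B hB B' hB' x hx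
        rw [Finset.mem_sdiff] at hx hy
        have hc : (insert y (B.erase x)).card = B.card := by
          rw [Finset.card_insert_of_notMem (by simp [hy.2]), Finset.card_erase_of_mem hx.1]
          have := Finset.card_pos.2 ⟨x, hx.1⟩
          omega
        rw [← hc]
        refine ih _ ?_ _ hyN B' hB' rfl
        rw [← hn]
        apply Finset.card_lt_card
        rw [Finset.ssubset_iff_of_subset]
        · exact ⟨x, by simp [hx], by simp [Ne.symm (ne_of_mem_of_not_mem hy.1 hx.2)]⟩
        · intro z hz
          simp only [Finset.mem_sdiff, Finset.mem_insert, Finset.mem_erase] at hz ⊢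
          rcases hz with ⟨rfl | h, h2⟩
          · exact absurd hy.1 h2
          · exact ⟨h.2, h2⟩
  intro B hB B' hB'
  exact key _ B hB B' hB' rfl

omit [Fintype E] in
/-- dual exchange -/
lemma dual_exchange {N : Finset (Finset E)} (hN : IsMatroid N) {B B' : Finset E} (hB : B ∈ N)
    (hB' : B' ∈ N) {y : E} (hy : y ∈ B' \ B) : ∃ x ∈ B \ B', insert y (B.erase x) ∈ N := by
  have key : ∀ n : ℕ, ∀ C ∈ N, y ∈ C → C ⊆ B ∪ B' → B ∩ B' ⊆ C → (C \ B).card = n →
      ∃ x ∈ B \ B', insert y (B.erase x) ∈ N := by
    intro n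
    induction n using Nat.strong_induction_on with
    | _ n ih =>
      intro C hC hyC hC1 hC2 hn
      rw [Finset.mem_sdiff] at hy
      by_cases h : ∃ z ∈ C \ B, z ≠ y
      · obtain ⟨z, hz, hzy⟩ := h
        obtain ⟨u, hu, huN⟩ := hN.2 C hC B hB z hz
        rw [Finset.mem_sdiff] at hz hu
        refine ih _ ?_ _ huN ?_ ?_ ?_ rfl
        · rw [← hn]
          apply Finset.card_lt_card
          rw [Finset.ssubset_iff_of_subset]
          · exact ⟨z, by simp [hz], by simp [Ne.symm (ne_of_mem_of_not_mem hu.1 hz.2)]⟩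
          · intro w hw
            simp only [Finset.mem_sdiff, Finset.mem_insert, Finset.mem_erase] at hw ⊢
            rcases hw with ⟨rfl | h, h2⟩
            · exact absurd hu.1 h2
            · exact ⟨h.2, h2⟩
        · simp [Ne.symm hzy, hyC]
        · intro w hw
          simp only [Finset.mem_insert, Finset.mem_erase] at hw
          rcases hw with rfl | hw
          · exact Finset.mem_union_left _ hu.1
          · exact hC1 hw.2
        · intro w hw
          have h1 : w ∈ C := hC2 hw
          have h2 : w ≠ z := by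
            rintro rfl
            exact hz.2 (Finset.mem_inter.1 hw).1
          simp [h1, h2]
      · push Not at h
        have hCB : C \ B = {y} := by
          ext z
          rw [Finset.mem_singleton]
          constructor
          · intro hz; exact h z hz
          · rintro rfl; exact Finset.mem_sdiff.2 ⟨hyC, hy.2⟩
        have hcard : C.card = B.card := card_eq hN C hC B hB
        have h1 : (C \ B).card = (B \ C).card := by
          have e1 := Finset.card_sdiff_add_card_inter C B
          have e2 := Finset.card_sdiff_add_card_inter B C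
          rw [Finset.inter_comm B C] at e2
          omega
        rw [hCB, Finset.card_singleton] at h1
        obtain ⟨x, hx⟩ := Finset.card_eq_one.1 h1.symm
        have hxBC : x ∈ B \ C := by rw [hx]; exact Finset.mem_singleton_self x
        rw [Finset.mem_sdiff] at hxBC
        refine ⟨x, ?_, ?_⟩
        · rw [Finset.mem_sdiff]
          refine ⟨hxBC.1, fun hxB' => hxBC.2 (hC2 (Finset.mem_inter.2 ⟨hxBC.1, hxB'⟩))⟩
        · have : insert y (B.erase x) = C := by
            ext z
            simp only [Finset.mem_insert, Finset.mem_erase]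
            constructor
            · rintro (rfl | ⟨h2, h3⟩)
              · exact hyC
              · by_contra hzC
                have : z ∈ B \ C := Finset.mem_sdiff.2 ⟨h3, hzC⟩
                rw [hx, Finset.mem_singleton] at this
                exact h2 this
            · intro hz
              by_cases hzy : z = y
              · left; exact hzy
              · right
                refine ⟨fun hzx => hxBC.2 (hzx ▸ hz), ?_⟩
                by_contra hzB
                have : z ∈ C \ B := Finset.mem_sdiff.2 ⟨hz, hzB⟩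
                rw [hCB, Finset.mem_singleton] at this
                exact hzy this
          rw [this]
          exact hC
  exact key _ B' hB' (Finset.mem_sdiff.1 hy).1 Finset.subset_union_right Finset.inter_subset_right rfl

/-! ### Moving a pair of bases -/

/-- a base of the cell avoiding `f`, supported on the support of the point -/
lemma exists_avoid {N : Finset (Finset E)} {v : E → ℝ} (hv : v ∈ poly N) (f : E) (hf : v f < 1) :
    ∃ B ∈ N, (∀ i, v i = 1 → i ∈ B) ∧ (∀ i, v i = 0 → i ∉ B) ∧ f ∉ B := by
  obtain ⟨B, hB, h1, h0, h2⟩ := pick hv (fun i => if i = f then -1 else 0) (-1) (by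
    simp only [ite_mul, neg_mul, one_mul, zero_mul]
    rw [Finset.sum_ite_eq' Finset.univ f (fun i => -v i), if_pos (Finset.mem_univ f)]
    linarith)
  refine ⟨B, hB, h1, h0, fun hfB => ?_⟩
  rw [Finset.sum_ite_eq' B f (fun _ => (-1 : ℝ)), if_pos hfB] at h2
  exact lt_irrefl _ h2

/-- a base of the cell containing `e` -/
lemma exists_contain {N : Finset (Finset E)} {v : E → ℝ} (hv : v ∈ poly N) (e : E) (he : 0 < v e) :
    ∃ B ∈ N, (∀ i, v i = 1 → i ∈ B) ∧ (∀ i, v i = 0 → i ∉ B) ∧ e ∈ B := by
  obtain ⟨B, hB, h1, h0, h2⟩ := pick hv (fun i => if i = e then 1 else 0) 0 (by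
    simp only [ite_mul, one_mul, zero_mul]
    rw [Finset.sum_ite_eq' Finset.univ e (fun i => v i), if_pos (Finset.mem_univ e)]
    exact he)
  refine ⟨B, hB, h1, h0, ?_⟩
  by_contra heB
  rw [Finset.sum_ite_eq' B e (fun _ => (1 : ℝ)), if_neg heB] at h2
  exact lt_irrefl _ h2

lemma Tog.left_mem {M : Finset (Finset E)} {S : Set (Finset (Finset E))}
    (hS : IsMatroidSubdivision M S) {B B' : Finset E} (h : Tog S B B') : B ∈ M := by
  obtain ⟨N, hN, h1, _⟩ := h
  exact cell_subset hS hN h1

lemma Tog.right_mem {M : Finset (Finset E)} {S : Set (Finset (Finset E))}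
    (hS : IsMatroidSubdivision M S) {B B' : Finset E} (h : Tog S B B') : B' ∈ M := by
  obtain ⟨N, hN, _, h1⟩ := h
  exact cell_subset hS hN h1

/-- Moving one base of a pair (removal version). -/
lemma move {M : Finset (Finset E)} {S : Set (Finset (Finset E))}
    (hS : IsMatroidSubdivision M S) {B B' : Finset E} (h : Tog S B B') {e f : E} (hf : f ∈ B)
    (he : e ∉ B) (hM : insert e (B.erase f) ∈ M)
    (hno : ∀ u ∈ B' \ B, u ≠ e → insert u (B.erase f) ∉ M) :
    Tog S (insert e (B.erase f)) B' := by
  have hv : mid B B' ∈ poly M := mid_mem (h.left_mem hS) (h.right_mem hS)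
  obtain ⟨N, hN, hmN, t, ht0, ht1, hp⟩ := push hS hv (indic_mem M _ hM)
  obtain ⟨hBN, hB'N⟩ := tog_mem hS h hN hmN
  have hmid1 : mid B B' f ≤ 1 := by
    unfold mid indic
    split_ifs <;> norm_num
  have hind : indic (insert e (B.erase f)) f = 0 := by
    unfold indic
    rw [if_neg]
    have : f ≠ e := ne_of_mem_of_not_mem hf he
    simp [this]
  obtain ⟨C, hC, _, hC0, hfC⟩ := exists_avoid hp f (by
    rw [hind]
    nlinarith)
  obtain ⟨u, hu, huN⟩ := (hS.1 N hN).2 B hBN C hC f (Finset.mem_sdiff.2 ⟨hf, hfC⟩)
  rw [Finset.mem_sdiff] at hu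
  have hue : u = e := by
    by_contra hne
    have huB' : u ∈ B' := by
      by_contra huB'
      apply hC0 u _ hu.1
      have h1 : mid B B' u = 0 := by
        unfold mid indic
        rw [if_neg hu.2, if_neg huB']
        norm_num
      have h2 : indic (insert e (B.erase f)) u = 0 := by
        unfold indic
        rw [if_neg]
        simp [hne, hu.2]
      rw [h1, h2]
      ring
    exact hno u (Finset.mem_sdiff.2 ⟨huB', hu.2⟩) hne (cell_subset hS hN huN)
  rw [hue] at huN
  exact ⟨N, hN, huN, hB'N⟩

/-- Moving one base of a pair (addition version). -/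
lemma move' {M : Finset (Finset E)} {S : Set (Finset (Finset E))}
    (hS : IsMatroidSubdivision M S) {B B' : Finset E} (h : Tog S B B') {e f : E} (hf : f ∈ B)
    (he : e ∉ B) (hM : insert e (B.erase f) ∈ M)
    (hno : ∀ g ∈ B \ B', g ≠ f → insert e (B.erase g) ∉ M) :
    Tog S (insert e (B.erase f)) B' := by
  have hv : mid B B' ∈ poly M := mid_mem (h.left_mem hS) (h.right_mem hS)
  obtain ⟨N, hN, hmN, t, ht0, ht1, hp⟩ := push hS hv (indic_mem M _ hM)
  obtain ⟨hBN, hB'N⟩ := tog_mem hS h hN hmN
  have hmid0 : 0 ≤ mid B B' e := by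
    unfold mid indic
    split_ifs <;> norm_num
  have hind : indic (insert e (B.erase f)) e = 1 := by
    unfold indic
    rw [if_pos (Finset.mem_insert_self _ _)]
  obtain ⟨C, hC, hC1, _, heC⟩ := exists_contain hp e (by
    rw [hind]
    nlinarith)
  obtain ⟨g, hg, hgN⟩ := dual_exchange (hS.1 N hN) hBN hC (Finset.mem_sdiff.2 ⟨heC, he⟩)
  rw [Finset.mem_sdiff] at hg
  have hgf : g = f := by
    by_contra hne
    have hgB' : g ∉ B' := by
      intro hgB'
      apply hg.2
      apply hC1 g
      have h1 : mid B B' g = 1 := by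
        unfold mid indic
        rw [if_pos hg.1, if_pos hgB']
        norm_num
      have h2 : indic (insert e (B.erase f)) g = 1 := by
        unfold indic
        rw [if_pos]
        simp [hne, hg.1]
      rw [h1, h2]
      ring
    exact hno g (Finset.mem_sdiff.2 ⟨hg.1, hgB'⟩) hne (cell_subset hS hN hgN)
  rw [hgf] at hgN
  exact ⟨N, hN, hgN, hB'N⟩

end Pool.Agent.V11152.MatroidSubdiv
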