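import Mathlib
import Pool.Agent.V11152.MatroidSubdiv

/-!
# Matroid subdivisions: octahedra, pyramids and generic cells
-/

namespace Pool.Agent.V11152.MatroidSubdiv

open Finset

variable {E : Type} [Fintype E] [DecidableEq E]

omit [Fintype E] in
lemma exists_i2 {K B : Finset E} {x : E} (hx : x ∉ K) (hK : K ⊆ B) (hxB : x ∈ B)
    (hc : B.card = K.card + 2) : ∃ w, w ≠ x ∧ w ∉ K ∧ B = i2 K x w := by
  have h1 : (insert x K).card < B.card := by
    rw [Finset.card_insert_of_notMem hx, hc]; omega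
  have h2 : insert x K ⊆ B := by
    intro z hz
    rw [Finset.mem_insert] at hz
    rcases hz with rfl | hz
    · exact hxB
    · exact hK hz
  obtain ⟨w, hw1, hw2⟩ := Finset.exists_mem_notMem_of_card_lt_card h1
  rw [Finset.mem_insert, not_or] at hw2
  exact ⟨w, hw2.1, hw2.2, eq_i2 (Ne.symm hw2.1) hx hw2.2 hK hxB hw1 hc⟩

/-- If `x, y, z` carry positive weights with total more than one and `K x y` is not a base, then
`K x z` is a base. -/
lemma third {N : Finset (Finset E)} (hN : IsMatroid N) {K : Finset E}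
    (hcard : ∀ B ∈ N, B.card = K.card + 2) {v : E → ℝ} (hv : v ∈ poly N) (hK : ∀ i ∈ K, v i = 1)
    {x y z : E} (hx : x ∉ K) (hy : y ∉ K) (hz : z ∉ K) (hxy : x ≠ y) (hxz : x ≠ z) (hyz : y ≠ z)
    (hvx : 0 < v x) (hsum : 1 < v x + v y + v z) (hno : i2 K x y ∉ N) : i2 K x z ∈ N := by
  obtain ⟨B, hB, h1, _, h2⟩ := pick hv
    (fun i => (if i = x then 1 else 0) + (if i = y then 1 else 0) + (if i = z then 1 else 0)) 1 (by
    simp only [add_mul, ite_mul, one_mul, zero_mul, Finset.sum_add_distrib]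
    rw [Finset.sum_ite_eq' Finset.univ x v, Finset.sum_ite_eq' Finset.univ y v,
      Finset.sum_ite_eq' Finset.univ z v, if_pos (Finset.mem_univ _), if_pos (Finset.mem_univ _),
      if_pos (Finset.mem_univ _)]
    exact hsum)
  have hKB : K ⊆ B := fun i hi => h1 i (hK i hi)
  simp only [Finset.sum_add_distrib] at h2
  rw [Finset.sum_ite_eq' B x (fun _ => (1 : ℝ)), Finset.sum_ite_eq' B y (fun _ => (1 : ℝ)),
    Finset.sum_ite_eq' B z (fun _ => (1 : ℝ))] at h2
  have hBc := hcard B hB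
  by_cases hxB : x ∈ B
  · by_cases hyB : y ∈ B
    · exfalso
      apply hno
      rw [← eq_i2 hxy hx hy hKB hxB hyB hBc]
      exact hB
    · by_cases hzB : z ∈ B
      · rw [← eq_i2 hxz hx hz hKB hxB hzB hBc]
        exact hB
      · rw [if_pos hxB, if_neg hyB, if_neg hzB] at h2
        norm_num at h2
  · by_cases hyB : y ∈ B
    · by_cases hzB : z ∈ B
      · have hyzN : i2 K y z ∈ N := by
          rw [← eq_i2 hyz hy hz hKB hyB hzB hBc]
          exact hB
        obtain ⟨C, hC, hC1, _, hxC⟩ := exists_contain hv x hvx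
        obtain ⟨w, hwx, hwK, hCw⟩ := exists_i2 hx (fun i hi => hC1 i (hK i hi)) hxC (hcard C hC)
        rw [hCw] at hC
        rcases exch2 hN (Ne.symm hxy) (Ne.symm hxz) hx hwK (Ne.symm hwx) hyzN hC with h | h
        · exfalso; apply hno; rw [i2_comm]; exact h
        · rw [i2_comm]; exact h
      · rw [if_neg hxB, if_pos hyB, if_neg hzB] at h2
        norm_num at h2
    · rw [if_neg hxB, if_neg hyB] at h2
      split_ifs at h2 <;> norm_num at h2

/-- values of the midpoint of opposite vertices of an octahedron -/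
lemma mid_val {K : Finset E} {a b c d : E} (ha : a ∉ K) (hb : b ∉ K) (hc : c ∉ K) (hd : d ∉ K)
    (hac : a ≠ c) (had : a ≠ d) (hbc : b ≠ c) (hbd : b ≠ d) :
    (∀ i ∈ K, mid (i2 K a b) (i2 K c d) i = 1) ∧
    mid (i2 K a b) (i2 K c d) a = 1 / 2 ∧ mid (i2 K a b) (i2 K c d) b = 1 / 2 ∧
    mid (i2 K a b) (i2 K c d) c = 1 / 2 ∧ mid (i2 K a b) (i2 K c d) d = 1 / 2 := by
  refine ⟨fun i hi => ?_, ?_, ?_, ?_, ?_⟩
  · simp [mid, indic, i2, hi]
  · simp [mid, indic, i2, ha, hac, had]
  · simp [mid, indic, i2, hb, hbc, hbd]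
  · simp [mid, indic, i2, hc, Ne.symm hac, Ne.symm hbc]
  · simp [mid, indic, i2, hd, Ne.symm had, Ne.symm hbd]

lemma mid_eq {K : Finset E} {a b c d : E} (ha : a ∉ K) (hb : b ∉ K) (hc : c ∉ K) (hd : d ∉ K)
    (hab : a ≠ b) (hac : a ≠ c) (had : a ≠ d) (hbc : b ≠ c) (hbd : b ≠ d) (hcd : c ≠ d) :
    mid (i2 K a b) (i2 K c d) = mid (i2 K a c) (i2 K b d) := by
  funext i
  by_cases hi : i ∈ K
  · simp [mid, indic, i2, hi]
  · by_cases h1 : i = a
    · subst h1; simp [mid, indic, i2, hi, hab, hac, had]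
    · by_cases h2 : i = b
      · subst h2; simp [mid, indic, i2, hi, hbc, hbd, h1]
      · by_cases h3 : i = c
        · subst h3; simp [mid, indic, i2, hi, hcd, h1, h2]
        · by_cases h4 : i = d
          · subst h4; simp [mid, indic, i2, hi, h1, h2, h3]
          · simp [mid, indic, i2, hi, h1, h2, h3, h4]

/-- In an octahedron at most one pair of opposite vertices is separated. -/
lemma excl {M : Finset (Finset E)} {S : Set (Finset (Finset E))} (hS : IsMatroidSubdivision M S)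
    {K : Finset E} (hcard : ∀ B ∈ M, B.card = K.card + 2) {a b c d : E}
    (ha : a ∉ K) (hb : b ∉ K) (hc : c ∉ K) (hd : d ∉ K)
    (hab : a ≠ b) (hac : a ≠ c) (had : a ≠ d) (hbc : b ≠ c) (hbd : b ≠ d) (hcd : c ≠ d)
    (h1 : i2 K a b ∈ M) (h2 : i2 K c d ∈ M) :
    Tog S (i2 K a b) (i2 K c d) ∨ Tog S (i2 K a c) (i2 K b d) := by
  obtain ⟨N, hN, hv⟩ := exists_cell hS (mid_mem h1 h2)
  have hNM := cell_subset hS hN
  have hcN : ∀ B ∈ N, B.card = K.card + 2 := fun B hB => hcard B (hNM hB)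
  obtain ⟨hK, va, vb, vc, vd⟩ := mid_val ha hb hc hd hac had hbc hbd
  have key : ∀ x y z : E, x ∉ K → y ∉ K → z ∉ K → x ≠ y → x ≠ z → y ≠ z →
      mid (i2 K a b) (i2 K c d) x = 1 / 2 → mid (i2 K a b) (i2 K c d) y = 1 / 2 →
      mid (i2 K a b) (i2 K c d) z = 1 / 2 → i2 K x y ∉ N → i2 K x z ∈ N := by
    intro x y z hx hy hz hxy hxz hyz vx vy vz hno
    refine third (hS.1 N hN) hcN hv hK hx hy hz hxy hxz hyz ?_ ?_ hno
    · rw [vx]; norm_num
    · rw [vx, vy, vz]; norm_num
  by_cases hx : i2 K a b ∈ N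
  · by_cases hy : i2 K c d ∈ N
    · left; exact ⟨N, hN, hx, hy⟩
    · right
      refine ⟨N, hN, ?_, ?_⟩
      · rw [i2_comm]
        exact key c d a hc hd ha hcd (Ne.symm hac) (Ne.symm had) vc vd va hy
      · rw [i2_comm]
        exact key d c b hd hc hb (Ne.symm hcd) (Ne.symm hbd) (Ne.symm hbc) vd vc vb
          (by rw [i2_comm]; exact hy)
  · right
    refine ⟨N, hN, ?_, ?_⟩
    · exact key a b c ha hb hc hab hac hbc va vb vc hx
    · exact key b a d hb ha hd (Ne.symm hab) hbd had vb va vd (by rw [i2_comm]; exact hx)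

/-- Transitivity. -/
lemma trans {M : Finset (Finset E)} {S : Set (Finset (Finset E))} (hS : IsMatroidSubdivision M S)
    {K : Finset E} (hcard : ∀ B ∈ M, B.card = K.card + 2) {o x y z i : E}
    (ho : o ∉ K) (hx : x ∉ K) (hy : y ∉ K) (hz : z ∉ K) (hi : i ∉ K)
    (hox : o ≠ x) (hoy : o ≠ y) (hoz : o ≠ z) (hoi : o ≠ i) (hxi : x ≠ i) (hyi : y ≠ i)
    (hzi : z ≠ i) (hxy : x ≠ y) (hyz : y ≠ z)
    (hM : i2 K o y ∈ M) (h : Tog S (i2 K o x) (i2 K z i)) :
    Tog S (i2 K o x) (i2 K y i) ∨ Tog S (i2 K o y) (i2 K z i) := by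
  have hv := mid_mem (h.left_mem hS) (h.right_mem hS)
  obtain ⟨N, hN, hmN, t, ht0, ht1, hp⟩ := push hS hv (indic_mem M _ hM)
  obtain ⟨h1, h2⟩ := tog_mem hS h hN hmN
  have hNM := cell_subset hS hN
  have hcN : ∀ B ∈ N, B.card = K.card + 2 := fun B hB => hcard B (hNM hB)
  by_cases hyo : i2 K y o ∈ N
  · right
    refine ⟨N, hN, ?_, h2⟩
    rw [i2_comm]; exact hyo
  · left
    refine ⟨N, hN, h1, ?_⟩
    refine third (hS.1 N hN) hcN hp (fun j hj => ?_) hy ho hi (Ne.symm hoy) hyi hoi ?_ ?_ hyo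
    · simp [mid, indic, i2, hj]
    · have e1 : mid (i2 K o x) (i2 K z i) y = 0 := by
        simp [mid, indic, i2, hy, Ne.symm hoy, Ne.symm hxy, hyz, hyi]
      have e2 : indic (i2 K o y) y = 1 := by simp [indic, i2]
      rw [e1, e2]; linarith
    · have e1 : mid (i2 K o x) (i2 K z i) y = 0 := by
        simp [mid, indic, i2, hy, Ne.symm hoy, Ne.symm hxy, hyz, hyi]
      have e2 : indic (i2 K o y) y = 1 := by simp [indic, i2]
      have e3 : mid (i2 K o x) (i2 K z i) o = 1 / 2 := by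
        simp [mid, indic, i2, ho, hoz, hoi]
      have e4 : indic (i2 K o y) o = 1 := by simp [indic, i2]
      have e5 : mid (i2 K o x) (i2 K z i) i = 1 / 2 := by
        simp [mid, indic, i2, hi, Ne.symm hoi, Ne.symm hxi]
      have e6 : indic (i2 K o y) i = 0 := by simp [indic, i2, hi, Ne.symm hoi, Ne.symm hyi]
      rw [e1, e2, e3, e4, e5, e6]; linarith

/-! ### Pyramids -/

/-- `N`-edge of the fundamental graph at `B` -/
def edge (N : Finset (Finset E)) (B : Finset E) (x y : E) : Prop :=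
  x ∈ B ∧ y ∉ B ∧ insert y (B.erase x) ∈ N

/-- paths in the fundamental graph, counted in double steps -/
def Reach (N : Finset (Finset E)) (B : Finset E) : ℕ → E → E → Prop
  | 0, a, b => edge N B a b
  | n + 1, a, b => ∃ y x, edge N B a y ∧ edge N B x y ∧ Reach N B n x b

/-- paths all of whose left vertices are not adjacent to `y1` -/
def Reach' (N : Finset (Finset E)) (B : Finset E) (y1 : E) : ℕ → E → E → Prop
  | 0, a, b => ¬ edge N B a y1 ∧ edge N B a b
  | n + 1, a, b => ¬ edge N B a y1 ∧ ∃ y x, edge N B a y ∧ edge N B x y ∧ Reach' N B y1 n x b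

omit [Fintype E] in
lemma reach_dichotomy (N : Finset (Finset E)) (B : Finset E) (y1 b : E) (n : ℕ) :
    ∀ x, Reach N B n x b → (∃ m ≤ n, ∃ x', edge N B x' y1 ∧ Reach N B m x' b) ∨
      Reach' N B y1 n x b := by
  induction n with
  | zero =>
    intro x h
    by_cases hx : edge N B x y1
    · left; exact ⟨0, le_refl _, x, hx, h⟩
    · right; exact ⟨hx, h⟩
  | succ n ih =>
    intro x h
    by_cases hx : edge N B x y1
    · left; exact ⟨n + 1, le_refl _, x, hx, h⟩
    · obtain ⟨y, x', h1, h2, h3⟩ := h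
      rcases ih x' h3 with ⟨m, hm, x'', hx'', h4⟩ | h4
      · left; exact ⟨m, by omega, x'', hx'', h4⟩
      · right; exact ⟨hx, y, x', h1, h2, h4⟩

omit [Fintype E] in
/-- the two by two exchange -/
lemma square {N : Finset (Finset E)} (hN : IsMatroid N) {B : Finset E} {x x' y y' : E}
    (hxx : x ≠ x') (hyy : y ≠ y') (h1 : edge N B x y) (h2 : edge N B x' y')
    (h3 : insert y (B.erase x') ∉ N) :
    insert y' ((insert y (B.erase x)).erase x') ∈ N := by
  obtain ⟨hx, hy, h1⟩ := h1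
  obtain ⟨hx', hy', h2⟩ := h2
  have hyx' : y ≠ x' := fun h => hy (h ▸ hx')
  have hy'x : y' ≠ x := fun h => hy' (h ▸ hx)
  have hyx : y ≠ x := fun h => hy (h ▸ hx)
  have hy'x' : y' ≠ x' := fun h => hy' (h ▸ hx')
  set K := (B.erase x).erase x' with hK
  have e1 : insert y (B.erase x) = i2 K x' y := by
    unfold i2
    rw [Finset.insert_comm, hK, Finset.insert_erase (Finset.mem_erase.2 ⟨Ne.symm hxx, hx'⟩)]
  have e2 : insert y' (B.erase x') = i2 K x y' := by
    unfold i2
    rw [Finset.insert_comm, hK, Finset.erase_right_comm,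
      Finset.insert_erase (Finset.mem_erase.2 ⟨hxx, hx⟩)]
  have e3 : insert y (B.erase x') = i2 K x y := by
    unfold i2
    rw [Finset.insert_comm, hK, Finset.erase_right_comm,
      Finset.insert_erase (Finset.mem_erase.2 ⟨hxx, hx⟩)]
  have e4 : insert y' ((insert y (B.erase x)).erase x') = i2 K y' y := by
    unfold i2
    congr 1
    rw [Finset.erase_insert_of_ne hyx', hK]
  rw [e1] at h1
  rw [e2] at h2
  rw [e3] at h3
  rw [e4]
  have hyK : y ∉ K := by
    intro h; exact hy (Finset.mem_of_mem_erase (Finset.mem_of_mem_erase h))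
  have hx'K : x' ∉ K := Finset.notMem_erase _ _
  rcases exch2 hN (Ne.symm hyx) (Ne.symm hyy) hyK hx'K hyx' h2 (by rw [i2_comm]; exact h1) with h | h
  · exact absurd h h3
  · exact h

end Pool.Agent.V11152.MatroidSubdiv
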