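import Mathlib
import Pool.Agent.V11152.MatroidSubdiv2

/-!
# Matroid subdivisions: pyramids, generic cells and a criterion for indecomposability
-/

namespace Pool.Agent.V11152.MatroidSubdiv

open Finset

variable {E : Type} [Fintype E] [DecidableEq E]

omit [Fintype E] in
/-- pivoting a path -/
lemma reach_pivot {N : Finset (Finset E)} (hN : IsMatroid N) {B : Finset E} {x1 y1 b : E}
    (h1 : edge N B x1 y1) (m : ℕ) : ∀ x, Reach' N B y1 m x b →
      Reach N (insert y1 (B.erase x1)) m x b := by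
  have key : ∀ x y, edge N B x y → ¬ edge N B x y1 → edge N (insert y1 (B.erase x1)) x y := by
    intro x y hxy hno
    have hx1 : x1 ≠ x := fun h => hno (h ▸ h1)
    have hy1 : y1 ≠ y := fun h => hno (h ▸ hxy)
    have hno' : insert y1 (B.erase x) ∉ N := fun h => hno ⟨hxy.1, h1.2.1, h⟩
    refine ⟨?_, ?_, square hN hx1 hy1 h1 hxy hno'⟩
    · simp [Ne.symm hx1, hxy.1]
    · simp [Ne.symm hy1, hxy.2.1]
  induction m with
  | zero =>
    intro x h
    exact key x b h.2 h.1
  | succ m ih =>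
    rintro x ⟨hno, y, x', hxy, hx'y, h⟩
    have hno' : ¬ edge N B x' y1 := by
      cases m with
      | zero => exact h.1
      | succ m => exact h.1
    exact ⟨y, x', key x y hxy hno, key x' y hx'y hno', ih x' h⟩

/-- A pyramid: an octahedron of `M` with three or four of its square bases in `N` and an apex not in
`N`. -/
def Pyramid (M N : Finset (Finset E)) : Prop :=
  ∃ (K : Finset E) (a b c d : E), a ∉ K ∧ b ∉ K ∧ c ∉ K ∧ d ∉ K ∧ a ≠ b ∧ a ≠ c ∧ a ≠ d ∧ b ≠ c ∧
    b ≠ d ∧ c ≠ d ∧ i2 K a b ∈ M ∧ i2 K a b ∉ N ∧ i2 K c d ∈ N ∧ i2 K a c ∈ N ∧ i2 K b d ∈ N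

omit [Fintype E] in
/-- a path of length three gives a pyramid -/
lemma pyramid_of_path {M N : Finset (Finset E)} (hN : IsMatroid N) {B : Finset E}
    {a b x y : E} (hB : B ∈ N) (hM : edge M B a b) (hno : ¬ edge N B a b) (h1 : edge N B a y)
    (h2 : edge N B x y) (h3 : edge N B x b) : Pyramid M N := by
  have hxa : x ≠ a := fun h => hno (h ▸ h3)
  have hyb : y ≠ b := fun h => hno (h ▸ h1)
  have hno' : insert b (B.erase a) ∉ N := fun h => hno ⟨hM.1, hM.2.1, h⟩
  obtain ⟨ha, hb, hM⟩ := hM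
  obtain ⟨_, hy, h1⟩ := h1
  obtain ⟨hx, _, h2⟩ := h2
  obtain ⟨_, _, h3⟩ := h3
  have hya : y ≠ a := fun h => hy (h ▸ ha)
  have hyx : y ≠ x := fun h => hy (h ▸ hx)
  have hba : b ≠ a := fun h => hb (h ▸ ha)
  have hbx : b ≠ x := fun h => hb (h ▸ hx)
  set K := (B.erase a).erase x with hK
  have hKB : ∀ z, z ∉ B → z ∉ K := fun z hz h =>
    hz (Finset.mem_of_mem_erase (Finset.mem_of_mem_erase h))
  have haK : a ∉ K := by simp [hK]
  have hxK : x ∉ K := by simp [hK]
  have eax : ∀ z, insert z (B.erase a) = i2 K z x := by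
    intro z
    unfold i2
    rw [hK, Finset.insert_erase (Finset.mem_erase.2 ⟨hxa, hx⟩)]
  have exa : ∀ z, insert z (B.erase x) = i2 K z a := by
    intro z
    unfold i2
    rw [hK, Finset.erase_right_comm, Finset.insert_erase (Finset.mem_erase.2 ⟨Ne.symm hxa, ha⟩)]
  have eB : B = i2 K x a := by
    rw [← exa, Finset.insert_erase hx]
  rw [eax] at hM hno' h1
  rw [exa] at h2 h3
  refine ⟨K, b, x, y, a, hKB b hb, hxK, hKB y hy, haK, hbx, Ne.symm hyb, hba, Ne.symm hyx, hxa,
    hya, hM, hno', h2, ?_, eB ▸ hB⟩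
  rcases exch2 hN (Ne.symm hbx) hyb (hKB b hb) haK hba (by rw [i2_comm]; exact h1) h3 with h | h
  · exact absurd (by rw [i2_comm]; exact h) hno'
  · rw [i2_comm]; exact h

omit [Fintype E] in
lemma reach_last {N : Finset (Finset E)} {B : Finset E} {x y y' : E} (h1 : edge N B x y)
    (h2 : edge N B x y') (n : ℕ) : ∀ a, Reach N B n a y → Reach N B (n + 1) a y' := by
  induction n with
  | zero => intro a h; exact ⟨y, x, h, h1, h2⟩
  | succ n ih =>
    rintro a ⟨y0, x0, h3, h4, h5⟩
    exact ⟨y0, x0, h3, h4, ih x0 h5⟩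

omit [Fintype E] in
/-- if there is no pyramid, then the ends of an `M`-only edge are not connected -/
lemma no_reach {M N : Finset (Finset E)} (hM : IsMatroid M) (hN : IsMatroid N) (hNM : N ⊆ M)
    (hpyr : ¬ Pyramid M N) (n : ℕ) :
    ∀ B ∈ N, ∀ a b, edge M B a b → ¬ edge N B a b → ¬ Reach N B n a b := by
  have hmono : ∀ B x y, edge N B x y → edge M B x y := fun B x y h => ⟨h.1, h.2.1, hNM h.2.2⟩
  induction n using Nat.strong_induction_on with
  | _ n ih =>
    intro B hB a b hMab hNab hR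
    match n, ih, hR with
    | 0, _, hR => exact hNab hR
    | 1, _, hR =>
      obtain ⟨y, x, h1, h2, h3⟩ := hR
      exact hpyr (pyramid_of_path hN hB hMab hNab h1 h2 h3)
    | n + 2, ih, hR =>
      obtain ⟨y1, x1, h1, h2, h3⟩ := hR
      by_cases hx1a : x1 = a
      · rw [hx1a] at h3
        exact ih (n + 1) (by omega) B hB a b hMab hNab h3
      by_cases hx1b : edge N B x1 b
      · exact hpyr (pyramid_of_path hN hB hMab hNab h1 h2 hx1b)
      by_cases hMx1b : edge M B x1 b
      · exact ih (n + 1) (by omega) B hB x1 b hMx1b hx1b h3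
      obtain ⟨y2, x2, h4, h5, h6⟩ := h3
      have hay2 : ¬ edge N B a y2 := by
        intro h
        exact ih (n + 1) (by omega) B hB a b hMab hNab ⟨y2, x2, h, h5, h6⟩
      have hx2y1 : ¬ edge N B x2 y1 := by
        intro h
        exact ih (n + 1) (by omega) B hB a b hMab hNab ⟨y1, x2, h1, h, h6⟩
      have hyb : y1 ≠ b := fun h => hNab (h ▸ h1)
      have hy12 : y1 ≠ y2 := fun h => hx2y1 (h ▸ h5)
      -- the new base
      have hB1 : insert y1 (B.erase x1) ∈ N := h2.2.2
      have hMno : insert b (B.erase x1) ∉ M := fun h => hMx1b ⟨h2.1, hMab.2.1, h⟩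
      have hay2no : insert y2 (B.erase a) ∉ N := fun h => hay2 ⟨h1.1, h4.2.1, h⟩
      have ha1 : a ∈ insert y1 (B.erase x1) := by simp [Ne.symm hx1a, h1.1]
      have hab1 : edge M (insert y1 (B.erase x1)) a b := by
        refine ⟨ha1, ?_, ?_⟩
        · simp [Ne.symm hyb, hMab.2.1]
        · have h := square hM (Ne.symm hx1a) (Ne.symm hyb) hMab (hmono _ _ _ h2) hMno
          have e : insert y1 ((insert b (B.erase a)).erase x1) =
              insert b ((insert y1 (B.erase x1)).erase a) := by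
            have hb1 : b ≠ x1 := fun h => hMab.2.1 (h ▸ h2.1)
            have hy1a : y1 ≠ a := fun h => h1.2.1 (h ▸ h1.1)
            rw [Finset.erase_insert_of_ne hb1, Finset.erase_insert_of_ne hy1a,
              Finset.insert_comm, Finset.erase_right_comm]
          rw [← e]; exact h
      have hab1' : ¬ edge N (insert y1 (B.erase x1)) a b := by
        intro h
        -- `K y1 b ∈ N`
        obtain ⟨_, _, h⟩ := h
        set K := (B.erase a).erase x1 with hK
        have hKB : ∀ z, z ∉ B → z ∉ K := fun z hz h =>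
          hz (Finset.mem_of_mem_erase (Finset.mem_of_mem_erase h))
        have hx1K : x1 ∉ K := by simp [hK]
        have hy1a : y1 ≠ a := fun h => h1.2.1 (h ▸ h1.1)
        have hy1x : y1 ≠ x1 := fun h => h1.2.1 (h ▸ h2.1)
        have hba : b ≠ a := fun h => hMab.2.1 (h ▸ h1.1)
        have hbx : b ≠ x1 := fun h => hMab.2.1 (h ▸ h2.1)
        have eax : ∀ z, insert z (B.erase a) = i2 K z x1 := by
          intro z
          unfold i2
          rw [hK, Finset.insert_erase (Finset.mem_erase.2 ⟨hx1a, h2.1⟩)]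
        have exa : ∀ z, insert z (B.erase x1) = i2 K z a := by
          intro z
          unfold i2
          rw [hK, Finset.erase_right_comm,
            Finset.insert_erase (Finset.mem_erase.2 ⟨Ne.symm hx1a, h1.1⟩)]
        have eB : B = i2 K x1 a := by
          rw [← exa, Finset.insert_erase h2.1]
        have e1 : insert b ((insert y1 (B.erase x1)).erase a) = i2 K b y1 := by
          unfold i2
          rw [Finset.erase_insert_of_ne hy1a, hK, Finset.erase_right_comm]
        rw [e1] at h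
        rcases exch2 hN (Ne.symm hbx) (Ne.symm hba) (hKB b hMab.2.1) (hKB y1 h1.2.1)
          (Ne.symm hyb) (eB ▸ hB) h with h' | h'
        · apply hNab
          refine ⟨h1.1, hMab.2.1, ?_⟩
          rw [eax, i2_comm]; exact h'
        · apply hx1b
          refine ⟨h2.1, hMab.2.1, ?_⟩
          rw [exa, i2_comm]; exact h'
      have hedge1 : edge N (insert y1 (B.erase x1)) a y2 := by
        refine ⟨ha1, by simp [Ne.symm hy12, h4.2.1], ?_⟩
        have h := square hN hx1a (Ne.symm hy12) h4 h1 hay2no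
        have hy1a : y1 ≠ a := fun h => h1.2.1 (h ▸ h1.1)
        have hy2a : y2 ≠ a := fun h => h4.2.1 (h ▸ h1.1)
        rw [Finset.erase_insert_of_ne hy2a, Finset.insert_comm] at h
        rw [Finset.erase_insert_of_ne hy1a]
        exact h
      have hx12 : x1 ≠ x2 := fun h => hx2y1 (h ▸ h2)
      have hedge2 : edge N (insert y1 (B.erase x1)) x2 y2 := by
        refine ⟨by simp [Ne.symm hx12, h5.1], by simp [Ne.symm hy12, h5.2.1], ?_⟩
        exact square hN hx12 hy12 h2 h5 (fun h => hx2y1 ⟨h5.1, h2.2.1, h⟩)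
      rcases reach_dichotomy N B y1 b n x2 h6 with ⟨m, hm, x', hx', h7⟩ | h7
      · exact ih (m + 1) (by omega) B hB a b hMab hNab ⟨y1, x', h1, hx', h7⟩
      · exact ih (n + 1) (by omega) _ hB1 a b hab1 hab1'
          ⟨y2, x2, hedge1, hedge2, reach_pivot hN h2 n x2 h7⟩

omit [Fintype E] in
/-- crossing edges -/
lemma cross {N : Finset (Finset E)} (hN : IsMatroid N) {B : Finset E} (hB : B ∈ N) (A : Finset E)
    (n : ℕ) : ∀ B' ∈ N, (B' \ B).card = n → (B ∩ A).card < (B' ∩ A).card →
      ∃ x y, edge N B x y ∧ x ∉ A ∧ y ∈ A := by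
  induction n using Nat.strong_induction_on with
  | _ n ih =>
    intro B' hB' hn hlt
    by_cases h : ∃ z ∈ B' \ B, z ∉ A
    · obtain ⟨z, hz, hzA⟩ := h
      obtain ⟨u, hu, huN⟩ := hN.2 B' hB' B hB z hz
      rw [Finset.mem_sdiff] at hz hu
      refine ih _ ?_ _ huN rfl ?_
      · rw [← hn]
        apply Finset.card_lt_card
        rw [Finset.ssubset_iff_of_subset]
        · exact ⟨z, by simp [hz], by simp [Ne.symm (ne_of_mem_of_not_mem hu.1 hz.2)]⟩
        · intro w hw
          simp only [Finset.mem_sdiff, Finset.mem_insert, Finset.mem_erase] at hw ⊢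
          rcases hw with ⟨rfl | h, h2⟩
          · exact absurd hu.1 h2
          · exact ⟨h.2, h2⟩
      · refine lt_of_lt_of_le hlt (Finset.card_le_card ?_)
        intro w hw
        rw [Finset.mem_inter] at hw ⊢
        refine ⟨?_, hw.2⟩
        have : w ≠ z := fun h => hzA (h ▸ hw.2)
        simp [this, hw.1]
    · push Not at h
      have hcard := card_eq hN B hB B' hB'
      have h1 : ∃ x ∈ B \ B', x ∉ A := by
        by_contra hcon
        push Not at hcon
        have e1 : (B ∩ A).card + (B \ A).card = B.card := by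
          have := Finset.card_sdiff_add_card_inter B A
          omega
        have e2 : (B' ∩ A).card + (B' \ A).card = B'.card := by
          have := Finset.card_sdiff_add_card_inter B' A
          omega
        have e3 : (B \ A).card ≤ (B' \ A).card := by
          apply Finset.card_le_card
          intro w hw
          rw [Finset.mem_sdiff] at hw ⊢
          refine ⟨?_, hw.2⟩
          by_contra hwB'
          exact hw.2 (hcon w (Finset.mem_sdiff.2 ⟨hw.1, hwB'⟩))
        omega
      obtain ⟨x, hx, hxA⟩ := h1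
      obtain ⟨y, hy, hyN⟩ := hN.2 B hB B' hB' x hx
      exact ⟨x, y, ⟨(Finset.mem_sdiff.1 hx).1, (Finset.mem_sdiff.1 hy).2, hyN⟩, hxA, h y hy⟩

/-- A family of sets is count-connected if no proper nonempty subset of the ground set meets all
members in the same number of elements. -/
def CountConn (N : Finset (Finset E)) : Prop :=
  ∀ A : Finset E, A.Nonempty → A ≠ Finset.univ → ∃ B ∈ N, ∃ B' ∈ N, (B ∩ A).card ≠ (B' ∩ A).card

/-- in a connected matroid all elements are connected in the fundamental graph of a base -/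
lemma exists_cross {N : Finset (Finset E)} (hN : IsMatroid N) (hconn : CountConn N)
    {B : Finset E} (hB : B ∈ N) (A : Finset E) (hA : A.Nonempty) (hA' : A ≠ Finset.univ) :
    ∃ x y, edge N B x y ∧ ((x ∉ A ∧ y ∈ A) ∨ (x ∈ A ∧ y ∉ A)) := by
  obtain ⟨B1, hB1, B2, hB2, hne⟩ := hconn A hA hA'
  have h3 : ∃ B' ∈ N, (B' ∩ A).card ≠ (B ∩ A).card := by
    by_cases h : (B1 ∩ A).card = (B ∩ A).card
    · exact ⟨B2, hB2, fun h' => hne (h.trans h'.symm)⟩
    · exact ⟨B1, hB1, h⟩
  obtain ⟨B', hB', hne'⟩ := h3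
  rcases lt_or_gt_of_ne hne' with h | h
  · -- use the complement
    have e1 := Finset.card_sdiff_add_card_inter B A
    have e2 := Finset.card_sdiff_add_card_inter B' A
    have hcard := card_eq hN B hB B' hB'
    have e3 : B \ A = B ∩ Aᶜ := by ext z; simp
    have e4 : B' \ A = B' ∩ Aᶜ := by ext z; simp
    rw [e3] at e1
    rw [e4] at e2
    obtain ⟨x, y, h1, h2, h3⟩ := cross hN hB Aᶜ _ B' hB' rfl (by omega)
    exact ⟨x, y, h1, Or.inr ⟨by simpa using h2, by simpa using h3⟩⟩
  · obtain ⟨x, y, h1, h2, h3⟩ := cross hN hB A _ B' hB' rfl h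
    exact ⟨x, y, h1, Or.inl ⟨h2, h3⟩⟩

lemma exists_reach {N : Finset (Finset E)} (hN : IsMatroid N) (hconn : CountConn N)
    {B : Finset E} (hB : B ∈ N) {a b : E} (ha : a ∈ B) (hb : b ∉ B) : ∃ n, Reach N B n a b := by
  classical
  by_contra hcon
  let A : Finset E := Finset.univ.filter (fun z => (z ∉ B ∧ ∃ n, Reach N B n a z) ∨
    (z ∈ B ∧ (z = a ∨ ∃ y n, Reach N B n a y ∧ edge N B z y)))
  have hmem : ∀ z, z ∈ A ↔ ((z ∉ B ∧ ∃ n, Reach N B n a z) ∨
    (z ∈ B ∧ (z = a ∨ ∃ y n, Reach N B n a y ∧ edge N B z y))) := by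
    intro z; simp [A]
  have haA : a ∈ A := (hmem a).2 (Or.inr ⟨ha, Or.inl rfl⟩)
  have hbA : b ∉ A := by
    intro h
    rcases (hmem b).1 h with h | h
    · exact hcon h.2
    · exact hb h.1
  obtain ⟨x, y, hxy, h | h⟩ := exists_cross hN hconn hB A ⟨a, haA⟩
    (fun h => hbA (h ▸ Finset.mem_univ b))
  · apply h.1
    rcases (hmem y).1 h.2 with h2 | h2
    · obtain ⟨_, n, hn⟩ := h2
      exact (hmem x).2 (Or.inr ⟨hxy.1, Or.inr ⟨y, n, hn, hxy⟩⟩)
    · exact absurd h2.1 hxy.2.1
  · apply h.2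
    rcases (hmem x).1 h.1 with h2 | h2
    · exact absurd hxy.1 h2.1
    · rcases h2.2 with rfl | ⟨y', n, hn, hxy'⟩
      · exact (hmem y).2 (Or.inl ⟨hxy.2.1, 0, hxy⟩)
      · exact (hmem y).2 (Or.inl ⟨hxy.2.1, n + 1, reach_last hxy' hxy n a hn⟩)

omit [Fintype E] in
/-- adjacent bases -/
lemma exists_adjacent {M N : Finset (Finset E)} (hM : IsMatroid M) (hNM : N ⊆ M) {B' : Finset E}
    (hB' : B' ∈ M) (hB'N : B' ∉ N) (n : ℕ) : ∀ B ∈ N, (B \ B').card = n →
      ∃ B ∈ N, ∃ a b, edge M B a b ∧ ¬ edge N B a b := by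
  induction n using Nat.strong_induction_on with
  | _ n ih =>
    intro B hB hn
    have hcard := card_eq hM B (hNM hB) B' hB'
    have hne : (B \ B').Nonempty := by
      rw [Finset.nonempty_iff_ne_empty]
      intro h0
      have hsub : B ⊆ B' := Finset.sdiff_eq_empty_iff_subset.1 h0
      have : B = B' := Finset.eq_of_subset_of_card_le hsub hcard.ge
      exact hB'N (this ▸ hB)
    obtain ⟨x, hx⟩ := hne
    obtain ⟨y, hy, hyM⟩ := hM.2 B (hNM hB) B' hB' x hx
    rw [Finset.mem_sdiff] at hx hy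
    by_cases h : insert y (B.erase x) ∈ N
    · refine ih _ ?_ _ h rfl
      rw [← hn]
      apply Finset.card_lt_card
      rw [Finset.ssubset_iff_of_subset]
      · exact ⟨x, by simp [hx], by simp [Ne.symm (ne_of_mem_of_not_mem hy.1 hx.2)]⟩
      · intro w hw
        simp only [Finset.mem_sdiff, Finset.mem_insert, Finset.mem_erase] at hw ⊢
        rcases hw with ⟨rfl | h, h2⟩
        · exact absurd hy.1 h2
        · exact ⟨h.2, h2⟩
    · exact ⟨B, hB, x, y, ⟨hx.1, hy.2, hyM⟩, fun h' => h h'.2.2⟩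

/-- A proper connected submatroid polytope has a pyramid. -/
lemma exists_pyramid {M N : Finset (Finset E)} (hM : IsMatroid M) (hN : IsMatroid N) (hNM : N ⊆ M)
    (hne : N ≠ M) (hconn : CountConn N) : Pyramid M N := by
  by_contra hpyr
  obtain ⟨B', hB', hB'N⟩ := Finset.exists_of_ssubset (hNM.ssubset_of_ne hne)
  obtain ⟨B0, hB0⟩ := hN.1
  obtain ⟨B, hB, a, b, h1, h2⟩ := exists_adjacent hM hNM hB' hB'N _ B0 hB0 rfl
  obtain ⟨n, hn⟩ := exists_reach hN hconn hB h1.1 h1.2.1
  exact no_reach hM hN hNM hpyr n B hB a b h1 h2 hn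

end Pool.Agent.V11152.MatroidSubdiv
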