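import Mathlib
import Pool.Agent.V11152.MatroidSubdiv3

/-!
# Matroid subdivisions: generic cells and a criterion for indecomposability
-/

namespace Pool.Agent.V11152.MatroidSubdiv

open Finset

variable {E : Type} [Fintype E] [DecidableEq E]

lemma sum_indic (A B : Finset E) : ∑ i ∈ A, indic B i = ((B ∩ A).card : ℝ) := by
  unfold indic
  rw [Finset.sum_ite_mem, Finset.inter_comm]
  simp

open Polynomial in
/-- A subdivision of a connected matroid polytope has a connected cell. -/
lemma exists_generic {M : Finset (Finset E)} (hM : IsMatroid M) (hconn : CountConn M)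
    {S : Set (Finset (Finset E))} (hS : IsMatroidSubdivision M S) : ∃ N ∈ S, CountConn N := by
  classical
  let ι : Finset E → ℕ := fun B => (Fintype.equivFin (Finset E) B : ℕ)
  have hι : Function.Injective ι := fun B B' h =>
    (Fintype.equivFin (Finset E)).injective (Fin.ext h)
  let P : Finset E → ℕ → ℝ[X] := fun A k =>
    ∑ B ∈ M, monomial (ι B) (((B ∩ A).card : ℝ) - k)
  have hPne : ∀ A : Finset E, A.Nonempty → A ≠ Finset.univ → ∀ k, P A k ≠ 0 := by
    intro A hA hA' k h0
    obtain ⟨B1, hB1, B2, hB2, hne⟩ := hconn A hA hA'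
    have hcoef : ∀ B ∈ M, ((B ∩ A).card : ℝ) - k = 0 := by
      intro B hB
      have h1 : (P A k).coeff (ι B) = 0 := by rw [h0]; simp
      simp only [P, finsetSum_coeff, coeff_monomial, hι.eq_iff] at h1
      rw [Finset.sum_ite_eq' M B, if_pos hB] at h1
      exact h1
    apply hne
    have e1 := hcoef B1 hB1
    have e2 := hcoef B2 hB2
    have : ((B1 ∩ A).card : ℝ) = ((B2 ∩ A).card : ℝ) := by linarith
    exact_mod_cast this
  let T : Finset (Finset E × ℕ) :=
    (Finset.univ.filter (fun A : Finset E => A.Nonempty ∧ A ≠ Finset.univ)) ×ˢ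
      Finset.range (Fintype.card E + 1)
  let Q : ℝ[X] := ∏ x ∈ T, P x.1 x.2
  have hQ : Q ≠ 0 := by
    rw [Finset.prod_ne_zero_iff]
    intro x hx
    simp only [T, Finset.mem_product, Finset.mem_filter] at hx
    exact hPne x.1 hx.1.2.1 hx.1.2.2 x.2
  obtain ⟨s, hs, hsQ⟩ : ∃ s : ℝ, 0 < s ∧ eval s Q ≠ 0 := by
    by_contra hcon
    push Not at hcon
    apply hQ
    apply Polynomial.eq_zero_of_infinite_isRoot
    exact (Set.Ioi_infinite (0 : ℝ)).mono (fun x hx => hcon x hx)
  have hden : 0 < ∑ B ∈ M, s ^ ι B := Finset.sum_pos (fun B _ => pow_pos hs _) hM.1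
  set D := ∑ B ∈ M, s ^ ι B with hD
  let w : Finset E → ℝ := fun B => if B ∈ M then s ^ ι B / D else 0
  let v : E → ℝ := fun i => ∑ B, w B * indic B i
  have hv : v ∈ poly M := by
    rw [mem_poly_iff]
    refine ⟨w, fun B => ?_, fun B hB => ?_, ?_, fun i => rfl⟩
    · simp only [w]
      split_ifs
      · positivity
      · exact le_refl _
    · simp only [w, if_neg hB]
    · simp only [w]
      rw [Finset.sum_ite_mem, Finset.univ_inter, ← Finset.sum_div, ← hD]
      exact div_self hden.ne'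
  obtain ⟨N, hN, hvN⟩ := exists_cell hS hv
  refine ⟨N, hN, ?_⟩
  intro A hA hA'
  by_contra hcon
  push Not at hcon
  obtain ⟨B0, hB0⟩ := (hS.1 N hN).1
  obtain ⟨w', hw1, hw2, hw3, hw4⟩ := (mem_poly_iff N v).1 hvN
  have hsumA : ∀ u : Finset E → ℝ, ∑ i ∈ A, ∑ B, u B * indic B i =
      ∑ B, u B * ((B ∩ A).card : ℝ) := by
    intro u
    rw [Finset.sum_comm]
    refine Finset.sum_congr rfl ?_
    intro B _
    rw [← Finset.mul_sum, sum_indic]
  have h1 : ∑ i ∈ A, v i = ((B0 ∩ A).card : ℝ) := by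
    calc ∑ i ∈ A, v i = ∑ i ∈ A, ∑ B, w' B * indic B i :=
          Finset.sum_congr rfl (fun i _ => hw4 i)
      _ = ∑ B, w' B * ((B ∩ A).card : ℝ) := hsumA w'
      _ = ∑ B, w' B * ((B0 ∩ A).card : ℝ) := by
          refine Finset.sum_congr rfl ?_
          intro B _
          by_cases hB : B ∈ N
          · rw [hcon B hB B0 hB0]
          · rw [hw2 B hB]; simp
      _ = ((B0 ∩ A).card : ℝ) := by rw [← Finset.sum_mul, hw3, one_mul]
  have h2 : ∑ i ∈ A, v i = (∑ B ∈ M, s ^ ι B * ((B ∩ A).card : ℝ)) / D := by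
    simp only [v]
    rw [hsumA w, Finset.sum_div]
    simp only [w, ite_mul, zero_mul]
    rw [Finset.sum_ite_mem, Finset.univ_inter]
    refine Finset.sum_congr rfl ?_
    intro B _
    ring
  have h3 : eval s (P A (B0 ∩ A).card) = 0 := by
    simp only [P, eval_finsetSum, eval_monomial]
    have e : ∑ B ∈ M, (((B ∩ A).card : ℝ) - ((B0 ∩ A).card : ℕ)) * s ^ ι B =
        (∑ B ∈ M, s ^ ι B * ((B ∩ A).card : ℝ)) - ((B0 ∩ A).card : ℝ) * D := by
      rw [hD, Finset.mul_sum, ← Finset.sum_sub_distrib]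
      refine Finset.sum_congr rfl ?_
      intro B _
      ring
    rw [e]
    rw [h1] at h2
    rw [h2]
    field_simp
    ring
  apply hsQ
  simp only [Q]
  rw [eval_prod]
  apply Finset.prod_eq_zero (i := (A, (B0 ∩ A).card))
  · simp only [T, Finset.mem_product, Finset.mem_filter, Finset.mem_univ, true_and,
      Finset.mem_range]
    refine ⟨⟨hA, hA'⟩, ?_⟩
    exact Nat.lt_succ_of_le (Finset.card_le_univ _)
  · exact h3

/-- **Criterion for indecomposability.** If in a connected matroid any two opposite vertices of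
an octahedron lie in a common cell, then the subdivision is trivial. -/
theorem mem_of_tog {M : Finset (Finset E)} (hM : IsMatroid M) (hconn : CountConn M)
    {S : Set (Finset (Finset E))} (hS : IsMatroidSubdivision M S)
    (htog : ∀ (K : Finset E) (a b c d : E), a ∉ K → b ∉ K → c ∉ K → d ∉ K → a ≠ b → a ≠ c →
      a ≠ d → b ≠ c → b ≠ d → c ≠ d → i2 K a b ∈ M → i2 K c d ∈ M →
      Tog S (i2 K a b) (i2 K c d)) : M ∈ S := by
  obtain ⟨N, hN, hNc⟩ := exists_generic hM hconn hS
  by_cases hne : N = M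
  · rw [← hne]; exact hN
  exfalso
  have hNM := cell_subset hS hN
  obtain ⟨K, a, b, c, d, ha, hb, hc, hd, hab, hac, had, hbc, hbd, hcd, h1, h2, h3, h4, h5⟩ :=
    exists_pyramid hM (hS.1 N hN) hNM hne hNc
  have ht := htog K a b c d ha hb hc hd hab hac had hbc hbd hcd h1 (hNM h3)
  have hm : mid (i2 K a b) (i2 K c d) ∈ poly N := by
    rw [mid_eq ha hb hc hd hab hac had hbc hbd hcd]
    exact mid_mem h4 h5
  exact h2 (tog_mem hS ht hN hm).1

end Pool.Agent.V11152.MatroidSubdiv
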