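import Mathlib
import Pool.Agent.V11152.MatroidSubdiv4

/-!
# Tools for constructing matroid subdivisions
-/

namespace Pool.Agent.V11152.MatroidSubdiv

open Finset

variable {E : Type} [Fintype E] [DecidableEq E]

/-- value of the sum of coordinates over `A` -/
lemma sum_rep {v : E → ℝ} {w : Finset E → ℝ} (hw : ∀ i, v i = ∑ B, w B * indic B i)
    (A : Finset E) : ∑ i ∈ A, v i = ∑ B, w B * ((B ∩ A).card : ℝ) := by
  calc ∑ i ∈ A, v i = ∑ i ∈ A, ∑ B, w B * indic B i := Finset.sum_congr rfl (fun i _ => hw i)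
    _ = ∑ B, ∑ i ∈ A, w B * indic B i := Finset.sum_comm
    _ = ∑ B, w B * ((B ∩ A).card : ℝ) := by
        refine Finset.sum_congr rfl ?_
        intro B _
        rw [← Finset.mul_sum, sum_indic]

lemma sum_le_of_poly {N : Finset (Finset E)} {v : E → ℝ} (hv : v ∈ poly N) (A : Finset E)
    (k : ℝ) (h : ∀ B ∈ N, ((B ∩ A).card : ℝ) ≤ k) : ∑ i ∈ A, v i ≤ k := by
  obtain ⟨w, hw1, hw2, hw3, hw4⟩ := (mem_poly_iff N v).1 hv
  rw [sum_rep hw4]
  calc ∑ B, w B * ((B ∩ A).card : ℝ) ≤ ∑ B, w B * k := by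
        refine Finset.sum_le_sum (fun B _ => ?_)
        by_cases hB : B ∈ N
        · exact mul_le_mul_of_nonneg_left (h B hB) (hw1 B)
        · rw [hw2 B hB]; simp
    _ = k := by rw [← Finset.sum_mul, hw3, one_mul]

lemma le_sum_of_poly {N : Finset (Finset E)} {v : E → ℝ} (hv : v ∈ poly N) (A : Finset E)
    (k : ℝ) (h : ∀ B ∈ N, k ≤ ((B ∩ A).card : ℝ)) : k ≤ ∑ i ∈ A, v i := by
  obtain ⟨w, hw1, hw2, hw3, hw4⟩ := (mem_poly_iff N v).1 hv
  rw [sum_rep hw4]
  calc k = ∑ B, w B * k := by rw [← Finset.sum_mul, hw3, one_mul]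
    _ ≤ ∑ B, w B * ((B ∩ A).card : ℝ) := by
        refine Finset.sum_le_sum (fun B _ => ?_)
        by_cases hB : B ∈ N
        · exact mul_le_mul_of_nonneg_left (h B hB) (hw1 B)
        · rw [hw2 B hB]; simp

/-- the linear functional `x ↦ x(A)` as a continuous linear map -/
noncomputable def fnl (A : Finset E) : (E → ℝ) →L[ℝ] ℝ :=
  ∑ i ∈ A, ContinuousLinearMap.proj (R := ℝ) (φ := fun _ : E => ℝ) i

omit [Fintype E] [DecidableEq E] in
lemma fnl_apply (A : Finset E) (v : E → ℝ) : fnl A v = ∑ i ∈ A, v i := by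
  unfold fnl
  rw [_root_.sum_apply]
  rfl

/-- if a valid inequality `x(A) ≤ k` separates `N1` from `N2` and its equality set in `N1` is
contained in `N2`, then the intersection is a face of `poly N1` -/
lemma inter_exposed {N1 N2 : Finset (Finset E)} (A : Finset E) (k : ℕ)
    (h1 : ∀ B ∈ N1, (B ∩ A).card ≤ k) (h2 : ∀ B ∈ N2, k ≤ (B ∩ A).card)
    (h3 : ∀ B ∈ N1, (B ∩ A).card = k → B ∈ N2) :
    IsExposed ℝ (poly N1) (poly N1 ∩ poly N2) := by
  intro hne
  refine ⟨fnl A, ?_⟩
  have h1' : ∀ y ∈ poly N1, ∑ i ∈ A, y i ≤ k := fun y hy =>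
    sum_le_of_poly hy A k (fun B hB => by exact_mod_cast h1 B hB)
  have h2' : ∀ y ∈ poly N2, (k : ℝ) ≤ ∑ i ∈ A, y i := fun y hy =>
    le_sum_of_poly hy A k (fun B hB => by exact_mod_cast h2 B hB)
  obtain ⟨z, hz1, hz2⟩ := hne
  have hz : ∑ i ∈ A, z i = k := le_antisymm (h1' z hz1) (h2' z hz2)
  ext x
  constructor
  · rintro ⟨hx1, hx2⟩
    refine ⟨hx1, fun y hy => ?_⟩
    rw [fnl_apply, fnl_apply]
    exact (h1' y hy).trans (h2' x hx2)
  · rintro ⟨hx1, hx2⟩
    refine ⟨hx1, ?_⟩
    have hxk : ∑ i ∈ A, x i = k := by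
      apply le_antisymm (h1' x hx1)
      have := hx2 z hz1
      rw [fnl_apply, fnl_apply, hz] at this
      exact this
    obtain ⟨w, hw1, hw2, hw3, hw4⟩ := (mem_poly_iff N1 x).1 hx1
    rw [mem_poly_iff]
    refine ⟨w, hw1, fun B hB => ?_, hw3, hw4⟩
    by_contra hne
    have hpos : 0 < w B := lt_of_le_of_ne (hw1 B) (Ne.symm hne)
    have hBN1 : B ∈ N1 := by
      by_contra h; exact hne (hw2 B h)
    have hlt : ((B ∩ A).card : ℝ) < k := by
      have h4 := h1 B hBN1
      have h5 : (B ∩ A).card ≠ k := fun h => hB (h3 B hBN1 h)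
      exact_mod_cast lt_of_le_of_ne h4 h5
    have : ∑ i ∈ A, x i < k := by
      rw [sum_rep hw4]
      calc ∑ B, w B * ((B ∩ A).card : ℝ) < ∑ B, w B * k := by
            apply Finset.sum_lt_sum
            · intro B' _
              by_cases hB' : B' ∈ N1
              · exact mul_le_mul_of_nonneg_left (by exact_mod_cast h1 B' hB') (hw1 B')
              · rw [hw2 B' hB']; simp
            · exact ⟨B, Finset.mem_univ _, mul_lt_mul_of_pos_left hlt hpos⟩
        _ = k := by rw [← Finset.sum_mul, hw3, one_mul]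
    rw [hxk] at this
    exact lt_irrefl _ this

/-- reversed version of `inter_exposed`: `N1` lies on the side `x(A) ≥ k` -/
lemma inter_exposed' {N1 N2 : Finset (Finset E)} (A : Finset E) (k : ℕ)
    (h1 : ∀ B ∈ N1, k ≤ (B ∩ A).card) (h2 : ∀ B ∈ N2, (B ∩ A).card ≤ k)
    (h3 : ∀ B ∈ N1, (B ∩ A).card = k → B ∈ N2) :
    IsExposed ℝ (poly N1) (poly N1 ∩ poly N2) := by
  intro hne
  refine ⟨-fnl A, ?_⟩
  have h1' : ∀ y ∈ poly N1, (k : ℝ) ≤ ∑ i ∈ A, y i := fun y hy =>
    le_sum_of_poly hy A k (fun B hB => by exact_mod_cast h1 B hB)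
  have h2' : ∀ y ∈ poly N2, ∑ i ∈ A, y i ≤ k := fun y hy =>
    sum_le_of_poly hy A k (fun B hB => by exact_mod_cast h2 B hB)
  obtain ⟨z, hz1, hz2⟩ := hne
  have hz : ∑ i ∈ A, z i = k := le_antisymm (h2' z hz2) (h1' z hz1)
  ext x
  constructor
  · rintro ⟨hx1, hx2⟩
    refine ⟨hx1, fun y hy => ?_⟩
    rw [neg_apply, neg_apply, fnl_apply, fnl_apply]
    have := (h2' x hx2).trans (h1' y hy)
    linarith
  · rintro ⟨hx1, hx2⟩
    refine ⟨hx1, ?_⟩
    have hxk : ∑ i ∈ A, x i = k := by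
      apply le_antisymm _ (h1' x hx1)
      have := hx2 z hz1
      rw [neg_apply, neg_apply, fnl_apply, fnl_apply, hz]
        at this
      linarith
    obtain ⟨w, hw1, hw2, hw3, hw4⟩ := (mem_poly_iff N1 x).1 hx1
    rw [mem_poly_iff]
    refine ⟨w, hw1, fun B hB => ?_, hw3, hw4⟩
    by_contra hne
    have hpos : 0 < w B := lt_of_le_of_ne (hw1 B) (Ne.symm hne)
    have hBN1 : B ∈ N1 := by
      by_contra h; exact hne (hw2 B h)
    have hlt : (k : ℝ) < ((B ∩ A).card : ℝ) := by
      have h4 := h1 B hBN1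
      have h5 : k ≠ (B ∩ A).card := fun h => hB (h3 B hBN1 h.symm)
      exact_mod_cast lt_of_le_of_ne h4 h5
    have : (k : ℝ) < ∑ i ∈ A, x i := by
      rw [sum_rep hw4]
      calc (k : ℝ) = ∑ B, w B * k := by rw [← Finset.sum_mul, hw3, one_mul]
        _ < ∑ B, w B * ((B ∩ A).card : ℝ) := by
            apply Finset.sum_lt_sum
            · intro B' _
              by_cases hB' : B' ∈ N1
              · exact mul_le_mul_of_nonneg_left (by exact_mod_cast h1 B' hB') (hw1 B')
              · rw [hw2 B' hB']; simp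
            · exact ⟨B, Finset.mem_univ _, mul_lt_mul_of_pos_left hlt hpos⟩
    rw [hxk] at this
    exact lt_irrefl _ this

/-- the intersection of a polytope with itself is a face -/
lemma inter_self_exposed (N : Finset (Finset E)) : IsExposed ℝ (poly N) (poly N ∩ poly N) := by
  rw [Set.inter_self]

/-- Minimal representations. -/
lemma cover {N : Finset (Finset E)} {v : E → ℝ} (hv : v ∈ poly N) (h : Finset E → ℝ) :
    ∃ N' ⊆ N, v ∈ poly N' ∧ ∀ B1 ∈ N', ∀ B2 ∈ N', ∀ B3 ∈ N, ∀ B4 ∈ N,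
      (∀ i, indic B1 i + indic B2 i = indic B3 i + indic B4 i) → h B1 + h B2 ≤ h B3 + h B4 := by
  classical
  let X : Set (Finset E → ℝ) := {w | (∀ B, 0 ≤ w B) ∧ (∀ B, B ∉ N → w B = 0) ∧ ∑ B, w B = 1 ∧
      ∀ i, v i = ∑ B, w B * indic B i}
  have hXne : X.Nonempty := (mem_poly_iff N v).1 hv
  have hXclosed : IsClosed X := by
    have e : X = (⋂ B, {w : Finset E → ℝ | 0 ≤ w B}) ∩
        ((⋂ B, ⋂ (_ : B ∉ N), {w : Finset E → ℝ | w B = 0}) ∩
        ({w : Finset E → ℝ | ∑ B, w B = 1} ∩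
          (⋂ i, {w : Finset E → ℝ | v i = ∑ B, w B * indic B i}))) := by
      ext w
      simp only [X, Set.mem_inter_iff, Set.mem_iInter]
      rfl
    rw [e]
    refine IsClosed.inter (isClosed_iInter fun B => ?_) (IsClosed.inter
      (isClosed_iInter fun B => isClosed_iInter fun _ => ?_) (IsClosed.inter ?_
      (isClosed_iInter fun i => ?_)))
    · exact isClosed_le continuous_const (continuous_apply B)
    · exact isClosed_eq (continuous_apply B) continuous_const
    · exact isClosed_eq (continuous_finsetSum _ fun B _ => continuous_apply B) continuous_const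
    · exact isClosed_eq continuous_const
        (continuous_finsetSum _ fun B _ => (continuous_apply B).mul continuous_const)
  have hXsub : X ⊆ Set.pi Set.univ (fun _ : Finset E => Set.Icc (0 : ℝ) 1) := by
    intro w hw B _
    refine ⟨hw.1 B, ?_⟩
    rw [← hw.2.2.1]
    exact Finset.single_le_sum (fun B' _ => hw.1 B') (Finset.mem_univ B)
  have hXc : IsCompact X :=
    (isCompact_univ_pi (fun _ => isCompact_Icc)).of_isClosed_subset hXclosed hXsub
  obtain ⟨w, hw, hmin⟩ := hXc.exists_isMinOn hXne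
    (f := fun w => ∑ B, w B * h B)
    (continuous_finsetSum _ fun B _ => (continuous_apply B).mul continuous_const).continuousOn
  obtain ⟨hw1, hw2, hw3, hw4⟩ := hw
  refine ⟨N.filter (fun B => 0 < w B), Finset.filter_subset _ _, ?_, ?_⟩
  · rw [mem_poly_iff]
    refine ⟨w, hw1, fun B hB => ?_, hw3, hw4⟩
    rw [Finset.mem_filter, not_and] at hB
    by_cases hBN : B ∈ N
    · have := hB hBN
      push Not at this
      exact le_antisymm this (hw1 B)
    · exact hw2 B hBN
  · intro B1 hB1 B2 hB2 B3 hB3 B4 hB4 hsum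
    rw [Finset.mem_filter] at hB1 hB2
    by_contra hlt
    push Not at hlt
    set ε := min (w B1) (w B2) / 2 with hε
    have hε0 : 0 < ε := by
      rw [hε]
      have := lt_min hB1.2 hB2.2
      linarith
    have hε1 : 2 * ε ≤ w B1 := by
      rw [hε]
      have := min_le_left (w B1) (w B2)
      linarith
    have hε2 : 2 * ε ≤ w B2 := by
      rw [hε]
      have := min_le_right (w B1) (w B2)
      linarith
    let δ : Finset E → Finset E → ℝ := fun C B => if B = C then 1 else 0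
    have hδs : ∀ (C : Finset E) (g : Finset E → ℝ), ∑ B, δ C B * g B = g C := by
      intro C g
      simp [δ]
    have hδ0 : ∀ C B, 0 ≤ δ C B := by
      intro C B
      simp only [δ]
      split_ifs
      · exact zero_le_one
      · exact le_refl _
    let w' : Finset E → ℝ := fun B => w B - ε * (δ B1 B + δ B2 B) + ε * (δ B3 B + δ B4 B)
    have hsum' : ∀ g : Finset E → ℝ, ∑ B, w' B * g B =
        ∑ B, w B * g B - ε * (g B1 + g B2) + ε * (g B3 + g B4) := by
      intro g
      have e : ∀ B, w' B * g B = w B * g B - ε * (δ B1 B * g B) - ε * (δ B2 B * g B) +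
          ε * (δ B3 B * g B) + ε * (δ B4 B * g B) := by
        intro B
        simp only [w']
        ring
      simp only [e]
      rw [Finset.sum_add_distrib, Finset.sum_add_distrib, Finset.sum_sub_distrib,
        Finset.sum_sub_distrib, ← Finset.mul_sum, ← Finset.mul_sum, ← Finset.mul_sum,
        ← Finset.mul_sum, hδs, hδs, hδs, hδs]
      ring
    have hw' : w' ∈ X := by
      refine ⟨fun B => ?_, fun B hB => ?_, ?_, fun i => ?_⟩
      · have h3 := hδ0 B3 B
        have h4 := hδ0 B4 B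
        have h5 : ε * (δ B1 B + δ B2 B) ≤ w B := by
          by_cases e1 : B = B1
          · by_cases e2 : B = B2
            · simp only [δ, if_pos e1, if_pos e2]
              rw [e1]; linarith
            · simp only [δ, if_pos e1, if_neg e2]
              rw [e1]; linarith
          · by_cases e2 : B = B2
            · simp only [δ, if_neg e1, if_pos e2]
              rw [e2]; linarith
            · simp only [δ, if_neg e1, if_neg e2]
              have := hw1 B
              linarith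
        have h6 : 0 ≤ ε * (δ B3 B + δ B4 B) := by positivity
        simp only [w']
        linarith
      · have e1 : B ≠ B1 := fun e => hB (e ▸ hB1.1)
        have e2 : B ≠ B2 := fun e => hB (e ▸ hB2.1)
        have e3 : B ≠ B3 := fun e => hB (e ▸ hB3)
        have e4 : B ≠ B4 := fun e => hB (e ▸ hB4)
        simp only [w', δ, if_neg e1, if_neg e2, if_neg e3, if_neg e4, hw2 B hB]
        ring
      · have := hsum' (fun _ => 1)
        simp only [mul_one] at this
        rw [this, hw3]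
        ring
      · rw [hsum' (fun B => indic B i), ← hw4 i, hsum i]
        ring
    have h7 := hmin hw'
    simp only [Set.mem_ofPred_eq] at h7
    rw [hsum' h] at h7
    have h8 : 0 < ε * ((h B1 + h B2) - (h B3 + h B4)) := mul_pos hε0 (by linarith)
    linarith

/-- all vertices of a representation of a common point lie in the other cell -/
lemma common' {M : Finset (Finset E)} {S : Set (Finset (Finset E))}
    (hS : IsMatroidSubdivision M S) {N N' : Finset (Finset E)} (hN : N ∈ S) (hN' : N' ∈ S)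
    {v : E → ℝ} {w : Finset E → ℝ} (hw1 : ∀ B, 0 ≤ w B) (hw2 : ∀ B, B ∉ N → w B = 0)
    (hw3 : ∑ B, w B = 1) (hw4 : ∀ i, v i = ∑ B, w B * indic B i) (hv : v ∈ poly N')
    {B : Finset E} (hB : 0 < w B) : B ∈ N' := by
  have hvN : v ∈ poly N := (mem_poly_iff N v).2 ⟨w, hw1, hw2, hw3, hw4⟩
  obtain ⟨l, hl⟩ := hS.2.2 N hN N' hN' ⟨v, hvN, hv⟩
  have hvm : v ∈ {x ∈ poly N | ∀ y ∈ poly N, l y ≤ l x} := by rw [← hl]; exact ⟨hvN, hv⟩
  have hmem : ∀ B', 0 < w B' → B' ∈ N := by
    intro B' h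
    by_contra hne
    rw [hw2 B' hne] at h
    exact lt_irrefl _ h
  have hlv : l v = ∑ B, w B * l (indic B) := by
    have : v = ∑ B, w B • indic B := by
      funext i
      rw [hw4 i, Finset.sum_apply]
      rfl
    rw [this, map_sum]
    refine Finset.sum_congr rfl ?_
    intro B _
    rw [map_smul, smul_eq_mul]
  have hge : l v ≤ l (indic B) := by
    by_contra hlt
    push Not at hlt
    have : l v < l v := by
      calc l v = ∑ B, w B * l (indic B) := hlv
        _ < ∑ B, w B * l v := by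
            apply Finset.sum_lt_sum
            · intro B' _
              rcases (hw1 B').eq_or_lt with h0 | h0
              · rw [← h0]; simp
              · exact mul_le_mul_of_nonneg_left (hvm.2 _ (indic_mem N B' (hmem B' h0))) (hw1 B')
            · exact ⟨B, Finset.mem_univ _, mul_lt_mul_of_pos_left hlt hB⟩
        _ = l v := by rw [← Finset.sum_mul, hw3, one_mul]
    exact lt_irrefl _ this
  have : indic B ∈ {x ∈ poly N | ∀ y ∈ poly N, l y ≤ l x} :=
    ⟨indic_mem N B (hmem B hB), fun y hy => (hvm.2 y hy).trans hge⟩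
  rw [← hl] at this
  exact mem_of_indic this.2

/-- splits -/
lemma split_subdivision {N N1 N2 : Finset (Finset E)} (A : Finset E) (k : ℕ) (h : Finset E → ℝ)
    (hN1 : ∀ B, B ∈ N1 ↔ B ∈ N ∧ (B ∩ A).card ≤ k) (hN2 : ∀ B, B ∈ N2 ↔ B ∈ N ∧ k ≤ (B ∩ A).card)
    (m1 : IsMatroid N1) (m2 : IsMatroid N2)
    (hex : ∀ B1 ∈ N, ∀ B2 ∈ N, k < (B1 ∩ A).card → (B2 ∩ A).card < k → ∃ B3 ∈ N, ∃ B4 ∈ N,
      (∀ i, indic B1 i + indic B2 i = indic B3 i + indic B4 i) ∧ h B3 + h B4 < h B1 + h B2) :
    IsMatroidSubdivision N {N1, N2} := by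
  have s1 : N1 ⊆ N := fun B hB => ((hN1 B).1 hB).1
  have s2 : N2 ⊆ N := fun B hB => ((hN2 B).1 hB).1
  refine ⟨?_, ?_, ?_⟩
  · rintro N' (rfl | rfl)
    · exact m1
    · exact m2
  · apply Set.Subset.antisymm
    · apply Set.iUnion₂_subset
      rintro N' (rfl | rfl)
      · exact poly_mono s1
      · exact poly_mono s2
    · intro v hv
      obtain ⟨N', hN', hvN', hmin⟩ := cover hv h
      by_cases hall : ∀ B ∈ N', (B ∩ A).card ≤ k
      · refine Set.mem_biUnion (x := N1) (Or.inl rfl) ?_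
        exact poly_mono (fun B hB => (hN1 B).2 ⟨hN' hB, hall B hB⟩) hvN'
      · push Not at hall
        obtain ⟨B1, hB1, hlt⟩ := hall
        refine Set.mem_biUnion (x := N2) (Or.inr rfl) ?_
        refine poly_mono (fun B hB => (hN2 B).2 ⟨hN' hB, ?_⟩) hvN'
        by_contra hcon
        push Not at hcon
        obtain ⟨B3, hB3, B4, hB4, h5, h6⟩ := hex B1 (hN' hB1) B (hN' hB) hlt hcon
        have := hmin B1 hB1 B hB B3 hB3 B4 hB4 h5
        linarith
  · have e12 : IsExposed ℝ (poly N1) (poly N1 ∩ poly N2) :=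
      inter_exposed A k (fun B hB => ((hN1 B).1 hB).2) (fun B hB => ((hN2 B).1 hB).2)
        (fun B hB hk => (hN2 B).2 ⟨s1 hB, hk.ge⟩)
    have e21 : IsExposed ℝ (poly N2) (poly N2 ∩ poly N1) :=
      inter_exposed' A k (fun B hB => ((hN2 B).1 hB).2) (fun B hB => ((hN1 B).1 hB).2)
        (fun B hB hk => (hN1 B).2 ⟨s2 hB, hk.le⟩)
    rintro N' (rfl | rfl) N'' (rfl | rfl)
    · exact inter_self_exposed _
    · exact e12
    · exact e21
    · exact inter_self_exposed _

/-! ### Parallel extensions -/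

section pull

variable {α : Type} [DecidableEq α]

/-- the parallel extension of `P` along `π` -/
def pull (π : E → α) (P : Finset (Finset α)) (r : ℕ) : Finset (Finset E) :=
  Finset.univ.filter (fun B => B.card = r ∧ B.image π ∈ P)

lemma mem_pull {π : E → α} {P : Finset (Finset α)} {r : ℕ} {B : Finset E} :
    B ∈ pull π P r ↔ B.card = r ∧ B.image π ∈ P := by
  simp [pull]

lemma pull_inj {π : E → α} {P : Finset (Finset α)} {r : ℕ} (hP : ∀ b ∈ P, b.card = r)
    {B : Finset E} (hB : B ∈ pull π P r) : Set.InjOn π (B : Set E) := by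
  rw [mem_pull] at hB
  rw [← Finset.card_image_iff, hP _ hB.2, hB.1]

lemma pull_exchange {π : E → α} {P : Finset (Finset α)} {r : ℕ} (hP : ∀ b ∈ P, b.card = r)
    {B : Finset E} (hB : B ∈ pull π P r) {x y : E} (hx : x ∈ B) :
    (insert y (B.erase x)).image π = insert (π y) ((B.image π).erase (π x)) := by
  have hinj := pull_inj hP hB
  ext z
  simp only [Finset.mem_image, Finset.mem_insert, Finset.mem_erase]
  constructor
  · rintro ⟨u, rfl | ⟨h1, h2⟩, rfl⟩
    · left; rfl
    · right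
      refine ⟨fun h => h1 (hinj h2 hx h), u, h2, rfl⟩
  · rintro (rfl | ⟨h1, u, h2, rfl⟩)
    · exact ⟨y, Or.inl rfl, rfl⟩
    · refine ⟨u, Or.inr ⟨?_, h2⟩, rfl⟩
      rintro rfl
      exact h1 rfl

lemma pull_mem {π : E → α} {P : Finset (Finset α)} {r : ℕ} (hP : ∀ b ∈ P, b.card = r)
    {B : Finset E} (hB : B ∈ pull π P r) {x y : E} (hx : x ∈ B) (hy : y ∉ B)
    (h : insert (π y) ((B.image π).erase (π x)) ∈ P) : insert y (B.erase x) ∈ pull π P r := by
  rw [mem_pull, pull_exchange hP hB hx]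
  refine ⟨?_, h⟩
  rw [Finset.card_insert_of_notMem (by simp [hy]), Finset.card_erase_of_mem hx, (mem_pull.1 hB).1]
  have := Finset.card_pos.2 ⟨x, hx⟩
  rw [(mem_pull.1 hB).1] at this
  omega

lemma pull_isMatroid {π : E → α} {P : Finset (Finset α)} {r : ℕ} (hP : ∀ b ∈ P, b.card = r)
    (hPm : IsMatroid P) (hsurj : Function.Surjective π) : IsMatroid (pull π P r) := by
  obtain ⟨g, hg⟩ := hsurj.hasRightInverse
  refine ⟨?_, ?_⟩
  · obtain ⟨b, hb⟩ := hPm.1
    refine ⟨b.image g, ?_⟩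
    rw [mem_pull]
    have e : (b.image g).image π = b := by
      rw [Finset.image_image]
      have : π ∘ g = id := funext hg
      rw [this, Finset.image_id]
    rw [e]
    refine ⟨?_, hb⟩
    rw [Finset.card_image_of_injective _ hg.injective, hP b hb]
  · intro B hB B' hB' x hx
    rw [Finset.mem_sdiff] at hx
    obtain ⟨h1, h2⟩ := mem_pull.1 hB
    obtain ⟨h3, h4⟩ := mem_pull.1 hB'
    have hinj := pull_inj hP hB
    by_cases hπx : π x ∈ B'.image π
    · obtain ⟨y, hy, hyx⟩ := Finset.mem_image.1 hπx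
      have hyB : y ∉ B := by
        intro hyB
        exact hx.2 (hinj hyB hx.1 hyx ▸ hy)
      refine ⟨y, Finset.mem_sdiff.2 ⟨hy, hyB⟩, ?_⟩
      apply pull_mem hP hB hx.1 hyB
      rw [hyx, Finset.insert_erase (Finset.mem_image_of_mem π hx.1)]
      exact h2
    · obtain ⟨t, ht, htP⟩ := hPm.2 _ h2 _ h4 (π x)
        (Finset.mem_sdiff.2 ⟨Finset.mem_image_of_mem π hx.1, hπx⟩)
      rw [Finset.mem_sdiff] at ht
      obtain ⟨y, hy, rfl⟩ := Finset.mem_image.1 ht.1
      have hyB : y ∉ B := fun h => ht.2 (Finset.mem_image_of_mem π h)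
      exact ⟨y, Finset.mem_sdiff.2 ⟨hy, hyB⟩, pull_mem hP hB hx.1 hyB htP⟩

lemma pull_count {π : E → α} {P : Finset (Finset α)} {r : ℕ} (hP : ∀ b ∈ P, b.card = r)
    {B : Finset E} (hB : B ∈ pull π P r) (A : Finset α) :
    (B ∩ Finset.univ.filter (fun x => π x ∈ A)).card = (B.image π ∩ A).card := by
  have hinj := pull_inj hP hB
  have e : B.image π ∩ A = (B ∩ Finset.univ.filter (fun x => π x ∈ A)).image π := by
    ext z
    simp only [Finset.mem_inter, Finset.mem_image, Finset.mem_filter, Finset.mem_univ, true_and]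
    constructor
    · rintro ⟨⟨u, hu, rfl⟩, h2⟩
      exact ⟨u, ⟨hu, h2⟩, rfl⟩
    · rintro ⟨u, ⟨hu, h2⟩, rfl⟩
      exact ⟨⟨u, hu, rfl⟩, h2⟩
  rw [e, Finset.card_image_of_injOn]
  intro a ha b hb h
  exact hinj (Finset.mem_coe.2 (Finset.mem_inter.1 (Finset.mem_coe.1 ha)).1)
    (Finset.mem_coe.2 (Finset.mem_inter.1 (Finset.mem_coe.1 hb)).1) h

/-- A split of a parallel extension. -/
lemma pull_split {π : E → α} {P : Finset (Finset α)} {r : ℕ} (hP : ∀ b ∈ P, b.card = r)
    (hsurj : Function.Surjective π) (A : Finset α) (k : ℕ)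
    (m1 : IsMatroid (P.filter (fun b => (b ∩ A).card ≤ k)))
    (m2 : IsMatroid (P.filter (fun b => k ≤ (b ∩ A).card)))
    (hex : ∀ b ∈ P, ∀ b' ∈ P, k < (b ∩ A).card → (b' ∩ A).card < k → ∃ s ∈ b, ∃ t ∈ b', s ∉ b' ∧
      t ∉ b ∧ insert t (b.erase s) ∈ P ∧ insert s (b'.erase t) ∈ P ∧
      (insert t (b.erase s) ∩ A).card + 1 = (b ∩ A).card ∧
      (insert s (b'.erase t) ∩ A).card = (b' ∩ A).card + 1) :
    IsMatroidSubdivision (pull π P r)
      {pull π (P.filter (fun b => (b ∩ A).card ≤ k)) r,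
        pull π (P.filter (fun b => k ≤ (b ∩ A).card)) r} := by
  set A' : Finset E := Finset.univ.filter (fun x => π x ∈ A) with hA'
  refine split_subdivision A' k (fun B => |((B ∩ A').card : ℝ) - k|) ?_ ?_ ?_ ?_ ?_
  · intro B
    rw [mem_pull, Finset.mem_filter]
    constructor
    · rintro ⟨h1, h2, h3⟩
      have : B ∈ pull π P r := mem_pull.2 ⟨h1, h2⟩
      refine ⟨this, ?_⟩
      rw [hA', pull_count hP this]; exact h3
    · rintro ⟨h1, h2⟩
      rw [hA', pull_count hP h1] at h2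
      exact ⟨(mem_pull.1 h1).1, (mem_pull.1 h1).2, h2⟩
  · intro B
    rw [mem_pull, Finset.mem_filter]
    constructor
    · rintro ⟨h1, h2, h3⟩
      have : B ∈ pull π P r := mem_pull.2 ⟨h1, h2⟩
      refine ⟨this, ?_⟩
      rw [hA', pull_count hP this]; exact h3
    · rintro ⟨h1, h2⟩
      rw [hA', pull_count hP h1] at h2
      exact ⟨(mem_pull.1 h1).1, (mem_pull.1 h1).2, h2⟩
  · exact pull_isMatroid (fun b hb => hP b (Finset.mem_filter.1 hb).1) m1 hsurj
  · exact pull_isMatroid (fun b hb => hP b (Finset.mem_filter.1 hb).1) m2 hsurj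
  · intro B1 hB1 B2 hB2 h1 h2
    have c1 := pull_count hP hB1 A
    have c2 := pull_count hP hB2 A
    rw [← hA'] at c1 c2
    obtain ⟨s, hs, t, ht, hsb, htb, h3, h4, h5, h6⟩ := hex _ (mem_pull.1 hB1).2 _
      (mem_pull.1 hB2).2 (by omega) (by omega)
    obtain ⟨x, hx, rfl⟩ := Finset.mem_image.1 hs
    obtain ⟨y, hy, rfl⟩ := Finset.mem_image.1 ht
    have hxB2 : x ∉ B2 := fun h => hsb (Finset.mem_image_of_mem π h)
    have hyB1 : y ∉ B1 := fun h => htb (Finset.mem_image_of_mem π h)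
    have hxy : x ≠ y := fun h => hyB1 (h ▸ hx)
    have m3 := pull_mem hP hB1 hx hyB1 h3
    have m4 := pull_mem hP hB2 hy hxB2 h4
    refine ⟨_, m3, _, m4, ?_, ?_⟩
    · intro i
      simp only [indic, Finset.mem_insert, Finset.mem_erase]
      by_cases e1 : i = x
      · subst e1
        simp [hx, hxB2, hxy]
      · by_cases e2 : i = y
        · subst e2
          simp [hy, hyB1, e1]
        · simp [e1, e2]
    · have c3 := pull_count hP m3 A
      have c4 := pull_count hP m4 A
      rw [pull_exchange hP hB1 hx, ← hA'] at c3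
      rw [pull_exchange hP hB2 hy, ← hA'] at c4
      have e3 : ((insert y (B1.erase x) ∩ A').card : ℝ) + 1 = ((B1 ∩ A').card : ℝ) := by
        rw [c3, c1]; exact_mod_cast h5
      have e4 : ((insert x (B2.erase y) ∩ A').card : ℝ) = ((B2 ∩ A').card : ℝ) + 1 := by
        rw [c4, c2]; exact_mod_cast h6
      have g1 : (k : ℝ) + 1 ≤ ((B1 ∩ A').card : ℝ) := by exact_mod_cast h1
      have g2 : ((B2 ∩ A').card : ℝ) + 1 ≤ (k : ℝ) := by exact_mod_cast h2
      rw [abs_of_nonneg (by linarith : (0 : ℝ) ≤ ((insert y (B1.erase x) ∩ A').card : ℝ) - k),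
        abs_of_nonpos (by linarith : ((insert x (B2.erase y) ∩ A').card : ℝ) - k ≤ 0),
        abs_of_nonneg (by linarith : (0 : ℝ) ≤ ((B1 ∩ A').card : ℝ) - k),
        abs_of_nonpos (by linarith : ((B2 ∩ A').card : ℝ) - k ≤ 0)]
      linarith

end pull

end Pool.Agent.V11152.MatroidSubdiv
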