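import Mathlib
import Pool.Agent.V11152.SubdivTools

/-!
# Finest subdivisions refining the subdivision given by a plane of lines with four points
-/

namespace Pool.Agent.V11152.PlaneSubdiv

open Finset Pool.Agent.V11152.MatroidSubdiv

variable {E : Type} [Fintype E] [DecidableEq E]

/-- `S'` refines `S` -/
def Refines (S' S : Set (Finset (Finset E))) : Prop := ∀ N' ∈ S', ∃ N ∈ S, poly N' ⊆ poly N

/-- `S` is a finest matroid subdivision of `poly P` -/
def IsFinest (P : Finset (Finset E)) (S : Set (Finset (Finset E))) : Prop :=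
  IsMatroidSubdivision P S ∧ ∀ S', IsMatroidSubdivision P S' → Refines S' S → Refines S S'

omit [Fintype E] in
lemma refines_refl (S : Set (Finset (Finset E))) : Refines S S := fun N hN => ⟨N, hN, subset_rfl⟩

omit [Fintype E] in
lemma refines_trans {S S' S'' : Set (Finset (Finset E))} (h1 : Refines S S') (h2 : Refines S' S'') :
    Refines S S'' := by
  intro N hN
  obtain ⟨N1, hN1, h3⟩ := h1 N hN
  obtain ⟨N2, hN2, h4⟩ := h2 N1 hN1
  exact ⟨N2, hN2, h3.trans h4⟩

/-- every subdivision has a finest refinement -/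
lemma exists_finest {P : Finset (Finset E)} {S0 : Set (Finset (Finset E))}
    (h0 : IsMatroidSubdivision P S0) : ∃ S, IsFinest P S ∧ Refines S S0 := by
  classical
  let r : Set (Finset (Finset E)) → Set (Finset (Finset E)) → Prop :=
    fun S' S => Refines S' S ∧ ¬ Refines S S'
  haveI : IsTrans _ r := ⟨fun a b c h1 h2 => ⟨refines_trans h1.1 h2.1, fun h =>
    h1.2 (refines_trans h2.1 h)⟩⟩
  haveI : Std.Irrefl r := ⟨fun a h => h.2 h.1⟩
  have hwf : WellFounded r := Finite.wellFounded_of_trans_of_irrefl r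
  obtain ⟨S, ⟨hS1, hS2⟩, hmin⟩ := hwf.has_min
    {S | IsMatroidSubdivision P S ∧ Refines S S0} ⟨S0, h0, refines_refl S0⟩
  refine ⟨S, ⟨hS1, ?_⟩, hS2⟩
  intro S' hS' href
  by_contra hcon
  exact hmin S' ⟨hS', refines_trans href hS2⟩ ⟨href, hcon⟩

section plane

variable (lines : Finset (Finset E))

/-- A system of lines -/
structure IsPlane : Prop where
  four : ∀ L ∈ lines, L.card = 4
  two : ∀ x y, x ≠ y → ∃ L ∈ lines, x ∈ L ∧ y ∈ L
  uniq : ∀ L ∈ lines, ∀ L' ∈ lines, L ≠ L' → (L ∩ L').card ≤ 1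

variable (E) in
/-- all triples -/
def U3 : Finset (Finset E) := Finset.univ.filter (fun B => B.card = 3)

/-- triples not on a line -/
def MP : Finset (Finset E) := Finset.univ.filter (fun B => B.card = 3 ∧ ∀ L ∈ lines, ¬ B ⊆ L)

/-- triples with at least two points on `L` -/
def NL (L : Finset E) : Finset (Finset E) :=
  Finset.univ.filter (fun B => B.card = 3 ∧ 2 ≤ (B ∩ L).card)

omit [DecidableEq E] in
lemma mem_U3 {B : Finset E} : B ∈ U3 E ↔ B.card = 3 := by simp [U3]

lemma mem_MP {B : Finset E} : B ∈ MP lines ↔ B.card = 3 ∧ ∀ L ∈ lines, ¬ B ⊆ L := by simp [MP]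

lemma mem_NL {L B : Finset E} : B ∈ NL L ↔ B.card = 3 ∧ 2 ≤ (B ∩ L).card := by simp [NL]

lemma NL_isMatroid {L : Finset E} (hL : 3 ≤ L.card) : IsMatroid (NL L) := by
  refine ⟨?_, ?_⟩
  · obtain ⟨T, hT1, hT2⟩ := Finset.exists_subset_card_eq hL
    refine ⟨T, mem_NL.2 ⟨hT2, ?_⟩⟩
    rw [Finset.inter_eq_left.2 hT1, hT2]
    norm_num
  · intro B hB B' hB' x hx
    rw [mem_NL] at hB hB'
    rw [Finset.mem_sdiff] at hx
    have hcard : ∀ y, y ∉ B → (insert y (B.erase x)).card = 3 := by
      intro y hy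
      rw [Finset.card_insert_of_notMem (by simp [hy]), Finset.card_erase_of_mem hx.1, hB.1]
    by_cases h : 2 ≤ ((B.erase x) ∩ L).card
    · obtain ⟨y, hy⟩ : (B' \ B).Nonempty := by
        rw [Finset.nonempty_iff_ne_empty]
        intro h0
        have := Finset.eq_of_subset_of_card_le (Finset.sdiff_eq_empty_iff_subset.1 h0)
          (by rw [hB.1, hB'.1])
        exact hx.2 (this ▸ hx.1)
      refine ⟨y, hy, mem_NL.2 ⟨hcard y (Finset.mem_sdiff.1 hy).2, h.trans (Finset.card_le_card ?_)⟩⟩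
      exact Finset.inter_subset_inter_right (Finset.subset_insert _ _)
    · push Not at h
      have h1 : (B' ∩ L).card > ((B.erase x) ∩ L).card := by omega
      obtain ⟨y, hy1, hy2⟩ := Finset.exists_mem_notMem_of_card_lt_card h1
      rw [Finset.mem_inter] at hy1
      have hyB : y ∉ B := by
        intro hyB
        apply hy2
        rw [Finset.mem_inter, Finset.mem_erase]
        exact ⟨⟨fun h => hx.2 (h ▸ hy1.1), hyB⟩, hy1.2⟩
      refine ⟨y, Finset.mem_sdiff.2 ⟨hy1.1, hyB⟩, mem_NL.2 ⟨hcard y hyB, ?_⟩⟩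
      have e : insert y (B.erase x) ∩ L = insert y ((B.erase x) ∩ L) := by
        rw [Finset.insert_inter_of_mem hy1.2]
      rw [e, Finset.card_insert_of_notMem hy2]
      have h2 : (B ∩ L).card ≤ ((B.erase x) ∩ L).card + 1 := by
        have : B ∩ L ⊆ insert x ((B.erase x) ∩ L) := by
          intro z hz
          rw [Finset.mem_inter] at hz
          by_cases hzx : z = x
          · rw [hzx]; exact Finset.mem_insert_self _ _
          · apply Finset.mem_insert_of_mem
            rw [Finset.mem_inter, Finset.mem_erase]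
            exact ⟨⟨hzx, hz.1⟩, hz.2⟩
        exact (Finset.card_le_card this).trans (Finset.card_insert_le _ _)
      omega

variable {lines}

omit [Fintype E] in
lemma line_eq (hP : IsPlane lines) {L L' : Finset E} (hL : L ∈ lines) (hL' : L' ∈ lines)
    {p q : E} (hpq : p ≠ q) (h1 : p ∈ L) (h2 : q ∈ L) (h3 : p ∈ L') (h4 : q ∈ L') : L = L' := by
  by_contra hne
  have h5 := hP.uniq L hL L' hL' hne
  have h6 : ({p, q} : Finset E) ⊆ L ∩ L' := by
    intro z hz
    rw [Finset.mem_insert, Finset.mem_singleton] at hz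
    rcases hz with rfl | rfl
    · exact Finset.mem_inter.2 ⟨h1, h3⟩
    · exact Finset.mem_inter.2 ⟨h2, h4⟩
  have h7 := Finset.card_le_card h6
  rw [Finset.card_pair hpq] at h7
  omega

lemma plane_cover (hP : IsPlane lines) {v : E → ℝ} (hv : v ∈ poly (U3 E)) :
    v ∈ poly (MP lines) ∨ ∃ L ∈ lines, v ∈ poly (NL L) := by
  classical
  let h : Finset E → ℝ := fun B => if ∃ L ∈ lines, B ⊆ L then 1 else 0
  obtain ⟨N', hN', hvN', hmin⟩ := cover hv h
  by_cases hall : ∀ B ∈ N', B ∈ MP lines
  · left; exact poly_mono hall hvN'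
  push Not at hall
  obtain ⟨T, hT, hTM⟩ := hall
  have hTc := mem_U3.1 (hN' hT)
  obtain ⟨L, hL, hTL⟩ : ∃ L ∈ lines, T ⊆ L := by
    by_contra hcon
    push Not at hcon
    exact hTM ((mem_MP lines).2 ⟨hTc, hcon⟩)
  right
  refine ⟨L, hL, poly_mono (fun B hB => ?_) hvN'⟩
  have hBc := mem_U3.1 (hN' hB)
  rw [mem_NL]
  refine ⟨hBc, ?_⟩
  by_contra hcon
  push Not at hcon
  -- a point of `B` outside `L`
  obtain ⟨y, hyB, hyL⟩ : ∃ y ∈ B, y ∉ L := by
    by_contra hc
    push Not at hc
    rw [Finset.inter_eq_left.2 hc] at hcon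
    omega
  obtain ⟨p, q, hpq, hBe⟩ : ∃ p q, p ≠ q ∧ B.erase y = {p, q} := by
    have : (B.erase y).card = 2 := by rw [Finset.card_erase_of_mem hyB, hBc]
    exact Finset.card_eq_two.1 this
  have hpB : p ∈ B.erase y := by rw [hBe]; simp
  have hqB : q ∈ B.erase y := by rw [hBe]; simp
  obtain ⟨L', hL', hpL', hqL'⟩ := hP.two p q hpq
  have hLL : L ≠ L' := by
    rintro rfl
    have : ({p, q} : Finset E) ⊆ B ∩ L := by
      intro z hz
      rw [Finset.mem_insert, Finset.mem_singleton] at hz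
      rcases hz with rfl | rfl
      · exact Finset.mem_inter.2 ⟨Finset.mem_of_mem_erase hpB, hpL'⟩
      · exact Finset.mem_inter.2 ⟨Finset.mem_of_mem_erase hqB, hqL'⟩
    have := Finset.card_le_card this
    rw [Finset.card_pair hpq] at this
    omega
  obtain ⟨x, hxT, hxL'⟩ : ∃ x ∈ T, x ∉ L' := by
    by_contra hc
    push Not at hc
    have h1 := hP.uniq L hL L' hL' hLL
    have h2 : T ⊆ L ∩ L' := fun z hz => Finset.mem_inter.2 ⟨hTL hz, hc z hz⟩
    have := Finset.card_le_card h2
    omega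
  have hxB : x ∉ B := by
    intro hxB
    have hxy : x ≠ y := fun h => hyL (h ▸ hTL hxT)
    have : x ∈ B.erase y := Finset.mem_erase.2 ⟨hxy, hxB⟩
    rw [hBe, Finset.mem_insert, Finset.mem_singleton] at this
    rcases this with rfl | rfl
    · exact hxL' hpL'
    · exact hxL' hqL'
  have hyT : y ∉ T := fun h => hyL (hTL h)
  have hxy : x ≠ y := fun h => hyT (h ▸ hxT)
  have h3 : insert y (T.erase x) ∈ U3 E := by
    rw [mem_U3, Finset.card_insert_of_notMem (by simp [hyT]), Finset.card_erase_of_mem hxT, hTc]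
  have h4 : insert x (B.erase y) ∈ U3 E := by
    rw [mem_U3, Finset.card_insert_of_notMem (by simp [hxB]), Finset.card_erase_of_mem hyB, hBc]
  have h5 := hmin T hT B hB _ h3 _ h4 (by
    intro i
    simp only [indic, Finset.mem_insert, Finset.mem_erase]
    by_cases e1 : i = x
    · subst e1
      simp [hxT, hxB, hxy]
    · by_cases e2 : i = y
      · subst e2
        simp [hyB, hyT, e1]
      · simp [e1, e2])
  have g1 : h T = 1 := if_pos ⟨L, hL, hTL⟩
  have g2 : 0 ≤ h B := by
    show (0 : ℝ) ≤ if _ then 1 else 0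
    split_ifs
    · exact zero_le_one
    · exact le_refl _
  have g3 : h (insert y (T.erase x)) = 0 := by
    apply if_neg
    rintro ⟨L'', hL'', hsub⟩
    obtain ⟨p', q', hpq', hTe⟩ : ∃ p q, p ≠ q ∧ T.erase x = {p, q} := by
      have : (T.erase x).card = 2 := by rw [Finset.card_erase_of_mem hxT, hTc]
      exact Finset.card_eq_two.1 this
    have hp' : p' ∈ T.erase x := by rw [hTe]; simp
    have hq' : q' ∈ T.erase x := by rw [hTe]; simp
    have := line_eq hP hL hL'' hpq' (hTL (Finset.mem_of_mem_erase hp'))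
      (hTL (Finset.mem_of_mem_erase hq')) (hsub (Finset.mem_insert_of_mem hp'))
      (hsub (Finset.mem_insert_of_mem hq'))
    exact hyL (this ▸ hsub (Finset.mem_insert_self _ _))
  have g4 : h (insert x (B.erase y)) = 0 := by
    apply if_neg
    rintro ⟨L'', hL'', hsub⟩
    have := line_eq hP hL' hL'' hpq hpL' hqL' (hsub (Finset.mem_insert_of_mem hpB))
      (hsub (Finset.mem_insert_of_mem hqB))
    exact hxL' (this ▸ hsub (Finset.mem_insert_self _ _))
  rw [g1, g3, g4] at h5
  linarith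

lemma MP_le {L : Finset E} (hL : L ∈ lines) {B : Finset E} (hB : B ∈ MP lines) :
    (B ∩ L).card ≤ 2 := by
  rw [mem_MP] at hB
  by_contra hcon
  push Not at hcon
  apply hB.2 L hL
  have : B ∩ L = B := Finset.eq_of_subset_of_card_le Finset.inter_subset_left (by omega)
  exact Finset.inter_eq_left.1 this

lemma mem_MP_of_two (hP : IsPlane lines) {L : Finset E} (hL : L ∈ lines) {B : Finset E}
    (hB : B.card = 3) (h2 : (B ∩ L).card = 2) : B ∈ MP lines := by
  rw [mem_MP]
  refine ⟨hB, ?_⟩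
  intro L' hL' hsub
  obtain ⟨p, q, hpq, he⟩ := Finset.card_eq_two.1 h2
  have hp : p ∈ B ∩ L := by rw [he]; simp
  have hq : q ∈ B ∩ L := by rw [he]; simp
  rw [Finset.mem_inter] at hp hq
  have := line_eq hP hL hL' hpq hp.2 hq.2 (hsub hp.1) (hsub hq.1)
  subst this
  rw [Finset.inter_eq_left.2 hsub] at h2
  omega

lemma plane_subdivision (hP : IsPlane lines) (hM : IsMatroid (MP lines)) :
    IsMatroidSubdivision (U3 E) ({MP lines} ∪ NL '' (lines : Set (Finset E))) := by
  refine ⟨?_, ?_, ?_⟩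
  · rintro N (rfl | ⟨L, hL, rfl⟩)
    · exact hM
    · exact NL_isMatroid (by rw [hP.four L hL]; norm_num)
  · apply Set.Subset.antisymm
    · apply Set.iUnion₂_subset
      rintro N (rfl | ⟨L, hL, rfl⟩)
      · exact poly_mono (fun B hB => mem_U3.2 ((mem_MP lines).1 hB).1)
      · exact poly_mono (fun B hB => mem_U3.2 (mem_NL.1 hB).1)
    · intro v hv
      rcases plane_cover hP hv with h | ⟨L, hL, h⟩
      · exact Set.mem_biUnion (x := MP lines) (Or.inl rfl) h
      · exact Set.mem_biUnion (x := NL L) (Or.inr ⟨L, hL, rfl⟩) h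
  · rintro N (rfl | ⟨L, hL, rfl⟩) N' (rfl | ⟨L', hL', rfl⟩)
    · exact inter_self_exposed _
    · exact inter_exposed L' 2 (fun B hB => MP_le hL' hB) (fun B hB => (mem_NL.1 hB).2)
        (fun B hB h => mem_NL.2 ⟨((mem_MP lines).1 hB).1, h.ge⟩)
    · exact inter_exposed' L 2 (fun B hB => (mem_NL.1 hB).2) (fun B hB => MP_le hL hB)
        (fun B hB h => mem_MP_of_two hP hL (mem_NL.1 hB).1 h)
    · by_cases hLL : L = L'
      · subst hLL
        exact inter_self_exposed _
      · refine inter_exposed L' 2 (fun B hB => ?_) (fun B hB => (mem_NL.1 hB).2)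
          (fun B hB h => mem_NL.2 ⟨(mem_NL.1 hB).1, h.ge⟩)
        rw [mem_NL] at hB
        have h1 := hP.uniq L hL L' hL' hLL
        have h2 : B ∩ L' ⊆ (L ∩ L') ∪ (B \ L) := by
          intro z hz
          rw [Finset.mem_inter] at hz
          by_cases hzL : z ∈ L
          · exact Finset.mem_union_left _ (Finset.mem_inter.2 ⟨hzL, hz.2⟩)
          · exact Finset.mem_union_right _ (Finset.mem_sdiff.2 ⟨hz.1, hzL⟩)
        have h3 := Finset.card_le_card h2
        have h4 := Finset.card_union_le (L ∩ L') (B \ L)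
        have h5 := Finset.card_sdiff_add_card_inter B L
        omega

end plane

end Pool.Agent.V11152.PlaneSubdiv
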