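import Mathlib
import Pool.Agent.V11152.PlaneSubdiv

/-!
# Decomposable cells in finest subdivisions
-/

namespace Pool.Agent.V11152.PlaneSubdiv

open Finset Pool.Agent.V11152.MatroidSubdiv

variable {E : Type} [Fintype E] [DecidableEq E]

/-- uniform weights -/
noncomputable def avgw (Q : Finset (Finset E)) : Finset E → ℝ :=
  fun B => if B ∈ Q then 1 / (Q.card : ℝ) else 0

/-- barycenter -/
noncomputable def avgv (Q : Finset (Finset E)) : E → ℝ := fun i => ∑ B, avgw Q B * indic B i

omit [Fintype E] in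
lemma avgw_nonneg (Q : Finset (Finset E)) (B : Finset E) : 0 ≤ avgw Q B := by
  unfold avgw
  split_ifs
  · positivity
  · exact le_refl _

omit [Fintype E] in
lemma avgw_pos {Q : Finset (Finset E)} {B : Finset E} (hB : B ∈ Q) : 0 < avgw Q B := by
  unfold avgw
  rw [if_pos hB]
  have : 0 < Q.card := Finset.card_pos.2 ⟨B, hB⟩
  positivity

lemma avgw_sum {Q : Finset (Finset E)} (hQ : Q.Nonempty) : ∑ B, avgw Q B = 1 := by
  unfold avgw
  rw [Finset.sum_ite_mem, Finset.univ_inter, Finset.sum_const, nsmul_eq_mul]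
  have : (Q.card : ℝ) ≠ 0 := by
    have := Finset.card_pos.2 hQ
    positivity
  field_simp

lemma avgv_mem {Q N : Finset (Finset E)} (hQ : Q.Nonempty) (hQN : Q ⊆ N) : avgv Q ∈ poly N := by
  rw [mem_poly_iff]
  refine ⟨avgw Q, avgw_nonneg Q, fun B hB => ?_, avgw_sum hQ, fun i => rfl⟩
  unfold avgw
  rw [if_neg (fun h => hB (hQN h))]

section plane

variable {lines : Finset (Finset E)}

lemma MP_mem_of_refines (hP : IsPlane lines) (hM : IsMatroid (MP lines))
    (hInd : ∀ S, IsMatroidSubdivision (MP lines) S → MP lines ∈ S)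
    (hsmall : ∀ L ∈ lines, ∃ B ∈ MP lines, (B ∩ L).card < 2)
    {S : Set (Finset (Finset E))} (hS : IsMatroidSubdivision (U3 E) S)
    (href : Refines S ({MP lines} ∪ NL '' (lines : Set (Finset E)))) : MP lines ∈ S := by
  have hMU : MP lines ⊆ U3 E := fun B hB => mem_U3.2 ((mem_MP lines).1 hB).1
  have hMne : (MP lines).Nonempty := hM.1
  have h1 : IsMatroidSubdivision (MP lines) {N ∈ S | N ⊆ MP lines} := by
    refine ⟨fun N hN => hS.1 N hN.1, ?_, fun N hN N' hN' => hS.2.2 N hN.1 N' hN'.1⟩
    apply Set.Subset.antisymm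
    · apply Set.iUnion₂_subset
      intro N hN
      exact poly_mono hN.2
    · intro v hv
      have hu : avgv (MP lines) ∈ poly (MP lines) := avgv_mem hMne subset_rfl
      obtain ⟨N, hN, hvN, t, ht0, ht1, hp⟩ := push hS (poly_mono hMU hv) (poly_mono hMU hu)
      refine Set.mem_biUnion (x := N) ⟨hN, ?_⟩ hvN
      obtain ⟨C, hC, hNC⟩ := href N hN
      rcases hC with rfl | ⟨L, hL, rfl⟩
      · exact subset_of_poly hNC
      · exfalso
        have h2 : (2 : ℝ) ≤ ∑ i ∈ L, ((1 - t) * v i + t * avgv (MP lines) i) :=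
          le_sum_of_poly (hNC hp) L 2 (fun B hB => by exact_mod_cast (mem_NL.1 hB).2)
        have h3 : ∑ i ∈ L, v i ≤ 2 :=
          sum_le_of_poly hv L 2 (fun B hB => by exact_mod_cast MP_le hL hB)
        have h4 : ∑ i ∈ L, avgv (MP lines) i < 2 := by
          rw [sum_rep (v := avgv (MP lines)) (w := avgw (MP lines)) (fun i => rfl)]
          obtain ⟨B, hB, hlt⟩ := hsmall L hL
          calc ∑ B, avgw (MP lines) B * ((B ∩ L).card : ℝ) < ∑ B, avgw (MP lines) B * 2 := by
                apply Finset.sum_lt_sum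
                · intro B' _
                  by_cases hB' : B' ∈ MP lines
                  · exact mul_le_mul_of_nonneg_left (by exact_mod_cast MP_le hL hB')
                      (avgw_nonneg _ _)
                  · unfold avgw; rw [if_neg hB']; simp
                · exact ⟨B, Finset.mem_univ _, mul_lt_mul_of_pos_left (by exact_mod_cast hlt)
                    (avgw_pos hB)⟩
            _ = 2 := by rw [← Finset.sum_mul, avgw_sum hMne, one_mul]
        rw [Finset.sum_add_distrib, ← Finset.mul_sum, ← Finset.mul_sum] at h2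
        nlinarith
  exact (hInd _ h1).1

lemma exists_cell_L (hP : IsPlane lines) (hM : IsMatroid (MP lines))
    (hInd : ∀ S, IsMatroidSubdivision (MP lines) S → MP lines ∈ S)
    (hsmall : ∀ L ∈ lines, ∃ B ∈ MP lines, (B ∩ L).card < 2)
    {S : Set (Finset (Finset E))} (hS : IsMatroidSubdivision (U3 E) S)
    (href : Refines S ({MP lines} ∪ NL '' (lines : Set (Finset E)))) {L : Finset E}
    (hL : L ∈ lines) (ho : ∃ o, o ∉ L) :
    ∃ N ∈ S, (∀ N' ∈ S, N ⊆ N' → N' = N) ∧ (∀ B, B.card = 3 → (B ∩ L).card = 2 → B ∈ N) ∧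
      (∃ T ∈ N, T ⊆ L) ∧ N ⊆ NL L := by
  classical
  have hMS := MP_mem_of_refines hP hM hInd hsmall hS href
  have hMU : MP lines ⊆ U3 E := fun B hB => mem_U3.2 ((mem_MP lines).1 hB).1
  let Fc : Finset (Finset E) := Finset.univ.filter (fun B => B.card = 3 ∧ (B ∩ L).card = 2)
  have hFM : Fc ⊆ MP lines := by
    intro B hB
    simp only [Fc, Finset.mem_filter, Finset.mem_univ, true_and] at hB
    exact mem_MP_of_two hP hL hB.1 hB.2
  have hFne : Fc.Nonempty := by
    obtain ⟨o, ho⟩ := ho
    obtain ⟨T, hT1, hT2⟩ := Finset.exists_subset_card_eq (show 2 ≤ L.card by rw [hP.four L hL]; norm_num)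
    have hoT : o ∉ T := fun h => ho (hT1 h)
    refine ⟨insert o T, ?_⟩
    simp only [Fc, Finset.mem_filter, Finset.mem_univ, true_and]
    rw [Finset.card_insert_of_notMem hoT, Finset.insert_inter_of_notMem ho,
      Finset.inter_eq_left.2 hT1, hT2]
    exact ⟨rfl, rfl⟩
  obtain ⟨T0, hT01, hT02⟩ := Finset.exists_subset_card_eq
    (show 3 ≤ L.card by rw [hP.four L hL]; norm_num)
  have hvM : avgv Fc ∈ poly (MP lines) := avgv_mem hFne hFM
  have huU : indic T0 ∈ poly (U3 E) := indic_mem _ _ (mem_U3.2 hT02)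
  obtain ⟨N0, hN0, hvN0, t, ht0, ht1, hp⟩ := push hS (poly_mono hMU hvM) huU
  have hF0 : ∀ B ∈ Fc, B ∈ N0 := by
    intro B hB
    refine common' hS hMS hN0 (avgw_nonneg Fc) (fun B hB => ?_) (avgw_sum hFne) (fun i => rfl)
      hvN0 (avgw_pos hB)
    unfold avgw
    rw [if_neg (fun h => hB (hFM h))]
  have hT0 : ∃ T ∈ N0, T ⊆ L := by
    by_contra hcon
    push Not at hcon
    have h1 : ∑ i ∈ L, ((1 - t) * avgv Fc i + t * indic T0 i) ≤ 2 := by
      refine sum_le_of_poly hp L 2 (fun B hB => ?_)
      have hB3 := mem_U3.1 (cell_subset hS hN0 hB)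
      have : ¬ 3 ≤ (B ∩ L).card := by
        intro h
        apply hcon B hB
        exact Finset.inter_eq_left.1
          (Finset.eq_of_subset_of_card_le Finset.inter_subset_left (by omega))
      have h2 : (B ∩ L).card ≤ 2 := by omega
      exact_mod_cast h2
    have h2 : ∑ i ∈ L, avgv Fc i = 2 := by
      rw [sum_rep (v := avgv Fc) (w := avgw Fc) (fun i => rfl)]
      calc ∑ B, avgw Fc B * ((B ∩ L).card : ℝ) = ∑ B, avgw Fc B * 2 := by
            refine Finset.sum_congr rfl ?_
            intro B _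
            by_cases hB : B ∈ Fc
            · simp only [Fc, Finset.mem_filter, Finset.mem_univ, true_and] at hB
              rw [hB.2]; norm_num
            · unfold avgw; rw [if_neg hB]; simp
        _ = 2 := by rw [← Finset.sum_mul, avgw_sum hFne, one_mul]
    have h3 : ∑ i ∈ L, indic T0 i = 3 := by
      rw [sum_indic, Finset.inter_eq_left.2 hT01, hT02]
      norm_num
    rw [Finset.sum_add_distrib, ← Finset.mul_sum, ← Finset.mul_sum, h2, h3] at h1
    linarith
  -- a maximal cell
  obtain ⟨N, hN0N, hNmax⟩ := (Set.toFinite S).exists_le_maximal hN0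
  refine ⟨N, hNmax.1, ?_, ?_, ?_, ?_⟩
  · intro N' hN' hNN'
    exact Finset.Subset.antisymm (hNmax.2 hN' hNN') hNN'
  · intro B h1 h2
    apply hN0N
    apply hF0
    simp only [Fc, Finset.mem_filter, Finset.mem_univ, true_and]
    exact ⟨h1, h2⟩
  · obtain ⟨T, hT, hTL⟩ := hT0
    exact ⟨T, hN0N hT, hTL⟩
  · obtain ⟨T, hT, hTL⟩ := hT0
    have hTN := hN0N hT
    obtain ⟨C, hC, hNC⟩ := href N hNmax.1
    have hNC' := subset_of_poly hNC
    rcases hC with rfl | ⟨L', hL', rfl⟩
    · exact absurd hTL (((mem_MP lines).1 (hNC' hTN)).2 L hL)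
    · by_cases hLL : L = L'
      · rw [hLL]; exact hNC'
      · exfalso
        have h1 := mem_NL.1 (hNC' hTN)
        have h2 := hP.uniq L hL L' hL' hLL
        have h3 : T ∩ L' ⊆ L ∩ L' := Finset.inter_subset_inter_right hTL
        have := Finset.card_le_card h3
        omega

/-- at most one triple of the line is missing -/
lemma triples {N : Finset (Finset E)} (hN : IsMatroid N) {L : Finset E} (hL : L.card = 4)
    (ho : ∃ o, o ∉ L) (h1 : ∀ B, B.card = 3 → (B ∩ L).card = 2 → B ∈ N)
    (h2 : ∃ T ∈ N, T ⊆ L) (h3 : N ⊆ NL L) {z z' : E} (hz : z ∈ L) (hz' : z' ∈ L) (hne : z ≠ z') :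
    L.erase z ∈ N ∨ L.erase z' ∈ N := by
  obtain ⟨o, ho⟩ := ho
  obtain ⟨T, hT, hTL⟩ := h2
  set P := (L.erase z).erase z' with hP
  have hPc : P.card = 2 := by
    rw [hP, Finset.card_erase_of_mem (Finset.mem_erase.2 ⟨Ne.symm hne, hz'⟩),
      Finset.card_erase_of_mem hz, hL]
  have hPL : P ⊆ L := (Finset.erase_subset _ _).trans (Finset.erase_subset _ _)
  have hoP : o ∉ P := fun h => ho (hPL h)
  have hB0 : insert o P ∈ N := by
    apply h1
    · rw [Finset.card_insert_of_notMem hoP, hPc]
    · rw [Finset.insert_inter_of_notMem ho, Finset.inter_eq_left.2 hPL, hPc]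
  have hoT : o ∉ T := fun h => ho (hTL h)
  obtain ⟨y, hy, hyN⟩ := hN.2 _ hB0 _ hT o
    (Finset.mem_sdiff.2 ⟨Finset.mem_insert_self _ _, hoT⟩)
  rw [Finset.mem_sdiff, Finset.mem_insert, not_or] at hy
  rw [Finset.erase_insert hoP] at hyN
  have hyL := hTL hy.1
  have hyP := hy.2.2
  rw [hP, Finset.mem_erase, Finset.mem_erase, not_and_or, not_and_or] at hyP
  rcases hyP with h | h | h
  · push Not at h
    left
    rw [h, hP, Finset.insert_erase (Finset.mem_erase.2 ⟨Ne.symm hne, hz'⟩)] at hyN
    exact hyN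
  · push Not at h
    right
    rw [h, hP, Finset.erase_right_comm, Finset.insert_erase (Finset.mem_erase.2 ⟨hne, hz⟩)] at hyN
    exact hyN
  · exact absurd hyL h

end plane

/-! ### The five element quotient -/

/-- the quotient map -/
def pi5 (a b c d : E) : E → Fin 5 :=
  fun x => if x = a then 0 else if x = b then 1 else if x = c then 2 else if x = d then 3 else 4

/-- triples of a five element set -/
def T5 : Finset (Finset (Fin 5)) := Finset.univ.filter (fun B => B.card = 3)

/-- all triples but one -/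
def T5' : Finset (Finset (Fin 5)) := Finset.univ.filter (fun B => B.card = 3 ∧ B ≠ {0, 1, 2})

omit [Fintype E] in
lemma pi5_facts {a b c d : E} (hab : a ≠ b) (hac : a ≠ c) (had : a ≠ d) (hbc : b ≠ c) (hbd : b ≠ d)
    (hcd : c ≠ d) : pi5 a b c d a = 0 ∧ pi5 a b c d b = 1 ∧ pi5 a b c d c = 2 ∧
    pi5 a b c d d = 3 ∧ (∀ x, x ∉ ({a, b, c, d} : Finset E) → pi5 a b c d x = 4) := by
  refine ⟨?_, ?_, ?_, ?_, ?_⟩
  · simp [pi5]
  · simp [pi5, Ne.symm hab]
  · simp [pi5, Ne.symm hac, Ne.symm hbc]
  · simp [pi5, Ne.symm had, Ne.symm hbd, Ne.symm hcd]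
  · intro x hx
    simp only [Finset.mem_insert, Finset.mem_singleton, not_or] at hx
    simp [pi5, hx.1, hx.2.1, hx.2.2.1, hx.2.2.2]

omit [Fintype E] in
lemma pi5_inj {a b c d : E} (hab : a ≠ b) (hac : a ≠ c) (had : a ≠ d) (hbc : b ≠ c) (hbd : b ≠ d)
    (hcd : c ≠ d) {x y : E} (hx : x ∈ ({a, b, c, d} : Finset E))
    (h : pi5 a b c d x = pi5 a b c d y) : x = y := by
  obtain ⟨e1, e2, e3, e4, e5⟩ := pi5_facts hab hac had hbc hbd hcd
  by_cases hy : y ∈ ({a, b, c, d} : Finset E)
  · simp only [Finset.mem_insert, Finset.mem_singleton] at hx hy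
    rcases hx with rfl | rfl | rfl | rfl <;> rcases hy with rfl | rfl | rfl | rfl <;>
      first
      | rfl
      | (exfalso; simp only [e1, e2, e3, e4] at h; revert h; decide)
  · exfalso
    rw [e5 y hy] at h
    simp only [Finset.mem_insert, Finset.mem_singleton] at hx
    rcases hx with rfl | rfl | rfl | rfl
    · rw [e1] at h; revert h; decide
    · rw [e2] at h; revert h; decide
    · rw [e3] at h; revert h; decide
    · rw [e4] at h; revert h; decide

omit [Fintype E] in
lemma image_card_iff {a b c d : E} (hab : a ≠ b) (hac : a ≠ c) (had : a ≠ d) (hbc : b ≠ c)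
    (hbd : b ≠ d) (hcd : c ≠ d) {B : Finset E} (hB : B.card = 3) :
    (B.image (pi5 a b c d)).card = 3 ↔ 2 ≤ (B ∩ {a, b, c, d}).card := by
  set L : Finset E := {a, b, c, d} with hL
  have h0 := Finset.card_sdiff_add_card_inter B L
  rw [← hB, Finset.card_image_iff]
  constructor
  · intro hinj
    by_contra hcon
    push Not at hcon
    have h1 : 1 < (B \ L).card := by omega
    obtain ⟨x, hx, y, hy, hxy⟩ := Finset.one_lt_card.1 h1
    rw [Finset.mem_sdiff] at hx hy
    apply hxy
    apply hinj hx.1 hy.1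
    rw [(pi5_facts hab hac had hbc hbd hcd).2.2.2.2 x hx.2,
      (pi5_facts hab hac had hbc hbd hcd).2.2.2.2 y hy.2]
  · intro h x hx y hy hxy
    by_cases hxL : x ∈ L
    · exact pi5_inj hab hac had hbc hbd hcd hxL hxy
    · by_cases hyL : y ∈ L
      · exact (pi5_inj hab hac had hbc hbd hcd hyL hxy.symm).symm
      · have h1 : (B \ L).card ≤ 1 := by omega
        exact Finset.card_le_one.1 h1 x (Finset.mem_sdiff.2 ⟨hx, hxL⟩) y
          (Finset.mem_sdiff.2 ⟨hy, hyL⟩)

omit [Fintype E] in
lemma pi5_surj {a b c d : E} (hab : a ≠ b) (hac : a ≠ c) (had : a ≠ d) (hbc : b ≠ c) (hbd : b ≠ d)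
    (hcd : c ≠ d) (ho : ∃ o, o ∉ ({a, b, c, d} : Finset E)) :
    Function.Surjective (pi5 a b c d) := by
  obtain ⟨e1, e2, e3, e4, e5⟩ := pi5_facts hab hac had hbc hbd hcd
  obtain ⟨o, ho⟩ := ho
  intro z
  fin_cases z
  · exact ⟨a, e1⟩
  · exact ⟨b, e2⟩
  · exact ⟨c, e3⟩
  · exact ⟨d, e4⟩
  · exact ⟨o, e5 o ho⟩

lemma pull_inj' {π : E → Fin 5} (hsurj : Function.Surjective π) {P P' : Finset (Finset (Fin 5))}
    (hP : ∀ b ∈ P, b.card = 3) (h : pull π P 3 ⊆ pull π P' 3) : P ⊆ P' := by
  obtain ⟨g, hg⟩ := hsurj.hasRightInverse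
  intro b hb
  have e : (b.image g).image π = b := by
    rw [Finset.image_image]
    have : π ∘ g = id := funext hg
    rw [this, Finset.image_id]
  have h1 : b.image g ∈ pull π P 3 := by
    rw [mem_pull, e]
    exact ⟨by rw [Finset.card_image_of_injective _ hg.injective, hP b hb], hb⟩
  have h2 := (mem_pull.1 (h h1)).2
  rwa [e] at h2

lemma T5_split {π : E → Fin 5} (hsurj : Function.Surjective π) :
    ∃ S, IsMatroidSubdivision (pull π T5 3) S ∧ pull π T5 3 ∉ S := by
  refine ⟨_, pull_split (P := T5) (by decide +kernel) hsurj {0, 1, 2} 2 ?_ ?_ ?_, ?_⟩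
  · unfold IsMatroid; decide +kernel
  · unfold IsMatroid; decide +kernel
  · decide +kernel
  · rintro (h | h)
    · have := pull_inj' hsurj (by decide +kernel) h.le
      revert this; decide +kernel
    · have := pull_inj' hsurj (by decide +kernel) h.le
      revert this; decide +kernel

lemma T5'_split {π : E → Fin 5} (hsurj : Function.Surjective π) :
    ∃ S, IsMatroidSubdivision (pull π T5' 3) S ∧ pull π T5' 3 ∉ S := by
  refine ⟨_, pull_split (P := T5') (by decide +kernel) hsurj {0, 1} 1 ?_ ?_ ?_, ?_⟩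
  · unfold IsMatroid; decide +kernel
  · unfold IsMatroid; decide +kernel
  · decide +kernel
  · rintro (h | h)
    · have := pull_inj' hsurj (by decide +kernel) h.le
      revert this; decide +kernel
    · have := pull_inj' hsurj (by decide +kernel) h.le
      revert this; decide +kernel

lemma erase_eq {L B : Finset E} (hL : L.card = 4) (hB : B.card = 3) (hBL : B ⊆ L) :
    ∃ z ∈ L, B = L.erase z := by
  have h1 : (L \ B).card = 1 := by
    rw [Finset.card_sdiff_of_subset hBL]; omega
  obtain ⟨z, hz⟩ := Finset.card_eq_one.1 h1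
  have hzm : z ∈ L \ B := by rw [hz]; exact Finset.mem_singleton_self z
  rw [Finset.mem_sdiff] at hzm
  refine ⟨z, hzm.1, ?_⟩
  apply Finset.eq_of_subset_of_card_le
  · intro w hw
    exact Finset.mem_erase.2 ⟨fun h => hzm.2 (h ▸ hw), hBL hw⟩
  · rw [Finset.card_erase_of_mem hzm.1]; omega

/-- The cell is decomposable. -/
lemma decomposable {N : Finset (Finset E)} (hN : IsMatroid N) {L : Finset E} (hL : L.card = 4)
    (ho : ∃ o, o ∉ L) (h1 : ∀ B, B.card = 3 → (B ∩ L).card = 2 → B ∈ N)
    (h2 : ∃ T ∈ N, T ⊆ L) (h3 : N ⊆ NL L) : ∃ S, IsMatroidSubdivision N S ∧ N ∉ S := by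
  classical
  -- choose `d`
  obtain ⟨d, hd, hdall⟩ : ∃ d ∈ L, ∀ z ∈ L, z ≠ d → L.erase z ∈ N := by
    by_cases h : ∃ d ∈ L, L.erase d ∉ N
    · obtain ⟨d, hd, hdN⟩ := h
      refine ⟨d, hd, fun z hz hzd => ?_⟩
      exact (triples hN hL ho h1 h2 h3 hz hd hzd).resolve_right hdN
    · push Not at h
      obtain ⟨d, hd⟩ : L.Nonempty := by rw [← Finset.card_pos]; omega
      exact ⟨d, hd, fun z hz _ => h z hz⟩
  have hc3 : (L.erase d).card = 3 := by rw [Finset.card_erase_of_mem hd, hL]
  obtain ⟨a, b, c, hab, hac, hbc, habc⟩ := Finset.card_eq_three.1 hc3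
  have ha : a ∈ L.erase d := by rw [habc]; simp
  have hb : b ∈ L.erase d := by rw [habc]; simp
  have hc : c ∈ L.erase d := by rw [habc]; simp
  rw [Finset.mem_erase] at ha hb hc
  have hLe : L = {a, b, c, d} := by
    rw [← Finset.insert_erase hd, habc]
    ext z
    simp only [Finset.mem_insert, Finset.mem_singleton]
    tauto
  obtain ⟨e1, e2, e3, e4, e5⟩ := pi5_facts hab hac ha.1 hbc hb.1 hc.1
  have hsurj : Function.Surjective (pi5 a b c d) :=
    pi5_surj hab hac ha.1 hbc hb.1 hc.1 (by rw [← hLe]; exact ho)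
  have hiff : ∀ B : Finset E, B.card = 3 →
      ((B.image (pi5 a b c d)).card = 3 ↔ 2 ≤ (B ∩ L).card) := by
    intro B hB
    rw [hLe]
    exact image_card_iff hab hac ha.1 hbc hb.1 hc.1 hB
  have himg : ({a, b, c} : Finset E).image (pi5 a b c d) = {0, 1, 2} := by
    rw [Finset.image_insert, Finset.image_insert, Finset.image_singleton, e1, e2, e3]
  -- bases of `N`
  have hmem : ∀ B : Finset E, B.card = 3 → 2 ≤ (B ∩ L).card → B ≠ L.erase d → B ∈ N := by
    intro B hB h2 hne
    by_cases h : (B ∩ L).card = 2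
    · exact h1 B hB h
    · have hle : (B ∩ L).card ≤ B.card := Finset.card_le_card Finset.inter_subset_left
      have hBL : B ⊆ L := Finset.inter_eq_left.1
        (Finset.eq_of_subset_of_card_le Finset.inter_subset_left (by omega))
      obtain ⟨z, hz, rfl⟩ := erase_eq hL hB hBL
      exact hdall z hz (fun h => hne (by rw [h]))
  by_cases hdN : L.erase d ∈ N
  · have hNe : N = pull (pi5 a b c d) T5 3 := by
      ext B
      rw [mem_pull]
      constructor
      · intro hB
        have := mem_NL.1 (h3 hB)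
        refine ⟨this.1, ?_⟩
        simp only [T5, Finset.mem_filter, Finset.mem_univ, true_and]
        exact (hiff B this.1).2 this.2
      · rintro ⟨hB, hB2⟩
        simp only [T5, Finset.mem_filter, Finset.mem_univ, true_and] at hB2
        by_cases hBd : B = L.erase d
        · rw [hBd]; exact hdN
        · exact hmem B hB ((hiff B hB).1 hB2) hBd
    rw [hNe]
    exact T5_split hsurj
  · have hNe : N = pull (pi5 a b c d) T5' 3 := by
      ext B
      rw [mem_pull]
      simp only [T5', Finset.mem_filter, Finset.mem_univ, true_and]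
      constructor
      · intro hB
        have := mem_NL.1 (h3 hB)
        refine ⟨this.1, (hiff B this.1).2 this.2, ?_⟩
        intro h
        apply hdN
        have hBe : B = L.erase d := by
          rw [habc]
          apply Finset.eq_of_subset_of_card_le
          · intro x hx
            have hx' : pi5 a b c d x ∈ ({0, 1, 2} : Finset (Fin 5)) := by
              rw [← h]; exact Finset.mem_image_of_mem _ hx
            simp only [Finset.mem_insert, Finset.mem_singleton] at hx'
            rcases hx' with h' | h' | h'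
            · have := pi5_inj hab hac ha.1 hbc hb.1 hc.1 (x := a) (y := x) (by simp)
                (by rw [e1, h'])
              rw [← this]; simp
            · have := pi5_inj hab hac ha.1 hbc hb.1 hc.1 (x := b) (y := x) (by simp)
                (by rw [e2, h'])
              rw [← this]; simp
            · have := pi5_inj hab hac ha.1 hbc hb.1 hc.1 (x := c) (y := x) (by simp)
                (by rw [e3, h'])
              rw [← this]; simp
          · rw [this.1, ← habc, hc3]
        rw [← hBe]; exact hB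
      · rintro ⟨hB, hB2, hB3⟩
        refine hmem B hB ((hiff B hB).1 hB2) ?_
        rintro rfl
        apply hB3
        rw [habc, himg]
    rw [hNe]
    exact T5'_split hsurj

end Pool.Agent.V11152.PlaneSubdiv
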