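import Mathlib
import Pool.Agent.V11152.MatroidSubdiv4

/-!
# Projective geometries: octahedra in matroid subdivisions
-/

namespace Pool.Agent.V11152.ProjGeom

open Finset Pool.Agent.V11152.MatroidSubdiv

variable {F : Type} [Field F] {r : ℕ} {E : Type} [Fintype E] [DecidableEq E]

/-- the span of a set of points -/
def W (φ : E → (Fin r → F)) (K : Finset E) : Submodule F (Fin r → F) :=
  Submodule.span F (φ '' (K : Set E))

/-- `φ` picks a representative for every point, `pt` the point of a vector -/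
structure Geo (φ : E → (Fin r → F)) (pt : (Fin r → F) → E) : Prop where
  h1 : ∀ v, v ≠ 0 → Submodule.span F {φ (pt v)} = Submodule.span F {v}
  h2 : ∀ e, pt (φ e) = e
  h3 : ∀ e, φ e ≠ 0

section basic

variable (φ : E → (Fin r → F))

omit [Fintype E] [DecidableEq E] in
lemma phi_mem {K : Finset E} {x : E} (hx : x ∈ K) : φ x ∈ W φ K :=
  Submodule.subset_span ⟨x, hx, rfl⟩

omit [Fintype E] [DecidableEq E] in
lemma W_le {K : Finset E} {L : Submodule F (Fin r → F)} : W φ K ≤ L ↔ ∀ x ∈ K, φ x ∈ L := by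
  unfold W
  rw [Submodule.span_le]
  constructor
  · intro h x hx
    exact h ⟨x, hx, rfl⟩
  · rintro h _ ⟨x, hx, rfl⟩
    exact h x hx

omit [Fintype E] [DecidableEq E] in
lemma W_mono {K K' : Finset E} (h : K ⊆ K') : W φ K ≤ W φ K' :=
  (W_le φ).2 (fun _ hx => phi_mem φ (h hx))

omit [Fintype E] [DecidableEq E] in
lemma W_ne_top {K : Finset E} (h : K.card < r) : W φ K ≠ ⊤ := by
  classical
  intro htop
  have h1 : Module.finrank F (W φ K) ≤ K.card := by
    unfold W
    have := finrank_span_finset_le_card (R := F) (K.image φ)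
    rw [Finset.coe_image] at this
    exact le_trans this Finset.card_image_le
  rw [htop, finrank_top, Module.finrank_fin_fun] at h1
  omega

omit [Fintype E] in
lemma W_insert_of_mem {K : Finset E} {x : E} (hx : φ x ∈ W φ K) : W φ (insert x K) = W φ K := by
  apply le_antisymm
  · rw [W_le]
    intro y hy
    rw [Finset.mem_insert] at hy
    rcases hy with rfl | hy
    · exact hx
    · exact phi_mem φ hy
  · exact W_mono φ (Finset.subset_insert _ _)

omit [Fintype E] in
lemma insert_exchange {K : Finset E} {x y : E} (h1 : W φ (insert x K) = ⊤) (h2 : φ y ∉ W φ K) :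
    W φ (insert y K) = ⊤ := by
  have hx : φ x ∈ W φ (insert y K) := by
    unfold W at h1 h2 ⊢
    rw [Finset.coe_insert, Set.image_insert_eq] at h1 ⊢
    exact mem_span_insert_exchange (by rw [h1]; trivial) h2
  rw [eq_top_iff, ← h1, W_le]
  intro z hz
  rw [Finset.mem_insert] at hz
  rcases hz with rfl | hz
  · exact hx
  · exact phi_mem φ (Finset.mem_insert_of_mem hz)

end basic

section matroid

variable {φ : E → (Fin r → F)} {M : Finset (Finset E)}

omit [Fintype E] in
lemma notMem_of_phi (hM : ∀ B, B ∈ M ↔ B.card = r ∧ W φ B = ⊤) {K : Finset E} {x : E}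
    (hc : K.card < r) (hx : φ x ∈ W φ K) : insert x K ∉ M := by
  intro h
  have := ((hM _).1 h).2
  rw [W_insert_of_mem φ hx] at this
  exact W_ne_top φ hc this

omit [Fintype E] [DecidableEq E] in
lemma mem_of_span (hM : ∀ B, B ∈ M ↔ B.card = r ∧ W φ B = ⊤) {B : Finset E}
    (hc : B.card ≤ r) (hx : W φ B = ⊤) : B ∈ M := by
  rw [hM]
  refine ⟨?_, hx⟩
  by_contra hne
  exact W_ne_top φ (lt_of_le_of_ne hc hne) hx

omit [Fintype E] in
lemma isMatroid (hM : ∀ B, B ∈ M ↔ B.card = r ∧ W φ B = ⊤) (hne : M.Nonempty) :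
    IsMatroid M := by
  refine ⟨hne, ?_⟩
  intro B hB B' hB' x hx
  rw [Finset.mem_sdiff] at hx
  obtain ⟨h1, h2⟩ := (hM B).1 hB
  obtain ⟨h3, h4⟩ := (hM B').1 hB'
  have hcard : (B.erase x).card < r := by
    rw [Finset.card_erase_of_mem hx.1, h1]
    have := Finset.card_pos.2 ⟨x, hx.1⟩
    omega
  have hex : ∃ y ∈ B', φ y ∉ W φ (B.erase x) := by
    by_contra hcon
    push Not at hcon
    apply W_ne_top φ hcard
    rw [eq_top_iff, ← h4, W_le]
    exact hcon
  obtain ⟨y, hy, hyW⟩ := hex
  have hyB : y ∉ B := by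
    intro hyB
    apply hyW
    apply phi_mem
    rw [Finset.mem_erase]
    refine ⟨?_, hyB⟩
    rintro rfl
    exact hx.2 hy
  refine ⟨y, Finset.mem_sdiff.2 ⟨hy, hyB⟩, ?_⟩
  apply mem_of_span hM
  · exact (Finset.card_insert_le _ _).trans (by omega)
  · apply insert_exchange φ _ hyW (x := x)
    rw [Finset.insert_erase hx.1, h2]

omit [Fintype E] in
lemma i2_facts (hM : ∀ B, B ∈ M ↔ B.card = r ∧ W φ B = ⊤) {K : Finset E} {x y : E}
    (hK : K.card + 2 = r) (h : i2 K x y ∈ M) : x ∉ K ∧ y ∉ K ∧ x ≠ y := by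
  have h1 := ((hM _).1 h).1
  unfold i2 at h1
  refine ⟨?_, ?_, ?_⟩
  · intro hx
    rw [Finset.insert_comm, Finset.insert_eq_of_mem hx] at h1
    have := Finset.card_insert_le y K
    omega
  · intro hy
    rw [Finset.insert_eq_of_mem hy] at h1
    have := Finset.card_insert_le x K
    omega
  · rintro rfl
    rw [Finset.insert_idem] at h1
    have := Finset.card_insert_le x K
    omega

omit [Fintype E] in
lemma i2_insert_facts (hM : ∀ B, B ∈ M ↔ B.card = r ∧ W φ B = ⊤) {K0 : Finset E} {k x y : E}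
    (hK : K0.card + 3 = r) (h : i2 (insert k K0) x y ∈ M) :
    x ∉ K0 ∧ y ∉ K0 ∧ k ∉ K0 ∧ x ≠ y ∧ x ≠ k ∧ y ≠ k := by
  have hk : k ∉ K0 := by
    intro hk
    have h1 := ((hM _).1 h).1
    unfold i2 at h1
    rw [Finset.insert_eq_of_mem hk] at h1
    have e1 := Finset.card_insert_le y K0
    have e2 := Finset.card_insert_le x (insert y K0)
    omega
  obtain ⟨h1, h2, h3⟩ := i2_facts hM (by rw [Finset.card_insert_of_notMem hk]; omega) h
  rw [Finset.mem_insert, not_or] at h1 h2
  exact ⟨h1.2, h2.2, hk, h3, h1.1, h2.1⟩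

/-- parallel move -/
lemma par (hM : ∀ B, B ∈ M ↔ B.card = r ∧ W φ B = ⊤) {S : Set (Finset (Finset E))}
    (hS : IsMatroidSubdivision M S) {K : Finset E} (hK : K.card + 2 = r) {x y z t y' : E}
    (h : Tog S (i2 K x y) (i2 K z t)) (hy' : i2 K x y' ∈ M) (hp : φ y' ∈ W φ (insert y K)) :
    Tog S (i2 K x y') (i2 K z t) := by
  obtain ⟨hx, hy, hxy⟩ := i2_facts hM hK (h.left_mem hS)
  obtain ⟨_, hy'K, hxy'⟩ := i2_facts hM hK hy'
  by_cases hyy : y' = y
  · rw [hyy]; exact h
  have ee : (i2 K x y).erase y = insert x K := by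
    unfold i2
    rw [Finset.insert_comm, Finset.erase_insert]
    simp [Ne.symm hxy, hy]
  have e1 : insert y' ((i2 K x y).erase y) = i2 K x y' := by
    rw [ee]; unfold i2; rw [Finset.insert_comm]
  have h2 := move' hS h (e := y') (f := y) (by simp [i2]) (by simp [i2, hyy, Ne.symm hxy', hy'K])
    (by rw [e1]; exact hy') (by
      intro g hg hgy
      rw [Finset.mem_sdiff] at hg
      have hgK : g ∉ K := fun h => hg.2 (by simp [i2, h])
      have hgx : g = x := by
        have := hg.1
        simp only [i2, Finset.mem_insert] at this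
        rcases this with h | h | h
        · exact h
        · exact absurd h hgy
        · exact absurd h hgK
      rw [hgx]
      have e2 : (i2 K x y).erase x = insert y K := by
        unfold i2
        rw [Finset.erase_insert]
        simp [hxy, hx]
      rw [e2]
      apply notMem_of_phi hM _ hp
      rw [Finset.card_insert_of_notMem hy]
      omega)
  rw [e1] at h2
  exact h2

/-- prism move -/
lemma prism (hM : ∀ B, B ∈ M ↔ B.card = r ∧ W φ B = ⊤) {S : Set (Finset (Finset E))}
    (hS : IsMatroidSubdivision M S) {K0 : Finset E} (hK0 : K0.card + 3 = r) {k p x y z t : E}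
    (h : Tog S (i2 (insert k K0) x y) (i2 (insert k K0) z t))
    (hz : φ z ∈ W φ (i2 K0 x y)) (ht : φ t ∈ W φ (i2 K0 x y))
    (hx : φ x ∈ W φ (i2 K0 z t)) (hy : φ y ∈ W φ (i2 K0 z t))
    (h1 : i2 (insert p K0) x y ∈ M) (h2 : i2 (insert p K0) z t ∈ M) :
    Tog S (i2 (insert p K0) x y) (i2 (insert p K0) z t) := by
  by_cases hpk : p = k
  · rw [hpk]; exact h
  have ee : ∀ k x y : E, x ≠ k → y ≠ k → k ∉ K0 → (i2 (insert k K0) x y).erase k = i2 K0 x y := by
    intro k x y hxk hyk hk
    unfold i2
    rw [Finset.erase_insert_of_ne hxk, Finset.erase_insert_of_ne hyk, Finset.erase_insert hk]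
  have ei : ∀ p x y : E, insert p (i2 K0 x y) = i2 (insert p K0) x y := by
    intro p x y
    unfold i2
    rw [Finset.insert_comm, Finset.insert_comm p y]
  have hcard : ∀ x y : E, (i2 K0 x y).card < r := by
    intro x y
    unfold i2
    have e1 := Finset.card_insert_le x (insert y K0)
    have e2 := Finset.card_insert_le y K0
    omega
  obtain ⟨f1, f2, f3, f4, f5, f6⟩ := i2_insert_facts hM hK0 (h.left_mem hS)
  obtain ⟨g1, g2, g3, g4, g5, g6⟩ := i2_insert_facts hM hK0 (h.right_mem hS)
  obtain ⟨a1, a2, a3, a4, a5, a6⟩ := i2_insert_facts hM hK0 h1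
  obtain ⟨b1, b2, b3, b4, b5, b6⟩ := i2_insert_facts hM hK0 h2
  have s1 : Tog S (i2 (insert p K0) x y) (i2 (insert k K0) z t) := by
    have := move hS h (e := p) (f := k) (by simp [i2])
      (by simp [i2, Ne.symm a5, Ne.symm a6, hpk, a3])
      (by rw [ee k x y f5 f6 f3, ei]; exact h1) (by
        intro u hu hup
        rw [Finset.mem_sdiff] at hu
        rw [ee k x y f5 f6 f3]
        have hu1 := hu.1
        simp only [i2, Finset.mem_insert] at hu1
        have huk : u ≠ k := fun h => hu.2 (by simp [i2, h])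
        have huK : u ∉ K0 := fun h => hu.2 (by simp [i2, h])
        rcases hu1 with rfl | rfl | rfl | hu1
        · exact notMem_of_phi hM (hcard _ _) hz
        · exact notMem_of_phi hM (hcard _ _) ht
        · exact absurd rfl huk
        · exact absurd hu1 huK)
    rw [ee k x y f5 f6 f3, ei] at this
    exact this
  have s2 : Tog S (i2 (insert p K0) z t) (i2 (insert p K0) x y) := by
    have := move hS s1.symm (e := p) (f := k) (by simp [i2])
      (by simp [i2, Ne.symm b5, Ne.symm b6, hpk, b3])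
      (by rw [ee k z t g5 g6 g3, ei]; exact h2) (by
        intro u hu hup
        rw [Finset.mem_sdiff] at hu
        rw [ee k z t g5 g6 g3]
        have hu1 := hu.1
        simp only [i2, Finset.mem_insert] at hu1
        have huK : u ∉ K0 := fun h => hu.2 (by simp [i2, h])
        rcases hu1 with rfl | rfl | rfl | hu1
        · exact notMem_of_phi hM (hcard _ _) hx
        · exact notMem_of_phi hM (hcard _ _) hy
        · exact absurd rfl hup
        · exact absurd hu1 huK)
    rw [ee k z t g5 g6 g3, ei] at this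
    exact this
  exact s2.symm

end matroid

end Pool.Agent.V11152.ProjGeom
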