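import Mathlib
import Pool.Agent.V11152.ProjGeom

/-!
# Projective geometries: the scaling argument
-/

namespace Pool.Agent.V11152.ProjGeom

open Finset Pool.Agent.V11152.MatroidSubdiv

variable {F : Type} [Field F] {r : ℕ} {E : Type} [Fintype E] [DecidableEq E]

/-- `x` is the point of the vector `v` -/
def IsPt (φ : E → (Fin r → F)) (x : E) (v : Fin r → F) : Prop :=
  ∀ L : Submodule F (Fin r → F), φ x ∈ L ↔ v ∈ L

omit [Fintype E] [DecidableEq E] in
lemma isPt_pt {φ : E → (Fin r → F)} {pt : (Fin r → F) → E} (hG : Geo φ pt) {v : Fin r → F}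
    (hv : v ≠ 0) : IsPt φ (pt v) v := by
  intro L
  rw [← Submodule.span_singleton_le_iff_mem, hG.h1 v hv, Submodule.span_singleton_le_iff_mem]

omit [Fintype E] [DecidableEq E] in
lemma isPt_self (φ : E → (Fin r → F)) (x : E) : IsPt φ x (φ x) := fun _ => Iff.rfl

section

variable {φ : E → (Fin r → F)} {M : Finset (Finset E)}

omit [Fintype E] in
lemma mem2 {K : Finset E} {x y z : E} {vx vy vz : Fin r → F} (hx : IsPt φ x vx)
    (hy : IsPt φ y vy) (hz : IsPt φ z vz) (c1 c2 : F) (hv : vz = c1 • vx + c2 • vy) :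
    φ z ∈ W φ (i2 K x y) := by
  rw [hz, hv]
  refine Submodule.add_mem _ (Submodule.smul_mem _ _ ?_) (Submodule.smul_mem _ _ ?_)
  · rw [← hx]; exact phi_mem φ (by simp [i2])
  · rw [← hy]; exact phi_mem φ (by simp [i2])

omit [Fintype E] in
lemma gen3 (hM : ∀ B, B ∈ M ↔ B.card = r ∧ W φ B = ⊤) {K0 : Finset E} (hK0 : K0.card + 3 = r)
    {k0 a d : E} (hb : i2 (insert k0 K0) a d ∈ M) {p x y : E} {vp vx vy : Fin r → F}
    (hp : IsPt φ p vp) (hx : IsPt φ x vx) (hy : IsPt φ y vy)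
    (hw : ∃ c1 c2 c3 : F, φ k0 = c1 • vp + c2 • vx + c3 • vy)
    (h1 : ∃ c1 c2 c3 : F, φ a = c1 • vp + c2 • vx + c3 • vy)
    (h2 : ∃ c1 c2 c3 : F, φ d = c1 • vp + c2 • vx + c3 • vy) : i2 (insert p K0) x y ∈ M := by
  apply mem_of_span hM
  · unfold i2
    have e1 := Finset.card_insert_le x (insert y (insert p K0))
    have e2 := Finset.card_insert_le y (insert p K0)
    have e3 := Finset.card_insert_le p K0
    omega
  · have mp : vp ∈ W φ (i2 (insert p K0) x y) := by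
      rw [← hp]; exact phi_mem φ (by simp [i2])
    have mx : vx ∈ W φ (i2 (insert p K0) x y) := by
      rw [← hx]; exact phi_mem φ (by simp [i2])
    have my : vy ∈ W φ (i2 (insert p K0) x y) := by
      rw [← hy]; exact phi_mem φ (by simp [i2])
    have key : ∀ v : Fin r → F, (∃ c1 c2 c3 : F, v = c1 • vp + c2 • vx + c3 • vy) →
        v ∈ W φ (i2 (insert p K0) x y) := by
      rintro v ⟨c1, c2, c3, rfl⟩
      exact Submodule.add_mem _ (Submodule.add_mem _ (Submodule.smul_mem _ _ mp)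
        (Submodule.smul_mem _ _ mx)) (Submodule.smul_mem _ _ my)
    rw [eq_top_iff, ← ((hM _).1 hb).2, W_le]
    intro z hz
    simp only [i2, Finset.mem_insert] at hz
    rcases hz with rfl | rfl | rfl | hz
    · exact key _ h1
    · exact key _ h2
    · exact key _ hw
    · exact phi_mem φ (by simp [i2, hz])

omit [Fintype E] in
/-- independence of the three vectors -/
lemma ind (hM : ∀ B, B ∈ M ↔ B.card = r ∧ W φ B = ⊤) {K0 : Finset E} (hK0 : K0.card + 3 = r)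
    {k0 a d : E} (hb : i2 (insert k0 K0) a d ∈ M) (c1 c2 c3 : F)
    (h : c1 • φ k0 + c2 • φ a + c3 • φ d ∈ W φ K0) : c1 = 0 ∧ c2 = 0 ∧ c3 = 0 := by
  have hc : ∀ x y : E, (i2 K0 x y).card < r := by
    intro x y
    unfold i2
    have e1 := Finset.card_insert_le x (insert y K0)
    have e2 := Finset.card_insert_le y K0
    omega
  have hle : ∀ x y, W φ K0 ≤ W φ (i2 K0 x y) := fun x y => W_mono φ (by
    intro z hz; simp [i2, hz])
  have hx : ∀ x y, φ x ∈ W φ (i2 K0 x y) := fun x y => phi_mem φ (by simp [i2])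
  have hy : ∀ x y, φ y ∈ W φ (i2 K0 x y) := fun x y => phi_mem φ (by simp [i2])
  refine ⟨?_, ?_, ?_⟩
  · by_contra h0
    have : φ k0 ∈ W φ (i2 K0 a d) := by
      rw [← Submodule.smul_mem_iff _ h0]
      have e : c1 • φ k0 = (c1 • φ k0 + c2 • φ a + c3 • φ d) - c2 • φ a - c3 • φ d := by (match_scalars <;> (try field_simp) <;> (try ring))
      rw [e]
      exact Submodule.sub_mem _ (Submodule.sub_mem _ (hle _ _ h) (Submodule.smul_mem _ _ (hx _ _)))
        (Submodule.smul_mem _ _ (hy _ _))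
    apply notMem_of_phi hM (hc a d) this
    have e : insert k0 (i2 K0 a d) = i2 (insert k0 K0) a d := by
      unfold i2
      rw [Finset.insert_comm, Finset.insert_comm k0 d]
    rw [e]; exact hb
  · by_contra h0
    have : φ a ∈ W φ (i2 K0 d k0) := by
      rw [← Submodule.smul_mem_iff _ h0]
      have e : c2 • φ a = (c1 • φ k0 + c2 • φ a + c3 • φ d) - c1 • φ k0 - c3 • φ d := by (match_scalars <;> (try field_simp) <;> (try ring))
      rw [e]
      exact Submodule.sub_mem _ (Submodule.sub_mem _ (hle _ _ h) (Submodule.smul_mem _ _ (hy _ _)))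
        (Submodule.smul_mem _ _ (hx _ _))
    exact notMem_of_phi hM (hc d k0) this hb
  · by_contra h0
    have : φ d ∈ W φ (i2 K0 a k0) := by
      rw [← Submodule.smul_mem_iff _ h0]
      have e : c3 • φ d = (c1 • φ k0 + c2 • φ a + c3 • φ d) - c1 • φ k0 - c2 • φ a := by (match_scalars <;> (try field_simp) <;> (try ring))
      rw [e]
      exact Submodule.sub_mem _ (Submodule.sub_mem _ (hle _ _ h) (Submodule.smul_mem _ _ (hy _ _)))
        (Submodule.smul_mem _ _ (hx _ _))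
    apply notMem_of_phi hM (hc a k0) this
    have e : insert d (i2 K0 a k0) = i2 (insert k0 K0) a d := by
      unfold i2
      rw [Finset.insert_comm]
    rw [e]; exact hb

/-- parallel move, first element -/
lemma par1 (hM : ∀ B, B ∈ M ↔ B.card = r ∧ W φ B = ⊤) {S : Set (Finset (Finset E))}
    (hS : IsMatroidSubdivision M S) {K : Finset E} (hK : K.card + 2 = r) {x y z t x' : E}
    (h : Tog S (i2 K x y) (i2 K z t)) (hx' : i2 K x' y ∈ M) (hp : φ x' ∈ W φ (insert x K)) :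
    Tog S (i2 K x' y) (i2 K z t) := by
  rw [i2_comm K x'] at hx' ⊢
  rw [i2_comm K x] at h
  exact par hM hS hK h hx' hp

/-- parallel move, third element -/
lemma par3 (hM : ∀ B, B ∈ M ↔ B.card = r ∧ W φ B = ⊤) {S : Set (Finset (Finset E))}
    (hS : IsMatroidSubdivision M S) {K : Finset E} (hK : K.card + 2 = r) {x y z t z' : E}
    (h : Tog S (i2 K x y) (i2 K z t)) (hz' : i2 K z' t ∈ M) (hp : φ z' ∈ W φ (insert z K)) :
    Tog S (i2 K x y) (i2 K z' t) :=
  (par1 hM hS hK h.symm hz' hp).symm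

/-- parallel move, fourth element -/
lemma par4 (hM : ∀ B, B ∈ M ↔ B.card = r ∧ W φ B = ⊤) {S : Set (Finset (Finset E))}
    (hS : IsMatroidSubdivision M S) {K : Finset E} (hK : K.card + 2 = r) {x y z t t' : E}
    (h : Tog S (i2 K x y) (i2 K z t)) (ht' : i2 K z t' ∈ M) (hp : φ t' ∈ W φ (insert t K)) :
    Tog S (i2 K x y) (i2 K z t') :=
  (par hM hS hK h.symm ht' hp).symm

/-- the scaling argument -/
lemma scale {pt : (Fin r → F) → E} (hG : Geo φ pt) (hM : ∀ B, B ∈ M ↔ B.card = r ∧ W φ B = ⊤)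
    {S : Set (Finset (Finset E))} (hS : IsMatroidSubdivision M S) {K0 : Finset E}
    (hK0 : K0.card + 3 = r) {k0 a d : E} (hb : i2 (insert k0 K0) a d ∈ M) {β γ l : F}
    (hβ : β ≠ 0) (hγ : γ ≠ 0) (hl : l ≠ 0)
    (h : Tog S (i2 (insert k0 K0) a (pt (φ a + β • φ d)))
      (i2 (insert k0 K0) (pt (φ a + γ • φ d)) d)) :
    Tog S (i2 (insert k0 K0) a (pt (φ a + (l * β) • φ d)))
      (i2 (insert k0 K0) (pt (φ a + (l * γ) • φ d)) d) := by
  have hlβ : l * β ≠ 0 := mul_ne_zero hl hβ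
  have hlγ : l * γ ≠ 0 := mul_ne_zero hl hγ
  have hnz : ∀ c1 c2 c3 : F, ¬ (c1 = 0 ∧ c2 = 0 ∧ c3 = 0) → ∀ v,
      v = c1 • φ k0 + c2 • φ a + c3 • φ d → v ≠ 0 := by
    intro c1 c2 c3 hc v hv h0
    apply hc
    apply ind hM hK0 hb
    rw [← hv, h0]
    exact Submodule.zero_mem _
  have hk0K0 : k0 ∉ K0 := (i2_insert_facts hM hK0 hb).2.2.1
  have Pa : IsPt φ a (φ a) := isPt_self φ a
  have Pd : IsPt φ d (φ d) := isPt_self φ d
  have Pk : IsPt φ k0 (φ k0) := isPt_self φ k0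
  have Pq : ∀ β : F, IsPt φ (pt (φ a + β • φ d)) (φ a + β • φ d) := fun β =>
    isPt_pt hG (hnz 0 1 β (by simp) _ (by (match_scalars <;> (try field_simp) <;> (try ring))))
  have Pq' : ∀ β : F, IsPt φ (pt (φ a - β • φ k0)) (φ a - β • φ k0) := fun β =>
    isPt_pt hG (hnz (-β) 1 0 (by simp) _ (by (match_scalars <;> (try field_simp) <;> (try ring))))
  have Pp : ∀ l : F, IsPt φ (pt (φ k0 + l • φ d)) (φ k0 + l • φ d) := fun l =>
    isPt_pt hG (hnz 1 0 l (by simp) _ (by (match_scalars <;> (try field_simp) <;> (try ring))))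
  set q : F → E := fun β => pt (φ a + β • φ d) with hq
  set q' : F → E := fun β => pt (φ a - β • φ k0) with hq'
  set p : F → E := fun l => pt (φ k0 + l • φ d) with hp
  change ∀ β : F, IsPt φ (q β) (φ a + β • φ d) at Pq
  change ∀ β : F, IsPt φ (q' β) (φ a - β • φ k0) at Pq'
  change ∀ l : F, IsPt φ (p l) (φ k0 + l • φ d) at Pp
  change Tog S (i2 (insert k0 K0) a (q β)) (i2 (insert k0 K0) (q γ) d) at h
  change Tog S (i2 (insert k0 K0) a (q (l * β))) (i2 (insert k0 K0) (q (l * γ)) d)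
  -- bases, for general `p l`
  have B1 : ∀ l β : F, l ≠ 0 → β ≠ 0 → i2 (insert (p l) K0) a (q β) ∈ M := fun l β hl hβ =>
    gen3 hM hK0 hb (Pp l) Pa (Pq β) ⟨1, l * β⁻¹, -(l * β⁻¹), by (match_scalars <;> (try field_simp) <;> (try ring))⟩ ⟨0, 1, 0, by (match_scalars <;> (try field_simp) <;> (try ring))⟩
      ⟨0, -β⁻¹, β⁻¹, by (match_scalars <;> (try field_simp) <;> (try ring))⟩
  have B2 : ∀ l γ : F, l ≠ 0 → i2 (insert (p l) K0) (q γ) d ∈ M := fun l γ hl =>
    gen3 hM hK0 hb (Pp l) (Pq γ) Pd ⟨1, 0, -l, by (match_scalars <;> (try field_simp) <;> (try ring))⟩ ⟨0, 1, -γ, by (match_scalars <;> (try field_simp) <;> (try ring))⟩ ⟨0, 0, 1, by (match_scalars <;> (try field_simp) <;> (try ring))⟩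
  have B3 : ∀ l β : F, l ≠ 0 → β ≠ 0 → i2 (insert (p l) K0) a (q' β) ∈ M := fun l β hl hβ =>
    gen3 hM hK0 hb (Pp l) Pa (Pq' β) ⟨0, β⁻¹, -β⁻¹, by (match_scalars <;> (try field_simp) <;> (try ring))⟩ ⟨0, 1, 0, by (match_scalars <;> (try field_simp) <;> (try ring))⟩
      ⟨l⁻¹, -(l⁻¹ * β⁻¹), l⁻¹ * β⁻¹, by (match_scalars <;> (try field_simp) <;> (try ring))⟩
  have B4 : ∀ l γ : F, l ≠ 0 → i2 (insert (p l) K0) (q' γ) d ∈ M := fun l γ hl =>
    gen3 hM hK0 hb (Pp l) (Pq' γ) Pd ⟨1, 0, -l, by (match_scalars <;> (try field_simp) <;> (try ring))⟩ ⟨γ, 1, -(l * γ), by (match_scalars <;> (try field_simp) <;> (try ring))⟩ ⟨0, 0, 1, by (match_scalars <;> (try field_simp) <;> (try ring))⟩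
  have B5 : ∀ l γ : F, l ≠ 0 → i2 (insert (p l) K0) (q' γ) k0 ∈ M := fun l γ hl =>
    gen3 hM hK0 hb (Pp l) (Pq' γ) Pk ⟨0, 0, 1, by (match_scalars <;> (try field_simp) <;> (try ring))⟩ ⟨0, 1, γ, by (match_scalars <;> (try field_simp) <;> (try ring))⟩ ⟨l⁻¹, 0, -l⁻¹, by (match_scalars <;> (try field_simp) <;> (try ring))⟩
  have B6 : ∀ l γ : F, l ≠ 0 → i2 (insert (p l) K0) (q γ) k0 ∈ M := fun l γ hl =>
    gen3 hM hK0 hb (Pp l) (Pq γ) Pk ⟨0, 0, 1, by (match_scalars <;> (try field_simp) <;> (try ring))⟩ ⟨-(l⁻¹ * γ), 1, l⁻¹ * γ, by (match_scalars <;> (try field_simp) <;> (try ring))⟩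
      ⟨l⁻¹, 0, -l⁻¹, by (match_scalars <;> (try field_simp) <;> (try ring))⟩
  have B7 : ∀ β : F, β ≠ 0 → i2 (insert k0 K0) a (q β) ∈ M := fun β hβ =>
    gen3 hM hK0 hb Pk Pa (Pq β) ⟨1, 0, 0, by (match_scalars <;> (try field_simp) <;> (try ring))⟩ ⟨0, 1, 0, by (match_scalars <;> (try field_simp) <;> (try ring))⟩ ⟨0, -β⁻¹, β⁻¹, by (match_scalars <;> (try field_simp) <;> (try ring))⟩
  have B8 : ∀ γ : F, i2 (insert k0 K0) (q γ) d ∈ M := fun γ =>
    gen3 hM hK0 hb Pk (Pq γ) Pd ⟨1, 0, 0, by (match_scalars <;> (try field_simp) <;> (try ring))⟩ ⟨0, 1, -γ, by (match_scalars <;> (try field_simp) <;> (try ring))⟩ ⟨0, 0, 1, by (match_scalars <;> (try field_simp) <;> (try ring))⟩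
  have hpK0 : ∀ l : F, l ≠ 0 → (insert (p l) K0).card + 2 = r := by
    intro l hl
    have := (i2_insert_facts hM hK0 (B2 l 0 hl)).2.2.1
    rw [Finset.card_insert_of_notMem this]
    omega
  -- prism, `k0` to `p 1`
  have t1 : Tog S (i2 (insert (p 1) K0) a (q β)) (i2 (insert (p 1) K0) (q γ) d) := by
    refine prism hM hS hK0 h ?_ ?_ ?_ ?_ (B1 1 β one_ne_zero hβ) (B2 1 γ one_ne_zero)
    · exact mem2 Pa (Pq β) (Pq γ) (1 - γ * β⁻¹) (γ * β⁻¹) (by (match_scalars <;> (try field_simp) <;> (try ring)))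
    · exact mem2 Pa (Pq β) Pd (-β⁻¹) β⁻¹ (by (match_scalars <;> (try field_simp) <;> (try ring)))
    · exact mem2 (Pq γ) Pd Pa 1 (-γ) (by (match_scalars <;> (try field_simp) <;> (try ring)))
    · exact mem2 (Pq γ) Pd (Pq β) 1 (β - γ) (by (match_scalars <;> (try field_simp) <;> (try ring)))
  -- parallel moves at `p 1`
  have t2 : Tog S (i2 (insert (p 1) K0) a (q' β)) (i2 (insert (p 1) K0) (q γ) d) :=
    par hM hS (hpK0 1 one_ne_zero) t1 (B3 1 β one_ne_zero hβ)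
      (mem2 (Pq β) (Pp 1) (Pq' β) 1 (-β) (by (match_scalars <;> (try field_simp) <;> (try ring))))
  have t3 : Tog S (i2 (insert (p 1) K0) a (q' β)) (i2 (insert (p 1) K0) (q' γ) d) :=
    par3 hM hS (hpK0 1 one_ne_zero) t2 (B4 1 γ one_ne_zero)
      (mem2 (Pq γ) (Pp 1) (Pq' γ) 1 (-γ) (by (match_scalars <;> (try field_simp) <;> (try ring))))
  have t4 : Tog S (i2 (insert (p 1) K0) a (q' β)) (i2 (insert (p 1) K0) (q' γ) k0) :=
    par4 hM hS (hpK0 1 one_ne_zero) t3 (B5 1 γ one_ne_zero)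
      (mem2 Pd (Pp 1) Pk (-1) 1 (by (match_scalars <;> (try field_simp) <;> (try ring))))
  -- prism, `p 1` to `p l`
  have t5 : Tog S (i2 (insert (p l) K0) a (q' β)) (i2 (insert (p l) K0) (q' γ) k0) := by
    refine prism hM hS hK0 t4 ?_ ?_ ?_ ?_ (B3 l β hl hβ) (B5 l γ hl)
    · exact mem2 Pa (Pq' β) (Pq' γ) (1 - γ * β⁻¹) (γ * β⁻¹) (by (match_scalars <;> (try field_simp) <;> (try ring)))
    · exact mem2 Pa (Pq' β) Pk β⁻¹ (-β⁻¹) (by (match_scalars <;> (try field_simp) <;> (try ring)))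
    · exact mem2 (Pq' γ) Pk Pa 1 γ (by (match_scalars <;> (try field_simp) <;> (try ring)))
    · exact mem2 (Pq' γ) Pk (Pq' β) 1 (γ - β) (by (match_scalars <;> (try field_simp) <;> (try ring)))
  -- parallel moves at `p l`
  have t6 : Tog S (i2 (insert (p l) K0) a (q (l * β))) (i2 (insert (p l) K0) (q' γ) k0) :=
    par hM hS (hpK0 l hl) t5 (B1 l (l * β) hl hlβ)
      (mem2 (Pq' β) (Pp l) (Pq (l * β)) 1 β (by (match_scalars <;> (try field_simp) <;> (try ring))))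
  have t7 : Tog S (i2 (insert (p l) K0) a (q (l * β))) (i2 (insert (p l) K0) (q (l * γ)) k0) :=
    par3 hM hS (hpK0 l hl) t6 (B6 l (l * γ) hl)
      (mem2 (Pq' γ) (Pp l) (Pq (l * γ)) 1 γ (by (match_scalars <;> (try field_simp) <;> (try ring))))
  have t8 : Tog S (i2 (insert (p l) K0) a (q (l * β))) (i2 (insert (p l) K0) (q (l * γ)) d) :=
    par4 hM hS (hpK0 l hl) t7 (B2 l (l * γ) hl)
      (mem2 Pk (Pp l) Pd (-l⁻¹) l⁻¹ (by (match_scalars <;> (try field_simp) <;> (try ring))))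
  -- prism, `p l` to `k0`
  refine prism hM hS hK0 t8 ?_ ?_ ?_ ?_ (B7 (l * β) hlβ) (B8 (l * γ))
  · exact mem2 Pa (Pq (l * β)) (Pq (l * γ)) (1 - γ * β⁻¹) (γ * β⁻¹) (by (match_scalars <;> (try field_simp) <;> (try ring)))
  · exact mem2 Pa (Pq (l * β)) Pd (-(l * β)⁻¹) (l * β)⁻¹ (by (match_scalars <;> (try field_simp) <;> (try ring)))
  · exact mem2 (Pq (l * γ)) Pd Pa 1 (-(l * γ)) (by (match_scalars <;> (try field_simp) <;> (try ring)))
  · exact mem2 (Pq (l * γ)) Pd (Pq (l * β)) 1 (l * β - l * γ) (by (match_scalars <;> (try field_simp) <;> (try ring)))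

end

end Pool.Agent.V11152.ProjGeom
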