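import Mathlib
import Pool.Agent.V11152.ProjGeom2

/-!
# Projective geometries: all octahedra
-/

namespace Pool.Agent.V11152.ProjGeom

open Finset Pool.Agent.V11152.MatroidSubdiv

variable {F : Type} [Field F] {r : ℕ} {E : Type} [Fintype E] [DecidableEq E]
variable {φ : E → (Fin r → F)} {M : Finset (Finset E)}

lemma tog_q [Finite F] {pt : (Fin r → F) → E} (hG : Geo φ pt)
    (hM : ∀ B, B ∈ M ↔ B.card = r ∧ W φ B = ⊤)
    {S : Set (Finset (Finset E))} (hS : IsMatroidSubdivision M S) {K0 : Finset E}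
    (hK0 : K0.card + 3 = r) {k0 a d : E} (hb : i2 (insert k0 K0) a d ∈ M) {β γ : F}
    (hβ : β ≠ 0) (hγ : γ ≠ 0) (hβγ : β ≠ γ) :
    Tog S (i2 (insert k0 K0) a (pt (φ a + β • φ d)))
      (i2 (insert k0 K0) (pt (φ a + γ • φ d)) d) := by
  have hnz : ∀ c1 c2 c3 : F, ¬ (c1 = 0 ∧ c2 = 0 ∧ c3 = 0) → ∀ v,
      v = c1 • φ k0 + c2 • φ a + c3 • φ d → v ≠ 0 := by
    intro c1 c2 c3 hc v hv h0
    apply hc
    apply ind hM hK0 hb
    rw [← hv, h0]
    exact Submodule.zero_mem _
  have hk0K0 : k0 ∉ K0 := (i2_insert_facts hM hK0 hb).2.2.1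
  have Pa : IsPt φ a (φ a) := isPt_self φ a
  have Pd : IsPt φ d (φ d) := isPt_self φ d
  have Pk : IsPt φ k0 (φ k0) := isPt_self φ k0
  have Pq : ∀ β : F, IsPt φ (pt (φ a + β • φ d)) (φ a + β • φ d) := fun β =>
    isPt_pt hG (hnz 0 1 β (by simp) _ (by (match_scalars <;> (try field_simp) <;> (try ring))))
  have hscale : ∀ β γ l : F, β ≠ 0 → γ ≠ 0 → l ≠ 0 →
      Tog S (i2 (insert k0 K0) a (pt (φ a + β • φ d)))
      (i2 (insert k0 K0) (pt (φ a + γ • φ d)) d) →
      Tog S (i2 (insert k0 K0) a (pt (φ a + (l * β) • φ d)))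
      (i2 (insert k0 K0) (pt (φ a + (l * γ) • φ d)) d) := fun β γ l hβ hγ hl h =>
    scale hG hM hS hK0 hb hβ hγ hl h
  set q : F → E := fun β => pt (φ a + β • φ d) with hq
  change ∀ β : F, IsPt φ (q β) (φ a + β • φ d) at Pq
  change Tog S (i2 (insert k0 K0) a (q β)) (i2 (insert k0 K0) (q γ) d)
  change ∀ β γ l : F, β ≠ 0 → γ ≠ 0 → l ≠ 0 →
      Tog S (i2 (insert k0 K0) a (q β)) (i2 (insert k0 K0) (q γ) d) →
      Tog S (i2 (insert k0 K0) a (q (l * β))) (i2 (insert k0 K0) (q (l * γ)) d) at hscale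
  have B7 : ∀ β : F, β ≠ 0 → i2 (insert k0 K0) a (q β) ∈ M := fun β hβ =>
    gen3 hM hK0 hb Pk Pa (Pq β) ⟨1, 0, 0, by (match_scalars <;> (try field_simp) <;> (try ring))⟩ ⟨0, 1, 0, by (match_scalars <;> (try field_simp) <;> (try ring))⟩ ⟨0, -β⁻¹, β⁻¹, by (match_scalars <;> (try field_simp) <;> (try ring))⟩
  have B8 : ∀ γ : F, i2 (insert k0 K0) (q γ) d ∈ M := fun γ =>
    gen3 hM hK0 hb Pk (Pq γ) Pd ⟨1, 0, 0, by (match_scalars <;> (try field_simp) <;> (try ring))⟩ ⟨0, 1, -γ, by (match_scalars <;> (try field_simp) <;> (try ring))⟩ ⟨0, 0, 1, by (match_scalars <;> (try field_simp) <;> (try ring))⟩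
  have B9 : ∀ β γ : F, β ≠ γ → i2 (insert k0 K0) (q β) (q γ) ∈ M := by
    intro β γ h
    have h' : β - γ ≠ 0 := sub_ne_zero.2 h
    exact gen3 hM hK0 hb Pk (Pq β) (Pq γ) ⟨1, 0, 0, by (match_scalars <;> (try field_simp) <;> (try ring))⟩
      ⟨0, 1 - β * (β - γ)⁻¹, β * (β - γ)⁻¹, by (match_scalars <;> (try field_simp) <;> (try ring))⟩ ⟨0, (β - γ)⁻¹, -(β - γ)⁻¹, by (match_scalars <;> (try field_simp) <;> (try ring))⟩
  set K := insert k0 K0 with hK
  have hKc : K.card + 2 = r := by
    rw [hK, Finset.card_insert_of_notMem hk0K0]; omega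
  have hcard : ∀ B ∈ M, B.card = K.card + 2 := fun B hB => by rw [hKc]; exact ((hM B).1 hB).1
  obtain ⟨haK, hdK, had⟩ := i2_facts hM hKc hb
  have f1 : ∀ β : F, β ≠ 0 → a ≠ q β := fun β hβ => (i2_facts hM hKc (B7 β hβ)).2.2
  have f2 : ∀ β : F, q β ∉ K ∧ q β ≠ d := fun β =>
    ⟨(i2_facts hM hKc (B8 β)).1, (i2_facts hM hKc (B8 β)).2.2⟩
  have f3 : ∀ β γ : F, β ≠ γ → q β ≠ q γ := fun β γ h => (i2_facts hM hKc (B9 β γ h)).2.2
  by_contra hR
  let R : F → F → Prop := fun β γ => ¬ Tog S (i2 K a (q β)) (i2 K (q γ) d)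
  have hRs : ∀ β γ l : F, β ≠ 0 → γ ≠ 0 → l ≠ 0 → R β γ → R (l * β) (l * γ) := by
    intro β γ l hβ hγ hl h h'
    apply h
    have := hscale (l * β) (l * γ) l⁻¹ (mul_ne_zero hl hβ) (mul_ne_zero hl hγ) (inv_ne_zero hl) h'
    rwa [inv_mul_cancel_left₀ hl, inv_mul_cancel_left₀ hl] at this
  have hRt : ∀ x y z : F, x ≠ 0 → y ≠ 0 → z ≠ 0 → x ≠ y → y ≠ z → R x y → R y z → R x z := by
    intro x y z hx hy hz hxy hyz h1 h2 h3
    rcases trans hS hcard haK (f2 x).1 (f2 y).1 (f2 z).1 hdK (f1 x hx) (f1 y hy) (f1 z hz) had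
      (f2 x).2 (f2 y).2 (f2 z).2 (f3 x y hxy) (f3 y z hyz) (B7 y hy) h3 with h | h
    · exact h1 h
    · exact h2 h
  have hRe : ∀ x y : F, x ≠ 0 → y ≠ 0 → x ≠ y → R x y → R y x → False := by
    intro x y hx hy hxy h1 h2
    rcases excl hS hcard haK (f2 x).1 (f2 y).1 hdK (f1 x hx) (f1 y hy) had (f3 x y hxy)
      (f2 x).2 (f2 y).2 (B7 x hx) (B8 y) with h | h
    · exact h1 h
    · exact h2 h
  set μ := γ * β⁻¹ with hμ
  have hμβ : μ * β = γ := by rw [hμ, inv_mul_cancel_right₀ hβ]
  have hμ0 : μ ≠ 0 := mul_ne_zero hγ (inv_ne_zero hβ)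
  have hμ1 : μ ≠ 1 := by
    intro h; apply hβγ; rw [← hμβ, h, one_mul]
  have hR0 : R β (μ * β) := by rw [hμβ]; exact hR
  have claim : ∀ n : ℕ, μ ^ (n + 1) = 1 ∨ R β (μ ^ (n + 1) * β) := by
    intro n
    induction n with
    | zero => right; rw [zero_add, pow_one]; exact hR0
    | succ n ih =>
      rcases ih with h | h
      · right
        rw [pow_succ, h, one_mul]; exact hR0
      · by_cases h1 : μ ^ (n + 1) = 1
        · right
          rw [pow_succ, h1, one_mul]; exact hR0
        · right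
          have hp0 : μ ^ (n + 1) ≠ 0 := pow_ne_zero _ hμ0
          have h2 := hRs β (μ * β) (μ ^ (n + 1)) hβ (mul_ne_zero hμ0 hβ) hp0 hR0
          have h3 : μ ^ (n + 1) * (μ * β) = μ ^ (n + 1 + 1) * β := by ring
          rw [h3] at h2
          refine hRt β (μ ^ (n + 1) * β) _ hβ (mul_ne_zero hp0 hβ)
            (mul_ne_zero (pow_ne_zero _ hμ0) hβ) ?_ ?_ h h2
          · intro h4
            apply h1
            have : (μ ^ (n + 1) - 1) * β = 0 := by rw [sub_mul, one_mul, ← h4, sub_self]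
            rcases mul_eq_zero.1 this with h5 | h5
            · exact sub_eq_zero.1 h5
            · exact absurd h5 hβ
          · intro h4
            apply hμ1
            rw [pow_succ μ (n + 1), mul_assoc] at h4
            have h5 := mul_left_cancel₀ hp0 h4
            have : (μ - 1) * β = 0 := by rw [sub_mul, one_mul, ← h5, sub_self]
            rcases mul_eq_zero.1 this with h5 | h5
            · exact sub_eq_zero.1 h5
            · exact absurd h5 hβ
  -- a power of `μ` equal to its inverse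
  obtain ⟨n, hn0, hn⟩ : ∃ n : ℕ, 0 < n ∧ μ ^ n = 1 := by
    have hfin : IsOfFinOrder (Units.mk0 μ hμ0) := isOfFinOrder_of_finite _
    rw [isOfFinOrder_iff_pow_eq_one] at hfin
    obtain ⟨n, hn0, hn⟩ := hfin
    refine ⟨n, hn0, ?_⟩
    have := congrArg Units.val hn
    simpa using this
  have hn2 : 2 ≤ n := by
    rcases Nat.lt_or_ge n 2 with h | h
    · exfalso
      have : n = 1 := by omega
      rw [this, pow_one] at hn
      exact hμ1 hn
    · exact h
  obtain ⟨m, rfl⟩ : ∃ m, n = m + 2 := ⟨n - 2, by omega⟩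
  have hm1 : μ ^ (m + 1) ≠ 1 := by
    intro h
    rw [pow_succ, h, one_mul] at hn
    exact hμ1 hn
  have hRm : R β (μ ^ (m + 1) * β) := (claim m).resolve_left hm1
  have hp0 : μ ^ (m + 1) ≠ 0 := pow_ne_zero _ hμ0
  have h2 := hRs β (μ * β) (μ ^ (m + 1)) hβ (mul_ne_zero hμ0 hβ) hp0 hR0
  have h3 : μ ^ (m + 1) * (μ * β) = β := by
    rw [← mul_assoc, ← pow_succ, hn, one_mul]
  rw [h3] at h2
  refine hRe β (μ ^ (m + 1) * β) hβ (mul_ne_zero hp0 hβ) ?_ hRm h2
  intro h4
  apply hm1
  have : (μ ^ (m + 1) - 1) * β = 0 := by rw [sub_mul, one_mul, ← h4, sub_self]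
  rcases mul_eq_zero.1 this with h5 | h5
  · exact sub_eq_zero.1 h5
  · exact absurd h5 hβ

omit [Fintype E] in
lemma decomp {K : Finset E} {x y : E} {v : Fin r → F} (hv : v ∈ W φ (i2 K x y)) :
    ∃ s t : F, ∃ k ∈ W φ K, v = s • φ x + t • φ y + k := by
  unfold W i2 at hv
  rw [Finset.coe_insert, Finset.coe_insert, Set.image_insert_eq, Set.image_insert_eq,
    Submodule.mem_span_insert] at hv
  obtain ⟨s, z, hz, rfl⟩ := hv
  rw [Submodule.mem_span_insert] at hz
  obtain ⟨t, k, hk, rfl⟩ := hz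
  exact ⟨s, t, k, hk, by rw [add_assoc]⟩

/-- In a projective geometry of rank at least three all opposite vertices of octahedra lie in a
common cell. -/
lemma tog_all [Finite F] {pt : (Fin r → F) → E} (hG : Geo φ pt)
    (hM : ∀ B, B ∈ M ↔ B.card = r ∧ W φ B = ⊤) (hr : 3 ≤ r)
    {S : Set (Finset (Finset E))} (hS : IsMatroidSubdivision M S) (K : Finset E) (a b c d : E)
    (ha : a ∉ K) (hb : b ∉ K) (hc : c ∉ K) (hd : d ∉ K) (hab : a ≠ b) (hac : a ≠ c) (had : a ≠ d)
    (hbc : b ≠ c) (hbd : b ≠ d) (hcd : c ≠ d) (h1 : i2 K a b ∈ M) (h2 : i2 K c d ∈ M) :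
    Tog S (i2 K a b) (i2 K c d) := by
  have hKc : K.card + 2 = r := by
    have := ((hM _).1 h1).1
    rw [i2_card hab ha hb] at this
    exact this
  have hcard : ∀ B ∈ M, B.card = K.card + 2 := fun B hB => by rw [hKc]; exact ((hM B).1 hB).1
  by_cases h3 : i2 K a c ∈ M
  swap
  · rcases excl hS hcard ha hb hc hd hab hac had hbc hbd hcd h1 h2 with h | h
    · exact h
    · exact absurd (h.left_mem hS) h3
  by_cases h4 : i2 K b d ∈ M
  swap
  · rcases excl hS hcard ha hb hc hd hab hac had hbc hbd hcd h1 h2 with h | h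
    · exact h
    · exact absurd (h.right_mem hS) h4
  by_cases h5 : i2 K a d ∈ M
  swap
  · rcases excl hS hcard ha hb hd hc hab had hac hbd hbc (Ne.symm hcd) h1
      (by rw [i2_comm]; exact h2) with h | h
    · rw [i2_comm K d c] at h; exact h
    · exact absurd (h.left_mem hS) h5
  by_cases h6 : i2 K b c ∈ M
  swap
  · rcases excl hS hcard ha hb hd hc hab had hac hbd hbc (Ne.symm hcd) h1
      (by rw [i2_comm]; exact h2) with h | h
    · rw [i2_comm K d c] at h; exact h
    · exact absurd (h.right_mem hS) h6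
  obtain ⟨k0, hk0⟩ : K.Nonempty := by
    rw [← Finset.card_pos]; omega
  have hKe : insert k0 (K.erase k0) = K := Finset.insert_erase hk0
  have hK0 : (K.erase k0).card + 3 = r := by
    rw [Finset.card_erase_of_mem hk0]
    have := Finset.card_pos.2 ⟨k0, hk0⟩
    omega
  have htop : W φ (i2 K a d) = ⊤ := ((hM _).1 h5).2
  obtain ⟨s, t, k, hk, hφb⟩ := decomp (φ := φ) (K := K) (x := a) (y := d) (v := φ b)
    (by rw [htop]; trivial)
  obtain ⟨s', t', k', hk', hφc⟩ := decomp (φ := φ) (K := K) (x := a) (y := d) (v := φ c)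
    (by rw [htop]; trivial)
  have hKins : ∀ x, W φ K ≤ W φ (insert x K) := fun x => W_mono φ (Finset.subset_insert _ _)
  have hself : ∀ x, φ x ∈ W φ (insert x K) := fun x => phi_mem φ (Finset.mem_insert_self _ _)
  have hinsc : ∀ x, (insert x K).card < r := fun x => by
    have := Finset.card_insert_le x K
    omega
  have hs : s ≠ 0 := by
    rintro rfl
    refine notMem_of_phi hM (hinsc d) ?_ h4
    rw [hφb, zero_smul, zero_add]
    exact Submodule.add_mem _ (Submodule.smul_mem _ _ (hself d)) (hKins d hk)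
  have ht : t ≠ 0 := by
    rintro rfl
    refine notMem_of_phi hM (hinsc a) ?_ (by rw [i2_comm] at h1; exact h1)
    rw [hφb, zero_smul, add_zero]
    exact Submodule.add_mem _ (Submodule.smul_mem _ _ (hself a)) (hKins a hk)
  have hs' : s' ≠ 0 := by
    rintro rfl
    refine notMem_of_phi hM (hinsc d) ?_ h2
    rw [hφc, zero_smul, zero_add]
    exact Submodule.add_mem _ (Submodule.smul_mem _ _ (hself d)) (hKins d hk')
  have ht' : t' ≠ 0 := by
    rintro rfl
    refine notMem_of_phi hM (hinsc a) ?_ (by rw [i2_comm] at h3; exact h3)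
    rw [hφc, zero_smul, add_zero]
    exact Submodule.add_mem _ (Submodule.smul_mem _ _ (hself a)) (hKins a hk')
  have hβγ : s⁻¹ * t ≠ s'⁻¹ * t' := by
    intro heq
    refine notMem_of_phi hM (hinsc b) ?_ (by rw [i2_comm] at h6; exact h6)
    have e : φ c = (s' * s⁻¹) • φ b + (k' - (s' * s⁻¹) • k) := by
      have ht'' : t' = s' * (s⁻¹ * t) := by rw [heq, mul_inv_cancel_left₀ hs']
      rw [hφc, hφb, ht'']
      (match_scalars <;> (try field_simp) <;> (try ring))
    rw [e]
    exact Submodule.add_mem _ (Submodule.smul_mem _ _ (hself b))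
      (hKins b (Submodule.sub_mem _ hk' (Submodule.smul_mem _ _ hk)))
  have hb5 : i2 (insert k0 (K.erase k0)) a d ∈ M := by rw [hKe]; exact h5
  have main := tog_q hG hM hS hK0 hb5 (mul_ne_zero (inv_ne_zero hs) ht)
    (mul_ne_zero (inv_ne_zero hs') ht') hβγ
  have hnz : ∀ c3 : F, φ a + c3 • φ d ≠ 0 := by
    intro c3 h0
    have := ind hM hK0 hb5 0 1 c3 (by rw [zero_smul, zero_add, one_smul, h0]; exact Submodule.zero_mem _)
    exact one_ne_zero this.2.1
  rw [hKe] at main
  have P1 := isPt_pt hG (hnz (s⁻¹ * t))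
  have P2 := isPt_pt hG (hnz (s'⁻¹ * t'))
  have m1 := par hM hS hKc main h1 (by
    have e : φ b = s • (φ a + (s⁻¹ * t) • φ d) + k := by
      rw [hφb]; (match_scalars <;> (try field_simp) <;> (try ring))
    rw [e]
    exact Submodule.add_mem _ (Submodule.smul_mem _ _ ((P1 _).1 (hself _))) (hKins _ hk))
  exact par3 hM hS hKc m1 h2 (by
    have e : φ c = s' • (φ a + (s'⁻¹ * t') • φ d) + k' := by
      rw [hφc]; (match_scalars <;> (try field_simp) <;> (try ring))
    rw [e]
    exact Submodule.add_mem _ (Submodule.smul_mem _ _ ((P2 _).1 (hself _))) (hKins _ hk'))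

omit [Fintype E] in
/-- every point lies in a base -/
lemma exists_base {pt : (Fin r → F) → E} (hG : Geo φ pt)
    (hM : ∀ B, B ∈ M ↔ B.card = r ∧ W φ B = ⊤) (x : E) : ∃ B ∈ M, x ∈ B := by
  classical
  obtain ⟨i0, hi0⟩ : ∃ i, φ x i ≠ 0 := by
    by_contra hcon
    push Not at hcon
    exact hG.h3 x (funext hcon)
  let B : Finset E := insert x ((Finset.univ.erase i0).image (fun j => pt (Pi.single j 1)))
  refine ⟨B, ?_, Finset.mem_insert_self _ _⟩
  apply mem_of_span hM
  · have e1 := Finset.card_insert_le x ((Finset.univ.erase i0).image (fun j => pt (Pi.single j 1)))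
    have e2 : ((Finset.univ.erase i0).image (fun j => pt (Pi.single j (1 : F)))).card ≤
      (Finset.univ.erase i0).card := Finset.card_image_le
    rw [Finset.card_erase_of_mem (Finset.mem_univ _), Finset.card_univ, Fintype.card_fin] at e2
    have : 0 < r := i0.pos
    show (insert x ((Finset.univ.erase i0).image (fun j => pt (Pi.single j 1)))).card ≤ r
    omega
  · rw [eq_top_iff]
    intro v _
    have h1 : ∀ j, j ≠ i0 → (Pi.single j (1 : F) : Fin r → F) ∈ W φ B := by
      intro j hj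
      have hne : (Pi.single j (1 : F) : Fin r → F) ≠ 0 := by
        intro h
        have := congrFun h j
        simp at this
      rw [← isPt_pt hG hne]
      apply phi_mem
      apply Finset.mem_insert_of_mem
      rw [Finset.mem_image]
      exact ⟨j, Finset.mem_erase.2 ⟨hj, Finset.mem_univ _⟩, rfl⟩
    have h2 : φ x ∈ W φ B := phi_mem φ (Finset.mem_insert_self _ _)
    let c : F := v i0 * (φ x i0)⁻¹
    have h3 : v - c • φ x ∈ W φ B := by
      rw [← Finset.univ_sum_single (v - c • φ x)]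
      apply Submodule.sum_mem
      intro j _
      by_cases hj : j = i0
      · rw [hj]
        have : (v - c • φ x) i0 = 0 := by
          simp only [Pi.sub_apply, Pi.smul_apply, smul_eq_mul, c]
          field_simp
          ring
        rw [this, Pi.single_zero]
        exact Submodule.zero_mem _
      · have : (Pi.single j ((v - c • φ x) j) : Fin r → F) =
            ((v - c • φ x) j) • (Pi.single j (1 : F)) := by
          rw [← Pi.single_smul]; simp
        rw [this]
        exact Submodule.smul_mem _ _ (h1 j hj)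
    have e : v = (v - c • φ x) + c • φ x := by simp
    rw [e]
    exact Submodule.add_mem _ h3 (Submodule.smul_mem _ _ h2)

/-- projective geometries are connected -/
lemma countConn {pt : (Fin r → F) → E} (hG : Geo φ pt)
    (hM : ∀ B, B ∈ M ↔ B.card = r ∧ W φ B = ⊤) (hMm : IsMatroid M) : CountConn M := by
  intro A hA hA'
  obtain ⟨x, hx⟩ := hA
  obtain ⟨y, hy⟩ : ∃ y, y ∉ A := by
    by_contra hcon
    push Not at hcon
    exact hA' (Finset.eq_univ_iff_forall.2 hcon)
  have hxy : x ≠ y := ne_of_mem_of_not_mem hx hy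
  -- exchanging `x` for `y`
  have hex : ∀ B ∈ M, x ∈ B → y ∉ B → insert y (B.erase x) ∈ M →
      ∃ B ∈ M, ∃ B' ∈ M, (B ∩ A).card ≠ (B' ∩ A).card := by
    intro B hB hxB hyB hB'
    refine ⟨B, hB, _, hB', ?_⟩
    have e : (insert y (B.erase x)) ∩ A = (B ∩ A).erase x := by
      ext z
      simp only [Finset.mem_inter, Finset.mem_insert, Finset.mem_erase]
      constructor
      · rintro ⟨rfl | h, h2⟩
        · exact absurd h2 hy
        · exact ⟨h.1, h.2, h2⟩
      · rintro ⟨h1, h2, h3⟩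
        exact ⟨Or.inr ⟨h1, h2⟩, h3⟩
    rw [e, Finset.card_erase_of_mem (Finset.mem_inter.2 ⟨hxB, hx⟩)]
    have := Finset.card_pos.2 ⟨x, Finset.mem_inter.2 ⟨hxB, hx⟩⟩
    omega
  -- a base containing `x` and `y`
  have hboth : ∀ B ∈ M, x ∈ B → y ∈ B →
      ∃ B ∈ M, ∃ B' ∈ M, (B ∩ A).card ≠ (B' ∩ A).card := by
    intro B hB hxB hyB
    obtain ⟨hBc, hBt⟩ := (hM B).1 hB
    have hxe : x ∈ B.erase y := Finset.mem_erase.2 ⟨hxy, hxB⟩
    have hye : y ∈ B.erase x := Finset.mem_erase.2 ⟨Ne.symm hxy, hyB⟩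
    have hce : ∀ u ∈ B, (B.erase u).card < r := by
      intro u hu
      rw [Finset.card_erase_of_mem hu]
      have := Finset.card_pos.2 ⟨u, hu⟩
      omega
    have hyn : φ y ∉ W φ (B.erase y) := by
      intro h
      apply notMem_of_phi hM (hce y hyB) h
      rw [Finset.insert_erase hyB]; exact hB
    have hxn : φ x ∉ W φ (B.erase x) := by
      intro h
      apply notMem_of_phi hM (hce x hxB) h
      rw [Finset.insert_erase hxB]; exact hB
    have hz0 : φ x + φ y ≠ 0 := by
      intro h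
      apply hyn
      have e : φ y = -φ x := by
        rw [eq_neg_iff_add_eq_zero, add_comm]; exact h
      rw [e]
      exact Submodule.neg_mem _ (phi_mem φ hxe)
    have Pz := isPt_pt hG hz0
    set z := pt (φ x + φ y) with hz
    have hzy : φ z ∉ W φ (B.erase y) := by
      intro h
      rw [Pz] at h
      exact hyn (((Submodule.add_mem_iff_right _ (phi_mem φ hxe)).1 h))
    have hzx : φ z ∉ W φ (B.erase x) := by
      intro h
      rw [Pz] at h
      exact hxn (((Submodule.add_mem_iff_left _ (phi_mem φ hye)).1 h))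
    have hzB : z ∉ B := by
      intro h
      by_cases hzyy : z = y
      · apply hzx
        rw [hzyy]; exact phi_mem φ hye
      · exact hzy (phi_mem φ (Finset.mem_erase.2 ⟨hzyy, h⟩))
    have hzx' : z ≠ x := fun h => hzB (h ▸ hxB)
    have hzy' : z ≠ y := fun h => hzB (h ▸ hyB)
    have hC : insert z (B.erase y) ∈ M := by
      apply mem_of_span hM
      · exact (Finset.card_insert_le _ _).trans (hce y hyB)
      · apply insert_exchange φ _ hzy (x := y)
        rw [Finset.insert_erase hyB, hBt]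
    have hD : insert z (B.erase x) ∈ M := by
      apply mem_of_span hM
      · exact (Finset.card_insert_le _ _).trans (hce x hxB)
      · apply insert_exchange φ _ hzx (x := x)
        rw [Finset.insert_erase hxB, hBt]
    refine hex _ hC (Finset.mem_insert_of_mem hxe) ?_ ?_
    · simp [Ne.symm hzy']
    · have e : insert y ((insert z (B.erase y)).erase x) = insert z (B.erase x) := by
        rw [Finset.erase_insert_of_ne hzx', Finset.insert_comm, Finset.erase_right_comm,
          Finset.insert_erase hye]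
      rw [e]; exact hD
  obtain ⟨B, hB, hxB⟩ := exists_base hG hM x
  by_cases hyB : y ∈ B
  · exact hboth B hB hxB hyB
  · obtain ⟨B', hB', hyB'⟩ := exists_base hG hM y
    obtain ⟨g, hg, hgM⟩ := dual_exchange hMm hB hB' (Finset.mem_sdiff.2 ⟨hyB', hyB⟩)
    by_cases hgx : g = x
    · rw [hgx] at hgM
      exact hex B hB hxB hyB hgM
    · exact hboth _ hgM (Finset.mem_insert_of_mem (Finset.mem_erase.2 ⟨Ne.symm hgx, hxB⟩))
        (Finset.mem_insert_self _ _)

/-- **Projective geometries of rank at least three are indecomposable**, abstract version. -/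
theorem mem_subdivision [Finite F] [Nonempty E] {pt : (Fin r → F) → E} (hG : Geo φ pt)
    (hM : ∀ B, B ∈ M ↔ B.card = r ∧ W φ B = ⊤) (hr : 3 ≤ r)
    {S : Set (Finset (Finset E))} (hS : IsMatroidSubdivision M S) : M ∈ S := by
  obtain ⟨x⟩ := ‹Nonempty E›
  obtain ⟨B, hB, _⟩ := exists_base hG hM x
  have hMm := isMatroid hM ⟨B, hB⟩
  exact mem_of_tog hMm (countConn hG hM hMm) hS (tog_all hG hM hr hS)

end Pool.Agent.V11152.ProjGeom
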