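import Pool.Agent.V11152.CSg

set_option autoImplicit false

open Module Finset

namespace Pool.Agent.V11152.CS

variable {K V : Type} [Field K] [Finite K] [AddCommGroup V] [Module K V] [Module.Finite K V]

lemma NS_mono_step (d : ℕ) (hd : 2 * d + 1 ≤ finrank K V) :
    (NS K V d : ℝ) ≤ NS K V (d + 1) := by
  have h2 := NS_rec (K := K) (V := V) d (by omega)
  have hq : (1 : ℝ) < (Nat.card K : ℝ) := by
    have : 1 < Nat.card K := Finite.one_lt_card
    exact_mod_cast this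
  set q : ℝ := (Nat.card K : ℝ) with hqd
  have hw : 0 < q ^ (d + 1) - 1 := sub_pos.2 (one_lt_pow₀ hq (by omega))
  have hz : q ^ (d + 1) - 1 ≤ q ^ (finrank K V - d) - 1 := by
    have := pow_le_pow_right₀ hq.le (show d + 1 ≤ finrank K V - d by omega)
    linarith
  have hB : (0 : ℝ) ≤ NS K V d := Nat.cast_nonneg _
  have h3 : (NS K V d : ℝ) * (q ^ (d + 1) - 1) ≤ NS K V (d + 1) * (q ^ (d + 1) - 1) := by
    rw [h2]
    exact mul_le_mul_of_nonneg_left hz hB
  exact le_of_mul_le_mul_right h3 hw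

lemma NS_mono (d b : ℕ) (hdb : d ≤ b) (hb : 2 * b ≤ finrank K V + 1) :
    (NS K V d : ℝ) ≤ NS K V b := by
  induction b, hdb using Nat.le_induction with
  | base => exact le_rfl
  | succ b hd ih => exact (ih (by omega)).trans (NS_mono_step b (by omega))

lemma NS_ratio (d : ℕ) (hd : 2 * d ≤ finrank K V) (hd1 : d + 1 ≤ finrank K V) :
    (NS K V (d + 1) : ℝ) ≤ (Nat.card K : ℝ) ^ (finrank K V - 2 * d) * NS K V d := by
  have h2 := NS_rec (K := K) (V := V) d hd1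
  have hq : (2 : ℝ) ≤ (Nat.card K : ℝ) := by
    have : 1 < Nat.card K := Finite.one_lt_card
    exact_mod_cast this
  set q : ℝ := (Nat.card K : ℝ) with hqd
  have hq1 : 1 < q := by linarith
  have hw : 0 < q ^ (d + 1) - 1 := sub_pos.2 (one_lt_pow₀ hq1 (by omega))
  have hB : (0 : ℝ) ≤ NS K V d := Nat.cast_nonneg _
  have hz : q ^ (finrank K V - d) - 1 ≤ q ^ (finrank K V - 2 * d) * (q ^ (d + 1) - 1) := by
    have e1 : q ^ (finrank K V - 2 * d) * q ^ (d + 1) = q * q ^ (finrank K V - d) := by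
      rw [← pow_add, ← pow_succ']
      congr 1
      omega
    have e2 : q ^ (finrank K V - 2 * d) ≤ q ^ (finrank K V - d) :=
      pow_le_pow_right₀ hq1.le (by omega)
    have e3 : 0 < q ^ (finrank K V - d) := by positivity
    rw [mul_sub, mul_one, e1]
    nlinarith
  have h3 : (NS K V (d + 1) : ℝ) * (q ^ (d + 1) - 1) ≤
      (q ^ (finrank K V - 2 * d) * NS K V d) * (q ^ (d + 1) - 1) := by
    rw [h2]
    calc (NS K V d : ℝ) * (q ^ (finrank K V - d) - 1) ≤
          NS K V d * (q ^ (finrank K V - 2 * d) * (q ^ (d + 1) - 1)) :=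
          mul_le_mul_of_nonneg_left hz hB
      _ = _ := by ring
  exact le_of_mul_le_mul_right h3 hw

lemma NS_climb (τ b : ℕ) (hV : finrank K V = τ + (b + (b + 1))) (x : ℕ) :
    ∀ y, τ + 1 = 2 * x + y →
      (NS K V (b + x) : ℝ) ≤ (Nat.card K : ℝ) ^ (x * (x + y + 1)) * NS K V b := by
  induction x with
  | zero => intro y _; simp
  | succ x ih =>
    intro y hy
    have h1 := ih (y + 2) (by omega)
    have h2 := NS_ratio (K := K) (V := V) (b + x) (by omega) (by omega)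
    have h3 : finrank K V - 2 * (b + x) = y + 2 := by omega
    rw [h3] at h2
    have hq : (0 : ℝ) ≤ (Nat.card K : ℝ) ^ (y + 2) := by positivity
    calc (NS K V (b + (x + 1)) : ℝ) ≤ (Nat.card K : ℝ) ^ (y + 2) * NS K V (b + x) := h2
      _ ≤ (Nat.card K : ℝ) ^ (y + 2) * ((Nat.card K : ℝ) ^ (x * (x + (y + 2) + 1)) * NS K V b) :=
          mul_le_mul_of_nonneg_left h1 hq
      _ = _ := by
          rw [← mul_assoc, ← pow_add]
          congr 2
          ring

lemma layer_bound (τ b : ℕ) (hτ : 1 ≤ τ) (hV : finrank K V = τ + (b + (b + 1)))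
    (h : (τ - 1) ^ 2 ≤ 2 * (τ + (b + (b + 1)))) (d : ℕ) (hd : d ≤ τ + b) :
    (NS K V d : ℝ) ≤ (Nat.card K : ℝ) ^ (2 * τ + b + 1) * NS K V b := by
  have hq : (1 : ℝ) ≤ (Nat.card K : ℝ) := by
    have : 1 < Nat.card K := Finite.one_lt_card
    exact_mod_cast this.le
  have hB : (0 : ℝ) ≤ NS K V b := Nat.cast_nonneg _
  have key : ∀ d', 2 * d' ≤ finrank K V →
      (NS K V d' : ℝ) ≤ (Nat.card K : ℝ) ^ (2 * τ + b + 1) * NS K V b := by
    intro d' hd'
    by_cases hdb : d' ≤ b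
    · have h1 := NS_mono (K := K) (V := V) d' b hdb (by omega)
      have h2 : (1 : ℝ) ≤ (Nat.card K : ℝ) ^ (2 * τ + b + 1) := one_le_pow₀ hq
      nlinarith
    · obtain ⟨x, rfl⟩ : ∃ x, d' = b + x := ⟨d' - b, by omega⟩
      obtain ⟨y, hy⟩ : ∃ y, τ + 1 = 2 * x + y := ⟨τ + 1 - 2 * x, by omega⟩
      have h1 := NS_climb (K := K) (V := V) τ b hV x y hy
      refine h1.trans (mul_le_mul_of_nonneg_right (pow_le_pow_right₀ hq ?_) hB)
      obtain ⟨σ, rfl⟩ : ∃ σ, τ = σ + 1 := ⟨τ - 1, by omega⟩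
      rw [Nat.add_sub_cancel] at h
      have h2 : 4 * (x * (x + y + 1)) + (y + 1) ^ 2 = (2 * x + y + 1) ^ 2 := by ring
      rw [← hy] at h2
      nlinarith
  by_cases hd2 : 2 * d ≤ finrank K V
  · exact key d hd2
  · rw [NS_symm d (finrank K V - d) (by omega)]
    exact key _ (by omega)

lemma sum_bound (τ b : ℕ) (hτ : 1 ≤ τ) (hV : finrank K V = τ + (b + (b + 1)))
    (h : (τ - 1) ^ 2 ≤ 2 * (τ + (b + (b + 1)))) (hb : 1 ≤ b) :
    ∑ c ∈ Icc 1 b, (NS K V (τ + c) : ℝ) ≤ (Nat.card K : ℝ) ^ (2 * (τ + b)) * NS K V b := by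
  have hq : (2 : ℝ) ≤ (Nat.card K : ℝ) := by
    have : 1 < Nat.card K := Finite.one_lt_card
    exact_mod_cast this
  have hB : (0 : ℝ) ≤ NS K V b := Nat.cast_nonneg _
  have h1 : ∑ c ∈ Icc 1 b, (NS K V (τ + c) : ℝ) ≤
      (Icc 1 b).card • ((Nat.card K : ℝ) ^ (2 * τ + b + 1) * NS K V b) := by
    apply Finset.sum_le_card_nsmul
    intro c hc
    rw [mem_Icc] at hc
    exact layer_bound τ b hτ hV h (τ + c) (by omega)
  refine h1.trans ?_
  rw [Nat.card_Icc, Nat.add_sub_cancel, nsmul_eq_mul]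
  have h2 : (b : ℝ) ≤ (Nat.card K : ℝ) ^ (b - 1) := by
    have h3 : b ≤ 2 ^ (b - 1) := by
      have : b - 1 < 2 ^ (b - 1) := Nat.lt_two_pow_self
      omega
    calc (b : ℝ) ≤ ((2 ^ (b - 1) : ℕ) : ℝ) := by exact_mod_cast h3
      _ = (2 : ℝ) ^ (b - 1) := by push_cast; rfl
      _ ≤ _ := pow_le_pow_left₀ (by norm_num) hq _
  have h4 : (Nat.card K : ℝ) ^ (2 * (τ + b)) =
      (Nat.card K : ℝ) ^ (b - 1) * (Nat.card K : ℝ) ^ (2 * τ + b + 1) := by
    rw [← pow_add]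
    congr 1
    omega
  rw [h4, mul_assoc]
  exact mul_le_mul_of_nonneg_right h2 (by positivity)

end Pool.Agent.V11152.CS
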