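import Mathlib

set_option autoImplicit false

open Module Finset

namespace Pool.Agent.V11152.CS

variable {K V : Type} [Field K] [Finite K] [AddCommGroup V] [Module K V] [Module.Finite K V]

omit [Finite K] in
/-- two subspaces of the same dimension are exchanged by an automorphism -/
lemma exists_map_eq (U W : Submodule K V) (h : finrank K U = finrank K W) :
    ∃ g : V ≃ₗ[K] V, U.map (g : V →ₗ[K] V) = W := by
  obtain ⟨C, hC⟩ := U.exists_isCompl
  obtain ⟨D, hD⟩ := W.exists_isCompl
  have h1 := Submodule.finrank_add_eq_of_isCompl hC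
  have h2 := Submodule.finrank_add_eq_of_isCompl hD
  have e1 : U ≃ₗ[K] W := LinearEquiv.ofFinrankEq _ _ h
  have e2 : C ≃ₗ[K] D := LinearEquiv.ofFinrankEq _ _ (by omega)
  let g : V ≃ₗ[K] V := (Submodule.prodEquivOfIsCompl U C hC).symm ≪≫ₗ
    (LinearEquiv.prodCongr e1 e2) ≪≫ₗ (Submodule.prodEquivOfIsCompl W D hD)
  refine ⟨g, ?_⟩
  have hle : U.map (g : V →ₗ[K] V) ≤ W := by
    rintro _ ⟨u, hu, rfl⟩
    have h3 : (Submodule.prodEquivOfIsCompl U C hC).symm u = ((⟨u, hu⟩ : U), (0 : C)) := by
      rw [LinearEquiv.symm_apply_eq]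
      simp
    show g u ∈ W
    have h4 : g u = (Submodule.prodEquivOfIsCompl W D hD)
        ((LinearEquiv.prodCongr e1 e2) ((Submodule.prodEquivOfIsCompl U C hC).symm u)) := rfl
    rw [h4, h3]
    have h5 : (LinearEquiv.prodCongr e1 e2) ((⟨u, hu⟩ : U), (0 : C)) = (e1 ⟨u, hu⟩, 0) := by
      simp
    rw [h5, Submodule.coe_prodEquivOfIsCompl']
    simp
  apply Submodule.eq_of_le_of_finrank_eq hle
  rw [LinearEquiv.finrank_map_eq g U, h]

/-- the number of members of `A` of dimension `d` -/
noncomputable def cnt (A : Set (Submodule K V)) (d : ℕ) : ℕ :=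
  ({U : Submodule K V | U ∈ A ∧ finrank K U = d}).ncard

/-- the number of `d`-dimensional subspaces -/
noncomputable def NS (K V : Type) [Field K] [AddCommGroup V] [Module K V] (d : ℕ) : ℕ :=
  ({U : Submodule K V | finrank K U = d}).ncard

lemma finV (K V : Type) [Field K] [Finite K] [AddCommGroup V] [Module K V] [Module.Finite K V] :
    Finite V := Module.finite_of_finite K

lemma finSub : Finite (Submodule K V) := by
  have : Finite V := finV K V
  exact Finite.of_injective (fun W : Submodule K V => (W : Set V)) SetLike.coe_injective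

lemma finG : Finite (V ≃ₗ[K] V) := by
  have : Finite V := finV K V
  exact Finite.of_injective (fun g : V ≃ₗ[K] V => (g : V → V)) DFunLike.coe_injective

open Classical in
/-- averaging over the general linear group -/
lemma avg [Fintype (V ≃ₗ[K] V)] (A : Set (Submodule K V)) (U : Submodule K V) :
    (∑ g : V ≃ₗ[K] V, if U.map (g : V →ₗ[K] V) ∈ A then 1 else 0) * NS K V (finrank K U) =
      Fintype.card (V ≃ₗ[K] V) * cnt A (finrank K U) := by
  have : Finite (Submodule K V) := finSub
  have : Fintype (Submodule K V) := Fintype.ofFinite _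
  set d := finrank K U with hd
  set c : ℕ := (univ.filter (fun g : V ≃ₗ[K] V => U.map (g : V →ₗ[K] V) = U)).card with hc
  have hcW : ∀ W : Submodule K V, finrank K W = d →
      (univ.filter (fun g : V ≃ₗ[K] V => U.map (g : V →ₗ[K] V) = W)).card = c := by
    intro W hW
    obtain ⟨h, hh⟩ := exists_map_eq U W (by rw [hW])
    rw [hc]
    apply Finset.card_bij' (fun g _ => g ≪≫ₗ h.symm) (fun g _ => g ≪≫ₗ h)
    · intro g hg
      simp only [mem_filter, mem_univ, true_and] at hg ⊢
      rw [LinearEquiv.coe_trans, Submodule.map_comp, hg, ← hh, ← Submodule.map_comp,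
        ← LinearEquiv.coe_trans, LinearEquiv.self_trans_symm]
      simp
    · intro g hg
      simp only [mem_filter, mem_univ, true_and] at hg ⊢
      rw [LinearEquiv.coe_trans, Submodule.map_comp, hg, hh]
    · intro g _
      ext x; simp
    · intro g _
      ext x; simp
  have key : ∀ B : Set (Submodule K V),
      (∑ g : V ≃ₗ[K] V, if U.map (g : V →ₗ[K] V) ∈ B then 1 else 0) = c * cnt B d := by
    intro B
    rw [← Finset.card_filter]
    have h1 : (univ.filter (fun g : V ≃ₗ[K] V => U.map (g : V →ₗ[K] V) ∈ B)).card =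
        ∑ W ∈ univ.filter (fun W : Submodule K V => W ∈ B ∧ finrank K W = d),
          ((univ.filter (fun g : V ≃ₗ[K] V => U.map (g : V →ₗ[K] V) ∈ B)).filter
            (fun g : V ≃ₗ[K] V => U.map (g : V →ₗ[K] V) = W)).card := by
      apply Finset.card_eq_sum_card_fiberwise (f := fun g : V ≃ₗ[K] V => U.map (g : V →ₗ[K] V))
      intro g hg
      simp only [coe_filter, mem_univ, true_and, Set.mem_ofPred_eq] at hg ⊢
      exact ⟨hg, by rw [LinearEquiv.finrank_map_eq g U]⟩
    rw [h1]
    have h2 : ∀ W ∈ univ.filter (fun W : Submodule K V => W ∈ B ∧ finrank K W = d),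
        ((univ.filter (fun g : V ≃ₗ[K] V => U.map (g : V →ₗ[K] V) ∈ B)).filter
            (fun g : V ≃ₗ[K] V => U.map (g : V →ₗ[K] V) = W)).card = c := by
      intro W hW
      simp only [mem_filter, mem_univ, true_and] at hW
      rw [← hcW W hW.2, Finset.filter_filter]
      congr 1
      ext g
      simp only [mem_filter, mem_univ, true_and]
      constructor
      · rintro ⟨_, h⟩; exact h
      · intro h; exact ⟨by rw [h]; exact hW.1, h⟩
    rw [Finset.sum_congr rfl h2, Finset.sum_const, smul_eq_mul, mul_comm, cnt,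
      Set.ncard_eq_toFinset_card']
    congr 2
    ext W
    simp
  have h3 : Fintype.card (V ≃ₗ[K] V) = c * NS K V d := by
    have := key Set.univ
    simp only [Set.mem_univ, if_true, Finset.sum_const, card_univ, smul_eq_mul, mul_one] at this
    rw [this]
    congr 1
    unfold cnt NS
    congr 1
    ext W
    simp
  rw [key A, h3]
  ring

end Pool.Agent.V11152.CS
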