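import Pool.Agent.V11152.CSa

set_option autoImplicit false

open Module Finset

namespace Pool.Agent.V11152.CS

variable {K V : Type} [Field K] [Finite K] [AddCommGroup V] [Module K V] [Module.Finite K V]

omit [Finite K] in
lemma exists_dim (d : ℕ) (hd : d ≤ finrank K V) : ∃ U : Submodule K V, finrank K U = d := by
  obtain ⟨s, hs, hli⟩ := exists_finset_linearIndependent_of_le_finrank hd
  refine ⟨Submodule.span K (s : Set V), ?_⟩
  have := finrank_span_finset_eq_card hli
  rw [this, hs]

lemma NS_pos (d : ℕ) (hd : d ≤ finrank K V) : 0 < NS K V d := by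
  have : Finite (Submodule K V) := finSub
  obtain ⟨U, hU⟩ := exists_dim (K := K) (V := V) d hd
  unfold NS
  rw [Set.ncard_pos (Set.toFinite _)]
  exact ⟨U, hU⟩

lemma NS_symm (i j : ℕ) (h : i + j = finrank K V) : NS K V i = NS K V j := by
  have hf : Finite (Submodule K V) := finSub
  -- use the dual space
  have e : V ≃ₗ[K] Dual K V := LinearEquiv.ofFinrankEq _ _ (Subspace.dual_finrank_eq).symm
  have key : ∀ i j : ℕ, i + j = finrank K V → NS K V i ≤ NS K V j := by
    intro i j h
    unfold NS
    apply Set.ncard_le_ncard_of_injOn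
      (fun U : Submodule K V => (U.dualAnnihilator).comap (e : V →ₗ[K] Dual K V))
    · intro U hU
      simp only [Set.mem_ofPred_eq] at hU ⊢
      have h1 : finrank K U.dualAnnihilator = j := by
        have := Subspace.finrank_add_finrank_dualAnnihilator_eq U
        omega
      rw [← h1, Submodule.comap_equiv_eq_map_symm]
      exact LinearEquiv.finrank_map_eq e.symm _
    · intro U _ W _ hUW
      have h2 : U.dualAnnihilator = W.dualAnnihilator := by
        have := congrArg (Submodule.map (e : V →ₗ[K] Dual K V)) hUW
        simp only at this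
        rw [Submodule.map_comap_eq_of_surjective e.surjective,
          Submodule.map_comap_eq_of_surjective e.surjective] at this
        exact this
      exact Subspace.dualAnnihilator_inj.mp h2
  exact le_antisymm (key i j h) (key j i (by omega))

/-- pairwise cross-intersecting families -/
def Cross {m : ℕ} (A : Fin m → Set (Submodule K V)) : Prop :=
  ∀ i j, i ≠ j → ∀ U ∈ A i, ∀ W ∈ A j, 1 ≤ finrank K (U ⊓ W : Submodule K V)

omit [Finite K] [Module.Finite K V] in
lemma map_disj (g : V ≃ₗ[K] V) {U W : Submodule K V} (h : U ⊓ W = ⊥) :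
    finrank K ((U.map (g : V →ₗ[K] V)) ⊓ (W.map (g : V →ₗ[K] V)) : Submodule K V) = 0 := by
  rw [← Submodule.map_inf _ g.injective, h, Submodule.map_bot]
  exact finrank_bot K V

/-- the bound for a pair of complementary layers -/
lemma pair_bound {m : ℕ} (hm : 2 ≤ m) (A : Fin m → Set (Submodule K V)) (hA : Cross A) (i j : ℕ)
    (h : i + j = finrank K V) :
    ∑ l, cnt (A l) i + ∑ l, cnt (A l) j ≤ m * NS K V j := by
  classical
  have : Finite (V ≃ₗ[K] V) := finG
  have : Fintype (V ≃ₗ[K] V) := Fintype.ofFinite _
  obtain ⟨U, hU⟩ := exists_dim (K := K) (V := V) i (by omega)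
  obtain ⟨W, hW⟩ := U.exists_isCompl
  have hWd : finrank K W = j := by
    have := Submodule.finrank_add_eq_of_isCompl hW
    omega
  have hUW : U ⊓ W = ⊥ := hW.inf_eq_bot
  obtain ⟨r, rfl⟩ : ∃ r, m = r + 2 := ⟨m - 2, by omega⟩
  set N := NS K V j with hN
  have hNi : NS K V i = N := NS_symm i j h
  set G := Fintype.card (V ≃ₗ[K] V) with hG
  have hGpos : 0 < G := Fintype.card_pos_iff.2 ⟨LinearEquiv.refl K V⟩
  have h1 : ∀ l : Fin (r + 2),
      (∑ g : V ≃ₗ[K] V, if U.map (g : V →ₗ[K] V) ∈ A l then 1 else 0) * N = G * cnt (A l) i := by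
    intro l
    have := avg (A l) U
    rw [hU, hNi] at this
    exact this
  have h2 : ∀ l : Fin (r + 2),
      (∑ g : V ≃ₗ[K] V, if W.map (g : V →ₗ[K] V) ∈ A l then 1 else 0) * N = G * cnt (A l) j := by
    intro l
    have := avg (A l) W
    rw [hWd] at this
    exact this
  have h3 : ∑ l, cnt (A l) j = ∑ l : Fin (r + 2), cnt (A (l + 1)) j :=
    (Equiv.sum_comp (Equiv.addRight (1 : Fin (r + 2))) (fun l => cnt (A l) j)).symm
  have h4 : G * (∑ l, cnt (A l) i + ∑ l, cnt (A l) j) ≤ G * ((r + 2) * N) := by
    rw [h3, ← Finset.sum_add_distrib, Finset.mul_sum]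
    have h5 : ∀ l : Fin (r + 2), G * (cnt (A l) i + cnt (A (l + 1)) j) ≤ G * N := by
      intro l
      rw [mul_add, ← h1 l, ← h2 (l + 1), ← add_mul, ← Finset.sum_add_distrib]
      apply Nat.mul_le_mul_right
      calc _ ≤ ∑ _g : V ≃ₗ[K] V, 1 := by
            apply Finset.sum_le_sum
            intro g _
            by_cases ha : U.map (g : V →ₗ[K] V) ∈ A l
            · by_cases hb : W.map (g : V →ₗ[K] V) ∈ A (l + 1)
              · exfalso
                have hne : l ≠ l + 1 := by
                  intro hh
                  have : (1 : Fin (r + 2)) = 0 := by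
                    have h6 : l + 0 = l + 1 := by rw [add_zero]; exact hh
                    exact (add_left_cancel h6).symm
                  exact absurd this (by simp)
                have := hA l (l + 1) hne _ ha _ hb
                rw [map_disj g hUW] at this
                omega
              · simp [ha, hb]
            · split_ifs <;> simp
        _ = G := by simp [hG]
    calc _ ≤ ∑ _l : Fin (r + 2), G * N := Finset.sum_le_sum fun l _ => h5 l
      _ = _ := by simp; ring
  exact Nat.le_of_mul_le_mul_left h4 hGpos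

end Pool.Agent.V11152.CS
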