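import Pool.Agent.V11152.CSb

set_option autoImplicit false

open Module Finset

namespace Pool.Agent.V11152.CS

variable {K V : Type} [Field K] [Finite K] [AddCommGroup V] [Module K V] [Module.Finite K V]

/-- the members of the standard spread of `L × L` -/
def sp (K L : Type) [Field K] [Field L] [Algebra K L] : Option L → Submodule K (L × L)
  | none => LinearMap.range (LinearMap.inr K L L)
  | some a => LinearMap.range (LinearMap.prod LinearMap.id (LinearMap.mulLeft K a))

lemma sp_mem (L : Type) [Field L] [Algebra K L] (v : L × L) (hv : v ≠ 0) :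
    ∃! s, v ∈ sp K L s := by
  obtain ⟨x, y⟩ := v
  by_cases hx : x = 0
  · subst hx
    have hy : y ≠ 0 := by
      rintro rfl; exact hv rfl
    refine ⟨none, ⟨y, rfl⟩, ?_⟩
    rintro (_ | a) hs
    · rfl
    · exfalso
      obtain ⟨z, hz⟩ := hs
      simp only [LinearMap.prod_apply, LinearMap.id_coe, id_eq, LinearMap.mulLeft_apply, Function.prod_apply,
        Prod.mk.injEq] at hz
      obtain ⟨h1, h2⟩ := hz
      rw [h1, mul_zero] at h2
      exact hy h2.symm
  · refine ⟨some (y / x), ⟨x, ?_⟩, ?_⟩
    · simp [div_mul_cancel₀ y hx]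
    · rintro (_ | a) hs
      · exfalso
        obtain ⟨z, hz⟩ := hs
        simp only [LinearMap.inr_apply, Prod.mk.injEq] at hz
        exact hx hz.1.symm
      · obtain ⟨z, hz⟩ := hs
        simp only [LinearMap.prod_apply, LinearMap.id_coe, id_eq, LinearMap.mulLeft_apply, Function.prod_apply,
          Prod.mk.injEq] at hz
        obtain ⟨h1, h2⟩ := hz
        rw [h1] at h2
        rw [← h2, mul_div_cancel_right₀ a hx]

lemma sp_dim (L : Type) [Field L] [Algebra K L] (s : Option L) :
    finrank K (sp K L s) = finrank K L := by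
  cases s with
  | none =>
    exact LinearMap.finrank_range_of_inj LinearMap.inr_injective
  | some a =>
    apply LinearMap.finrank_range_of_inj
    intro x y hxy
    simpa using congrArg Prod.fst hxy

/-- spreads exist -/
theorem exists_spread (k : ℕ) (hk : 1 ≤ k) (hV : finrank K V = 2 * k) :
    ∃ (ι : Type) (_ : Fintype ι) (S : ι → Submodule K V), Fintype.card ι = Nat.card K ^ k + 1 ∧
      (∀ s, finrank K (S s) = k) ∧ ∀ v : V, v ≠ 0 → ∃! s, v ∈ S s := by
  obtain ⟨p, hp⟩ := CharP.exists K
  have hpr : Fact p.Prime := ⟨CharP.char_is_prime K p⟩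
  have hk0 : NeZero k := ⟨by omega⟩
  let L := FiniteField.Extension K p k
  have hL : finrank K L = k := FiniteField.finrank_extension K p k
  have hcard : Nat.card L = Nat.card K ^ k := FiniteField.natCard_extension K p k
  have hfin : Finite L := Module.finite_of_finite K
  have hft : Fintype L := Fintype.ofFinite L
  have e : (L × L) ≃ₗ[K] V := LinearEquiv.ofFinrankEq _ _ (by
    rw [Module.finrank_prod, hL, hV]; ring)
  refine ⟨Option L, inferInstance, fun s => (sp K L s).map (e : (L × L) →ₗ[K] V), ?_, ?_, ?_⟩
  · rw [Fintype.card_option, ← Nat.card_eq_fintype_card, hcard]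
  · intro s
    rw [LinearEquiv.finrank_map_eq e (sp K L s), sp_dim, hL]
  · intro v hv
    have h1 : e.symm v ≠ 0 := by simpa using hv
    obtain ⟨s, hs, hu⟩ := sp_mem (K := K) L (e.symm v) h1
    refine ⟨s, ⟨e.symm v, hs, by simp⟩, ?_⟩
    rintro t ⟨w, hw, hwv⟩
    apply hu
    have : e.symm v = w := by rw [← hwv]; simp
    rw [this]
    exact hw

omit [Finite K] in
lemma finrank_pos_of_mem {U : Submodule K V} {v : V} (hv : v ∈ U) (h0 : v ≠ 0) :
    1 ≤ finrank K U := by
  by_contra h
  have h1 : finrank K U = 0 := by omega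
  rw [Submodule.finrank_eq_zero] at h1
  rw [h1] at hv
  exact h0 ((Submodule.mem_bot K).1 hv)

/-- the bound for the middle layer -/
lemma mid_bound {m : ℕ} (A : Fin m → Set (Submodule K V)) (hA : Cross A) (k : ℕ)
    (hk : 1 ≤ k) (hV : finrank K V = 2 * k) :
    (∑ l, cnt (A l) k) * (Nat.card K ^ k + 1) ≤ max (Nat.card K ^ k + 1) m * NS K V k := by
  classical
  have : Finite (V ≃ₗ[K] V) := finG
  have : Fintype (V ≃ₗ[K] V) := Fintype.ofFinite _
  obtain ⟨ι, _, S, hι, hS, hu⟩ := exists_spread (K := K) (V := V) k hk hV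
  have hdisj : ∀ s t, s ≠ t → S s ⊓ S t = ⊥ := by
    intro s t hst
    rw [Submodule.eq_bot_iff]
    intro v hv
    by_contra h0
    obtain ⟨w, _, hw⟩ := hu v h0
    exact hst ((hw s hv.1).trans (hw t hv.2).symm)
  set G := Fintype.card (V ≃ₗ[K] V) with hG
  have hGpos : 0 < G := Fintype.card_pos_iff.2 ⟨LinearEquiv.refl K V⟩
  have h1 : ∀ (l : Fin m) (s : ι),
      (∑ g : V ≃ₗ[K] V, if (S s).map (g : V →ₗ[K] V) ∈ A l then 1 else 0) * NS K V k =
        G * cnt (A l) k := by
    intro l s
    have := avg (A l) (S s)
    rw [hS] at this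
    exact this
  -- the bound for one automorphism
  have h2 : ∀ g : V ≃ₗ[K] V,
      (∑ l : Fin m, ∑ s : ι, if (S s).map (g : V →ₗ[K] V) ∈ A l then 1 else 0) ≤
        max (Nat.card K ^ k + 1) m := by
    intro g
    have hc : ∀ l l' : Fin m, l ≠ l' → ∀ s t, (S s).map (g : V →ₗ[K] V) ∈ A l →
        (S t).map (g : V →ₗ[K] V) ∈ A l' → s = t := by
      intro l l' hl s t hs ht
      by_contra hst
      have := hA l l' hl _ hs _ ht
      rw [map_disj g (hdisj s t hst)] at this
      omega
    by_cases hone : ∃ l l' : Fin m, l ≠ l' ∧ (∃ s, (S s).map (g : V →ₗ[K] V) ∈ A l) ∧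
        (∃ s, (S s).map (g : V →ₗ[K] V) ∈ A l')
    · obtain ⟨l, l', hl, ⟨s, hs⟩, ⟨s', hs'⟩⟩ := hone
      have hss : s = s' := hc l l' hl s s' hs hs'
      subst hss
      have hall : ∀ (l'' : Fin m) (t : ι), (S t).map (g : V →ₗ[K] V) ∈ A l'' → t = s := by
        intro l'' t ht
        by_cases h : l'' = l
        · subst h
          exact hc l'' l' hl t s ht hs'
        · exact hc l'' l h t s ht hs
      calc _ ≤ ∑ _l : Fin m, 1 := by
            apply Finset.sum_le_sum
            intro l'' _
            calc (∑ t : ι, if (S t).map (g : V →ₗ[K] V) ∈ A l'' then 1 else 0)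
                ≤ ∑ t : ι, if t = s then 1 else 0 := by
                  apply Finset.sum_le_sum
                  intro t _
                  by_cases ht : (S t).map (g : V →ₗ[K] V) ∈ A l''
                  · rw [if_pos ht, if_pos (hall l'' t ht)]
                  · rw [if_neg ht]; exact Nat.zero_le _
              _ ≤ 1 := by simp
        _ ≤ _ := by simp
    · push Not at hone
      by_cases hex : ∃ l : Fin m, ∃ s, (S s).map (g : V →ₗ[K] V) ∈ A l
      · obtain ⟨l, hl⟩ := hex
        calc _ = ∑ l' : Fin m, if l' = l then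
                (∑ s : ι, if (S s).map (g : V →ₗ[K] V) ∈ A l then 1 else 0) else 0 := by
              apply Finset.sum_congr rfl
              intro l' _
              by_cases h : l' = l
              · subst h; simp
              · rw [if_neg h]
                apply Finset.sum_eq_zero
                intro s _
                rw [if_neg (hone l l' (Ne.symm h) hl s)]
          _ = ∑ s : ι, if (S s).map (g : V →ₗ[K] V) ∈ A l then 1 else 0 := by simp
          _ ≤ ∑ _s : ι, 1 := by
              apply Finset.sum_le_sum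
              intro s _
              split_ifs <;> simp
          _ ≤ _ := by
              rw [Finset.sum_const, card_univ, smul_eq_mul, mul_one, hι]
              exact le_max_left _ _
      · push Not at hex
        rw [Finset.sum_eq_zero]
        · exact Nat.zero_le _
        · intro l _
          apply Finset.sum_eq_zero
          intro s _
          rw [if_neg (hex l s)]
  have h3 : G * ((∑ l, cnt (A l) k) * (Nat.card K ^ k + 1)) ≤
      G * (max (Nat.card K ^ k + 1) m * NS K V k) := by
    calc G * ((∑ l, cnt (A l) k) * (Nat.card K ^ k + 1))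
        = ∑ l : Fin m, ∑ _s : ι, G * cnt (A l) k := by
          simp only [Finset.sum_const, card_univ, hι, smul_eq_mul]
          rw [← Finset.mul_sum, ← Finset.mul_sum]; ring
      _ = ∑ l : Fin m, ∑ s : ι,
          (∑ g : V ≃ₗ[K] V, if (S s).map (g : V →ₗ[K] V) ∈ A l then 1 else 0) * NS K V k := by
          apply Finset.sum_congr rfl
          intro l _
          apply Finset.sum_congr rfl
          intro s _
          rw [h1 l s]
      _ = (∑ g : V ≃ₗ[K] V, ∑ l : Fin m, ∑ s : ι,
          if (S s).map (g : V →ₗ[K] V) ∈ A l then 1 else 0) * NS K V k := by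
          simp only [← Finset.sum_mul]
          congr 1
          rw [Finset.sum_comm]
          simp only [Finset.sum_comm (s := (univ : Finset ι))]
          rw [Finset.sum_comm]
      _ ≤ (∑ _g : V ≃ₗ[K] V, max (Nat.card K ^ k + 1) m) * NS K V k := by
          apply Nat.mul_le_mul_right
          exact Finset.sum_le_sum fun g _ => h2 g
      _ = _ := by
          rw [Finset.sum_const, card_univ, smul_eq_mul]; ring
  exact Nat.le_of_mul_le_mul_left h3 hGpos

/-- the subspaces through a point -/
lemma point_count (k : ℕ) (hk : 1 ≤ k) (hV : finrank K V = 2 * k) (v : V) (hv : v ≠ 0) :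
    cnt {U : Submodule K V | v ∈ U} k * (Nat.card K ^ k + 1) = NS K V k := by
  classical
  have : Finite (V ≃ₗ[K] V) := finG
  have : Fintype (V ≃ₗ[K] V) := Fintype.ofFinite _
  obtain ⟨ι, _, S, hι, hS, hu⟩ := exists_spread (K := K) (V := V) k hk hV
  set G := Fintype.card (V ≃ₗ[K] V) with hG
  have hGpos : 0 < G := Fintype.card_pos_iff.2 ⟨LinearEquiv.refl K V⟩
  have h1 : ∀ (s : ι), (∑ g : V ≃ₗ[K] V,
      if (S s).map (g : V →ₗ[K] V) ∈ {U : Submodule K V | v ∈ U} then 1 else 0) * NS K V k =
        G * cnt {U : Submodule K V | v ∈ U} k := by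
    intro s
    have := avg {U : Submodule K V | v ∈ U} (S s)
    rw [hS] at this
    exact this
  have h2 : ∀ g : V ≃ₗ[K] V, (∑ s : ι,
      if (S s).map (g : V →ₗ[K] V) ∈ {U : Submodule K V | v ∈ U} then 1 else 0) = 1 := by
    intro g
    have h0 : g.symm v ≠ 0 := by simpa using hv
    obtain ⟨t, ht, htu⟩ := hu (g.symm v) h0
    have h4 : ∀ s, (S s).map (g : V →ₗ[K] V) ∈ {U : Submodule K V | v ∈ U} ↔ s = t := by
      intro s
      constructor
      · rintro ⟨w, hw, hwv⟩
        apply htu
        have : g.symm v = w := by rw [← hwv]; simp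
        rw [this]
        exact hw
      · rintro rfl
        exact ⟨g.symm v, ht, by simp⟩
    simp only [h4]
    simp
  have h3 : G * (cnt {U : Submodule K V | v ∈ U} k * (Nat.card K ^ k + 1)) = G * NS K V k := by
    calc G * (cnt {U : Submodule K V | v ∈ U} k * (Nat.card K ^ k + 1))
        = ∑ _s : ι, G * cnt {U : Submodule K V | v ∈ U} k := by
          simp only [Finset.sum_const, card_univ, hι, smul_eq_mul]
          ring
      _ = ∑ s : ι, (∑ g : V ≃ₗ[K] V,
          if (S s).map (g : V →ₗ[K] V) ∈ {U : Submodule K V | v ∈ U} then 1 else 0) *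
            NS K V k := by
          apply Finset.sum_congr rfl
          intro s _
          rw [h1 s]
      _ = (∑ g : V ≃ₗ[K] V, ∑ s : ι,
          if (S s).map (g : V →ₗ[K] V) ∈ {U : Submodule K V | v ∈ U} then 1 else 0) *
            NS K V k := by
          rw [← Finset.sum_mul, Finset.sum_comm]
      _ = (∑ _g : V ≃ₗ[K] V, 1) * NS K V k := by
          rw [Finset.sum_congr rfl fun g _ => h2 g]
      _ = _ := by
          rw [Finset.sum_const, card_univ, smul_eq_mul]; ring
  exact Nat.eq_of_mul_eq_mul_left hGpos h3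

end Pool.Agent.V11152.CS
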