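import Pool.Agent.V11152.CSc

set_option autoImplicit false

open Module Finset

namespace Pool.Agent.V11152.CS

/-- the Gaussian binomial coefficient, the number of `k`-dimensional subspaces of an
`n`-dimensional space over the field with `q` elements -/
def gauss (q n k : ℕ) : ℕ :=
  (∏ i ∈ range k, (q ^ n - q ^ i)) / ∏ i ∈ range k, (q ^ k - q ^ i)

section
variable (F : Type) [Field F]

theorem gr_cardV [Fintype F] {V : Type} [AddCommGroup V] [Module F V] [Finite V] (m k : ℕ)
    (hm : Module.finrank F V = m) (hk : k ≤ m) :
    Nat.card {W : Submodule F V // Module.finrank F W = k} *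
      (∏ i ∈ range k, (Fintype.card F ^ k - Fintype.card F ^ i)) =
      ∏ i ∈ range k, (Fintype.card F ^ m - Fintype.card F ^ i) := by
  classical
  have : Module.Finite F V := Module.Finite.of_finite
  have : Fintype V := Fintype.ofFinite V
  have : Finite (Submodule F V) := Finite.of_injective (fun W : Submodule F V => (W : Set V)) SetLike.coe_injective
  have : Fintype {W : Submodule F V // Module.finrank F W = k} := Fintype.ofFinite _
  have h1 := card_linearIndependent (K := F) (V := V) (k := k) (by rw [hm]; exact hk)
  rw [hm, Fin.prod_univ_eq_prod_range (fun i => Fintype.card F ^ m - Fintype.card F ^ i)] at h1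
  have hcf : ∀ W : {W : Submodule F V // Module.finrank F W = k},
      Fintype.card {s : {s : Fin k → V // LinearIndependent F s} //
        Submodule.span F (Set.range s.1) = W.1} =
        ∏ i ∈ range k, (Fintype.card F ^ k - Fintype.card F ^ i) := by
    intro W
    have h2 := card_linearIndependent (K := F) (V := W.1) (k := k) (by rw [W.2])
    rw [W.2, Fin.prod_univ_eq_prod_range (fun i => Fintype.card F ^ k - Fintype.card F ^ i)] at h2
    rw [← h2, ← Nat.card_eq_fintype_card]
    apply Nat.card_congr
    refine ⟨fun s => ⟨fun i => ⟨s.1.1 i, s.2.le (Submodule.subset_span ⟨i, rfl⟩)⟩, ?_⟩,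
      fun t => ⟨⟨fun i => (t.1 i : V), ?_⟩, ?_⟩, ?_, ?_⟩
    · have := s.1.2
      exact LinearIndependent.of_comp W.1.subtype this
    · exact t.2.map' W.1.subtype (Submodule.ker_subtype _)
    · have hli : LinearIndependent F (fun i => (t.1 i : V)) := t.2.map' W.1.subtype (Submodule.ker_subtype _)
      apply Submodule.eq_of_le_of_finrank_eq
      · rw [Submodule.span_le]
        rintro _ ⟨i, rfl⟩
        exact (t.1 i).2
      · rw [W.2, finrank_span_eq_card hli, Fintype.card_fin]
    · intro s
      rfl
    · intro t
      rfl
  have h3 : Fintype.card {s : Fin k → V // LinearIndependent F s}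
      = ∑ W : {W : Submodule F V // Module.finrank F W = k},
        Fintype.card {s : {s : Fin k → V // LinearIndependent F s} // Submodule.span F (Set.range s.1) = W.1} := by
    rw [← Fintype.card_sigma]
    apply Fintype.card_congr
    refine ⟨fun s => ⟨⟨Submodule.span F (Set.range s.1), by rw [finrank_span_eq_card s.2, Fintype.card_fin]⟩, ⟨s, rfl⟩⟩,
      fun t => t.2.1, ?_, ?_⟩
    · intro s; rfl
    · rintro ⟨⟨W, hW⟩, ⟨s, hs⟩⟩
      simp only at hs
      subst hs
      rfl
  rw [← Nat.card_eq_fintype_card, h1, sum_congr rfl (fun W _ => hcf W), sum_const, smul_eq_mul,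
    card_univ] at h3
  rw [Nat.card_eq_fintype_card, ← h3]

end

variable {K V : Type} [Field K] [Finite K] [AddCommGroup V] [Module K V] [Module.Finite K V]

lemma NS_eq (d : ℕ) (hd : d ≤ finrank K V) :
    NS K V d = gauss (Nat.card K) (finrank K V) d := by
  have : Finite V := finV K V
  have : Fintype K := Fintype.ofFinite K
  have h1 := gr_cardV K (V := V) (finrank K V) d rfl hd
  have h2 : NS K V d = Nat.card {W : Submodule K V // Module.finrank K W = d} := rfl
  rw [← h2] at h1
  have hq : 1 < Nat.card K := Finite.one_lt_card
  unfold gauss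
  rw [Nat.card_eq_fintype_card] at hq ⊢
  rw [← h1, Nat.mul_div_cancel]
  apply Finset.prod_pos
  intro i hi
  rw [mem_range] at hi
  exact Nat.sub_pos_of_lt (Nat.pow_lt_pow_right hq hi)

/-- splitting a family by dimension -/
lemma ncard_eq (A : Set (Submodule K V)) :
    A.ncard = ∑ d ∈ range (finrank K V + 1), cnt A d := by
  classical
  have : Finite (Submodule K V) := finSub
  have : Fintype (Submodule K V) := Fintype.ofFinite _
  rw [Set.ncard_eq_toFinset_card', Finset.card_eq_sum_card_fiberwise
    (f := fun U : Submodule K V => finrank K U) (t := range (finrank K V + 1))]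
  · apply Finset.sum_congr rfl
    intro d _
    unfold cnt
    rw [Set.ncard_eq_toFinset_card']
    congr 1
    ext U
    simp
  · intro U _
    simp only [coe_range, Set.mem_Iio]
    have := Submodule.finrank_le U
    omega

/-- the layers above the middle -/
def H (n : ℕ) : Finset ℕ := (range (n + 1)).filter (fun d => n < 2 * d)

/-- splitting the layers into complementary pairs -/
lemma sum_split (n : ℕ) (a : ℕ → ℕ) :
    ∑ d ∈ range (n + 1), a d = ∑ d ∈ H n, (a (n - d) + a d) + if Even n then a (n / 2) else 0 := by
  have h1 : ∑ d ∈ range (n + 1), a d = ∑ d ∈ H n, a d +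
      ∑ d ∈ (range (n + 1)).filter (fun d => ¬ n < 2 * d), a d := by
    rw [H, Finset.sum_filter_add_sum_filter_not]
  have h2 : ∑ d ∈ (range (n + 1)).filter (fun d => ¬ n < 2 * d), a d =
      ∑ d ∈ (range (n + 1)).filter (fun d => 2 * d < n), a d +
        ∑ d ∈ (range (n + 1)).filter (fun d => 2 * d = n), a d := by
    rw [← Finset.sum_union]
    · apply Finset.sum_congr _ fun _ _ => rfl
      ext d
      simp only [mem_filter, mem_range, mem_union]
      omega
    · rw [Finset.disjoint_left]
      intro d h1 h2
      simp only [mem_filter] at h1 h2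
      omega
  have h3 : ∑ d ∈ (range (n + 1)).filter (fun d => 2 * d < n), a d = ∑ d ∈ H n, a (n - d) := by
    apply Finset.sum_nbij' (fun d => n - d) (fun d => n - d)
    · intro d hd
      simp only [H, mem_filter, mem_range] at hd ⊢
      omega
    · intro d hd
      simp only [H, mem_filter, mem_range] at hd ⊢
      omega
    · intro d hd
      simp only [mem_filter, mem_range] at hd
      omega
    · intro d hd
      simp only [H, mem_filter, mem_range] at hd
      omega
    · intro d hd
      simp only [mem_filter, mem_range] at hd
      congr 1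
      omega
  have h4 : ∑ d ∈ (range (n + 1)).filter (fun d => 2 * d = n), a d =
      if Even n then a (n / 2) else 0 := by
    split_ifs with he
    · rw [Finset.sum_eq_single (n / 2)]
      · intro d hd hne
        simp only [mem_filter, mem_range] at hd
        omega
      · intro hn
        exfalso
        apply hn
        simp only [mem_filter, mem_range]
        obtain ⟨r, hr⟩ := he
        omega
    · apply Finset.sum_eq_zero
      intro d hd
      exfalso
      simp only [mem_filter, mem_range] at hd
      exact he ⟨d, by omega⟩
  rw [h1, h2, h3, h4, Finset.sum_add_distrib]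
  ring

/-- the extremal value for `t = 1` -/
def maxSum (q n m : ℕ) : ℕ :=
  m * ∑ d ∈ H n, gauss q n d +
    if Even n then max (gauss q n (n / 2)) (m * (gauss q n (n / 2) / (q ^ (n / 2) + 1))) else 0

omit [Finite K] in
lemma exists_nz (h : 1 ≤ finrank K V) : ∃ v : V, v ≠ 0 := by
  have : Nontrivial V := Module.nontrivial_of_finrank_pos (R := K) (by omega)
  exact _root_.exists_ne 0

theorem upper {m : ℕ} (hm : 2 ≤ m) (hn : 1 ≤ finrank K V) (A : Fin m → Set (Submodule K V))
    (hA : Cross A) : ∑ l, (A l).ncard ≤ maxSum (Nat.card K) (finrank K V) m := by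
  set n := finrank K V with hnn
  set q := Nat.card K with hq
  have h1 : ∑ l, (A l).ncard = ∑ d ∈ range (n + 1), ∑ l, cnt (A l) d := by
    rw [Finset.sum_comm]
    exact Finset.sum_congr rfl fun l _ => ncard_eq (A l)
  rw [h1, sum_split n (fun d => ∑ l, cnt (A l) d), maxSum]
  apply Nat.add_le_add
  · rw [Finset.mul_sum]
    apply Finset.sum_le_sum
    intro d hd
    simp only [H, mem_filter, mem_range] at hd
    have h2 := pair_bound hm A hA (n - d) d (by omega)
    rw [NS_eq d (by omega)] at h2
    exact h2
  · split_ifs with he
    · obtain ⟨k, hk⟩ := he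
      have hk2 : n / 2 = k := by omega
      rw [hk2]
      have hV : finrank K V = 2 * k := by omega
      have hk1 : 1 ≤ k := by omega
      have h3 := mid_bound A hA k hk1 hV
      obtain ⟨v, hv⟩ := exists_nz (K := K) (V := V) hn
      have h4 := point_count k hk1 hV v hv
      have h5 := NS_eq (K := K) (V := V) k (by omega)
      rw [← h5, ← h4]
      set c := cnt {U : Submodule K V | v ∈ U} k
      set Q := Nat.card K ^ k + 1 with hQ
      have hQpos : 0 < Q := by omega
      rw [← h4] at h3
      rw [Nat.mul_div_cancel _ hQpos]
      have h7 : (∑ l, cnt (A l) k) * Q ≤ (max Q m * c) * Q := by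
        calc _ ≤ max Q m * (c * Q) := h3
          _ = _ := by ring
      have h8 := Nat.le_of_mul_le_mul_right h7 hQpos
      calc _ ≤ max Q m * c := h8
        _ = max (c * Q) (m * c) := by
          rw [max_mul_of_nonneg _ _ (Nat.zero_le c), mul_comm Q c]
    · exact le_refl _

end Pool.Agent.V11152.CS
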