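import Pool.Agent.V11152.CSd

set_option autoImplicit false

open Module Finset

namespace Pool.Agent.V11152.CS

variable {K V : Type} [Field K] [Finite K] [AddCommGroup V] [Module K V] [Module.Finite K V]

/-- extension of a vector by zero -/
def ext0 (K : Type) [Field K] (b c : ℕ) : (Fin c → K) →ₗ[K] (Fin b → K) where
  toFun z := fun k => if h : k.val < c then z ⟨k.val, h⟩ else 0
  map_add' z w := by
    ext k
    simp only [Pi.add_apply]
    split_ifs <;> simp
  map_smul' r z := by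
    ext k
    simp only [Pi.smul_apply, RingHom.id_apply]
    split_ifs <;> simp

lemma ext0_inj (b c : ℕ) (hc : c ≤ b) : Function.Injective (ext0 K b c) := by
  intro z w h
  ext k
  have := congrFun h ⟨k.val, by omega⟩
  simpa [ext0] using this

/-- the lower subspaces of the configuration -/
def lowMap (K L : Type) [Field K] [Field L] [Algebra K L] (τ b c : ℕ) (i : (Fin b → K) →ₗ[K] L)
    (s : L) : ((Fin τ → K) × (Fin c → K)) →ₗ[K] ((Fin τ → K) × ((Fin b → K) × L)) :=
  LinearMap.prodMap LinearMap.id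
    (LinearMap.prod (ext0 K b c) ((LinearMap.mulLeft K s) ∘ₗ i ∘ₗ (ext0 K b c)))

lemma lowMap_apply (K L : Type) [Field K] [Field L] [Algebra K L] (τ b c : ℕ)
    (i : (Fin b → K) →ₗ[K] L) (s : L) (u : Fin τ → K) (z : Fin c → K) :
    lowMap K L τ b c i s (u, z) = (u, (ext0 K b c z, s * i (ext0 K b c z))) := rfl

/-- the first `c` middle coordinates -/
def cutMap (K L : Type) [Field K] [Field L] [Algebra K L] (τ b c : ℕ) (hc : c ≤ b) :
    ((Fin τ → K) × ((Fin b → K) × L)) →ₗ[K] (Fin c → K) where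
  toFun v := fun k => v.2.1 ⟨k.val, by have := k.2; omega⟩
  map_add' _ _ := rfl
  map_smul' _ _ := rfl

/-- the configuration of subspaces -/
theorem exists_config (τ b B : ℕ) (hB : B ≤ b + 1)
    (hV : finrank K V = τ + (B + (b + 1))) :
    ∃ (ι : Type) (_ : Fintype ι) (U : ℕ → ι → Submodule K V) (W : ℕ → Submodule K V),
      Fintype.card ι = Nat.card K ^ (b + 1) ∧
      (∀ c ≤ B, ∀ s, finrank K (U c s) = τ + c) ∧
      (∀ c ≤ B, finrank K (W c) + c = finrank K V) ∧
      (∀ c c' : ℕ, c ≤ c' → c' ≤ B → ∀ s, finrank K (U c s ⊓ W c' : Submodule K V) ≤ τ) ∧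
      (∀ c c' : ℕ, ∀ s s', s ≠ s' → finrank K (U c s ⊓ U c' s' : Submodule K V) ≤ τ) := by
  obtain ⟨p, hp⟩ := CharP.exists K
  have hpr : Fact p.Prime := ⟨CharP.char_is_prime K p⟩
  let L := FiniteField.Extension K p (b + 1)
  have hL : finrank K L = b + 1 := FiniteField.finrank_extension K p (b + 1)
  have hcard : Nat.card L = Nat.card K ^ (b + 1) := FiniteField.natCard_extension K p (b + 1)
  have hfin : Finite L := Module.finite_of_finite K
  have hft : Fintype L := Fintype.ofFinite L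
  -- an embedding of `K^B`
  obtain ⟨i, hi⟩ : ∃ i : (Fin B → K) →ₗ[K] L, Function.Injective i := by
    have e : (Fin (b + 1) → K) ≃ₗ[K] L := LinearEquiv.ofFinrankEq _ _ (by
      rw [Module.finrank_fin_fun, hL])
    refine ⟨(e : (Fin (b + 1) → K) →ₗ[K] L) ∘ₗ (ext0 K (b + 1) B), ?_⟩
    rw [LinearMap.coe_comp]
    exact e.injective.comp (ext0_inj (b + 1) B hB)
  let Q := (Fin τ → K) × ((Fin B → K) × L)
  have hQ : finrank K Q = τ + (B + (b + 1)) := by
    show finrank K ((Fin τ → K) × ((Fin B → K) × L)) = _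
    rw [Module.finrank_prod, Module.finrank_prod, Module.finrank_fin_fun, Module.finrank_fin_fun,
      hL]
  have e : Q ≃ₗ[K] V := LinearEquiv.ofFinrankEq _ _ (by rw [hQ, hV])
  let U0 : ℕ → L → Submodule K Q := fun c s => LinearMap.range (lowMap K L τ B c i s)
  let W0 : ℕ → Submodule K Q := fun c => if h : c ≤ B then
    LinearMap.ker (cutMap K L τ B c h) else ⊥
  let T : Submodule K Q := LinearMap.range (LinearMap.inl K (Fin τ → K) ((Fin B → K) × L))
  have hT : finrank K T = τ := by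
    rw [LinearMap.finrank_range_of_inj LinearMap.inl_injective, Module.finrank_fin_fun]
  have hU0 : ∀ c ≤ B, ∀ s, finrank K (U0 c s) = τ + c := by
    intro c hc s
    have hinj : Function.Injective (lowMap K L τ B c i s) := by
      rintro ⟨u, z⟩ ⟨u', z'⟩ h
      simp only [lowMap, LinearMap.prodMap_apply, LinearMap.id_coe, id_eq, LinearMap.prod_apply,
        Function.prod_apply, Prod.mk.injEq] at h
      obtain ⟨h1, h2, _⟩ := h
      rw [h1, ext0_inj B c hc h2]
    rw [LinearMap.finrank_range_of_inj hinj, Module.finrank_prod, Module.finrank_fin_fun,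
      Module.finrank_fin_fun]
  have hW0 : ∀ c ≤ B, finrank K (W0 c) + c = τ + (B + (b + 1)) := by
    intro c hc
    have hsurj : Function.Surjective (cutMap K L τ B c hc) := by
      intro z
      refine ⟨(0, (ext0 K B c z, 0)), ?_⟩
      ext k
      simp [cutMap, ext0]
    have h1 := LinearMap.finrank_range_add_finrank_ker (cutMap K L τ B c hc)
    rw [LinearMap.range_eq_top.2 hsurj, finrank_top, Module.finrank_fin_fun] at h1
    have h2 : W0 c = LinearMap.ker (cutMap K L τ B c hc) := dif_pos hc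
    rw [h2, ← hQ, ← h1]
    ring
  have hUW : ∀ c c' : ℕ, c ≤ c' → c' ≤ B → ∀ s, U0 c s ⊓ W0 c' ≤ T := by
    intro c c' hcc hcb s v hv
    obtain ⟨⟨⟨u, z⟩, rfl⟩, h2⟩ := hv
    have h3 : W0 c' = LinearMap.ker (cutMap K L τ B c' hcb) := dif_pos hcb
    rw [SetLike.mem_coe, h3, LinearMap.mem_ker] at h2
    have hz : ext0 K B c z = 0 := by
      ext k
      by_cases hk : k.val < c
      · have h4 := congrFun h2 ⟨k.val, by omega⟩
        exact h4
      · simp [ext0, hk]
    refine ⟨u, ?_⟩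
    rw [lowMap_apply, hz, map_zero, mul_zero]
    rfl
  have hUU : ∀ c c' : ℕ, ∀ s s', s ≠ s' → U0 c s ⊓ U0 c' s' ≤ T := by
    intro c c' s s' hss v hv
    obtain ⟨⟨⟨u, z⟩, rfl⟩, ⟨⟨u', z'⟩, h2⟩⟩ := hv
    rw [lowMap_apply, lowMap_apply, Prod.mk.injEq, Prod.mk.injEq] at h2
    obtain ⟨_, h3, h4⟩ := h2
    rw [h3] at h4
    have h5 : i (ext0 K B c z) = 0 := by
      have h6 : (s' - s) * i (ext0 K B c z) = 0 := by rw [sub_mul, h4, sub_self]
      rcases mul_eq_zero.1 h6 with h7 | h7
      · exact absurd (sub_eq_zero.1 h7).symm hss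
      · exact h7
    have h8 : ext0 K B c z = 0 := hi (by rw [h5, map_zero])
    refine ⟨u, ?_⟩
    rw [lowMap_apply, h8, map_zero, mul_zero]
    rfl
  have hmap : ∀ X Y : Submodule K Q, X ⊓ Y ≤ T →
      finrank K ((X.map (e : Q →ₗ[K] V)) ⊓ (Y.map (e : Q →ₗ[K] V)) : Submodule K V) ≤ τ := by
    intro X Y h
    rw [← Submodule.map_inf _ e.injective]
    rw [LinearEquiv.finrank_map_eq e (X ⊓ Y)]
    exact (Submodule.finrank_mono h).trans_eq hT
  refine ⟨L, hft, fun c s => (U0 c s).map (e : Q →ₗ[K] V),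
    fun c => (W0 c).map (e : Q →ₗ[K] V), ?_, ?_, ?_, ?_, ?_⟩
  · rw [← Nat.card_eq_fintype_card, hcard]
  · intro c hc s
    rw [LinearEquiv.finrank_map_eq e (U0 c s), hU0 c hc s]
  · intro c hc
    rw [LinearEquiv.finrank_map_eq e (W0 c), hW0 c hc, hV]
  · intro c c' h1 h2 s
    exact hmap _ _ (hUW c c' h1 h2 s)
  · intro c c' s s' h
    exact hmap _ _ (hUU c c' s s' h)

end Pool.Agent.V11152.CS
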