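import Mathlib

set_option autoImplicit false

open Finset

namespace Pool.Agent.V11152.CS

/-- the lower part of the value -/
noncomputable def Lx (x : ℕ → ℝ) (b a : ℕ) : ℝ := ∑ c ∈ Icc a b, x c

/-- the upper part of the value -/
noncomputable def Yf (y : ℕ → ℝ) (a : ℕ) : ℝ := ∑ c ∈ range a, y c

lemma Lx_step (x : ℕ → ℝ) (b a : ℕ) (h : a ≤ b) : Lx x b a = x a + Lx x b (a + 1) := by
  unfold Lx
  rw [← Finset.add_sum_Ioc_eq_sum_Icc h]
  congr 1
  apply Finset.sum_congr _ fun _ _ => rfl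
  ext c
  rw [mem_Ioc, mem_Icc]
  omega

lemma Yf_step (y : ℕ → ℝ) (a : ℕ) : Yf y (a + 1) = Yf y a + y a := by
  unfold Yf
  rw [Finset.sum_range_succ]

lemma Lx_last (x : ℕ → ℝ) (b : ℕ) : Lx x b (b + 1) = 0 := by
  unfold Lx
  rw [Finset.Icc_eq_empty (by omega), Finset.sum_empty]

/-- convexity of the exchange function -/
lemma valley (x y : ℕ → ℝ) (b B : ℕ) (hbB : b ≤ B) (α β : ℝ) (hα : 0 ≤ α) (_hβ : 0 ≤ β)
    (hy : ∀ c, c ≤ b → 0 < y c)
    (hxy : ∀ c, 1 ≤ c → c + 1 ≤ b → x (c + 1) * y c ≤ x c * y (c + 1))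
    (a0 a b' : ℕ) (h0 : 1 ≤ a0) (h1 : a0 ≤ a) (h2 : a ≤ b') (h3 : b' ≤ b + 1) (X : ℝ)
    (hX0 : α * Lx x B a0 + β * Yf y a0 ≤ X) (hX1 : α * Lx x B b' + β * Yf y b' ≤ X) :
    α * Lx x B a + β * Yf y a ≤ X := by
  have hstep : ∀ c, 1 ≤ c → c ≤ b → α * Lx x B (c + 1) + β * Yf y (c + 1) =
      (α * Lx x B c + β * Yf y c) + (β * y c - α * x c) := by
    intro c _ hc
    rw [Lx_step x B c (hc.trans hbB), Yf_step]
    ring
  have hprop : ∀ c, 1 ≤ c → c + 1 ≤ b → 0 ≤ β * y c - α * x c →
      0 ≤ β * y (c + 1) - α * x (c + 1) := by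
    intro c hc1 hcb h
    have e1 := hy c (by omega)
    have e2 := hy (c + 1) hcb
    have e3 := hxy c hc1 hcb
    have e4 : α * x (c + 1) * y c ≤ β * y (c + 1) * y c := by
      calc α * x (c + 1) * y c = α * (x (c + 1) * y c) := by ring
        _ ≤ α * (x c * y (c + 1)) := mul_le_mul_of_nonneg_left e3 hα
        _ = (α * x c) * y (c + 1) := by ring
        _ ≤ (β * y c) * y (c + 1) := mul_le_mul_of_nonneg_right (by linarith) e2.le
        _ = _ := by ring
    have e5 := le_of_mul_le_mul_right e4 e1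
    linarith
  have hprop2 : ∀ c, 1 ≤ c → 0 ≤ β * y c - α * x c → ∀ d, c ≤ d → d ≤ b →
      0 ≤ β * y d - α * x d := by
    intro c hc h d hcd
    induction d, hcd using Nat.le_induction with
    | base => intro _; exact h
    | succ d hd ih => intro hdb; exact hprop d (by omega) hdb (ih (by omega))
  have hmain : ∀ a, a0 ≤ a → a ≤ b + 1 →
      (α * Lx x B a + β * Yf y a ≤ α * Lx x B a0 + β * Yf y a0) ∨
      (∀ d, a ≤ d → d ≤ b → 0 ≤ β * y d - α * x d) := by
    intro a ha
    induction a, ha using Nat.le_induction with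
    | base => intro _; exact Or.inl le_rfl
    | succ a ha ih =>
      intro hab
      rcases ih (by omega) with h | h
      · rcases le_total (β * y a - α * x a) 0 with h4 | h4
        · left
          rw [hstep a (by omega) (by omega)]
          linarith
        · right
          intro d hd hdb
          exact hprop2 a (by omega) h4 d (by omega) hdb
      · right
        intro d hd hdb
        exact h d (by omega) hdb
  rcases hmain a h1 (by omega) with h | h
  · linarith
  · have h5 : ∀ d, a ≤ d → d ≤ b + 1 →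
        α * Lx x B a + β * Yf y a ≤ α * Lx x B d + β * Yf y d := by
      intro d hd
      induction d, hd using Nat.le_induction with
      | base => intro _; exact le_rfl
      | succ d hd ih =>
        intro hdb
        have h6 := ih (by omega)
        have h7 := h d hd (by omega)
        rw [hstep d (by omega) (by omega)]
        linarith
    have := h5 b' h2 h3
    linarith

/-- the combinatorial optimisation behind the bound -/
theorem optim {ι : Type} [Fintype ι] (m b B : ℕ) (hbB : b ≤ B) (hBb : B ≤ b + 1) (hm : 2 ≤ m)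
    (P : ℝ) (hP : 1 ≤ P)
    (hcard : (Fintype.card ι : ℝ) = P) (x y : ℕ → ℝ)
    (hx : ∀ c, 0 ≤ x c) (hy : ∀ c, c ≤ b → 0 < y c)
    (hxy : ∀ c, 1 ≤ c → c + 1 ≤ b → x (c + 1) * y c ≤ x c * y (c + 1)) (X : ℝ)
    (hX1 : Lx x B 1 + Yf y (b + 1) + (m - 1) * Yf y 1 ≤ X)
    (hX2 : Lx x B (b + 1) + m * Yf y (b + 1) ≤ X)
    (hX3 : (m / P) * Lx x B 1 + m * Yf y 1 ≤ X)
    (hX4 : (1 / P) * Lx x B 1 + ((m - 1) / P) * Lx x B (b + 1) + (m - 1) * Yf y 1 +
      Yf y (b + 1) ≤ X)
    (hX5 : (m / P) * Lx x B (b + 1) + m * Yf y (b + 1) ≤ X)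
    (low : Fin m → ℕ → ι → Prop) (up : Fin m → ℕ → Prop)
    [∀ l c s, Decidable (low l c s)] [∀ l c, Decidable (up l c)]
    (h1 : ∀ l l', l ≠ l' → ∀ c c' s, 1 ≤ c → c ≤ B → c' ≤ b → low l c s → up l' c' → c' < c)
    (h2 : ∀ l l', l ≠ l' → ∀ c c' s s', 1 ≤ c → c ≤ B → 1 ≤ c' → c' ≤ B →
      low l c s → low l' c' s' → s = s') :
    ∑ l, (∑ c ∈ range (b + 1), (if up l c then y c else 0) +
      ∑ s, ∑ c ∈ Icc 1 B, (if low l c s then x c / P else 0)) ≤ X := by
  classical
  have hPpos : 0 < P := by linarith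
  have hm1 : (0 : ℝ) ≤ (m : ℝ) - 1 := by
    have : (2 : ℝ) ≤ m := by exact_mod_cast hm
    linarith
  have hm0 : (0 : ℝ) ≤ m := by linarith
  -- bounds for the upper and lower contributions
  have hup : ∀ l a, a ≤ b + 1 → (∀ c ≤ b, up l c → c < a) →
      ∑ c ∈ range (b + 1), (if up l c then y c else 0) ≤ Yf y a := by
    intro l a ha h
    unfold Yf
    rw [← Finset.sum_filter]
    apply Finset.sum_le_sum_of_subset_of_nonneg
    · intro c hc
      rw [mem_filter, mem_range] at hc
      rw [mem_range]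
      exact h c (by omega) hc.2
    · intro c hc _
      rw [mem_range] at hc
      exact (hy c (by omega)).le
  have hlow1 : ∀ l a s, 1 ≤ a → (∀ c, 1 ≤ c → c ≤ B → low l c s → a ≤ c) →
      ∑ c ∈ Icc 1 B, (if low l c s then x c / P else 0) ≤ Lx x B a / P := by
    intro l a s ha h
    unfold Lx
    rw [← Finset.sum_filter, Finset.sum_div]
    apply Finset.sum_le_sum_of_subset_of_nonneg
    · intro c hc
      rw [mem_filter, mem_Icc] at hc
      rw [mem_Icc]
      exact ⟨h c hc.1.1 hc.1.2 hc.2, hc.1.2⟩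
    · intro c _ _
      exact div_nonneg (hx c) hPpos.le
  have hlowall : ∀ l a, 1 ≤ a → (∀ c s, 1 ≤ c → c ≤ B → low l c s → a ≤ c) →
      ∑ s, ∑ c ∈ Icc 1 B, (if low l c s then x c / P else 0) ≤ Lx x B a := by
    intro l a ha h
    calc _ ≤ ∑ _s : ι, Lx x B a / P := by
          apply Finset.sum_le_sum
          intro s _
          exact hlow1 l a s ha (fun c hc1 hc2 hc3 => h c s hc1 hc2 hc3)
      _ = Lx x B a := by
          rw [Finset.sum_const, card_univ, nsmul_eq_mul, hcard]
          field_simp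
  have hlowone : ∀ l a s0, 1 ≤ a → (∀ c, 1 ≤ c → c ≤ B → low l c s0 → a ≤ c) →
      (∀ c s, 1 ≤ c → c ≤ B → low l c s → s = s0) →
      ∑ s, ∑ c ∈ Icc 1 B, (if low l c s then x c / P else 0) ≤ Lx x B a / P := by
    intro l a s0 ha h h'
    rw [Finset.sum_eq_single s0]
    · exact hlow1 l a s0 ha h
    · intro s _ hs
      apply Finset.sum_eq_zero
      intro c hc
      rw [mem_Icc] at hc
      rw [if_neg]
      intro hl
      exact hs (h' c s hc.1 hc.2 hl)
    · intro hs; exact absurd (mem_univ s0) hs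
  -- the two valley estimates
  have V1 : ∀ a, 1 ≤ a → a ≤ b + 1 →
      Lx x B a + Yf y (b + 1) + (m - 1) * Yf y a ≤ X := by
    intro a ha1 hab
    have := valley x y b B hbB 1 (m - 1) (by norm_num) hm1 hy hxy 1 a (b + 1) le_rfl ha1 hab le_rfl
      (X - Yf y (b + 1)) (by linarith) (by linarith)
    linarith
  have V2 : ∀ a a', 1 ≤ a → a ≤ a' → a' ≤ b + 1 →
      (Lx x B a / P + (m - 1) * (Lx x B a' / P)) + (m - 1) * Yf y a + Yf y a' ≤ X := by
    intro a a' ha1 haa hab
    have hmP : 0 ≤ ((m : ℝ) - 1) / P := div_nonneg hm1 hPpos.le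
    have hL1 : 0 ≤ Lx x B 1 := Finset.sum_nonneg (fun c _ => hx c)
    have e1 : ((m : ℝ) / P) * Lx x B a + m * Yf y a ≤ X :=
      valley x y b B hbB (m / P) m (div_nonneg hm0 hPpos.le) hm0 hy hxy 1 a (b + 1) le_rfl ha1
        (by omega) le_rfl X hX3 hX5
    have e2 : (1 / P) * Lx x B a + (m - 1) * Yf y a ≤
        X - Yf y (b + 1) - (((m : ℝ) - 1) / P) * Lx x B (b + 1) := by
      apply valley x y b B hbB (1 / P) (m - 1) (by positivity) hm1 hy hxy 1 a (b + 1) le_rfl ha1
        (by omega) le_rfl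
      · linarith
      · have h6 : (((m : ℝ) - 1) / P) * Lx x B (b + 1) + (1 / P) * Lx x B (b + 1) =
            ((m : ℝ) / P) * Lx x B (b + 1) := by ring
        linarith
    have e3 : (((m : ℝ) - 1) / P) * Lx x B a' + 1 * Yf y a' ≤
        X - ((1 / P) * Lx x B a + (m - 1) * Yf y a) := by
      apply valley x y b B hbB (((m : ℝ) - 1) / P) 1 hmP (by norm_num) hy hxy a a' (b + 1) ha1 haa
        hab le_rfl
      · have h6 : (((m : ℝ) - 1) / P) * Lx x B a + (1 / P) * Lx x B a =
            ((m : ℝ) / P) * Lx x B a := by ring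
        linarith
      · linarith
    have h7 : (((m : ℝ) - 1) / P) * Lx x B a' = (m - 1) * (Lx x B a' / P) := by ring
    have h8 : (1 / P) * Lx x B a = Lx x B a / P := by ring
    linarith
  by_cases hA : ∃ c, (1 ≤ c ∧ c ≤ B) ∧ ∃ l s, low l c s
  · -- the smallest lower level
    have ha := Nat.find_spec hA
    have hamin := fun c (h : c < Nat.find hA) => Nat.find_min hA h
    set a := Nat.find hA with hadef
    obtain ⟨⟨ha1, hab⟩, l1, s1, hl1⟩ := ha
    have hmin : ∀ l c s, 1 ≤ c → c ≤ B → low l c s → a ≤ c := by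
      intro l c s hc1 hcb hl
      by_contra hlt
      exact hamin c (by omega) ⟨⟨hc1, hcb⟩, l, s, hl⟩
    have hupne : ∀ l, l ≠ l1 → ∀ c ≤ b, up l c → c < a := by
      intro l hl c hc hu
      exact h1 l1 l (Ne.symm hl) a c s1 ha1 hab hc hl1 hu
    rw [← Finset.add_sum_erase _ _ (mem_univ l1)]
    have hcardE : ((univ.erase l1 : Finset (Fin m)).card : ℝ) = m - 1 := by
      rw [Finset.card_erase_of_mem (mem_univ l1), card_univ, Fintype.card_fin,
        Nat.cast_sub (by omega), Nat.cast_one]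
    by_cases hB : ∃ c, (1 ≤ c ∧ c ≤ B) ∧ ∃ l s, l ≠ l1 ∧ low l c s
    · have ha' := Nat.find_spec hB
      have hamin' := fun c (h : c < Nat.find hB) => Nat.find_min hB h
      set a' := Nat.find hB with hadef'
      obtain ⟨⟨ha1', hab'⟩, l2, s2, hl2ne, hl2⟩ := ha'
      have hmin' : ∀ l c s, l ≠ l1 → 1 ≤ c → c ≤ B → low l c s → a' ≤ c := by
        intro l c s hne hc1 hcb hl
        by_contra hlt
        exact hamin' c (by omega) ⟨⟨hc1, hcb⟩, l, s, hne, hl⟩
      have haa' : a ≤ a' := hmin l2 a' s2 ha1' hab' hl2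
      have hs12 : s2 = s1 := (h2 l1 l2 (Ne.symm hl2ne) a a' s1 s2 ha1 hab ha1' hab' hl1 hl2).symm
      have b1 : ∑ c ∈ range (b + 1), (if up l1 c then y c else 0) ≤ Yf y a' := by
        apply hup l1 a' (by omega)
        intro c hc hu
        exact h1 l2 l1 hl2ne a' c s2 ha1' hab' hc hl2 hu
      have b2 : ∑ s, ∑ c ∈ Icc 1 B, (if low l1 c s then x c / P else 0) ≤ Lx x B a / P := by
        apply hlowone l1 a s1 ha1
        · intro c hc1 hcb hl
          exact hmin l1 c s1 hc1 hcb hl
        · intro c s hc1 hcb hl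
          rw [← hs12]
          exact h2 l1 l2 (Ne.symm hl2ne) c a' s s2 hc1 hcb ha1' hab' hl hl2
      have b3 : ∑ l ∈ univ.erase l1, (∑ c ∈ range (b + 1), (if up l c then y c else 0) +
          ∑ s, ∑ c ∈ Icc 1 B, (if low l c s then x c / P else 0)) ≤
          (m - 1) * (Yf y a + Lx x B a' / P) := by
        rw [← hcardE, ← nsmul_eq_mul]
        apply Finset.sum_le_card_nsmul
        intro l hl
        have hne : l ≠ l1 := (Finset.mem_erase.1 hl).1
        apply add_le_add
        · exact hup l a (by omega) (hupne l hne)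
        · apply hlowone l a' s1 ha1'
          · intro c hc1 hcb hl
            exact hmin' l c s1 hne hc1 hcb hl
          · intro c s hc1 hcb hl
            exact (h2 l1 l (Ne.symm hne) a c s1 s ha1 hab hc1 hcb hl1 hl).symm
      have b4 := V2 a a' ha1 haa' (by omega)
      have b5 : ((m : ℝ) - 1) * (Yf y a + Lx x B a' / P) =
        (m - 1) * Yf y a + (m - 1) * (Lx x B a' / P) := by ring
      linarith
    · have hnone : ∀ l, l ≠ l1 → ∀ c s, 1 ≤ c → c ≤ B → ¬ low l c s := by
        intro l hl c s hc1 hcb hlo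
        exact hB ⟨c, ⟨hc1, hcb⟩, l, s, hl, hlo⟩
      have b1 : ∑ c ∈ range (b + 1), (if up l1 c then y c else 0) ≤ Yf y (b + 1) :=
        hup l1 (b + 1) le_rfl (fun c hc _ => by omega)
      have b2 : ∑ s, ∑ c ∈ Icc 1 B, (if low l1 c s then x c / P else 0) ≤ Lx x B a :=
        hlowall l1 a ha1 (fun c s hc1 hcb hl => hmin l1 c s hc1 hcb hl)
      have b3 : ∑ l ∈ univ.erase l1, (∑ c ∈ range (b + 1), (if up l c then y c else 0) +
          ∑ s, ∑ c ∈ Icc 1 B, (if low l c s then x c / P else 0)) ≤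
          (m - 1) * (Yf y a) := by
        rw [← hcardE, ← nsmul_eq_mul]
        apply Finset.sum_le_card_nsmul
        intro l hl
        have hne : l ≠ l1 := (Finset.mem_erase.1 hl).1
        have hz : ∑ s, ∑ c ∈ Icc 1 B, (if low l c s then x c / P else 0) = 0 := by
          apply Finset.sum_eq_zero
          intro s _
          apply Finset.sum_eq_zero
          intro c hc
          rw [mem_Icc] at hc
          rw [if_neg (hnone l hne c s hc.1 hc.2)]
        rw [hz, add_zero]
        exact hup l a (by omega) (hupne l hne)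
      have b4 := V1 a ha1 (by omega)
      linarith
  · have hnone : ∀ l, ∀ c s, 1 ≤ c → c ≤ B → ¬ low l c s := by
      intro l c s hc1 hcb hlo
      exact hA ⟨c, ⟨hc1, hcb⟩, l, s, hlo⟩
    have hL0 : 0 ≤ Lx x B (b + 1) := Finset.sum_nonneg (fun c _ => hx c)
    have hX2' : m * Yf y (b + 1) ≤ X := by linarith
    refine le_trans ?_ hX2'
    have hcardU : ((univ : Finset (Fin m)).card : ℝ) = m := by
      rw [card_univ, Fintype.card_fin]
    rw [← hcardU, ← nsmul_eq_mul]
    apply Finset.sum_le_card_nsmul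
    intro l _
    have hz : ∑ s, ∑ c ∈ Icc 1 B, (if low l c s then x c / P else 0) = 0 := by
      apply Finset.sum_eq_zero
      intro s _
      apply Finset.sum_eq_zero
      intro c hc
      rw [mem_Icc] at hc
      rw [if_neg (hnone l c s hc.1 hc.2)]
    rw [hz, add_zero]
    exact hup l (b + 1) le_rfl (fun c hc _ => by omega)

end Pool.Agent.V11152.CS
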