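import Pool.Agent.V11152.CSd

set_option autoImplicit false

open Module Finset

namespace Pool.Agent.V11152.CS

variable {K V : Type} [Field K] [Finite K] [AddCommGroup V] [Module K V] [Module.Finite K V]

lemma NS_prod (k : ℕ) (hk : k ≤ finrank K V) :
    (NS K V k : ℝ) * ∏ i ∈ range k, ((Nat.card K : ℝ) ^ k - (Nat.card K : ℝ) ^ i) =
      ∏ i ∈ range k, ((Nat.card K : ℝ) ^ (finrank K V) - (Nat.card K : ℝ) ^ i) := by
  have : Finite V := finV K V
  have : Fintype K := Fintype.ofFinite K
  have h1 := gr_cardV K (V := V) (finrank K V) k rfl hk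
  have h2 : NS K V k = Nat.card {W : Submodule K V // Module.finrank K W = k} := rfl
  rw [← h2] at h1
  have hq : 1 < Nat.card K := Finite.one_lt_card
  rw [Nat.card_eq_fintype_card] at hq ⊢
  have h3 := congrArg (Nat.cast : ℕ → ℝ) h1
  rw [Nat.cast_mul, Nat.cast_prod, Nat.cast_prod] at h3
  have h4 : ∀ N : ℕ, k ≤ N → ∏ i ∈ range k, (((Fintype.card K ^ N - Fintype.card K ^ i : ℕ)) : ℝ) =
      ∏ i ∈ range k, ((Fintype.card K : ℝ) ^ N - (Fintype.card K : ℝ) ^ i) := by
    intro N hN
    apply Finset.prod_congr rfl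
    intro i hi
    rw [mem_range] at hi
    rw [Nat.cast_sub (Nat.pow_le_pow_right (by omega) (by omega)), Nat.cast_pow, Nat.cast_pow]
  rw [h4 k le_rfl, h4 _ hk] at h3
  exact h3

lemma NS_rec (k : ℕ) (hk : k + 1 ≤ finrank K V) :
    (NS K V (k + 1) : ℝ) * ((Nat.card K : ℝ) ^ (k + 1) - 1) =
      NS K V k * ((Nat.card K : ℝ) ^ (finrank K V - k) - 1) := by
  have h1 := NS_prod (K := K) (V := V) (k + 1) hk
  have h2 := NS_prod (K := K) (V := V) k (by omega)
  have hq : (1 : ℝ) < (Nat.card K : ℝ) := by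
    have : 1 < Nat.card K := Finite.one_lt_card
    exact_mod_cast this
  set q : ℝ := (Nat.card K : ℝ) with hqd
  rw [Finset.prod_range_succ (fun i => q ^ (finrank K V) - q ^ i), ← h2,
    Finset.prod_range_succ' (fun i => q ^ (k + 1) - q ^ i)] at h1
  have h3 : ∏ i ∈ range k, (q ^ (k + 1) - q ^ (i + 1)) =
      q ^ k * ∏ i ∈ range k, (q ^ k - q ^ i) := by
    have h4 : ∀ i ∈ range k, (q ^ (k + 1) - q ^ (i + 1)) = q * (q ^ k - q ^ i) := by
      intro i _
      ring
    rw [Finset.prod_congr rfl h4, Finset.prod_mul_distrib, Finset.prod_const, card_range]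
  rw [h3, pow_zero] at h1
  have h5 : q ^ (finrank K V) = q ^ k * q ^ (finrank K V - k) := by
    rw [← pow_add]
    congr 1
    omega
  rw [h5] at h1
  have hpos : 0 < ∏ i ∈ range k, (q ^ k - q ^ i) := by
    apply Finset.prod_pos
    intro i hi
    rw [mem_range] at hi
    exact sub_pos.2 (pow_lt_pow_right₀ hq hi)
  have hqk : 0 < q ^ k := by positivity
  have h6 : (q ^ k * ∏ i ∈ range k, (q ^ k - q ^ i)) *
      ((NS K V (k + 1) : ℝ) * (q ^ (k + 1) - 1)) =
      (q ^ k * ∏ i ∈ range k, (q ^ k - q ^ i)) *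
      (NS K V k * (q ^ (finrank K V - k) - 1)) := by
    linear_combination h1
  exact mul_left_cancel₀ (mul_pos hqk hpos).ne' h6

/-- log-concavity type comparison -/
lemma NS_cmp (τ c : ℕ) (hc : τ + c + 1 ≤ finrank K V) :
    (NS K V (τ + (c + 1)) : ℝ) * NS K V c ≤ NS K V (τ + c) * NS K V (c + 1) := by
  have h1 := NS_rec (K := K) (V := V) (τ + c) hc
  have h2 := NS_rec (K := K) (V := V) c (by omega)
  have hq : (1 : ℝ) < (Nat.card K : ℝ) := by
    have : 1 < Nat.card K := Finite.one_lt_card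
    exact_mod_cast this
  set q : ℝ := (Nat.card K : ℝ) with hqd
  have hu : 0 < q ^ (τ + c + 1) - 1 := sub_pos.2 (one_lt_pow₀ hq (by omega))
  have hw : 0 < q ^ (c + 1) - 1 := sub_pos.2 (one_lt_pow₀ hq (by omega))
  have hwu : q ^ (c + 1) - 1 ≤ q ^ (τ + c + 1) - 1 := by
    have := pow_le_pow_right₀ hq.le (show c + 1 ≤ τ + c + 1 by omega)
    linarith
  have hv : 0 ≤ q ^ (finrank K V - (τ + c)) - 1 := sub_nonneg.2 (one_le_pow₀ hq.le)
  have hvz : q ^ (finrank K V - (τ + c)) - 1 ≤ q ^ (finrank K V - c) - 1 := by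
    have := pow_le_pow_right₀ hq.le (show finrank K V - (τ + c) ≤ finrank K V - c by omega)
    linarith
  have hA : (0 : ℝ) ≤ NS K V (τ + c) := Nat.cast_nonneg _
  have hB : (0 : ℝ) ≤ NS K V c := Nat.cast_nonneg _
  rw [show τ + (c + 1) = τ + c + 1 by ring]
  set u := q ^ (τ + c + 1) - 1
  set w := q ^ (c + 1) - 1
  set v := q ^ (finrank K V - (τ + c)) - 1
  set z := q ^ (finrank K V - c) - 1
  have h3 : v * w ≤ z * u := mul_le_mul hvz hwu hw.le (hv.trans hvz)
  have h4 : ((NS K V (τ + c + 1) : ℝ) * NS K V c) * (u * w) ≤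
      (NS K V (τ + c) * NS K V (c + 1)) * (u * w) := by
    calc ((NS K V (τ + c + 1) : ℝ) * NS K V c) * (u * w) =
          ((NS K V (τ + c + 1) : ℝ) * u) * (NS K V c * w) := by ring
      _ = (NS K V (τ + c) * v) * (NS K V c * w) := by rw [h1]
      _ = (NS K V (τ + c) * NS K V c) * (v * w) := by ring
      _ ≤ (NS K V (τ + c) * NS K V c) * (z * u) :=
          mul_le_mul_of_nonneg_left h3 (mul_nonneg hA hB)
      _ = NS K V (τ + c) * (NS K V c * z) * u := by ring
      _ = NS K V (τ + c) * (NS K V (c + 1) * w) * u := by rw [h2]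
      _ = _ := by ring
  exact le_of_mul_le_mul_right h4 (mul_pos hu hw)

lemma NS_top : NS K V (finrank K V) = 1 := by
  unfold NS
  have : {U : Submodule K V | finrank K U = finrank K V} = {⊤} := by
    ext U
    simp only [Set.mem_ofPred_eq, Set.mem_singleton_iff]
    constructor
    · intro h; exact Submodule.eq_top_of_finrank_eq h
    · rintro rfl; exact finrank_top K V
  rw [this, Set.ncard_singleton]

/-- the number of subspaces of dimension at least `a` -/
lemma card_ge (a : ℕ) : ({U : Submodule K V | a ≤ finrank K U}).ncard =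
    ∑ d ∈ Icc a (finrank K V), NS K V d := by
  rw [ncard_eq]
  have h1 : ∀ d, cnt {U : Submodule K V | a ≤ finrank K U} d = if a ≤ d then NS K V d else 0 := by
    intro d
    unfold cnt NS
    split_ifs with h
    · congr 1
      ext U
      simp only [Set.mem_ofPred_eq]
      constructor
      · rintro ⟨_, h2⟩; exact h2
      · intro h2; exact ⟨by rw [h2]; exact h, h2⟩
    · have h3 : {U : Submodule K V | U ∈ {U : Submodule K V | a ≤ finrank K U} ∧
          finrank K U = d} = ∅ := by
        ext U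
        simp only [Set.mem_ofPred_eq, Set.mem_empty_iff_false, iff_false, not_and]
        intro h1 h2
        rw [h2] at h1
        exact h h1
      rw [h3, Set.ncard_empty]
  simp only [h1]
  rw [← Finset.sum_filter]
  apply Finset.sum_congr _ fun _ _ => rfl
  ext d
  rw [mem_filter, mem_range, mem_Icc]
  omega

end Pool.Agent.V11152.CS
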