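import Pool.Agent.V11152.CSe
import Pool.Agent.V11152.CSf
import Pool.Agent.V11152.CSg

set_option autoImplicit false

open Module Finset

namespace Pool.Agent.V11152.CS

variable {K V : Type} [Field K] [Finite K] [AddCommGroup V] [Module K V] [Module.Finite K V]

/-- transport of a small intersection -/
lemma map_inf_le (g : V ≃ₗ[K] V) (U W : Submodule K V) :
    finrank K ((U.map (g : V →ₗ[K] V)) ⊓ (W.map (g : V →ₗ[K] V)) : Submodule K V) =
      finrank K (U ⊓ W : Submodule K V) := by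
  rw [← Submodule.map_inf _ g.injective]
  exact LinearEquiv.finrank_map_eq g (U ⊓ W)

/-- splitting the layers of dimension larger than `τ` -/
lemma layers (τ b B n : ℕ) (hn : n = τ + (B + (b + 1))) (f : ℕ → ℝ) (hf : ∀ d ≤ τ, f d = 0) :
    ∑ d ∈ range (n + 1), f d = ∑ c ∈ Icc 1 B, f (τ + c) + ∑ c ∈ range (b + 1), f (n - c) := by
  have h1 : ∑ d ∈ range (n + 1), f d = ∑ d ∈ Icc (τ + 1) n, f d := by
    symm
    apply Finset.sum_subset
    · intro d hd
      rw [mem_Icc] at hd
      rw [mem_range]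
      omega
    · intro d hd hd'
      rw [mem_range] at hd
      rw [mem_Icc] at hd'
      exact hf d (by omega)
  have h2 : ∑ c ∈ Icc 1 B, f (τ + c) = ∑ d ∈ Icc (τ + 1) (τ + B), f d := by
    apply Finset.sum_nbij' (fun c => τ + c) (fun d => d - τ)
    · intro c hc
      rw [mem_Icc] at hc ⊢
      omega
    · intro c hc
      rw [mem_Icc] at hc ⊢
      omega
    · intro c hc
      omega
    · intro c hc
      rw [mem_Icc] at hc
      omega
    · intro c hc
      rfl
  have h3 : ∑ c ∈ range (b + 1), f (n - c) = ∑ d ∈ Icc (τ + B + 1) n, f d := by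
    apply Finset.sum_nbij' (fun c => n - c) (fun d => n - d)
    · intro c hc
      rw [mem_range] at hc
      rw [mem_Icc]
      omega
    · intro c hc
      rw [mem_Icc] at hc
      rw [mem_range]
      omega
    · intro c hc
      rw [mem_range] at hc
      omega
    · intro c hc
      rw [mem_Icc] at hc
      omega
    · intro c hc
      rfl
  rw [h1, h2, h3, ← Finset.sum_union]
  · apply Finset.sum_congr _ fun _ _ => rfl
    ext d
    rw [mem_union, mem_Icc, mem_Icc, mem_Icc]
    omega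
  · rw [Finset.disjoint_left]
    intro d h4 h5
    rw [mem_Icc] at h4 h5
    omega

/-- **The upper bound.** -/
theorem upperT (τ b B m : ℕ) (hbB : b ≤ B) (hBb : B ≤ b + 1) (hm : 2 ≤ m)
    (hV : finrank K V = τ + (B + (b + 1)))
    (A : Fin m → Set (Submodule K V)) (hne : ∀ l, (A l).Nonempty)
    (hA : ∀ i j, i ≠ j → ∀ U ∈ A i, ∀ W ∈ A j, τ + 1 ≤ finrank K (U ⊓ W : Submodule K V))
    (X : ℝ)
    (hX1 : Lx (fun c => (NS K V (τ + c) : ℝ)) B 1 +
      Yf (fun c => (NS K V (finrank K V - c) : ℝ)) (b + 1) + (m - 1) ≤ X)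
    (hX2 : Lx (fun c => (NS K V (τ + c) : ℝ)) B (b + 1) +
      m * Yf (fun c => (NS K V (finrank K V - c) : ℝ)) (b + 1) ≤ X)
    (hX3 : (m / (Nat.card K : ℝ) ^ (b + 1)) * Lx (fun c => (NS K V (τ + c) : ℝ)) B 1 + m ≤ X)
    (hX4 : (1 / (Nat.card K : ℝ) ^ (b + 1)) * Lx (fun c => (NS K V (τ + c) : ℝ)) B 1 +
      ((m - 1) / (Nat.card K : ℝ) ^ (b + 1)) * Lx (fun c => (NS K V (τ + c) : ℝ)) B (b + 1) +
      (m - 1) + Yf (fun c => (NS K V (finrank K V - c) : ℝ)) (b + 1) ≤ X)
    (hX5 : (m / (Nat.card K : ℝ) ^ (b + 1)) * Lx (fun c => (NS K V (τ + c) : ℝ)) B (b + 1) +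
      m * Yf (fun c => (NS K V (finrank K V - c) : ℝ)) (b + 1) ≤ X) :
    ∑ l, ((A l).ncard : ℝ) ≤ X := by
  classical
  have : Finite (V ≃ₗ[K] V) := finG
  have : Fintype (V ≃ₗ[K] V) := Fintype.ofFinite _
  obtain ⟨ι, hι, U, W, hcard, hU, hW, hUW, hUU⟩ := exists_config (K := K) (V := V) τ b B hBb hV
  set n := finrank K V with hn
  set P : ℝ := (Nat.card K : ℝ) ^ (b + 1) with hPd
  have hq : (1 : ℝ) < (Nat.card K : ℝ) := by
    have : 1 < Nat.card K := Finite.one_lt_card
    exact_mod_cast this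
  have hP : 1 ≤ P := one_le_pow₀ hq.le
  have hPpos : 0 < P := by linarith
  have hcardR : (Fintype.card ι : ℝ) = P := by rw [hcard, hPd]; push_cast; rfl
  set x : ℕ → ℝ := fun c => (NS K V (τ + c) : ℝ) with hxd
  set y : ℕ → ℝ := fun c => (NS K V (n - c) : ℝ) with hyd
  have hY1 : Yf y 1 = 1 := by
    unfold Yf
    rw [Finset.sum_range_one, hyd]
    dsimp only
    rw [Nat.sub_zero, hn, NS_top, Nat.cast_one]
  have hxy : ∀ c, 1 ≤ c → c + 1 ≤ b → x (c + 1) * y c ≤ x c * y (c + 1) := by
    intro c _ hcb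
    simp only [hxd, hyd]
    have e1 : NS K V (n - c) = NS K V c := NS_symm _ _ (by omega)
    have e2 : NS K V (n - (c + 1)) = NS K V (c + 1) := NS_symm _ _ (by omega)
    rw [e1, e2]
    exact NS_cmp τ c (by omega)
  have hy : ∀ c, c ≤ b → 0 < y c := by
    intro c _
    simp only [hyd]
    exact_mod_cast NS_pos (K := K) (V := V) (n - c) (by omega)
  have hx : ∀ c, 0 ≤ x c := fun c => Nat.cast_nonneg _
  have hper : ∀ g : V ≃ₗ[K] V, ∑ l, (∑ c ∈ range (b + 1),
      (if (W c).map (g : V →ₗ[K] V) ∈ A l then y c else 0) +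
      ∑ s, ∑ c ∈ Icc 1 B, (if (U c s).map (g : V →ₗ[K] V) ∈ A l then x c / P else 0)) ≤ X := by
    intro g
    apply optim m b B hbB hBb hm P hP hcardR x y hx hy hxy X
    · rw [hY1]; linarith
    · exact hX2
    · rw [hY1]; linarith
    · rw [hY1]; linarith
    · exact hX5
    · intro l l' hll c c' s hc1 hcb hcb' h1 h2
      by_contra hlt
      have h3 := hA l l' hll _ h1 _ h2
      rw [map_inf_le] at h3
      have h4 := hUW c c' (by omega) (by omega) s
      omega
    · intro l l' hll c c' s s' _ _ _ _ h1 h2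
      by_contra hss
      have h3 := hA l l' hll _ h1 _ h2
      rw [map_inf_le] at h3
      have h4 := hUU c c' s s' hss
      omega
  set G := Fintype.card (V ≃ₗ[K] V) with hG
  have hGpos : 0 < G := Fintype.card_pos_iff.2 ⟨LinearEquiv.refl K V⟩
  have hGR : (0 : ℝ) < G := by exact_mod_cast hGpos
  have havg : ∀ l (Z : Submodule K V), ∑ g : V ≃ₗ[K] V,
      (if Z.map (g : V →ₗ[K] V) ∈ A l then (NS K V (finrank K Z) : ℝ) else 0) =
      G * cnt (A l) (finrank K Z) := by
    intro l Z
    have h1 := avg (A l) Z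
    have h2 := congrArg (Nat.cast : ℕ → ℝ) h1
    rw [Nat.cast_mul, Nat.cast_mul, Nat.cast_sum, Finset.sum_mul] at h2
    rw [← h2]
    apply Finset.sum_congr rfl
    intro g _
    split_ifs <;> simp
  have hcnt0 : ∀ l, ∀ d ≤ τ, (cnt (A l) d : ℝ) = 0 := by
    intro l d hd
    have : cnt (A l) d = 0 := by
      unfold cnt
      have h0 : {U : Submodule K V | U ∈ A l ∧ finrank K U = d} = ∅ := by
        ext Z
        simp only [Set.mem_ofPred_eq, Set.mem_empty_iff_false, iff_false, not_and]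
        intro hZ hZd
        obtain ⟨l', hl'⟩ : ∃ l' : Fin m, l ≠ l' := by
          have : Nontrivial (Fin m) := Fin.nontrivial_iff_two_le.2 hm
          obtain ⟨l', hl'⟩ := exists_ne l
          exact ⟨l', hl'.symm⟩
        obtain ⟨Z', hZ'⟩ := hne l'
        have h3 := hA l l' hl' Z hZ Z' hZ'
        have h4 : finrank K (Z ⊓ Z' : Submodule K V) ≤ finrank K Z :=
          Submodule.finrank_mono inf_le_left
        omega
      rw [h0, Set.ncard_empty]
    rw [this, Nat.cast_zero]
  have hsum : ∀ l, ((A l).ncard : ℝ) =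
      ∑ c ∈ Icc 1 B, (cnt (A l) (τ + c) : ℝ) + ∑ c ∈ range (b + 1), (cnt (A l) (n - c) : ℝ) := by
    intro l
    rw [ncard_eq, Nat.cast_sum]
    exact layers τ b B n hV (fun d => (cnt (A l) d : ℝ)) (hcnt0 l)
  have htotal : G * ∑ l, ((A l).ncard : ℝ) = ∑ g : V ≃ₗ[K] V, ∑ l, (∑ c ∈ range (b + 1),
      (if (W c).map (g : V →ₗ[K] V) ∈ A l then y c else 0) +
      ∑ s, ∑ c ∈ Icc 1 B, (if (U c s).map (g : V →ₗ[K] V) ∈ A l then x c / P else 0)) := by
    rw [Finset.sum_comm, Finset.mul_sum]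
    apply Finset.sum_congr rfl
    intro l _
    rw [hsum l, Finset.sum_add_distrib, mul_add, add_comm]
    congr 1
    · rw [Finset.sum_comm, Finset.mul_sum]
      apply Finset.sum_congr rfl
      intro c hc
      rw [mem_range] at hc
      have h1 := havg l (W c)
      have h2 : finrank K (W c) = n - c := by
        have := hW c (by omega)
        omega
      rw [h2] at h1
      exact h1.symm
    · rw [Finset.sum_comm, Finset.mul_sum]
      have h1 : ∀ s : ι, ∑ g : V ≃ₗ[K] V, ∑ c ∈ Icc 1 B,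
          (if (U c s).map (g : V →ₗ[K] V) ∈ A l then x c / P else 0) =
          ∑ c ∈ Icc 1 B, (G * (cnt (A l) (τ + c) : ℝ)) / P := by
        intro s
        rw [Finset.sum_comm]
        apply Finset.sum_congr rfl
        intro c hc
        rw [mem_Icc] at hc
        have h2 := havg l (U c s)
        rw [hU c hc.2 s] at h2
        rw [← h2, Finset.sum_div]
        apply Finset.sum_congr rfl
        intro g _
        split_ifs
        · rfl
        · rw [zero_div]
      rw [Finset.sum_congr rfl (fun s _ => h1 s), Finset.sum_const, card_univ, nsmul_eq_mul,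
        hcardR, Finset.mul_sum]
      apply Finset.sum_congr rfl
      intro c _
      field_simp
  have hfinal : (G : ℝ) * ∑ l, ((A l).ncard : ℝ) ≤ G * X := by
    rw [htotal]
    calc _ ≤ ∑ _g : V ≃ₗ[K] V, X := Finset.sum_le_sum (fun g _ => hper g)
      _ = G * X := by rw [Finset.sum_const, card_univ, nsmul_eq_mul]
  exact le_of_mul_le_mul_left hfinal hGR

end Pool.Agent.V11152.CS
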