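import Pool.Agent.V11152.CSe

set_option autoImplicit false

open Module Finset

namespace Pool.Agent.V11152.CS

/-- the fixed points of the Frobenius map -/
lemma fixed_field (K L : Type) [Field K] [Fintype K] [Field L] [Algebra K L] (y : L)
    (hy : y ^ (Fintype.card K) = y) : ∃ k : K, algebraMap K L k = y := by
  classical
  have hq : 1 < Fintype.card K := Fintype.one_lt_card
  let p : Polynomial L := Polynomial.X ^ (Fintype.card K) - Polynomial.X
  have hp : p ≠ 0 := FiniteField.X_pow_card_sub_X_ne_zero L hq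
  have hdeg : p.natDegree = Fintype.card K := FiniteField.X_pow_card_sub_X_natDegree_eq L hq
  let S : Finset L := univ.image (algebraMap K L)
  have hS : S ⊆ p.roots.toFinset := by
    intro x hx
    obtain ⟨k, _, rfl⟩ := Finset.mem_image.1 hx
    rw [Multiset.mem_toFinset, Polynomial.mem_roots hp, Polynomial.IsRoot.def]
    show Polynomial.eval _ (Polynomial.X ^ (Fintype.card K) - Polynomial.X) = 0
    rw [Polynomial.eval_sub, Polynomial.eval_pow, Polynomial.eval_X, ← map_pow,
      FiniteField.pow_card, sub_self]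
  have hcS : S.card = Fintype.card K := by
    rw [Finset.card_image_of_injective _ (algebraMap K L).injective, card_univ]
  have hcR : p.roots.toFinset.card ≤ Fintype.card K :=
    (Multiset.toFinset_card_le _).trans ((Polynomial.card_roots' p).trans_eq hdeg)
  have hEq : S = p.roots.toFinset := Finset.eq_of_subset_of_card_le hS (by rw [hcS]; exact hcR)
  have hyr : y ∈ p.roots.toFinset := by
    rw [Multiset.mem_toFinset, Polynomial.mem_roots hp, Polynomial.IsRoot.def]
    show Polynomial.eval _ (Polynomial.X ^ (Fintype.card K) - Polynomial.X) = 0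
    rw [Polynomial.eval_sub, Polynomial.eval_pow, Polynomial.eval_X, hy, sub_self]
  rw [← hEq] at hyr
  obtain ⟨k, _, hk⟩ := Finset.mem_image.1 hyr
  exact ⟨k, hk⟩

section
variable (K L : Type) [Field K] [Fintype K] [Field L] [Algebra K L]

/-- the linearised binomials -/
noncomputable def fr (s : L × L) : L →ₗ[K] L :=
  LinearMap.mulLeft K s.1 +
    (LinearMap.mulLeft K s.2) ∘ₗ (FiniteField.frobeniusAlgHom K L).toLinearMap

lemma fr_apply (s : L × L) (x : L) : fr K L s x = s.1 * x + s.2 * x ^ (Fintype.card K) := rfl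

lemma fr_sub (s s' : L × L) : fr K L s - fr K L s' = fr K L (s - s') := by
  ext x
  rw [LinearMap.sub_apply, fr_apply, fr_apply, fr_apply, Prod.fst_sub, Prod.snd_sub]
  ring

lemma fr_ker [Module.Finite K L] (s : L × L) (hs : s ≠ 0) :
    finrank K (LinearMap.ker (fr K L s)) ≤ 1 := by
  by_cases h : LinearMap.ker (fr K L s) = ⊥
  · rw [h, finrank_bot]; omega
  · obtain ⟨x, hx, hx0⟩ := Submodule.exists_mem_ne_zero_of_ne_bot h
    apply finrank_le_one (⟨x, hx⟩ : LinearMap.ker (fr K L s))
    rintro ⟨w, hw⟩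
    rw [LinearMap.mem_ker, fr_apply] at hx hw
    have hs2 : s.2 ≠ 0 := by
      intro h2
      rw [h2, zero_mul, add_zero] at hx
      rcases mul_eq_zero.1 hx with h3 | h3
      · exact hs (Prod.ext h3 h2)
      · exact hx0 h3
    have h4 : (w / x) ^ (Fintype.card K) = w / x := by
      have h5 : s.2 * (w ^ (Fintype.card K) * x - x ^ (Fintype.card K) * w) = 0 := by
        linear_combination x * hw - w * hx
      have h6 : w ^ (Fintype.card K) * x = x ^ (Fintype.card K) * w := by
        rcases mul_eq_zero.1 h5 with h7 | h7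
        · exact absurd h7 hs2
        · exact sub_eq_zero.1 h7
      rw [div_pow, div_eq_div_iff (pow_ne_zero _ hx0) hx0, h6]
      ring
    obtain ⟨k, hk⟩ := fixed_field K L _ h4
    refine ⟨k, ?_⟩
    apply Subtype.ext
    show k • x = w
    rw [Algebra.smul_def, hk, div_mul_cancel₀ _ hx0]

lemma fr_ker0 [Module.Finite K L] (a : L) (ha : a ≠ 0) :
    finrank K (LinearMap.ker (fr K L (a, 0))) = 0 := by
  have : LinearMap.ker (fr K L (a, 0)) = ⊥ := by
    rw [LinearMap.ker_eq_bot']
    intro x hx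
    rw [fr_apply, zero_mul, add_zero] at hx
    rcases mul_eq_zero.1 hx with h | h
    · exact absurd h ha
    · exact h
  rw [this, finrank_bot]

end

/-- the first `c` middle coordinates -/
def cutMid (K : Type) [Field K] (τ B c : ℕ) (hc : c ≤ B) :
    ((Fin τ → K) × (Fin B → K)) →ₗ[K] (Fin c → K) where
  toFun v := fun k => v.2 ⟨k.val, by have := k.2; omega⟩
  map_add' _ _ := rfl
  map_smul' _ _ := rfl

variable {K V : Type} [Field K] [Finite K] [AddCommGroup V] [Module K V] [Module.Finite K V]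

/-- a configuration of subspaces from a set of linear maps with large pairwise rank distance -/
theorem config_of (τ b B : ℕ) (hτ : b + 1 ≤ τ + B)
    (hV : finrank K V = τ + (B + (b + 1)))
    (L : Type) [Field L] [Algebra K L] [Module.Finite K L] (hL : finrank K L = τ + B)
    (ι : Type) (f : ι → (L →ₗ[K] L))
    (hf : ∀ s s', s ≠ s' → finrank K (LinearMap.ker (f s - f s')) + B ≤ b + 1) :
    ∃ (U : ℕ → ι → Submodule K V) (W : ℕ → Submodule K V),
      (∀ c ≤ B, ∀ s, finrank K (U c s) = τ + c) ∧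
      (∀ c ≤ B, finrank K (W c) + c = finrank K V) ∧
      (∀ c c' : ℕ, c ≤ c' → c' ≤ B → ∀ s, finrank K (U c s ⊓ W c' : Submodule K V) ≤ τ) ∧
      (∀ c c' : ℕ, ∀ s s', s ≠ s' → finrank K (U c s ⊓ U c' s' : Submodule K V) ≤ τ) := by
  obtain ⟨j, hj⟩ : ∃ j : (Fin (b + 1) → K) →ₗ[K] L, Function.Injective j := by
    have e0 : (Fin (τ + B) → K) ≃ₗ[K] L := LinearEquiv.ofFinrankEq _ _ (by
      rw [Module.finrank_fin_fun, hL])
    refine ⟨(e0 : (Fin (τ + B) → K) →ₗ[K] L) ∘ₗ (ext0 K (τ + B) (b + 1)), ?_⟩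
    rw [LinearMap.coe_comp]
    exact e0.injective.comp (ext0_inj (τ + B) (b + 1) hτ)
  let Mm : ι → (Dual K L →ₗ[K] Dual K (Fin (b + 1) → K)) := fun s => ((f s) ∘ₗ j).dualMap
  have hker : ∀ s s', s ≠ s' → finrank K (LinearMap.ker (Mm s - Mm s')) ≤ τ := by
    intro s s' hs
    have h1 : Mm s - Mm s' = ((f s - f s') ∘ₗ j).dualMap := by
      ext φ v
      simp [Mm, LinearMap.sub_comp]
    rw [h1]
    have h2 := LinearMap.finrank_range_add_finrank_ker (((f s - f s') ∘ₗ j).dualMap)
    rw [LinearMap.finrank_range_dualMap_eq_finrank_range, Subspace.dual_finrank_eq, hL] at h2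
    have h3 := LinearMap.finrank_range_add_finrank_ker ((f s - f s') ∘ₗ j)
    rw [Module.finrank_fin_fun] at h3
    have h4 : finrank K (LinearMap.ker ((f s - f s') ∘ₗ j)) ≤
        finrank K (LinearMap.ker (f s - f s')) := by
      rw [(Submodule.equivMapOfInjective j hj (LinearMap.ker ((f s - f s') ∘ₗ j))).finrank_eq]
      apply Submodule.finrank_mono
      rintro _ ⟨x, hx, rfl⟩
      exact hx
    have h5 := hf s s' hs
    omega
  have e : ((Fin τ → K) × (Fin B → K)) ≃ₗ[K] Dual K L := LinearEquiv.ofFinrankEq _ _ (by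
    rw [Subspace.dual_finrank_eq, hL, Module.finrank_prod, Module.finrank_fin_fun,
      Module.finrank_fin_fun])
  let Q := Dual K L × Dual K (Fin (b + 1) → K)
  have hQ : finrank K Q = τ + (B + (b + 1)) := by
    show finrank K (Dual K L × Dual K (Fin (b + 1) → K)) = _
    rw [Module.finrank_prod, Subspace.dual_finrank_eq, Subspace.dual_finrank_eq, hL,
      Module.finrank_fin_fun]
    ring
  have eQ : Q ≃ₗ[K] V := LinearEquiv.ofFinrankEq _ _ (by rw [hQ, hV])
  let gr : ι → (Dual K L →ₗ[K] Q) := fun s => LinearMap.prod LinearMap.id (Mm s)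
  have hgr : ∀ s w, gr s w = (w, Mm s w) := fun s w => rfl
  have hgrinj : ∀ s, Function.Injective (gr s) := by
    intro s w w' h
    exact congrArg Prod.fst h
  let emb : (c : ℕ) → (((Fin τ → K) × (Fin c → K)) →ₗ[K] ((Fin τ → K) × (Fin B → K))) :=
    fun c => LinearMap.prodMap LinearMap.id (ext0 K B c)
  have hemb : ∀ c u z, emb c (u, z) = (u, ext0 K B c z) := fun c u z => rfl
  let U0 : ℕ → ι → Submodule K Q := fun c s =>
    LinearMap.range ((gr s) ∘ₗ ((e : _ →ₗ[K] Dual K L) ∘ₗ (emb c)))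
  let cut : (c : ℕ) → (c ≤ B) → (Q →ₗ[K] (Fin c → K)) := fun c hc =>
    (cutMid K τ B c hc) ∘ₗ ((e.symm : Dual K L →ₗ[K] _) ∘ₗ (LinearMap.fst K _ _))
  have hcut : ∀ c hc (v : Q), cut c hc v = cutMid K τ B c hc (e.symm v.1) := fun c hc v => rfl
  let W0 : ℕ → Submodule K Q := fun c => if h : c ≤ B then LinearMap.ker (cut c h) else ⊥
  have hU0 : ∀ c ≤ B, ∀ s, finrank K (U0 c s) = τ + c := by
    intro c hc s
    have hinj : Function.Injective ((gr s) ∘ₗ ((e : _ →ₗ[K] Dual K L) ∘ₗ (emb c))) := by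
      rw [LinearMap.coe_comp, LinearMap.coe_comp]
      refine (hgrinj s).comp (e.injective.comp ?_)
      rintro ⟨u, z⟩ ⟨u', z'⟩ h
      rw [hemb, hemb, Prod.mk.injEq] at h
      rw [h.1, ext0_inj B c hc h.2]
    rw [LinearMap.finrank_range_of_inj hinj, Module.finrank_prod, Module.finrank_fin_fun,
      Module.finrank_fin_fun]
  have hW0 : ∀ c ≤ B, finrank K (W0 c) + c = τ + (B + (b + 1)) := by
    intro c hc
    have hsurj : Function.Surjective (cut c hc) := by
      intro z
      refine ⟨(e (0, ext0 K B c z), 0), ?_⟩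
      rw [hcut]
      show cutMid K τ B c hc (e.symm (e (0, ext0 K B c z))) = z
      rw [LinearEquiv.symm_apply_apply]
      ext k
      simp [cutMid, ext0]
    have h1 := LinearMap.finrank_range_add_finrank_ker (cut c hc)
    rw [LinearMap.range_eq_top.2 hsurj, finrank_top, Module.finrank_fin_fun] at h1
    have h2 : W0 c = LinearMap.ker (cut c hc) := dif_pos hc
    rw [h2, ← hQ, ← h1]
    ring
  have hUW : ∀ c c' : ℕ, c ≤ c' → c' ≤ B → ∀ s, finrank K (U0 c s ⊓ W0 c' : Submodule K Q) ≤ τ := by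
    intro c c' hcc hcb s
    have hle : U0 c s ⊓ W0 c' ≤ LinearMap.range ((gr s) ∘ₗ ((e : _ →ₗ[K] Dual K L) ∘ₗ
        (LinearMap.inl K (Fin τ → K) (Fin B → K)))) := by
      intro v hv
      obtain ⟨⟨⟨u, z⟩, rfl⟩, h2⟩ := hv
      have h3 : W0 c' = LinearMap.ker (cut c' hcb) := dif_pos hcb
      rw [SetLike.mem_coe, h3, LinearMap.mem_ker, hcut] at h2
      have h4 : cutMid K τ B c' hcb (u, ext0 K B c z) = 0 := by
        rw [← h2]
        show _ = cutMid K τ B c' hcb (e.symm (e (u, ext0 K B c z)))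
        rw [LinearEquiv.symm_apply_apply]
      have hz : ext0 K B c z = 0 := by
        ext k
        by_cases hk : k.val < c
        · have h5 := congrFun h4 ⟨k.val, by omega⟩
          exact h5
        · simp [ext0, hk]
      refine ⟨u, ?_⟩
      show gr s (e (u, 0)) = gr s (e (u, ext0 K B c z))
      rw [hz]
    refine (Submodule.finrank_mono hle).trans ?_
    refine (LinearMap.finrank_range_le _).trans ?_
    rw [Module.finrank_fin_fun]
  have hUU : ∀ c c' : ℕ, ∀ s s', s ≠ s' → finrank K (U0 c s ⊓ U0 c' s' : Submodule K Q) ≤ τ := by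
    intro c c' s s' hss
    have hle : U0 c s ⊓ U0 c' s' ≤ (LinearMap.ker (Mm s - Mm s')).map (gr s) := by
      intro v hv
      obtain ⟨⟨x, rfl⟩, ⟨x', h2⟩⟩ := hv
      have h3 : gr s' (e (emb c' x')) = gr s (e (emb c x)) := h2
      rw [hgr, hgr, Prod.mk.injEq] at h3
      obtain ⟨h4, h5⟩ := h3
      refine ⟨e (emb c x), ?_, rfl⟩
      rw [SetLike.mem_coe, LinearMap.mem_ker, LinearMap.sub_apply, ← h5, h4, sub_self]
    refine (Submodule.finrank_mono hle).trans ?_
    exact (Submodule.finrank_map_le _ _).trans (hker s s' hss)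
  have hmap : ∀ X Y : Submodule K Q, finrank K (X ⊓ Y : Submodule K Q) ≤ τ →
      finrank K ((X.map (eQ : Q →ₗ[K] V)) ⊓ (Y.map (eQ : Q →ₗ[K] V)) : Submodule K V) ≤ τ := by
    intro X Y h
    rw [← Submodule.map_inf _ eQ.injective]
    rw [LinearEquiv.finrank_map_eq eQ (X ⊓ Y)]
    exact h
  refine ⟨fun c s => (U0 c s).map (eQ : Q →ₗ[K] V),
    fun c => (W0 c).map (eQ : Q →ₗ[K] V), ?_, ?_, ?_, ?_⟩
  · intro c hc s
    rw [LinearEquiv.finrank_map_eq eQ (U0 c s), hU0 c hc s]
  · intro c hc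
    rw [LinearEquiv.finrank_map_eq eQ (W0 c), hW0 c hc, hV]
  · intro c c' h1 h2 s
    exact hmap _ _ (hUW c c' h1 h2 s)
  · intro c c' s s' h
    exact hmap _ _ (hUU c c' s s' h)

/-- the exponent of the size of the configuration -/
def ex (τ b B : ℕ) : ℕ := if B = b then 2 * (τ + b) else τ + B

/-- the configuration of subspaces -/
theorem exists_config2 (τ b B : ℕ) (hbB : b ≤ B) (hB : B ≤ b + 1) (hτ : 1 ≤ τ)
    (hV : finrank K V = τ + (B + (b + 1))) :
    ∃ (ι : Type) (_ : Fintype ι) (U : ℕ → ι → Submodule K V) (W : ℕ → Submodule K V),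
      Fintype.card ι = Nat.card K ^ (ex τ b B) ∧
      (∀ c ≤ B, ∀ s, finrank K (U c s) = τ + c) ∧
      (∀ c ≤ B, finrank K (W c) + c = finrank K V) ∧
      (∀ c c' : ℕ, c ≤ c' → c' ≤ B → ∀ s, finrank K (U c s ⊓ W c' : Submodule K V) ≤ τ) ∧
      (∀ c c' : ℕ, ∀ s s', s ≠ s' → finrank K (U c s ⊓ U c' s' : Submodule K V) ≤ τ) := by
  have : Fintype K := Fintype.ofFinite K
  obtain ⟨p, hp⟩ := CharP.exists K
  have hpr : Fact p.Prime := ⟨CharP.char_is_prime K p⟩
  obtain ⟨N, hN⟩ : ∃ N, τ + B = N + 1 := ⟨τ + B - 1, by omega⟩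
  let L := FiniteField.Extension K p (N + 1)
  have hL : finrank K L = τ + B := by rw [hN]; exact FiniteField.finrank_extension K p (N + 1)
  have hcard : Nat.card L = Nat.card K ^ (τ + B) := by
    rw [hN]; exact FiniteField.natCard_extension K p (N + 1)
  have hfin : Finite L := Module.finite_of_finite K
  have hft : Fintype L := Fintype.ofFinite L
  by_cases hBb : B = b
  · obtain ⟨U, W, h1, h2, h3, h4⟩ := config_of (K := K) (V := V) τ b B (by omega) hV L hL (L × L)
      (fun s => fr K L s) (by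
        intro s s' hs
        rw [fr_sub]
        have := fr_ker K L (s - s') (sub_ne_zero.2 hs)
        omega)
    refine ⟨L × L, inferInstance, U, W, ?_, h1, h2, h3, h4⟩
    rw [Fintype.card_prod, ← Nat.card_eq_fintype_card, hcard, ex, if_pos hBb, ← pow_add, hBb]
    congr 1
    ring
  · obtain ⟨U, W, h1, h2, h3, h4⟩ := config_of (K := K) (V := V) τ b B (by omega) hV L hL L
      (fun s => fr K L (s, 0)) (by
        intro s s' hs
        rw [fr_sub]
        have h5 : ((s, 0) : L × L) - (s', 0) = (s - s', 0) := by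
          rw [Prod.mk_sub_mk, sub_self]
        rw [h5, fr_ker0 K L (s - s') (sub_ne_zero.2 hs)]
        omega)
    refine ⟨L, inferInstance, U, W, ?_, h1, h2, h3, h4⟩
    rw [← Nat.card_eq_fintype_card, hcard, ex, if_neg hBb]

end Pool.Agent.V11152.CS
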