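import Mathlib

set_option autoImplicit false

open Finset

namespace Pool.Agent.V11152.EX

/-- inclusion of the lattice points in the space -/
def emb {d : ℕ} (x : Fin d → ℤ) : Fin d → ℝ := fun i => (x i : ℝ)

/-- `V` is the vertex set of a full-dimensional lattice polytope in the cube `[0,k]^d` -/
structure IsPoly (d k : ℕ) (V : Finset (Fin d → ℤ)) : Prop where
  box : ∀ x ∈ V, ∀ i, 0 ≤ x i ∧ x i ≤ k
  ver : ∀ x ∈ V, emb x ∉ convexHull ℝ (emb '' ((V : Set (Fin d → ℤ)) \ {x}))
  full : affineSpan ℝ (emb '' (V : Set (Fin d → ℤ))) = ⊤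

/-- the full-dimensional lattice polytopes in the cube, given by their vertex sets -/
abbrev Pol (d k : ℕ) := {V : Finset (Fin d → ℤ) // IsPoly d k V}

/-- the graph of elementary moves -/
def Lam (d k : ℕ) : SimpleGraph (Pol d k) where
  Adj V W := (∃ x, x ∉ V.1 ∧ W.1 = insert x V.1) ∨ (∃ x, x ∉ W.1 ∧ V.1 = insert x W.1)
  symm := ⟨fun V W h => Or.symm h⟩
  loopless := ⟨fun V h => by
    rcases h with ⟨x, hx, h⟩ | ⟨x, hx, h⟩ <;>
    · apply hx
      rw [h]
      exact mem_insert_self _ _⟩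

lemma emb_inj {d : ℕ} : Function.Injective (emb (d := d)) := by
  intro x y h
  ext i
  have := congrFun h i
  simpa [emb] using this

/-- the lattice points of the cube -/
noncomputable def Box (d k : ℕ) : Finset (Fin d → ℤ) := Fintype.piFinset (fun _ => Finset.Icc (0 : ℤ) k)

lemma sub_Box {d k : ℕ} (V : Pol d k) : V.1 ⊆ Box d k := by
  intro x hx
  rw [Box, Fintype.mem_piFinset]
  intro i
  rw [mem_Icc]
  exact V.2.box x hx i

lemma card_Box (k : ℕ) : (Box 2 k).card = (k + 1) ^ 2 := by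
  rw [Box, Fintype.card_piFinset]
  simp

instance finPol (d k : ℕ) : Finite (Pol d k) := by
  have : Set.Finite {V : Finset (Fin d → ℤ) | IsPoly d k V} := by
    apply Set.Finite.subset (Finset.finite_toSet (Box d k).powerset)
    intro V hV
    rw [mem_coe, mem_powerset]
    exact sub_Box ⟨V, hV⟩
  exact this.to_subtype

/-- convexly independent sets with three points span the plane -/
lemma span_top (V : Finset (Fin 2 → ℤ))
    (hV : ∀ x ∈ V, emb x ∉ convexHull ℝ (emb '' ((V : Set (Fin 2 → ℤ)) \ {x})))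
    (h3 : 3 ≤ V.card) : affineSpan ℝ (emb '' (V : Set (Fin 2 → ℤ))) = ⊤ := by
  obtain ⟨a, ha, b, hb, c, hc, hab, hac, hbc⟩ := Finset.two_lt_card.1 (show 2 < V.card by omega)
  have key : ∀ a ∈ V, ∀ b ∈ V, ∀ c ∈ V, a ≠ b → b ≠ c → ¬ Wbtw ℝ (emb a) (emb b) (emb c) := by
    intro a ha b hb c hc hab hbc hw
    apply hV b hb
    have h1 : emb b ∈ segment ℝ (emb a) (emb c) := by
      rw [← affineSegment_eq_segment]
      exact hw
    have h2 : segment ℝ (emb a) (emb c) ⊆
        convexHull ℝ (emb '' ((V : Set (Fin 2 → ℤ)) \ {b})) := by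
      apply (convex_convexHull ℝ _).segment_subset
      · exact subset_convexHull ℝ _ ⟨a, ⟨ha, hab⟩, rfl⟩
      · exact subset_convexHull ℝ _ ⟨c, ⟨hc, fun h => hbc h.symm⟩, rfl⟩
    exact h2 h1
  have hnc : ¬ Collinear ℝ {emb a, emb b, emb c} := by
    intro h
    rcases h.wbtw_or_wbtw_or_wbtw with h1 | h1 | h1
    · exact key a ha b hb c hc hab hbc h1
    · exact key b hb c hc a ha hbc (Ne.symm hac) h1
    · exact key c hc a ha b hb (Ne.symm hac) hab h1
  have hai : AffineIndependent ℝ ![emb a, emb b, emb c] :=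
    affineIndependent_iff_not_collinear_set.2 hnc
  have htop : affineSpan ℝ (Set.range ![emb a, emb b, emb c]) = ⊤ := by
    rw [hai.affineSpan_eq_top_iff_card_eq_finrank_add_one]
    simp
  rw [eq_top_iff, ← htop]
  apply affineSpan_mono
  rintro _ ⟨i, rfl⟩
  fin_cases i
  · exact ⟨a, ha, rfl⟩
  · exact ⟨b, hb, rfl⟩
  · exact ⟨c, hc, rfl⟩

/-- every vertex of a polygon with at least four vertices can be deleted -/
lemma erase_poly {k : ℕ} (V : Pol 2 k) (h4 : 4 ≤ V.1.card) (x : Fin 2 → ℤ) (hx : x ∈ V.1) :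
    IsPoly 2 k (V.1.erase x) := by
  have hver : ∀ y ∈ V.1.erase x,
      emb y ∉ convexHull ℝ (emb '' (((V.1.erase x : Finset _) : Set (Fin 2 → ℤ)) \ {y})) := by
    intro y hy h
    apply V.2.ver y (mem_of_mem_erase hy)
    refine convexHull_mono (Set.image_mono ?_) h
    intro z hz
    exact ⟨mem_of_mem_erase hz.1, hz.2⟩
  refine ⟨fun y hy => V.2.box y (mem_of_mem_erase hy), hver, span_top _ hver ?_⟩
  rw [card_erase_of_mem hx]
  omega

open Classical in
lemma deg_ge {k : ℕ} [Fintype (Pol 2 k)] (V : Pol 2 k) (h4 : 4 ≤ V.1.card) :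
    V.1.card ≤ (univ.filter (fun W => (Lam 2 k).Adj V W)).card := by
  apply Finset.card_le_card_of_injOn
    (fun x => if h : x ∈ V.1 then (⟨V.1.erase x, erase_poly V h4 x h⟩ : Pol 2 k) else V)
  · intro x hx
    have hx' : x ∈ V.1 := hx
    simp only [coe_filter, mem_univ, true_and, Set.mem_ofPred_eq]
    rw [dif_pos hx']
    exact Or.inr ⟨x, notMem_erase _ _, (insert_erase hx').symm⟩
  · intro x hx y hy hxy
    have hx' : x ∈ V.1 := hx
    have hy' : y ∈ V.1 := hy
    simp only [dif_pos hx', dif_pos hy', Subtype.mk.injEq] at hxy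
    by_contra hne
    have : x ∈ V.1.erase y := mem_erase.2 ⟨hne, hx'⟩
    rw [← hxy] at this
    exact notMem_erase _ _ this

/-- points of the parabola -/
def par (i : ℕ) : Fin 2 → ℤ := ![(i : ℤ), (i : ℤ) ^ 2]

lemma par_inj : Function.Injective par := by
  intro i j h
  have := congrFun h 0
  simpa [par] using this

lemma par_ver (T : Finset ℕ) (x : Fin 2 → ℤ) (hx : x ∈ T.image par) :
    emb x ∉ convexHull ℝ (emb '' (((T.image par : Finset _) : Set (Fin 2 → ℤ)) \ {x})) := by
  obtain ⟨i, hi, rfl⟩ := mem_image.1 hx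
  intro h
  let f : (Fin 2 → ℝ) → ℝ := fun v => v 1 - 2 * (i : ℝ) * v 0
  have hconv : Convex ℝ {v : Fin 2 → ℝ | -(i : ℝ) ^ 2 < f v} := by
    intro v hv w hw a b ha hb hab
    simp only [Set.mem_ofPred_eq, f, Pi.add_apply, Pi.smul_apply, smul_eq_mul] at hv hw ⊢
    rcases ha.eq_or_lt with h0 | h0
    · have hb1 : b = 1 := by linarith
      rw [← h0, hb1]
      linarith
    · nlinarith [mul_lt_mul_of_pos_left hv h0, mul_le_mul_of_nonneg_left hw.le hb]
  have hsub : convexHull ℝ (emb '' (((T.image par : Finset _) : Set (Fin 2 → ℤ)) \ {par i})) ⊆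
      {v : Fin 2 → ℝ | -(i : ℝ) ^ 2 < f v} := by
    apply convexHull_min _ hconv
    rintro _ ⟨y, ⟨hy, hne⟩, rfl⟩
    obtain ⟨j, hj, rfl⟩ := mem_image.1 (mem_coe.1 hy)
    have hij : (j : ℝ) ≠ i := by
      intro h
      apply hne
      rw [Set.mem_singleton_iff]
      rw [Nat.cast_injective h]
    simp only [Set.mem_ofPred_eq, f, emb, par, Matrix.cons_val_zero, Matrix.cons_val_one]
    push_cast
    have h2 : 0 < ((j : ℝ) - i) ^ 2 := by
      have : (j : ℝ) - i ≠ 0 := sub_ne_zero.2 hij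
      positivity
    nlinarith
  have h3 := hsub h
  simp only [Set.mem_ofPred_eq, f, emb, par, Matrix.cons_val_zero, Matrix.cons_val_one,
    Int.cast_natCast, Int.cast_pow] at h3
  nlinarith

end Pool.Agent.V11152.EX
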