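import Mathlib

/-! A sufficient condition for an ellipsoid to be the ellipsoid of maximal volume in a polytope. -/

set_option autoImplicit false

open Matrix Finset
open scoped MatrixOrder ComplexOrder

namespace Pool.Agent.V11152.JohnGen

variable {ι : Type*} [Fintype ι] [DecidableEq ι]

omit [DecidableEq ι] in
theorem tmul (A : Matrix ι ι ℝ) (x y : ι → ℝ) : (Aᵀ *ᵥ x) ⬝ᵥ y = x ⬝ᵥ (A *ᵥ y) := by
  rw [Matrix.mulVec_transpose, ← Matrix.dotProduct_mulVec]

theorem exists_sqrt (W : Matrix ι ι ℝ) (hW : W.PosSemidef) :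
    ∃ R : Matrix ι ι ℝ, R.PosSemidef ∧ R * R = W :=
  ⟨CFC.sqrt W, (CFC.sqrt_nonneg W).posSemidef, CFC.sqrt_mul_sqrt_self W hW.nonneg⟩

theorem det_le_one (R : Matrix ι ι ℝ) (hR : R.PosSemidef)
    (ht : R.trace ≤ Fintype.card ι) : R.det ≤ 1 ∧ (R.det = 1 → R = 1) := by
  have hH := hR.isHermitian
  have hdet : R.det = ∏ i, hH.eigenvalues i := by
    have := hH.det_eq_prod_eigenvalues
    simpa using this
  have htr : R.trace = ∑ i, hH.eigenvalues i := by
    have := hH.trace_eq_sum_eigenvalues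
    simpa using this
  have hnn : ∀ i, 0 ≤ hH.eigenvalues i := fun i => hR.eigenvalues_nonneg i
  have hsum : ∑ i, (hH.eigenvalues i - 1) ≤ 0 := by
    rw [Finset.sum_sub_distrib]
    simp only [Finset.sum_const, Finset.card_univ, nsmul_eq_mul, mul_one]
    rw [← htr]; linarith
  constructor
  · rw [hdet]
    calc ∏ i, hH.eigenvalues i ≤ ∏ i, Real.exp (hH.eigenvalues i - 1) := by
          apply Finset.prod_le_prod (fun i _ => hnn i)
          intro i _
          have := Real.add_one_le_exp (hH.eigenvalues i - 1)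
          linarith
      _ = Real.exp (∑ i, (hH.eigenvalues i - 1)) := by rw [Real.exp_sum]
      _ ≤ 1 := by rw [Real.exp_le_one_iff]; exact hsum
  · intro h1
    rw [hdet] at h1
    have hpos : ∀ i, 0 < hH.eigenvalues i := by
      intro i
      rcases (hnn i).lt_or_eq with h | h
      · exact h
      · exfalso
        rw [Finset.prod_eq_zero (Finset.mem_univ i) h.symm] at h1
        exact zero_ne_one h1
    have hlog : ∑ i, Real.log (hH.eigenvalues i) = 0 := by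
      rw [← Real.log_prod (fun i _ => (hpos i).ne'), h1, Real.log_one]
    have hz : ∑ i, (hH.eigenvalues i - 1 - Real.log (hH.eigenvalues i)) ≤ 0 := by
      rw [Finset.sum_sub_distrib, hlog]; linarith
    have hterm : ∀ i ∈ Finset.univ, 0 ≤ hH.eigenvalues i - 1 - Real.log (hH.eigenvalues i) := by
      intro i _
      have := Real.log_le_sub_one_of_pos (hpos i)
      linarith
    have hzero := (Finset.sum_eq_zero_iff_of_nonneg hterm).1
      (le_antisymm hz (Finset.sum_nonneg hterm))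
    have hone : ∀ i, hH.eigenvalues i = 1 := by
      intro i
      by_contra hne
      have h2 := Real.log_lt_sub_one_of_pos (hpos i) hne
      have h3 := hzero i (Finset.mem_univ i)
      linarith
    have hsp := hH.spectral_theorem
    have hd : (diagonal (RCLike.ofReal ∘ hH.eigenvalues) : Matrix ι ι ℝ) = 1 := by
      rw [← Matrix.diagonal_one]
      congr 1
      funext i
      simp [hone i]
    rw [hd, map_one] at hsp
    exact hsp

/-- A sufficient condition for maximality. `Γ = B⁻¹`, the form is `H = Bᵀ B`. -/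
theorem john {Φ : Type*} [Fintype Φ] (a : Φ → ι → ℝ) (b w μ : Φ → ℝ) (c : ι → ℝ)
    (B : Matrix ι ι ℝ) (hB : IsUnit B.det)
    (y : Φ → ι → ℝ)
    (hw : ∀ F, 0 < w F) (hμ : ∀ F, 0 ≤ μ F)
    (hc : ∀ F, a F ⬝ᵥ c + w F = b F)
    (hy : ∀ F, (Bᵀ * B) *ᵥ y F = a F) (hyw : ∀ F, a F ⬝ᵥ y F = w F ^ 2)
    (hH : ∑ F, μ F • Matrix.vecMulVec (a F) (a F) = Bᵀ * B)
    (h0 : ∀ x : ι → ℝ, ∑ F, μ F * w F * (a F ⬝ᵥ x) = 0)
    (c' : ι → ℝ) (L : Matrix ι ι ℝ)
    (hL : ∀ F, ∀ u : ι → ℝ, ∑ e, u e ^ 2 ≤ 1 → a F ⬝ᵥ (c' + L *ᵥ u) ≤ b F) :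
    |L.det| * |B.det| ≤ 1 ∧ (|L.det| * |B.det| = 1 → (B * L) * (B * L)ᵀ = 1) := by
  -- the support function bound
  have hsupp : ∀ F, a F ⬝ᵥ c' + √((Lᵀ *ᵥ a F) ⬝ᵥ (Lᵀ *ᵥ a F)) ≤ b F := by
    intro F
    set v := Lᵀ *ᵥ a F with hv
    have hvv : v ⬝ᵥ v = ∑ e, v e ^ 2 := by
      simp [dotProduct, sq]
    rcases eq_or_ne (v ⬝ᵥ v) 0 with h | h
    · rw [h, Real.sqrt_zero, add_zero]
      have := hL F 0 (by simp)
      simpa using this
    · have hpos : 0 < v ⬝ᵥ v := by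
        rcases (show 0 ≤ v ⬝ᵥ v by rw [hvv]; positivity).lt_or_eq with h' | h'
        · exact h'
        · exact absurd h'.symm h
      have hs : 0 < √(v ⬝ᵥ v) := Real.sqrt_pos.2 hpos
      have hss : √(v ⬝ᵥ v) * √(v ⬝ᵥ v) = v ⬝ᵥ v := Real.mul_self_sqrt hpos.le
      have hinv : (√(v ⬝ᵥ v))⁻¹ ^ 2 * (v ⬝ᵥ v) = 1 := by
        rw [inv_pow, Real.sq_sqrt hpos.le]
        exact inv_mul_cancel₀ h
      have h3 : (√(v ⬝ᵥ v))⁻¹ * (v ⬝ᵥ v) = √(v ⬝ᵥ v) := by
        rw [inv_mul_eq_div, div_eq_iff hs.ne', hss]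
      have h4 : a F ⬝ᵥ (L *ᵥ v) = v ⬝ᵥ v := by
        rw [← tmul]
      have := hL F ((√(v ⬝ᵥ v))⁻¹ • v) (by
        have : ∑ e, ((√(v ⬝ᵥ v))⁻¹ • v) e ^ 2 = (√(v ⬝ᵥ v))⁻¹ ^ 2 * ∑ e, v e ^ 2 := by
          rw [Finset.mul_sum]; refine Finset.sum_congr rfl fun e _ => ?_
          simp [mul_pow]
        rw [this, ← hvv, hinv])
      rw [dotProduct_add, Matrix.mulVec_smul, dotProduct_smul, h4, smul_eq_mul, h3] at this
      exact this
  set W : Matrix ι ι ℝ := (B * L) * (B * L)ᵀ with hWdef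
  have hW : W.PosSemidef := by
    have := Matrix.posSemidef_self_mul_conjTranspose (B * L)
    rw [Matrix.conjTranspose_eq_transpose_of_trivial] at this
    exact this
  obtain ⟨R, hR, hRW⟩ := exists_sqrt W hW
  have hRt : Rᵀ = R := by
    have := hR.isHermitian
    rw [Matrix.IsHermitian, Matrix.conjTranspose_eq_transpose_of_trivial] at this
    exact this
  set z : Φ → ι → ℝ := fun F => B *ᵥ y F with hz
  have haz : ∀ F, a F = Bᵀ *ᵥ z F := by
    intro F
    rw [hz]; simp only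
    rw [Matrix.mulVec_mulVec]; exact (hy F).symm
  have hzz : ∀ F, z F ⬝ᵥ z F = w F ^ 2 := by
    intro F
    rw [← hyw F, haz F]
    rw [hz]; simp only
    rw [Matrix.mulVec_transpose, ← Matrix.dotProduct_mulVec]
  -- norm of L^T a
  have hLa : ∀ F, (Lᵀ *ᵥ a F) ⬝ᵥ (Lᵀ *ᵥ a F) = (R *ᵥ z F) ⬝ᵥ (R *ᵥ z F) := by
    intro F
    have h1 : Lᵀ *ᵥ a F = (B * L)ᵀ *ᵥ z F := by
      rw [haz F, Matrix.mulVec_mulVec, Matrix.transpose_mul]
    rw [h1]
    have h2 : ((B * L)ᵀ *ᵥ z F) ⬝ᵥ ((B * L)ᵀ *ᵥ z F) = z F ⬝ᵥ (W *ᵥ z F) := by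
      rw [tmul, hWdef, Matrix.mulVec_mulVec]
    have h3 : (R *ᵥ z F) ⬝ᵥ (R *ᵥ z F) = z F ⬝ᵥ (W *ᵥ z F) := by
      nth_rewrite 1 [← hRt]
      rw [tmul, ← hRW, ← Matrix.mulVec_mulVec]
    rw [h2, h3]
  have hCS : ∀ F, z F ⬝ᵥ (R *ᵥ z F) ≤ w F * √((Lᵀ *ᵥ a F) ⬝ᵥ (Lᵀ *ᵥ a F)) := by
    intro F
    rw [hLa F]
    have h1 : (z F ⬝ᵥ (R *ᵥ z F)) ^ 2 ≤ (w F ^ 2) * ((R *ᵥ z F) ⬝ᵥ (R *ᵥ z F)) := by
      rw [← hzz F]
      have := Finset.sum_mul_sq_le_sq_mul_sq Finset.univ (z F) (R *ᵥ z F)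
      simpa [dotProduct, sq] using this
    have hnn : 0 ≤ (R *ᵥ z F) ⬝ᵥ (R *ᵥ z F) := by
      simp only [dotProduct]; exact Finset.sum_nonneg fun i _ => mul_self_nonneg _
    apply le_of_sq_le_sq _ (mul_nonneg (hw F).le (Real.sqrt_nonneg _)) |>.trans le_rfl
    rw [mul_pow, Real.sq_sqrt hnn]
    exact h1
  have htrace : R.trace ≤ Fintype.card ι := by
    -- the sum identity
    have hI : ∑ F, μ F • Matrix.vecMulVec (z F) (z F) = (1 : Matrix ι ι ℝ) := by
      have h1 : ∀ F, Matrix.vecMulVec (a F) (a F) = Bᵀ * Matrix.vecMulVec (z F) (z F) * B := by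
        intro F
        rw [Matrix.mul_vecMulVec, Matrix.vecMulVec_mul, ← haz F, ← Matrix.mulVec_transpose, ← haz F]
      have h2 : Bᵀ * (∑ F, μ F • Matrix.vecMulVec (z F) (z F)) * B = Bᵀ * 1 * B := by
        rw [Matrix.mul_one, ← hH, Matrix.mul_sum, Matrix.sum_mul]
        refine Finset.sum_congr rfl fun F _ => ?_
        rw [h1 F]; simp
      have hBu : IsUnit B := (Matrix.isUnit_iff_isUnit_det B).2 hB
      have hBtu : IsUnit Bᵀ := (Matrix.isUnit_iff_isUnit_det _).2 (by rwa [Matrix.det_transpose])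
      exact hBtu.mul_left_cancel (hBu.mul_right_cancel h2)
    have hs1 : ∑ F, μ F * (z F ⬝ᵥ (R *ᵥ z F)) = R.trace := by
      have : ∀ F, z F ⬝ᵥ (R *ᵥ z F) = (R * Matrix.vecMulVec (z F) (z F)).trace := by
        intro F
        rw [Matrix.mul_vecMulVec, Matrix.trace_vecMulVec, dotProduct_comm]
      simp_rw [this]
      have h2 : ∀ F, μ F * (R * Matrix.vecMulVec (z F) (z F)).trace =
          (R * (μ F • Matrix.vecMulVec (z F) (z F))).trace := by
        intro F; simp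
      simp_rw [h2]
      rw [← Matrix.trace_sum, ← Matrix.mul_sum, hI, Matrix.mul_one]
    have hs2 : ∑ F, μ F * w F ^ 2 = Fintype.card ι := by
      have : ∀ F, w F ^ 2 = (Matrix.vecMulVec (z F) (z F)).trace := by
        intro F; rw [Matrix.trace_vecMulVec, hzz F]
      simp_rw [this]
      have h2 : ∀ F, μ F * (Matrix.vecMulVec (z F) (z F)).trace =
          (μ F • Matrix.vecMulVec (z F) (z F)).trace := by
        intro F; simp
      simp_rw [h2]
      rw [← Matrix.trace_sum, hI, Matrix.trace_one]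
    rw [← hs1, ← hs2]
    have hstep : ∀ F, μ F * (z F ⬝ᵥ (R *ᵥ z F)) ≤ μ F * w F * (b F - a F ⬝ᵥ c') := by
      intro F
      rw [mul_assoc]
      refine mul_le_mul_of_nonneg_left ((hCS F).trans ?_) (hμ F)
      refine mul_le_mul_of_nonneg_left ?_ (hw F).le
      have := hsupp F
      linarith
    calc ∑ F, μ F * (z F ⬝ᵥ (R *ᵥ z F)) ≤ ∑ F, μ F * w F * (b F - a F ⬝ᵥ c') :=
          Finset.sum_le_sum fun F _ => hstep F
      _ = ∑ F, (μ F * w F ^ 2 + μ F * w F * (a F ⬝ᵥ (c - c'))) := by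
          refine Finset.sum_congr rfl fun F _ => ?_
          rw [← hc F, dotProduct_sub]; ring
      _ = ∑ F, μ F * w F ^ 2 := by
          rw [Finset.sum_add_distrib, h0, add_zero]
  obtain ⟨hd1, hd2⟩ := det_le_one R hR htrace
  have hRd : 0 ≤ R.det := hR.det_nonneg
  have hdet : R.det = |L.det| * |B.det| := by
    have h1 : R.det * R.det = (|L.det| * |B.det|) * (|L.det| * |B.det|) := by
      rw [← Matrix.det_mul, hRW, hWdef, Matrix.det_mul, Matrix.det_transpose, Matrix.det_mul]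
      rw [← abs_mul, ← abs_mul, abs_mul_self]
      ring
    have h2 : 0 ≤ |L.det| * |B.det| := by positivity
    nlinarith [mul_self_eq_mul_self_iff.1 h1, sq_nonneg (R.det - |L.det| * |B.det|),
      sq_nonneg (R.det + |L.det| * |B.det|), abs_eq_abs.2 (mul_self_eq_mul_self_iff.1 h1),
      abs_of_nonneg hRd, abs_of_nonneg h2]
  refine ⟨by rw [← hdet]; exact hd1, fun h => ?_⟩
  rw [← hdet] at h
  rw [← hRW, hd2 h, Matrix.mul_one]

end Pool.Agent.V11152.JohnGen
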