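import Mathlib

namespace Pool.Agent.V11152.MO

section sums

variable {k : Type} [Field k] [Fintype k] [DecidableEq k]

/-- indicator of zero -/
def ind (c : k) : ℤ := if c = 0 then 1 else 0

theorem sum_const_k (c : ℤ) : ∑ _x : k, c = (Fintype.card k : ℤ) * c := by
  simp

theorem sqrt_sum (h2 : ringChar k ≠ 2) (c : k) :
    ∑ x : k, ind (x ^ 2 - c) = 1 + quadraticChar k c := by
  have h := quadraticChar_card_sqrts h2 c
  rw [add_comm, ← h]
  simp only [ind, Finset.sum_boole]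
  congr 2
  ext x
  simp [sub_eq_zero]

theorem conic (h2 : ringChar k ≠ 2) (c : k) :
    ∑ x : k, quadraticChar k (x ^ 2 + c) = -1 + (Fintype.card k : ℤ) * ind c := by
  have h2' : (2 : k) ≠ 0 := Ring.two_ne_zero h2
  have e1 : ∑ x : k, ∑ y : k, ind (y ^ 2 - (x ^ 2 + c))
      = (Fintype.card k : ℤ) + ∑ x : k, quadraticChar k (x ^ 2 + c) := by
    simp_rw [sqrt_sum h2]
    rw [Finset.sum_add_distrib]
    simp
  have e2 : ∑ x : k, ∑ y : k, ind (y ^ 2 - (x ^ 2 + c))
      = ∑ r : k, ∑ x : k, ind (r * (r + 2 * x) - c) := by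
    have : ∀ x : k, ∑ y : k, ind (y ^ 2 - (x ^ 2 + c))
        = ∑ r : k, ind (r * (r + 2 * x) - c) := by
      intro x
      rw [← Equiv.sum_comp (Equiv.addRight x)]
      apply Finset.sum_congr rfl
      intro r _
      congr 1
      show (r + x) ^ 2 - (x ^ 2 + c) = _
      ring
    simp_rw [this]
    rw [Finset.sum_comm]
  have e3 : ∀ r : k, ∑ x : k, ind (r * (r + 2 * x) - c)
      = if r = 0 then (Fintype.card k : ℤ) * ind c else 1 := by
    intro r
    split_ifs with hr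
    · have : ∀ x : k, ind (r * (r + 2 * x) - c) = ind c := by
        intro x
        rw [hr]
        unfold ind
        congr 1
        rw [zero_mul, zero_sub, neg_eq_zero]
      simp_rw [this]
      exact sum_const_k _
    · rw [Finset.sum_eq_single ((c / r - r) / 2)]
      · unfold ind
        rw [if_pos]
        field_simp
        ring
      · intro x _ hx
        unfold ind
        rw [if_neg]
        intro h
        apply hx
        field_simp
        linear_combination h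
      · simp
  have e4 : ∑ r : k, (if r = 0 then (Fintype.card k : ℤ) * ind c else 1)
      = (Fintype.card k : ℤ) * ind c + ((Fintype.card k : ℤ) - 1) := by
    have h1 : ∀ r : k, (if r = 0 then (Fintype.card k : ℤ) * ind c else 1)
        = (if r = 0 then ((Fintype.card k : ℤ) * ind c - 1) else 0) + 1 := by
      intro r; split_ifs <;> ring
    simp_rw [h1]
    rw [Finset.sum_add_distrib, sum_const_k]
    simp
    ring
  rw [e2] at e1
  simp_rw [e3] at e1
  rw [e4] at e1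
  linarith

theorem represent_one (h2 : ringChar k ≠ 2) {A B : k} (hA : A ≠ 0) (hB : B ≠ 0) :
    ∃ a b : k, A * a ^ 2 + B * b ^ 2 = 1 := by
  have hf : (Polynomial.C A * Polynomial.X ^ 2).degree = 2 := by
    rw [Polynomial.degree_C_mul_X_pow 2 hA]; rfl
  have hg : (Polynomial.C B * Polynomial.X ^ 2 - Polynomial.C 1 : Polynomial k).degree = 2 := by
    rw [Polynomial.degree_sub_C]
    · rw [Polynomial.degree_C_mul_X_pow 2 hB]; rfl
    · rw [Polynomial.degree_C_mul_X_pow 2 hB]; norm_num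
  have hcard : Fintype.card k % 2 = 1 := FiniteField.odd_card_of_char_ne_two h2
  obtain ⟨a, b, h⟩ := FiniteField.exists_root_sum_quadratic hf hg hcard
  refine ⟨a, b, ?_⟩
  simp at h
  linear_combination h

theorem bin_norm (h2 : ringChar k ≠ 2) {A B : k} (hA : A ≠ 0) (hB : B ≠ 0) (f : k → ℤ) :
    ∑ x : k, ∑ y : k, f (A * x ^ 2 + B * y ^ 2) = ∑ x : k, ∑ y : k, f (x ^ 2 + A * B * y ^ 2) := by
  obtain ⟨a, b, h⟩ := represent_one h2 hA hB
  let e : k × k ≃ k × k :=
    { toFun := fun p => (a * p.1 + B * b * p.2, b * p.1 - A * a * p.2)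
      invFun := fun p => (A * a * p.1 + B * b * p.2, b * p.1 - a * p.2)
      left_inv := by
        rintro ⟨x, y⟩
        simp only [Prod.mk.injEq]
        constructor
        · linear_combination x * h
        · linear_combination y * h
      right_inv := by
        rintro ⟨x, y⟩
        simp only [Prod.mk.injEq]
        constructor
        · linear_combination x * h
        · linear_combination y * h }
  rw [← Fintype.sum_prod_type', ← Fintype.sum_prod_type']
  symm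
  apply Fintype.sum_equiv e
  rintro ⟨x, y⟩
  show f (x ^ 2 + A * B * y ^ 2)
    = f (A * (a * x + B * b * y) ^ 2 + B * (b * x - A * a * y) ^ 2)
  congr 1
  linear_combination -(x ^ 2 + A * B * y ^ 2) * h

theorem ind_mul {A : k} (hA : A ≠ 0) (c : k) : ind (A * c) = ind c := by
  unfold ind
  simp [hA]

theorem ind_sq {A : k} (hA : A ≠ 0) (c : k) : ind (A * c ^ 2) = ind c := by
  unfold ind
  simp [hA]

theorem sum_ind : ∑ c : k, ind c = 1 := by
  simp [ind]

theorem bin_zero (h2 : ringChar k ≠ 2) {A B : k} (hA : A ≠ 0) (hB : B ≠ 0) :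
    ∑ x : k, ∑ y : k, quadraticChar k (A * x ^ 2 + B * y ^ 2) = 0 := by
  rw [bin_norm h2 hA hB, Finset.sum_comm]
  simp_rw [conic h2]
  have hAB := mul_ne_zero hA hB
  simp_rw [ind_sq hAB]
  rw [Finset.sum_add_distrib, ← Finset.mul_sum, sum_ind]
  simp

theorem bin_ind (h2 : ringChar k ≠ 2) {A B : k} (hA : A ≠ 0) (hB : B ≠ 0) :
    ∑ x : k, ∑ y : k, ind (A * x ^ 2 + B * y ^ 2)
      = (Fintype.card k : ℤ) + ((Fintype.card k : ℤ) - 1) * quadraticChar k (-(A * B)) := by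
  rw [bin_norm h2 hA hB, Finset.sum_comm]
  have h1 : ∀ y : k, ∑ x : k, ind (x ^ 2 + A * B * y ^ 2)
      = 1 + quadraticChar k (-(A * B)) * (1 - ind y) := by
    intro y
    have := sqrt_sum h2 (-(A * B) * y ^ 2)
    have e : ∀ x : k, x ^ 2 - -(A * B) * y ^ 2 = x ^ 2 + A * B * y ^ 2 := by intro x; ring
    simp_rw [e] at this
    rw [this, map_mul]
    congr 1
    by_cases hy : y = 0
    · simp [hy, ind]
    · rw [map_pow, quadraticChar_sq_one hy]
      simp [ind, hy]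
  simp_rw [h1]
  rw [Finset.sum_add_distrib, ← Finset.mul_sum, Finset.sum_sub_distrib, sum_ind]
  simp
  ring

theorem tern_chi (h2 : ringChar k ≠ 2) {A B C : k} (hA : A ≠ 0) (hB : B ≠ 0) (hC : C ≠ 0) :
    ∑ z : k, ∑ x : k, ∑ y : k, quadraticChar k (A * x ^ 2 + B * y ^ 2 + C * z ^ 2)
      = (Fintype.card k : ℤ) * ((Fintype.card k : ℤ) - 1) * quadraticChar k (-(A * B * C)) := by
  have h1 : ∀ z : k, ∑ x : k, ∑ y : k, quadraticChar k (A * x ^ 2 + B * y ^ 2 + C * z ^ 2)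
      = ∑ y : k, (-1 + (Fintype.card k : ℤ) * ind (A * B * y ^ 2 + C * z ^ 2)) := by
    intro z
    rw [bin_norm h2 hA hB (fun c => quadraticChar k (c + C * z ^ 2)), Finset.sum_comm]
    apply Finset.sum_congr rfl; intro y _
    have e : ∀ x : k, x ^ 2 + A * B * y ^ 2 + C * z ^ 2 = x ^ 2 + (A * B * y ^ 2 + C * z ^ 2) := by
      intro x; ring
    simp_rw [e]
    exact conic h2 _
  simp_rw [h1]
  rw [Finset.sum_comm]
  simp_rw [Finset.sum_add_distrib, ← Finset.mul_sum]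
  rw [bin_ind h2 (mul_ne_zero hA hB) hC]
  simp
  ring

theorem tern_ind (h2 : ringChar k ≠ 2) {A B C : k} (hA : A ≠ 0) (hB : B ≠ 0) (hC : C ≠ 0) :
    ∑ z : k, ∑ x : k, ∑ y : k, ind (A * x ^ 2 + B * y ^ 2 + C * z ^ 2)
      = (Fintype.card k : ℤ) ^ 2 := by
  have h1 : ∀ z : k, ∑ x : k, ∑ y : k, ind (A * x ^ 2 + B * y ^ 2 + C * z ^ 2)
      = ∑ y : k, (1 + quadraticChar k (-(A * B) * y ^ 2 + (-C) * z ^ 2)) := by
    intro z
    rw [bin_norm h2 hA hB (fun c => ind (c + C * z ^ 2)), Finset.sum_comm]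
    apply Finset.sum_congr rfl; intro y _
    rw [← sqrt_sum h2]
    apply Finset.sum_congr rfl; intro x _
    congr 1; ring
  simp_rw [h1]
  rw [Finset.sum_comm]
  simp_rw [Finset.sum_add_distrib]
  rw [bin_zero h2 (neg_ne_zero.mpr (mul_ne_zero hA hB)) (neg_ne_zero.mpr hC)]
  simp
  ring

theorem quat_chi (h2 : ringChar k ≠ 2) {A B C D : k} (hA : A ≠ 0) (hB : B ≠ 0) (hC : C ≠ 0)
    (hD : D ≠ 0) :
    ∑ w : k, ∑ z : k, ∑ x : k, ∑ y : k,
      quadraticChar k (A * x ^ 2 + B * y ^ 2 + C * z ^ 2 + D * w ^ 2) = 0 := by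
  have h1 : ∀ w z : k, ∑ x : k, ∑ y : k,
      quadraticChar k (A * x ^ 2 + B * y ^ 2 + C * z ^ 2 + D * w ^ 2)
      = ∑ y : k, (-1 + (Fintype.card k : ℤ) * ind (A * B * y ^ 2 + C * z ^ 2 + D * w ^ 2)) := by
    intro w z
    have e0 : ∀ x y : k, A * x ^ 2 + B * y ^ 2 + C * z ^ 2 + D * w ^ 2
        = A * x ^ 2 + B * y ^ 2 + (C * z ^ 2 + D * w ^ 2) := by intro x y; ring
    simp_rw [e0]
    rw [bin_norm h2 hA hB (fun c => quadraticChar k (c + (C * z ^ 2 + D * w ^ 2))),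
      Finset.sum_comm]
    apply Finset.sum_congr rfl; intro y _
    have e : ∀ x : k, x ^ 2 + A * B * y ^ 2 + (C * z ^ 2 + D * w ^ 2)
        = x ^ 2 + (A * B * y ^ 2 + C * z ^ 2 + D * w ^ 2) := by
      intro x; ring
    simp_rw [e]
    exact conic h2 _
  simp_rw [h1]
  have h3 : ∀ w : k, ∑ z : k, ∑ y : k,
      (-1 + (Fintype.card k : ℤ) * ind (A * B * y ^ 2 + C * z ^ 2 + D * w ^ 2))
      = ∑ y : k, ∑ z : k,
      (-1 + (Fintype.card k : ℤ) * ind (A * B * y ^ 2 + C * z ^ 2 + D * w ^ 2)) :=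
    fun w => Finset.sum_comm
  simp_rw [h3, Finset.sum_add_distrib, ← Finset.mul_sum]
  rw [tern_ind h2 (mul_ne_zero hA hB) hC hD]
  simp
  ring

theorem quat_ind (h2 : ringChar k ≠ 2) {A B C D : k} (hA : A ≠ 0) (hB : B ≠ 0) (hC : C ≠ 0)
    (hD : D ≠ 0) :
    ∑ w : k, ∑ z : k, ∑ x : k, ∑ y : k, ind (A * x ^ 2 + B * y ^ 2 + C * z ^ 2 + D * w ^ 2)
      = (Fintype.card k : ℤ) ^ 3
        + (Fintype.card k : ℤ) * ((Fintype.card k : ℤ) - 1) * quadraticChar k (A * B * C * D) := by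
  have h1 : ∀ w z : k, ∑ x : k, ∑ y : k, ind (A * x ^ 2 + B * y ^ 2 + C * z ^ 2 + D * w ^ 2)
      = ∑ y : k, (1 + quadraticChar k (-(A * B) * y ^ 2 + (-C) * z ^ 2 + (-D) * w ^ 2)) := by
    intro w z
    have e0 : ∀ x y : k, A * x ^ 2 + B * y ^ 2 + C * z ^ 2 + D * w ^ 2
        = A * x ^ 2 + B * y ^ 2 + (C * z ^ 2 + D * w ^ 2) := by intro x y; ring
    simp_rw [e0]
    rw [bin_norm h2 hA hB (fun c => ind (c + (C * z ^ 2 + D * w ^ 2))), Finset.sum_comm]
    apply Finset.sum_congr rfl; intro y _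
    rw [← sqrt_sum h2]
    apply Finset.sum_congr rfl; intro x _
    congr 1; ring
  simp_rw [h1]
  have h3 : ∀ w : k, ∑ z : k, ∑ y : k,
      (1 + quadraticChar k (-(A * B) * y ^ 2 + (-C) * z ^ 2 + (-D) * w ^ 2))
      = ∑ y : k, ∑ z : k,
      (1 + quadraticChar k (-(A * B) * y ^ 2 + (-C) * z ^ 2 + (-D) * w ^ 2)) :=
    fun w => Finset.sum_comm
  simp_rw [h3, Finset.sum_add_distrib]
  rw [tern_chi h2 (neg_ne_zero.mpr (mul_ne_zero hA hB)) (neg_ne_zero.mpr hC)
    (neg_ne_zero.mpr hD)]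
  have e5 : -(-(A * B) * (-C) * (-D)) = A * B * C * D := by ring
  rw [e5]
  simp
  ring

end sums

end Pool.Agent.V11152.MO
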