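import Pool.Agent.V11152.MOa

namespace Pool.Agent.V11152.MO

section forms

variable {k : Type} [Field k] [Fintype k] [DecidableEq k]
variable {V : Type} [AddCommGroup V] [Module k V]

theorem sum_comb [Fintype V] (v : Module.Basis (Fin 4) k V) (g : V → ℤ) :
    ∑ H : V, g H = ∑ d : k, ∑ c : k, ∑ a : k, ∑ b : k,
      g (a • v 0 + b • v 1 + c • v 2 + d • v 3) := by
  let e : k × k × k × k ≃ V :=
    { toFun := fun p => p.2.2.1 • v 0 + p.2.2.2 • v 1 + p.2.1 • v 2 + p.1 • v 3
      invFun := fun H => (v.repr H 3, v.repr H 2, v.repr H 0, v.repr H 1)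
      left_inv := by
        rintro ⟨d, c, a, b⟩
        simp
      right_inv := by
        intro H
        have := v.sum_repr H
        rw [Fin.sum_univ_four] at this
        exact this }
  rw [← Equiv.sum_comp e]
  simp_rw [Fintype.sum_prod_type]
  rfl

theorem B_comb (B : LinearMap.BilinForm k V) (v : Module.Basis (Fin 4) k V)
    (ho : ∀ i j, i ≠ j → B (v i) (v j) = 0) (a b c d : k) :
    B (a • v 0 + b • v 1 + c • v 2 + d • v 3) (a • v 0 + b • v 1 + c • v 2 + d • v 3)
      = B (v 0) (v 0) * a ^ 2 + B (v 1) (v 1) * b ^ 2 + B (v 2) (v 2) * c ^ 2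
        + B (v 3) (v 3) * d ^ 2 := by
  simp only [map_add, map_smul, LinearMap.add_apply, LinearMap.smul_apply, smul_eq_mul]
  rw [ho 0 1 (by decide), ho 0 2 (by decide), ho 0 3 (by decide), ho 1 0 (by decide),
    ho 1 2 (by decide), ho 1 3 (by decide), ho 2 0 (by decide), ho 2 1 (by decide),
    ho 2 3 (by decide), ho 3 0 (by decide), ho 3 1 (by decide), ho 3 2 (by decide)]
  ring

theorem exists_orth [Fintype V] (h2 : ringChar k ≠ 2) (hV : Module.finrank k V = 4)
    (B : LinearMap.BilinForm k V) (hB : ∀ x y, B x y = B y x) :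
    ∃ v : Module.Basis (Fin 4) k V, ∀ i j, i ≠ j → B (v i) (v j) = 0 := by
  have : FiniteDimensional k V := Module.Finite.of_finite
  have : Invertible (2 : k) := invertibleOfNonzero (Ring.two_ne_zero h2)
  obtain ⟨v, hv⟩ := LinearMap.BilinForm.exists_orthogonal_basis (B := B) ⟨fun x y => hB x y⟩
  refine ⟨v.reindex (finCongr hV), ?_⟩
  intro i j hij
  simp only [Module.Basis.reindex_apply]
  exact hv (fun h => hij ((finCongr hV).symm.injective h))

/-- move a chosen vector of an orthogonal basis to the last place -/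
theorem orth_last (B : LinearMap.BilinForm k V) (v : Module.Basis (Fin 4) k V)
    (ho : ∀ i j, i ≠ j → B (v i) (v j) = 0) (i : Fin 4) :
    ∃ v' : Module.Basis (Fin 4) k V, (∀ i j, i ≠ j → B (v' i) (v' j) = 0) ∧ v' 3 = v i ∧
      ∀ j, j ≠ 3 → ∃ l, l ≠ i ∧ v' j = v l := by
  refine ⟨v.reindex (Equiv.swap i 3), ?_, ?_, ?_⟩
  · intro a b hab
    simp only [Module.Basis.reindex_apply]
    exact ho _ _ (fun h => hab ((Equiv.swap i 3).symm.injective h))
  · simp only [Module.Basis.reindex_apply]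
    congr 1
    simp
  · intro j hj
    refine ⟨(Equiv.swap i 3).symm j, ?_, by simp only [Module.Basis.reindex_apply]⟩
    intro h
    apply hj
    have := congrArg (Equiv.swap i 3) h
    simpa using this

theorem rad_of_zero (B : LinearMap.BilinForm k V) (v : Module.Basis (Fin 4) k V)
    (ho : ∀ i j, i ≠ j → B (v i) (v j) = 0) {i : Fin 4} (hi : B (v i) (v i) = 0) (X : V) :
    B X (v i) = 0 := by
  have h1 := v.sum_repr X
  rw [← h1, map_sum, LinearMap.sum_apply]
  apply Finset.sum_eq_zero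
  intro j _
  rw [map_smul, LinearMap.smul_apply]
  by_cases hj : j = i
  · rw [hj, hi, smul_zero]
  · rw [ho j i hj, smul_zero]

/-- binary forms are of the shape `X^2 + Y Z` -/
theorem bin_fac (h2 : ringChar k ≠ 2) (A B : k) :
    ∃ x1 x2 y1 y2 z1 z2 : k, ∀ y z : k,
      A * y ^ 2 + B * z ^ 2 = (x1 * y + x2 * z) ^ 2 + (y1 * y + y2 * z) * (z1 * y + z2 * z) := by
  by_cases hA : A = 0
  · exact ⟨0, 0, 0, B, 0, 1, fun y z => by rw [hA]; ring⟩
  · by_cases hB : B = 0
    · exact ⟨0, 0, A, 0, 1, 0, fun y z => by rw [hB]; ring⟩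
    · obtain ⟨a, b, h⟩ := represent_one h2 hA hB
      refine ⟨A * a, B * b, A * B * b, -(A * B * a), b, -a, fun y z => ?_⟩
      linear_combination -(A * y ^ 2 + B * z ^ 2) * h

theorem tern_fac (h2 : ringChar k ≠ 2) {A B C : k} (hA : A ≠ 0) (hB : B ≠ 0) (hC : C ≠ 0)
    (hs : quadraticChar k (-(A * B * C)) = 1) :
    ∃ x1 x2 x3 y1 y2 y3 z1 z2 z3 : k, ∀ x y z : k,
      A * x ^ 2 + B * y ^ 2 + C * z ^ 2 = (x1 * x + x2 * y + x3 * z) ^ 2
        + (y1 * x + y2 * y + y3 * z) * (z1 * x + z2 * y + z3 * z) := by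
  obtain ⟨a, b, h⟩ := represent_one h2 hA hB
  have hne : -(A * B * C) ≠ 0 := neg_ne_zero.mpr (mul_ne_zero (mul_ne_zero hA hB) hC)
  obtain ⟨r, hr⟩ := (quadraticChar_one_iff_isSquare hne).mp hs
  refine ⟨A * a, B * b, 0, -(r * b) / C, r * a / C, 1, r * b, -(r * a), C, fun x y z => ?_⟩
  have e1 : A * B = -(r * r) / C := by
    field_simp
    linear_combination -hr
  have e2 : A * x ^ 2 + B * y ^ 2 = (A * a * x + B * b * y) ^ 2 + A * B * (b * x - a * y) ^ 2 := by
    linear_combination -(A * x ^ 2 + B * y ^ 2) * h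
  rw [e2, e1]
  field_simp
  ring

/-- the trichotomy for a form in four variables -/
theorem formC [Fintype V] (h2 : ringChar k ≠ 2) (hV : Module.finrank k V = 4)
    (B : LinearMap.BilinForm k V) (hB : ∀ x y, B x y = B y x) :
    (∃ X Y Z : V →ₗ[k] k, ∀ H, B H H = X H ^ 2 + Y H * Z H) ∨
    ((∀ H, (∀ X, B X H = 0) → H = 0) ∧ ∑ H : V, quadraticChar k (B H H) = 0) ∨
    ∑ H : V, quadraticChar k (B H H) < 0 := by
  obtain ⟨v, ho⟩ := exists_orth h2 hV B hB
  by_cases hall : ∀ i, B (v i) (v i) ≠ 0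
  · right; left
    constructor
    · intro H hH
      have h1 := v.sum_repr H
      have h3 : ∀ i, v.repr H i = 0 := by
        intro i
        have h5 := hH (v i)
        rw [← h1, map_sum] at h5
        rw [Finset.sum_eq_single i] at h5
        · rw [map_smul, smul_eq_mul] at h5
          rcases mul_eq_zero.mp h5 with h | h
          · exact h
          · exact absurd h (hall i)
        · intro j _ hj
          rw [map_smul, ho i j (Ne.symm hj), smul_zero]
        · intro h; exact absurd (Finset.mem_univ i) h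
      rw [← h1]
      simp [h3]
    · rw [sum_comb v]
      simp_rw [B_comb B v ho]
      exact quat_chi h2 (hall 0) (hall 1) (hall 2) (hall 3)
  · push Not at hall
    obtain ⟨i, hi⟩ := hall
    obtain ⟨v', ho', hv3, -⟩ := orth_last B v ho i
    have hw3 : B (v' 3) (v' 3) = 0 := by rw [hv3]; exact hi
    -- a convenient way to build functionals
    have build : ∀ x1 x2 x3 : k, ∃ φ : V →ₗ[k] k, ∀ a b c d : k,
        φ (a • v' 0 + b • v' 1 + c • v' 2 + d • v' 3) = x1 * a + x2 * b + x3 * c := by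
      intro x1 x2 x3
      refine ⟨v'.constr k ![x1, x2, x3, 0], ?_⟩
      intro a b c d
      simp only [map_add, map_smul, Module.Basis.constr_basis, smul_eq_mul]
      simp
      ring
    have rep : ∀ H : V, ∃ a b c d : k, H = a • v' 0 + b • v' 1 + c • v' 2 + d • v' 3 := by
      intro H
      refine ⟨v'.repr H 0, v'.repr H 1, v'.repr H 2, v'.repr H 3, ?_⟩
      have := v'.sum_repr H
      rw [Fin.sum_univ_four] at this
      exact this.symm
    have fac : (∃ x1 x2 x3 y1 y2 y3 z1 z2 z3 : k, ∀ x y z : k,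
        B (v' 0) (v' 0) * x ^ 2 + B (v' 1) (v' 1) * y ^ 2 + B (v' 2) (v' 2) * z ^ 2
          = (x1 * x + x2 * y + x3 * z) ^ 2
            + (y1 * x + y2 * y + y3 * z) * (z1 * x + z2 * y + z3 * z)) →
        ∃ X Y Z : V →ₗ[k] k, ∀ H, B H H = X H ^ 2 + Y H * Z H := by
      rintro ⟨x1, x2, x3, y1, y2, y3, z1, z2, z3, hf⟩
      obtain ⟨X, hX⟩ := build x1 x2 x3
      obtain ⟨Y, hY⟩ := build y1 y2 y3
      obtain ⟨Z, hZ⟩ := build z1 z2 z3
      refine ⟨X, Y, Z, fun H => ?_⟩
      obtain ⟨a, b, c, d, rfl⟩ := rep H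
      rw [B_comb B v' ho', hw3, hX, hY, hZ, ← hf]; ring
    by_cases hw0 : B (v' 0) (v' 0) = 0
    · left
      apply fac
      obtain ⟨x1, x2, y1, y2, z1, z2, h⟩ := bin_fac h2 (B (v' 1) (v' 1)) (B (v' 2) (v' 2))
      exact ⟨0, x1, x2, 0, y1, y2, 0, z1, z2, fun x y z => by
        rw [hw0]; linear_combination h y z⟩
    by_cases hw1 : B (v' 1) (v' 1) = 0
    · left
      apply fac
      obtain ⟨x1, x2, y1, y2, z1, z2, h⟩ := bin_fac h2 (B (v' 0) (v' 0)) (B (v' 2) (v' 2))
      exact ⟨x1, 0, x2, y1, 0, y2, z1, 0, z2, fun x y z => by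
        rw [hw1]; linear_combination h x z⟩
    by_cases hw2 : B (v' 2) (v' 2) = 0
    · left
      apply fac
      obtain ⟨x1, x2, y1, y2, z1, z2, h⟩ := bin_fac h2 (B (v' 0) (v' 0)) (B (v' 1) (v' 1))
      exact ⟨x1, x2, 0, y1, y2, 0, z1, z2, 0, fun x y z => by
        rw [hw2]; linear_combination h x y⟩
    have hne : -(B (v' 0) (v' 0) * B (v' 1) (v' 1) * B (v' 2) (v' 2)) ≠ 0 :=
      neg_ne_zero.mpr (mul_ne_zero (mul_ne_zero hw0 hw1) hw2)
    rcases quadraticChar_dichotomy hne with hs | hs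
    · left
      exact fac (tern_fac h2 hw0 hw1 hw2 hs)
    · right; right
      rw [sum_comb v']
      simp_rw [B_comb B v' ho', hw3, zero_mul, add_zero]
      rw [sum_const_k, tern_chi h2 hw0 hw1 hw2, hs]
      have hq : (1 : ℤ) < (Fintype.card k : ℤ) := by exact_mod_cast Fintype.one_lt_card
      nlinarith [mul_pos (by linarith : (0 : ℤ) < (Fintype.card k : ℤ))
        (by linarith : (0 : ℤ) < (Fintype.card k : ℤ) - 1)]

/-- zero count of a form with radical of dimension at most one -/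
theorem formZ [Fintype V] (h2 : ringChar k ≠ 2) (hV : Module.finrank k V = 4)
    (B : LinearMap.BilinForm k V) (hB : ∀ x y, B x y = B y x)
    (hrad : ∀ H H', (∀ X, B X H = 0) → (∀ X, B X H' = 0) → H ≠ 0 → ∃ c : k, H' = c • H) :
    (Fintype.card k : ℤ) ^ 3 - (Fintype.card k : ℤ) * ((Fintype.card k : ℤ) - 1)
      ≤ ∑ H : V, ind (B H H) ∧
    (∑ H : V, ind (B H H)
        = (Fintype.card k : ℤ) ^ 3 - (Fintype.card k : ℤ) * ((Fintype.card k : ℤ) - 1) →
      ∃ v : Module.Basis (Fin 4) k V, (∀ i j, i ≠ j → B (v i) (v j) = 0) ∧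
        quadraticChar k (B (v 0) (v 0) * B (v 1) (v 1) * B (v 2) (v 2) * B (v 3) (v 3)) = -1) := by
  obtain ⟨v, ho⟩ := exists_orth h2 hV B hB
  have hq : (1 : ℤ) < (Fintype.card k : ℤ) := by exact_mod_cast Fintype.one_lt_card
  have hqq : (0 : ℤ) < (Fintype.card k : ℤ) * ((Fintype.card k : ℤ) - 1) :=
    mul_pos (by linarith) (by linarith)
  by_cases hall : ∀ i, B (v i) (v i) ≠ 0
  · have hZ : ∑ H : V, ind (B H H) = (Fintype.card k : ℤ) ^ 3
        + (Fintype.card k : ℤ) * ((Fintype.card k : ℤ) - 1)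
          * quadraticChar k (B (v 0) (v 0) * B (v 1) (v 1) * B (v 2) (v 2) * B (v 3) (v 3)) := by
      rw [sum_comb v]
      simp_rw [B_comb B v ho]
      exact quat_ind h2 (hall 0) (hall 1) (hall 2) (hall 3)
    have hne := mul_ne_zero (mul_ne_zero (mul_ne_zero (hall 0) (hall 1)) (hall 2)) (hall 3)
    rcases quadraticChar_dichotomy hne with hs | hs
    · rw [hZ, hs]
      refine ⟨by linarith, ?_⟩
      intro h
      exfalso
      linarith
    · rw [hZ, hs]
      exact ⟨by linarith, fun _ => ⟨v, ho, hs⟩⟩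
  · push Not at hall
    obtain ⟨i, hi⟩ := hall
    obtain ⟨v', ho', hv3, hvj⟩ := orth_last B v ho i
    have hw3 : B (v' 3) (v' 3) = 0 := by rw [hv3]; exact hi
    have hw : ∀ j, j ≠ 3 → B (v' j) (v' j) ≠ 0 := by
      intro j hj h0
      obtain ⟨c, hc⟩ := hrad (v' 3) (v' j) (rad_of_zero B v' ho' hw3) (rad_of_zero B v' ho' h0)
        (v'.ne_zero 3)
      have h1 := congrArg (fun x => v'.repr x j) hc
      simp [Finsupp.single_apply, Ne.symm hj] at h1
    have hZ : ∑ H : V, ind (B H H) = (Fintype.card k : ℤ) ^ 3 := by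
      rw [sum_comb v']
      simp_rw [B_comb B v' ho', hw3, zero_mul, add_zero]
      rw [sum_const_k, tern_ind h2 (hw 0 (by decide)) (hw 1 (by decide)) (hw 2 (by decide))]
      ring
    rw [hZ]
    refine ⟨by linarith, ?_⟩
    intro h
    exfalso
    linarith

end forms

end Pool.Agent.V11152.MO
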