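import Pool.Agent.V11152.MOb

namespace Pool.Agent.V11152.MO

section ctx

variable {K : Type} [Field K] (σ : K →+* K)

/-- the fixed field -/
def kf : Subfield K := σ.eqLocusField (RingHom.id K)

theorem kfix (x : kf σ) : σ (x : K) = x := x.2

theorem mem_kf {x : K} (h : σ x = x) : x ∈ kf σ := h

noncomputable instance [Finite K] : Fintype (kf σ) := Fintype.ofFinite _

noncomputable instance : DecidableEq (kf σ) := Classical.decEq _

/-- `σ^4 x = -x` -/
def Vm : Submodule (kf σ) K where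
  carrier := {x | σ (σ (σ (σ x))) = -x}
  add_mem' := by
    intro a b ha hb
    have ha' : σ (σ (σ (σ a))) = -a := ha
    have hb' : σ (σ (σ (σ b))) = -b := hb
    show σ (σ (σ (σ (a + b)))) = -(a + b)
    simp only [map_add, ha', hb']; ring
  zero_mem' := by
    show σ (σ (σ (σ 0))) = -0
    simp
  smul_mem' := by
    intro c a ha
    have ha' : σ (σ (σ (σ a))) = -a := ha
    show σ (σ (σ (σ ((c : K) * a)))) = -((c : K) * a)
    simp only [map_mul, kfix, ha']; ring

/-- `σ^2 x = -x` -/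
def Fm : Submodule (kf σ) K where
  carrier := {x | σ (σ x) = -x}
  add_mem' := by
    intro a b ha hb
    have ha' : σ (σ a) = -a := ha
    have hb' : σ (σ b) = -b := hb
    show σ (σ (a + b)) = -(a + b)
    simp only [map_add, ha', hb']; ring
  zero_mem' := by
    show σ (σ 0) = -0
    simp
  smul_mem' := by
    intro c a ha
    have ha' : σ (σ a) = -a := ha
    show σ (σ ((c : K) * a)) = -((c : K) * a)
    simp only [map_mul, kfix, ha']; ring

noncomputable instance [Finite K] : Fintype (Vm σ) := Fintype.ofFinite _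
noncomputable instance [Finite K] : Fintype (Fm σ) := Fintype.ofFinite _

theorem Vfix (x : Vm σ) : σ (σ (σ (σ (x : K)))) = -x := x.2
theorem Ffix (x : Fm σ) : σ (σ (x : K)) = -x := x.2
theorem mem_Vm {x : K} (h : σ (σ (σ (σ x))) = -x) : x ∈ Vm σ := h
theorem mem_Fm {x : K} (h : σ (σ x) = -x) : x ∈ Fm σ := h

variable (h8 : ∀ x, σ (σ (σ (σ (σ (σ (σ (σ x))))))) = x)

/-- trace to the fixed field -/
def Tr : K →ₗ[kf σ] kf σ where
  toFun x := ⟨x + σ x + σ (σ x) + σ (σ (σ x)) + (σ (σ (σ (σ x))) + σ (σ (σ (σ (σ x))))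
      + σ (σ (σ (σ (σ (σ x))))) + σ (σ (σ (σ (σ (σ (σ x))))))), by
    apply mem_kf
    simp only [map_add, h8]; ring⟩
  map_add' x y := Subtype.ext (by
    simp only [map_add, Subfield.coe_add]; ring)
  map_smul' c x := Subtype.ext (by
    show _ = (c : K) * _
    have e : c • x = (c : K) * x := rfl
    simp only [e, map_mul, kfix]; ring)

theorem Tr_coe (x : K) : ((Tr σ h8 x : kf σ) : K) =
    x + σ x + σ (σ x) + σ (σ (σ x)) + (σ (σ (σ (σ x))) + σ (σ (σ (σ (σ x))))
      + σ (σ (σ (σ (σ (σ x))))) + σ (σ (σ (σ (σ (σ (σ x))))))) := rfl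

theorem Tr_mul (c : kf σ) (x : K) : Tr σ h8 ((c : K) * x) = c * Tr σ h8 x :=
  (Tr σ h8).map_smul c x

theorem Tr_sig (x : K) : Tr σ h8 (σ x) = Tr σ h8 x := by
  apply Subtype.ext
  rw [Tr_coe, Tr_coe, h8]; ring

variable (h4 : ∃ x, σ (σ (σ (σ x))) ≠ x)

include h8 h4 in
theorem ded8 {a : Fin 8 → K} (h : ∀ x, ∑ i, a i * (σ ^ (i : ℕ)) x = 0) : ∀ i, a i = 0 := by
  have hord : orderOf σ = 2 ^ (2 + 1) := by
    have : Fact (Nat.Prime 2) := ⟨Nat.prime_two⟩
    apply orderOf_eq_prime_pow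
    · intro hh
      obtain ⟨x, hx⟩ := h4
      apply hx
      have := RingHom.congr_fun hh x
      simpa [pow_succ] using this
    · ext x
      have := h8 x
      simpa [pow_succ] using this
  have hinj : Function.Injective (fun i : Fin 8 => ((σ ^ (i : ℕ) : K →+* K) : K →* K)) := by
    intro i j hij
    have h1 : (σ ^ (i : ℕ) : K →+* K) = σ ^ (j : ℕ) := RingHom.coe_monoidHom_injective hij
    have h3 := pow_injOn_Iio_orderOf (x := σ) (by rw [hord]; exact i.2) (by rw [hord]; exact j.2) h1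
    exact Fin.ext h3
  have hli := (linearIndependent_monoidHom K K).comp _ hinj
  rw [Fintype.linearIndependent_iff] at hli
  exact hli a (by
    funext x
    have := h x
    simpa [Finset.sum_apply] using this)

include h8 h4 in
/-- Dedekind on `Vm` -/
theorem dedV {a0 a1 a2 a3 : K}
    (h : ∀ H ∈ Vm σ, a0 * H + a1 * σ H + a2 * σ (σ H) + a3 * σ (σ (σ H)) = 0) :
    a0 = 0 ∧ a1 = 0 ∧ a2 = 0 ∧ a3 = 0 := by
  have h1 := ded8 σ h8 h4 (a := ![a0, a1, a2, a3, -a0, -a1, -a2, -a3]) (by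
    intro x
    have hx := h (x - σ (σ (σ (σ x)))) (mem_Vm σ (by simp only [map_sub, h8]; ring))
    simp only [Fin.sum_univ_eight]
    simp [pow_succ]
    simp only [map_sub] at hx
    linear_combination hx)
  exact ⟨h1 0, h1 1, h1 2, h1 3⟩

include h4 in
theorem nondegV (h2 : (2 : K) ≠ 0) {y : K} (hy : y ∈ Vm σ)
    (h : ∀ X ∈ Vm σ, Tr σ h8 (X * y) = 0) : y = 0 := by
  have hy' : σ (σ (σ (σ y))) = -y := hy
  have h3 : ∀ X, Tr σ h8 (X * y) = 0 := by
    intro X
    have h5 := h (X - σ (σ (σ (σ X)))) (mem_Vm σ (by simp only [map_sub, h8]; ring))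
    have h6 : Tr σ h8 (σ (σ (σ (σ X))) * y) = - Tr σ h8 (X * y) := by
      rw [← map_neg]
      have e : -(X * y) = X * σ (σ (σ (σ y))) := by rw [hy']; ring
      rw [e, ← Tr_sig σ h8 (X * σ (σ (σ (σ y)))), ← Tr_sig σ h8 (σ (X * σ (σ (σ (σ y))))),
        ← Tr_sig σ h8 (σ (σ (X * σ (σ (σ (σ y)))))),
        ← Tr_sig σ h8 (σ (σ (σ (X * σ (σ (σ (σ y)))))))]
      simp only [map_mul σ, h8]
    rw [sub_mul, map_sub, h6, sub_neg_eq_add, ← two_mul] at h5
    rcases mul_eq_zero.mp h5 with h7 | h7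
    · exfalso; apply h2
      exact congrArg (fun z : kf σ => (z : K)) h7
    · exact h7
  have h1 := ded8 σ h8 h4 (a := ![y, σ y, σ (σ y), σ (σ (σ y)), σ (σ (σ (σ y))),
    σ (σ (σ (σ (σ y)))), σ (σ (σ (σ (σ (σ y))))), σ (σ (σ (σ (σ (σ (σ y))))))]) (by
    intro x
    have hx := congrArg (fun z : kf σ => (z : K)) (h3 x)
    rw [Tr_coe] at hx
    have hx' : x * y + σ (x * y) + σ (σ (x * y)) + σ (σ (σ (x * y))) + (σ (σ (σ (σ (x * y))))
      + σ (σ (σ (σ (σ (x * y))))) + σ (σ (σ (σ (σ (σ (x * y))))))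
      + σ (σ (σ (σ (σ (σ (σ (x * y)))))))) = 0 := hx
    simp only [Fin.sum_univ_eight]
    simp [pow_succ]
    simp only [map_mul] at hx'
    linear_combination hx')
  exact h1 0

include h8 h4 in
theorem exists_tau : ∃ τ : K, τ ≠ 0 ∧ σ τ = -τ := by
  by_contra hno
  push Not at hno
  have h1 := ded8 σ h8 h4 (a := ![1, -1, 1, -1, 1, -1, 1, -1]) (by
    intro x
    simp only [Fin.sum_univ_eight]
    simp [pow_succ]
    by_contra h0
    apply hno _ h0
    simp only [map_add, map_neg, h8]; ring)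
  have := h1 0
  simp at this

include h8 h4 in
theorem exists_p : ∃ p : K, p ≠ 0 ∧ σ (σ p) = -p := by
  by_contra hno
  push Not at hno
  have h1 := ded8 σ h8 h4 (a := ![1, 0, -1, 0, 1, 0, -1, 0]) (by
    intro x
    simp only [Fin.sum_univ_eight]
    simp [pow_succ]
    by_contra h0
    apply hno _ h0
    simp only [map_add, map_neg, h8]; ring)
  have := h1 0
  simp at this

include h8 h4 in
theorem exists_eps : ∃ ε : K, ε ≠ 0 ∧ σ (σ (σ (σ ε))) = -ε := by
  obtain ⟨x, hx⟩ := h4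
  refine ⟨x - σ (σ (σ (σ x))), ?_, by simp only [map_sub, h8]; ring⟩
  intro h
  apply hx
  linear_combination -h

variable (h2 : (2 : K) ≠ 0)

include h2 in
theorem F2rep {τ : K} (hτ : τ ≠ 0) (hτ2 : σ τ = -τ) {z : K} (hz : σ (σ z) = z) :
    ∃ a b : kf σ, z = a + b * τ := by
  refine ⟨⟨(z + σ z) / 2, mem_kf σ ?_⟩, ⟨(z - σ z) / (2 * τ), mem_kf σ ?_⟩, ?_⟩
  · rw [map_div₀, map_add, hz, map_ofNat, add_comm]
  · rw [map_div₀, map_sub, hz, map_mul, map_ofNat, hτ2]
    field_simp
    ring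
  · show z = (z + σ z) / 2 + (z - σ z) / (2 * τ) * τ
    field_simp
    ring

include h2 in
theorem F2inj {τ : K} (hτ : τ ≠ 0) (hτ2 : σ τ = -τ) {a b : kf σ} (h : (a : K) + b * τ = 0) :
    a = 0 ∧ b = 0 := by
  have h1 := congrArg σ h
  rw [map_add, map_mul, kfix, kfix, hτ2, map_zero] at h1
  have ha : (2 : K) * a = 0 := by linear_combination h + h1
  have hb : (2 : K) * τ * b = 0 := by linear_combination h - h1
  constructor
  · apply Subtype.ext
    rcases mul_eq_zero.mp ha with h3 | h3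
    · exact absurd h3 h2
    · exact h3
  · apply Subtype.ext
    rcases mul_eq_zero.mp hb with h3 | h3
    · exact absurd h3 (mul_ne_zero h2 hτ)
    · exact h3

include h8 h4 h2 in
theorem finrank_Fm : Module.finrank (kf σ) (Fm σ) = 2 := by
  obtain ⟨τ, hτ, hτ2⟩ := exists_tau σ h8 h4
  obtain ⟨p, hp, hp2⟩ := exists_p σ h8 h4
  let f : (kf σ × kf σ) →ₗ[kf σ] Fm σ :=
    { toFun := fun q => ⟨((q.1 : K) + q.2 * τ) * p, mem_Fm σ (by
        simp only [map_mul, map_add, kfix, hτ2, hp2, map_neg]; ring)⟩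
      map_add' := fun q q' => Subtype.ext (by
        show (((q.1 + q'.1 : kf σ) : K) + ((q.2 + q'.2 : kf σ) : K) * τ) * p
          = ((q.1 : K) + q.2 * τ) * p + ((q'.1 : K) + q'.2 * τ) * p
        push_cast; ring)
      map_smul' := fun c q => Subtype.ext (by
        show (((c * q.1 : kf σ) : K) + ((c * q.2 : kf σ) : K) * τ) * p
          = (c : K) * (((q.1 : K) + q.2 * τ) * p)
        push_cast; ring) }
  have hf : Function.Bijective f := by
    constructor
    · rw [← LinearMap.ker_eq_bot, LinearMap.ker_eq_bot']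
      rintro ⟨a, b⟩ h
      have h1 : ((a : K) + b * τ) * p = 0 := congrArg Subtype.val h
      rcases mul_eq_zero.mp h1 with h3 | h3
      · obtain ⟨ha, hb⟩ := F2inj σ h2 hτ hτ2 h3
        rw [ha, hb]; rfl
      · exact absurd h3 hp
    · rintro ⟨w, hw⟩
      have hw' : σ (σ w) = -w := hw
      obtain ⟨a, b, hab⟩ := F2rep σ h2 hτ hτ2 (z := w / p) (by
        rw [map_div₀, map_div₀, hw', hp2, neg_div_neg_eq])
      refine ⟨(a, b), Subtype.ext ?_⟩
      show ((a : K) + b * τ) * p = w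
      rw [← hab]; field_simp
  rw [← (LinearEquiv.ofBijective f hf).finrank_eq, Module.finrank_prod, Module.finrank_self]

include h8 h4 h2 in
theorem finrank_Vm : Module.finrank (kf σ) (Vm σ) = 4 := by
  obtain ⟨τ, hτ, hτ2⟩ := exists_tau σ h8 h4
  obtain ⟨p, hp, hp2⟩ := exists_p σ h8 h4
  obtain ⟨ε, hε, hε2⟩ := exists_eps σ h8 h4
  let f : ((kf σ × kf σ) × (kf σ × kf σ)) →ₗ[kf σ] Vm σ :=
    { toFun := fun q => ⟨(((q.1.1 : K) + q.1.2 * τ) + ((q.2.1 : K) + q.2.2 * τ) * p) * ε,
        mem_Vm σ (by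
          simp only [map_mul, map_add, kfix, hτ2, hp2, hε2, map_neg]; ring)⟩
      map_add' := fun q q' => Subtype.ext (by
        show ((((q.1.1 + q'.1.1 : kf σ) : K) + ((q.1.2 + q'.1.2 : kf σ) : K) * τ)
            + (((q.2.1 + q'.2.1 : kf σ) : K) + ((q.2.2 + q'.2.2 : kf σ) : K) * τ) * p) * ε
          = (((q.1.1 : K) + q.1.2 * τ) + ((q.2.1 : K) + q.2.2 * τ) * p) * ε
            + (((q'.1.1 : K) + q'.1.2 * τ) + ((q'.2.1 : K) + q'.2.2 * τ) * p) * ε
        push_cast; ring)
      map_smul' := fun c q => Subtype.ext (by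
        show ((((c * q.1.1 : kf σ) : K) + ((c * q.1.2 : kf σ) : K) * τ)
            + (((c * q.2.1 : kf σ) : K) + ((c * q.2.2 : kf σ) : K) * τ) * p) * ε
          = (c : K) * ((((q.1.1 : K) + q.1.2 * τ) + ((q.2.1 : K) + q.2.2 * τ) * p) * ε)
        push_cast; ring) }
  have hf : Function.Bijective f := by
    constructor
    · rw [← LinearMap.ker_eq_bot, LinearMap.ker_eq_bot']
      rintro ⟨⟨a, b⟩, ⟨c, d⟩⟩ h
      have h1 : (((a : K) + b * τ) + ((c : K) + d * τ) * p) * ε = 0 := congrArg Subtype.val h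
      rcases mul_eq_zero.mp h1 with h3 | h3
      · have h5 := congrArg (fun z => σ (σ z)) h3
        simp only [map_mul, map_add, kfix, hτ2, hp2, map_neg, map_zero] at h5
        have e1 : (2 : K) * ((a : K) + b * τ) = 0 := by linear_combination h3 + h5
        have e2 : (2 : K) * p * ((c : K) + d * τ) = 0 := by linear_combination h3 - h5
        have e3 : (a : K) + b * τ = 0 := by
          rcases mul_eq_zero.mp e1 with h | h
          · exact absurd h h2
          · exact h
        have e4 : (c : K) + d * τ = 0 := by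
          rcases mul_eq_zero.mp e2 with h | h
          · exact absurd h (mul_ne_zero h2 hp)
          · exact h
        obtain ⟨ha, hb⟩ := F2inj σ h2 hτ hτ2 e3
        obtain ⟨hc, hd⟩ := F2inj σ h2 hτ hτ2 e4
        rw [ha, hb, hc, hd]; rfl
      · exact absurd h3 hε
    · rintro ⟨H, hH⟩
      have hH' : σ (σ (σ (σ H))) = -H := hH
      set z : K := H / ε with hz
      have hz4 : σ (σ (σ (σ z))) = z := by
        rw [hz]; simp only [map_div₀, hH', hε2, neg_div_neg_eq]
      obtain ⟨a, b, hab⟩ := F2rep σ h2 hτ hτ2 (z := (z + σ (σ z)) / 2) (by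
        simp only [map_div₀, map_add, hz4, map_ofNat]; rw [add_comm])
      obtain ⟨c, d, hcd⟩ := F2rep σ h2 hτ hτ2 (z := (z - σ (σ z)) / (2 * p)) (by
        simp only [map_div₀, map_sub, hz4, map_ofNat, map_mul, hp2]
        field_simp
        ring)
      refine ⟨((a, b), (c, d)), Subtype.ext ?_⟩
      show (((a : K) + b * τ) + ((c : K) + d * τ) * p) * ε = H
      rw [← hab, ← hcd]
      have : H = z * ε := by rw [hz]; field_simp
      rw [this]
      field_simp
      ring
  rw [← (LinearEquiv.ofBijective f hf).finrank_eq, Module.finrank_prod, Module.finrank_prod,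
    Module.finrank_self]

end ctx

end Pool.Agent.V11152.MO
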