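import Pool.Agent.V11152.MOc

namespace Pool.Agent.V11152.MO

theorem shift_sum {k : Type} [Field k] [Fintype k] {M : Type} [AddCommGroup M] [Module k M]
    [Fintype M] (l : M →ₗ[k] k) (hl : ∃ u, l u ≠ 0) (f : k → ℤ) (c : k) :
    (Fintype.card k : ℤ) * ∑ u : M, f (c + l u) = (Fintype.card M : ℤ) * ∑ s : k, f s := by
  obtain ⟨u0, hu0⟩ := hl
  set u1 : M := (l u0)⁻¹ • u0 with hu1
  have h1 : l u1 = 1 := by rw [hu1, map_smul, smul_eq_mul, inv_mul_cancel₀ hu0]
  have h3 : ∀ s : k, ∑ u : M, f (c + l u) = ∑ u : M, f (s + (c + l u)) := by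
    intro s
    rw [← Equiv.sum_comp (Equiv.addRight (s • u1))]
    apply Finset.sum_congr rfl
    intro u _
    congr 1
    show c + l (u + s • u1) = _
    rw [map_add, map_smul, h1, smul_eq_mul]; ring
  have h5 : (Fintype.card k : ℤ) * ∑ u : M, f (c + l u) = ∑ s : k, ∑ u : M, f (s + (c + l u)) := by
    rw [← Finset.sum_congr rfl (fun s _ => h3 s)]
    simp
  rw [h5, Finset.sum_comm]
  have h6 : ∀ u : M, ∑ s : k, f (s + (c + l u)) = ∑ s : k, f s := by
    intro u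
    exact Equiv.sum_comp (Equiv.addRight (c + l u)) f
  simp_rw [h6]
  simp

theorem det4 {R : Type} [CommRing R] (A : Matrix (Fin 4) (Fin 4) R) : A.det =
    A 0 0 * (A 1 1 * (A 2 2 * A 3 3 - A 2 3 * A 3 2) - A 1 2 * (A 2 1 * A 3 3 - A 2 3 * A 3 1)
      + A 1 3 * (A 2 1 * A 3 2 - A 2 2 * A 3 1))
    - A 0 1 * (A 1 0 * (A 2 2 * A 3 3 - A 2 3 * A 3 2) - A 1 2 * (A 2 0 * A 3 3 - A 2 3 * A 3 0)
      + A 1 3 * (A 2 0 * A 3 2 - A 2 2 * A 3 0))
    + A 0 2 * (A 1 0 * (A 2 1 * A 3 3 - A 2 3 * A 3 1) - A 1 1 * (A 2 0 * A 3 3 - A 2 3 * A 3 0)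
      + A 1 3 * (A 2 0 * A 3 1 - A 2 1 * A 3 0))
    - A 0 3 * (A 1 0 * (A 2 1 * A 3 2 - A 2 2 * A 3 1) - A 1 1 * (A 2 0 * A 3 2 - A 2 2 * A 3 0)
      + A 1 2 * (A 2 0 * A 3 1 - A 2 1 * A 3 0)) := by
  rw [Matrix.det_succ_row_zero]
  simp only [Fin.sum_univ_four, Matrix.det_fin_three, Matrix.submatrix_apply]
  simp [Fin.succAbove]
  ring

section ctx

variable {K : Type} [Field K] (σ : K →+* K)
variable (h8 : ∀ x, σ (σ (σ (σ (σ (σ (σ (σ x))))))) = x)
variable (h4 : ∃ x, σ (σ (σ (σ x))) ≠ x)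
variable (h2 : (2 : K) ≠ 0)

/-- the operator of the forms -/
def Lam (a b c H : K) : K := a * H + b * σ H + c * σ (σ H) - σ (σ (σ b)) * σ (σ (σ H))

/-- the symmetric bilinear forms -/
noncomputable def BB (a b c : K) : LinearMap.BilinForm (kf σ) (Vm σ) :=
  LinearMap.mk₂ (kf σ) (fun X H => (2 : kf σ)⁻¹ * Tr σ h8 ((X : K) * Lam σ a b c H))
    (by
      intro X X' H
      rw [← mul_add, ← map_add]
      congr 2
      show ((X : K) + X') * _ = _
      ring)
    (by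
      intro r X H
      have e : Tr σ h8 (((r • X : Vm σ) : K) * Lam σ a b c H)
          = r * Tr σ h8 ((X : K) * Lam σ a b c H) := by
        rw [← Tr_mul]
        congr 1
        show ((r : K) * X) * _ = _
        ring
      rw [e, smul_eq_mul]; ring)
    (by
      intro X H H'
      rw [← mul_add, ← map_add]
      congr 2
      show (X : K) * Lam σ a b c ((H : K) + H') = _
      unfold Lam
      simp only [map_add]; ring)
    (by
      intro r X H
      have e : Tr σ h8 ((X : K) * Lam σ a b c ((r • H : Vm σ) : K))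
          = r * Tr σ h8 ((X : K) * Lam σ a b c H) := by
        rw [← Tr_mul]
        congr 1
        show (X : K) * Lam σ a b c ((r : K) * H) = _
        unfold Lam
        simp only [map_mul, kfix]; ring
      rw [e, smul_eq_mul]; ring)

theorem BB_apply (a b c : K) (X H : Vm σ) :
    BB σ h8 a b c X H = (2 : kf σ)⁻¹ * Tr σ h8 ((X : K) * Lam σ a b c H) := rfl

include h2 in
theorem two_kf : (2 : kf σ) ≠ 0 := by
  intro h
  exact h2 (congrArg (fun z : kf σ => (z : K)) h)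

include h2 in
theorem BB_exp {a b c : K} (ha : σ (σ (σ (σ a))) = a) (hb : σ (σ (σ (σ b))) = b)
    (hc : σ (σ c) = -c) (X H : Vm σ) :
    ((BB σ h8 a b c X H : kf σ) : K) =
      (X : K) * (a * H + b * σ H + c * σ (σ H) - σ (σ (σ b)) * σ (σ (σ H)))
      + σ X * (b * H + σ a * σ H + σ b * σ (σ H) + σ c * σ (σ (σ H)))
      + σ (σ X) * (c * H + σ b * σ H + σ (σ a) * σ (σ H) + σ (σ b) * σ (σ (σ H)))
      + σ (σ (σ X)) * (-(σ (σ (σ b)) * H) + σ c * σ H + σ (σ b) * σ (σ H)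
        + σ (σ (σ a)) * σ (σ (σ H))) := by
  have hX := Vfix σ X
  have hH := Vfix σ H
  have h1 : (2 : K) * ((BB σ h8 a b c X H : kf σ) : K)
      = ((Tr σ h8 ((X : K) * Lam σ a b c H) : kf σ) : K) := by
    have e : (2 : kf σ) * BB σ h8 a b c X H = Tr σ h8 ((X : K) * Lam σ a b c H) := by
      rw [BB_apply, ← mul_assoc, mul_inv_cancel₀ (two_kf σ h2), one_mul]
    exact congrArg (fun z : kf σ => (z : K)) e
  rw [Tr_coe] at h1
  unfold Lam at h1
  simp only [map_mul, map_add, map_sub, map_neg, hX, hH, ha, hb, hc] at h1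
  apply mul_left_cancel₀ h2
  rw [h1]
  ring

include h2 in
theorem BB_symm {a b c : K} (ha : σ (σ (σ (σ a))) = a) (hb : σ (σ (σ (σ b))) = b)
    (hc : σ (σ c) = -c) (X H : Vm σ) : BB σ h8 a b c X H = BB σ h8 a b c H X := by
  apply Subtype.ext
  rw [BB_exp σ h8 h2 ha hb hc, BB_exp σ h8 h2 ha hb hc]
  ring

include h4 h2 in
theorem rad_Lam {a b c : K} (ha : σ (σ (σ (σ a))) = a) (hb : σ (σ (σ (σ b))) = b)
    (hc : σ (σ c) = -c) {H : Vm σ} (h : ∀ X, BB σ h8 a b c X H = 0) : Lam σ a b c H = 0 := by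
  apply nondegV σ h8 h4 h2
  · apply mem_Vm
    unfold Lam
    simp only [map_mul, map_add, map_sub, map_neg, Vfix σ H, ha, hb, hc]
    ring
  · intro X hX
    have h1 := h ⟨X, hX⟩
    rw [BB_apply] at h1
    rcases mul_eq_zero.mp h1 with h3 | h3
    · exact absurd h3 (inv_ne_zero (two_kf σ h2))
    · exact h3

include h2 in
/-- Gram determinant -/
theorem gram {a b c : K} (ha : σ (σ (σ (σ a))) = a) (hb : σ (σ (σ (σ b))) = b)
    (hc : σ (σ c) = -c) (v : Fin 4 → Vm σ) (ho : ∀ i j, i ≠ j → BB σ h8 a b c (v i) (v j) = 0) :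
    ∃ d : kf σ, ((BB σ h8 a b c (v 0) (v 0) * BB σ h8 a b c (v 1) (v 1)
        * BB σ h8 a b c (v 2) (v 2) * BB σ h8 a b c (v 3) (v 3) : kf σ) : K)
      = (d : K) ^ 2 * (!![a, b, c, -(σ (σ (σ b))); b, σ a, σ b, σ c;
          c, σ b, σ (σ a), σ (σ b); -(σ (σ (σ b))), σ c, σ (σ b), σ (σ (σ a))] :
          Matrix (Fin 4) (Fin 4) K).det := by
  set W : Matrix (Fin 4) (Fin 4) K := Matrix.of (fun r i =>
    (![(v i : K), σ (v i : K), σ (σ (v i : K)), σ (σ (σ (v i : K)))] : Fin 4 → K) r) with hW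
  set M : Matrix (Fin 4) (Fin 4) K := !![a, b, c, -(σ (σ (σ b))); b, σ a, σ b, σ c;
          c, σ b, σ (σ a), σ (σ b); -(σ (σ (σ b))), σ c, σ (σ b), σ (σ (σ a))] with hM
  have hfix : σ W.det = W.det := by
    rw [det4 W]
    simp only [hW, Matrix.of_apply, Matrix.cons_val_zero, Matrix.cons_val_one, Matrix.cons_val]
    simp only [map_add, map_sub, map_mul, Vfix]
    ring
  refine ⟨⟨W.det, mem_kf σ hfix⟩, ?_⟩
  show _ = W.det ^ 2 * M.det
  have hG : W.transpose * M * W = Matrix.diagonal (fun i => ((BB σ h8 a b c (v i) (v i) : kf σ) : K)) := by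
    ext i j
    have h1 : (W.transpose * M * W) i j = ((BB σ h8 a b c (v i) (v j) : kf σ) : K) := by
      rw [BB_exp σ h8 h2 ha hb hc]
      simp only [Matrix.mul_apply, Fin.sum_univ_four, Matrix.transpose_apply, hW, hM,
        Matrix.of_apply, Matrix.cons_val_zero, Matrix.cons_val_one, Matrix.cons_val]
      ring
    rw [h1, Matrix.diagonal_apply]
    split_ifs with hij
    · rw [hij]
    · rw [ho i j hij]; rfl
  have hdet := congrArg Matrix.det hG
  rw [Matrix.det_mul, Matrix.det_mul, Matrix.det_transpose, Matrix.det_diagonal,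
    Fin.prod_univ_four] at hdet
  push_cast
  rw [← hdet]; ring

end ctx

end Pool.Agent.V11152.MO
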