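import Pool.Agent.V11152.MOd

namespace Pool.Agent.V11152.MO

section ctx

variable {K : Type} [Field K] [Fintype K] (σ : K →+* K)
variable (h8 : ∀ x, σ (σ (σ (σ (σ (σ (σ (σ x))))))) = x)
variable (h4 : ∃ x, σ (σ (σ (σ x))) ≠ x)
variable (h2 : (2 : K) ≠ 0)

/-- the form with values in `Fm` -/
def Om (γ H : K) : K := H ^ 2 - (σ (σ H)) ^ 2 + γ * H * σ H - σ γ * σ H * σ (σ H)
  - σ (σ γ) * σ (σ H) * σ (σ (σ H)) - σ (σ (σ γ)) * H * σ (σ (σ H))

/-- functionals on `Fm` -/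
noncomputable def ell (y : K) : Fm σ →ₗ[kf σ] kf σ where
  toFun w := (2 : kf σ)⁻¹ * Tr σ h8 ((w : K) * y)
  map_add' w w' := by
    rw [← mul_add, ← map_add]
    congr 2
    show ((w : K) + w') * y = _
    ring
  map_smul' c w := by
    have e : Tr σ h8 (((c • w : Fm σ) : K) * y) = c * Tr σ h8 ((w : K) * y) := by
      rw [← Tr_mul]
      congr 1
      show ((c : K) * w) * y = _
      ring
    rw [e, smul_eq_mul, RingHom.id_apply]; ring

theorem ell_apply (y : K) (w : Fm σ) : ell σ h8 y w = (2 : kf σ)⁻¹ * Tr σ h8 ((w : K) * y) := rfl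

include h2 in
theorem ell_ne {y : K} (hy : y ≠ 0) (hy2 : σ (σ y) = -y) : ∃ u, ell σ h8 y u ≠ 0 := by
  have h1 : σ (σ (y⁻¹)) = -(y⁻¹) := by
    rw [map_inv₀, map_inv₀, hy2, inv_neg]
  refine ⟨⟨y⁻¹, mem_Fm σ h1⟩, ?_⟩
  rw [ell_apply]
  apply mul_ne_zero (inv_ne_zero (two_kf σ h2))
  intro h
  have h3 := congrArg (fun z : kf σ => (z : K)) h
  rw [Tr_coe] at h3
  have h5 : ((⟨y⁻¹, mem_Fm σ h1⟩ : Fm σ) : K) * y = 1 := inv_mul_cancel₀ hy
  rw [h5] at h3
  simp only [map_one] at h3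
  have h6 : (2 : K) ^ 3 = 0 := by
    have h7 : ((0 : kf σ) : K) = 0 := rfl
    rw [h7] at h3
    linear_combination h3
  exact h2 (pow_eq_zero_iff (by norm_num) |>.mp h6)

theorem w4 (w : Fm σ) : σ (σ (σ (σ (w : K)))) = w := by
  rw [Ffix, map_neg, map_neg, Ffix, neg_neg]

theorem ringChar_kf (h2 : (2 : K) ≠ 0) : ringChar (kf σ) ≠ 2 := by
  intro h
  have h1 : ((2 : ℕ) : kf σ) = 0 := by
    rw [ringChar.spec, h]
  apply two_kf σ h2
  exact_mod_cast h1

include h2 in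
theorem Bw_eq {γ : K} (hγ : σ (σ (σ (σ γ))) = γ) (w : Fm σ) (H : Vm σ) :
    BB σ h8 (2 * w) ((w + σ w) * γ) 0 H H = ell σ h8 (Om σ γ H) w := by
  apply Subtype.ext
  rw [BB_exp σ h8 h2 (by simp only [map_mul, map_ofNat, w4])
    (by simp only [map_mul, map_add, w4, hγ]) (by simp)]
  have e : (2 : K) * ((ell σ h8 (Om σ γ H) w : kf σ) : K)
      = ((Tr σ h8 ((w : K) * Om σ γ H) : kf σ) : K) := by
    have e1 : (2 : kf σ) * ell σ h8 (Om σ γ H) w = Tr σ h8 ((w : K) * Om σ γ H) := by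
      rw [ell_apply, ← mul_assoc, mul_inv_cancel₀ (two_kf σ h2), one_mul]
    exact congrArg (fun z : kf σ => (z : K)) e1
  apply mul_left_cancel₀ h2
  rw [e, Tr_coe]
  unfold Om
  simp only [map_mul, map_add, map_sub, map_neg, map_pow, map_ofNat, map_zero, Vfix, Ffix, hγ]
  ring

include h4 h2 in
theorem rank3 {γ : K} (hγ : σ (σ (σ (σ γ))) = γ) (hγ0 : γ ≠ 0) {w : Fm σ} (hw : w ≠ 0)
    (H H' : Vm σ) (hH : ∀ X, BB σ h8 (2 * w) ((w + σ w) * γ) 0 X H = 0)
    (hH' : ∀ X, BB σ h8 (2 * w) ((w + σ w) * γ) 0 X H' = 0) (hne : H ≠ 0) :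
    ∃ c : kf σ, H' = c • H := by
  have ha : σ (σ (σ (σ (2 * (w : K))))) = 2 * w := by simp only [map_mul, map_ofNat, w4]
  have hb : σ (σ (σ (σ (((w : K) + σ w) * γ)))) = (w + σ w) * γ := by
    simp only [map_mul, map_add, w4, hγ]
  have r := rad_Lam σ h8 h4 h2 ha hb (c := 0) (by simp) hH
  have r' := rad_Lam σ h8 h4 h2 ha hb (c := 0) (by simp) hH'
  have hH0 : (H : K) ≠ 0 := fun h => hne (Subtype.ext h)
  by_cases hc : σ ((H' : K) / H) = H' / H
  · refine ⟨⟨_, mem_kf σ hc⟩, Subtype.ext ?_⟩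
    show (H' : K) = (H' / H) * H
    field_simp
  exfalso
  have hσH : σ (H : K) ≠ 0 := by simpa using hH0
  have hv1 : (H' : K) * σ H - H * σ H' ≠ 0 := by
    intro h
    apply hc
    rw [map_div₀, div_eq_div_iff hσH hH0]
    linear_combination -h
  have hw0 : (w : K) ≠ 0 := fun h => hw (Subtype.ext h)
  have hw1 : σ (w : K) ≠ 0 := by simpa using hw0
  have hww := Ffix σ w
  have hp0 : (w : K) + σ w ≠ 0 := by
    intro h
    have h1 : σ (w : K) = -w := by linear_combination h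
    rw [h1, map_neg, h1, neg_neg] at hww
    apply hw0
    have : (2 : K) * w = 0 := by linear_combination hww
    exact (mul_eq_zero.mp this).resolve_left h2
  have hp1 : σ (w : K) - w ≠ 0 := by
    intro h
    have h1 : σ (w : K) = w := by linear_combination h
    rw [h1, h1] at hww
    apply hw0
    have : (2 : K) * w = 0 := by linear_combination hww
    exact (mul_eq_zero.mp this).resolve_left h2
  unfold Lam at r r'
  simp only [map_mul, map_add, map_sub, map_neg, Ffix, hγ, zero_mul, add_zero] at r r'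
  have s := congrArg σ r
  have s' := congrArg σ r'
  have t := congrArg σ s
  have t' := congrArg σ s'
  have u := congrArg σ t
  have u' := congrArg σ t'
  simp only [map_mul, map_add, map_sub, map_neg, map_ofNat, map_zero, Ffix, Vfix, hγ]
    at r r' s s' t t' u u'
  set w0 : K := (w : K)
  set w1 : K := σ w0
  set H0 : K := (H : K)
  set H1 : K := σ H0
  set H2 : K := σ H1
  set H3 : K := σ H2
  set G0 : K := (H' : K)
  set G1 : K := σ G0
  set G2 : K := σ G1
  set G3 : K := σ G2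
  set γ1 : K := σ γ
  set γ2 : K := σ γ1
  set γ3 : K := σ γ2
  set v1 : K := G0 * H1 - H0 * G1 with hv1d
  set v2 : K := G0 * H2 - H0 * G2 with hv2d
  set v3 : K := G0 * H3 - H0 * G3 with hv3d
  have R0 : (w0 + w1) * γ * v1 + (w1 - w0) * γ3 * v3 = 0 := by
    rw [hv1d, hv3d]; linear_combination G0 * r - H0 * r'
  have R1 : 2 * w1 * v1 + (w1 - w0) * γ1 * v2 = 0 := by
    rw [hv1d, hv2d]; linear_combination G0 * s - H0 * s'
  have R2 : (w1 - w0) * γ1 * v1 - 2 * w0 * v2 - (w0 + w1) * γ2 * v3 = 0 := by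
    rw [hv1d, hv2d, hv3d]; linear_combination G0 * t - H0 * t'
  have R3 : (w0 + w1) * γ2 * v2 + 2 * w1 * v3 = 0 := by
    rw [hv2d, hv3d]; linear_combination -G0 * u + H0 * u'
  have E0 : (w0 + w1) * γ2 * v1 = (w1 - w0) * γ1 * v3 := by
    have : (2 * w1) * ((w0 + w1) * γ2 * v1 - (w1 - w0) * γ1 * v3) = 0 := by
      linear_combination (w0 + w1) * γ2 * R1 - (w1 - w0) * γ1 * R3
    rcases mul_eq_zero.mp this with h | h
    · exact absurd h (mul_ne_zero h2 hw1)
    · linear_combination h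
  have E1 : γ2 * γ3 = -(γ * γ1) := by
    have : ((w0 + w1) * v1) * (γ2 * γ3 + γ * γ1) = 0 := by
      linear_combination γ3 * E0 + γ1 * R0
    rcases mul_eq_zero.mp this with h | h
    · exact absurd h (mul_ne_zero hp0 hv1)
    · linear_combination h
  have E2 : (w0 + w1) ^ 2 * (1 - γ2 ^ 2) = (w1 - w0) ^ 2 * (1 - γ1 ^ 2) := by
    have : v1 * ((w0 + w1) ^ 2 * (1 - γ2 ^ 2) - (w1 - w0) ^ 2 * (1 - γ1 ^ 2)) = 0 := by
      linear_combination (w1 - w0) * γ1 * R2 + 2 * w0 * R1 - (w0 + w1) * γ2 * E0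
    rcases mul_eq_zero.mp this with h | h
    · exact absurd h hv1
    · linear_combination h
  have E3 := congrArg σ E2
  simp only [map_mul, map_add, map_sub, map_pow, map_one] at E3
  have hσw1 : σ w1 = -w0 := hww
  have hσγ3 : σ γ3 = γ := hγ
  rw [hσw1] at E3
  change (w1 + -w0) ^ 2 * (1 - γ3 ^ 2) = (-w0 - w1) ^ 2 * (1 - γ2 ^ 2) at E3
  have E4 : (γ3 - γ1) * (γ3 + γ1) = 0 := by
    have : (w1 - w0) ^ 2 * ((γ3 - γ1) * (γ3 + γ1)) = 0 := by
      linear_combination -E3 - E2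
    rcases mul_eq_zero.mp this with h | h
    · exact absurd h (pow_ne_zero 2 hp1)
    · exact h
  have hγ1 : γ1 ≠ 0 := by simpa [γ1] using hγ0
  rcases mul_eq_zero.mp E4 with h | h
  · have h3 : γ3 = γ1 := by linear_combination h
    have h5 : γ = γ2 := by
      have := congrArg σ h3
      rw [hσγ3] at this
      exact this
    rw [h3, ← h5] at E1
    have : (2 : K) * (γ * γ1) = 0 := by linear_combination E1
    exact (mul_ne_zero h2 (mul_ne_zero hγ0 hγ1)) this
  · have h3 : γ3 = -γ1 := by linear_combination h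
    have h5 : γ = -γ2 := by
      have := congrArg σ h3
      rw [hσγ3, map_neg] at this
      exact this
    have h6 : γ2 = -γ := by linear_combination h5
    rw [h3, h6] at E1
    have : (2 : K) * (γ * γ1) = 0 := by linear_combination E1
    exact (mul_ne_zero h2 (mul_ne_zero hγ0 hγ1)) this

include h8 h4 h2 in
theorem card_Fm : Fintype.card (Fm σ) = Fintype.card (kf σ) ^ 2 := by
  rw [Module.card_eq_pow_finrank (K := kf σ) (V := Fm σ), finrank_Fm σ h8 h4 h2]

include h8 h4 h2 in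
theorem card_Vm : Fintype.card (Vm σ) = Fintype.card (kf σ) ^ 4 := by
  rw [Module.card_eq_pow_finrank (K := kf σ) (V := Vm σ), finrank_Vm σ h8 h4 h2]

theorem Om_mem {γ : K} (hγ : σ (σ (σ (σ γ))) = γ) (H : Vm σ) :
    σ (σ (Om σ γ H)) = -(Om σ γ H) := by
  unfold Om
  simp only [map_mul, map_add, map_sub, map_neg, map_pow, Vfix, hγ]
  ring

include h4 h2 in
theorem count {γ : K} (hγ : σ (σ (σ (σ γ))) = γ) (hγ0 : γ ≠ 0)
    (hno : ∀ H : Vm σ, Om σ γ H = 0 → H = 0) (w : Fm σ) (hw : w ≠ 0) :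
    ∃ v : Module.Basis (Fin 4) (kf σ) (Vm σ),
      (∀ i j, i ≠ j → BB σ h8 (2 * w) ((w + σ w) * γ) 0 (v i) (v j) = 0) ∧
      quadraticChar (kf σ) (BB σ h8 (2 * w) ((w + σ w) * γ) 0 (v 0) (v 0)
        * BB σ h8 (2 * w) ((w + σ w) * γ) 0 (v 1) (v 1)
        * BB σ h8 (2 * w) ((w + σ w) * γ) 0 (v 2) (v 2)
        * BB σ h8 (2 * w) ((w + σ w) * γ) 0 (v 3) (v 3)) = -1 := by
  classical
  have hch := ringChar_kf σ h2
  have hV := finrank_Vm σ h8 h4 h2
  set q : ℤ := (Fintype.card (kf σ) : ℤ) with hq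
  have hq1 : (1 : ℤ) < q := by rw [hq]; exact_mod_cast Fintype.one_lt_card
  have hZf := fun (w : Fm σ) (hw : w ≠ 0) => formZ hch hV
    (BB σ h8 (2 * w) ((w + σ w) * γ) 0)
    (BB_symm σ h8 h2 (by simp only [map_mul, map_ofNat, w4])
      (by simp only [map_mul, map_add, w4, hγ]) (by simp))
    (fun H H' hH hH' hne => rank3 σ h8 h4 h2 hγ hγ0 hw H H' hH hH' hne)
  set Z : Fm σ → ℤ := fun w => ∑ H : Vm σ, ind (BB σ h8 (2 * w) ((w + σ w) * γ) 0 H H) with hZ
  have hcF : (Fintype.card (Fm σ) : ℤ) = q ^ 2 := by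
    rw [card_Fm σ h8 h4 h2, hq]; push_cast; ring
  have hcV : (Fintype.card (Vm σ) : ℤ) = q ^ 4 := by
    rw [card_Vm σ h8 h4 h2, hq]; push_cast; ring
  have hsum : ∑ w : Fm σ, Z w = q ^ 4 * q + (q ^ 2 - q) := by
    rw [hZ]
    simp only
    rw [Finset.sum_comm]
    have h1 : ∀ H : Vm σ, ∑ w : Fm σ, ind (BB σ h8 (2 * w) ((w + σ w) * γ) 0 H H)
        = q + (if H = 0 then q ^ 2 - q else 0) := by
      intro H
      have h3 : ∀ w : Fm σ, ind (BB σ h8 (2 * w) ((w + σ w) * γ) 0 H H)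
          = ind (0 + ell σ h8 (Om σ γ H) w) := by
        intro w
        rw [Bw_eq σ h8 h2 hγ, zero_add]
      simp_rw [h3]
      split_ifs with hH
      · have h5 : ∀ w : Fm σ, ind (0 + ell σ h8 (Om σ γ H) w) = 1 := by
          intro w
          have : Om σ γ (H : K) = 0 := by
            rw [hH]; unfold Om; simp
          rw [this, ell_apply, mul_zero, map_zero, mul_zero, add_zero]
          simp [ind]
        simp_rw [h5]
        simp [hcF]
      · have h5 := shift_sum (ell σ h8 (Om σ γ H))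
          (ell_ne σ h8 h2 (fun h => hH (hno H h)) (Om_mem σ hγ H)) ind 0
        rw [sum_ind, hcF, ← hq] at h5
        have h6 : q * (∑ u : Fm σ, ind (0 + ell σ h8 (Om σ γ H) u)) = q * q := by
          rw [h5]; ring
        have h7 := mul_left_cancel₀ (by linarith : q ≠ 0) h6
        rw [h7]; ring
    simp_rw [h1]
    rw [Finset.sum_add_distrib]
    simp [hcV]
  have hZ0 : Z 0 = q ^ 4 := by
    rw [hZ]
    simp only
    have h3 : ∀ H : Vm σ, ind (BB σ h8 (2 * ((0 : Fm σ) : K)) ((((0 : Fm σ) : K)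
        + σ ((0 : Fm σ) : K)) * γ) 0 H H) = 1 := by
      intro H
      rw [Bw_eq σ h8 h2 hγ, map_zero]
      simp [ind]
    simp_rw [h3]
    simp [hcV]
  have hrest : ∑ w ∈ Finset.univ.erase (0 : Fm σ), (Z w - (q ^ 3 - q * (q - 1))) = 0 := by
    rw [Finset.sum_sub_distrib, Finset.sum_const, Finset.card_erase_of_mem (Finset.mem_univ _),
      Finset.card_univ]
    have h1 : ∑ w ∈ Finset.univ.erase (0 : Fm σ), Z w = q ^ 4 * q + (q ^ 2 - q) - q ^ 4 := by
      rw [← hsum, ← hZ0, ← Finset.add_sum_erase _ _ (Finset.mem_univ (0 : Fm σ))]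
      ring
    have h3 : ((Fintype.card (Fm σ) - 1 : ℕ) : ℤ) = q ^ 2 - 1 := by
      rw [Nat.cast_sub Fintype.card_pos, hcF]; simp
    rw [h1, nsmul_eq_mul, h3]
    ring
  have hnn : ∀ w ∈ Finset.univ.erase (0 : Fm σ), 0 ≤ Z w - (q ^ 3 - q * (q - 1)) := by
    intro w hw
    have h1 := (hZf w (Finset.ne_of_mem_erase hw)).1
    rw [hZ]
    linarith
  have hz := (Finset.sum_eq_zero_iff_of_nonneg hnn).mp hrest w
    (Finset.mem_erase.mpr ⟨hw, Finset.mem_univ _⟩)
  exact (hZf w hw).2 (by rw [hZ] at hz; linarith)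

end ctx

end Pool.Agent.V11152.MO
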