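import Pool.Agent.V11152.MOe

namespace Pool.Agent.V11152.MO

section ctx

variable {K : Type} [Field K] [Fintype K] (σ : K →+* K)
variable (h8 : ∀ x, σ (σ (σ (σ (σ (σ (σ (σ x))))))) = x)
variable (h4 : ∃ x, σ (σ (σ (σ x))) ≠ x)
variable (h2 : (2 : K) ≠ 0)

include h2 in
/-- the square of an anti-invariant element is a nonsquare -/
theorem anti_nonsq {r : K} (hr0 : r ≠ 0) (hr : σ r = -r) {c : kf σ} (hc : (c : K) = r ^ 2) :
    quadraticChar (kf σ) c = -1 := by
  have hc0 : c ≠ 0 := by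
    rintro rfl
    apply hr0
    have : r ^ 2 = 0 := hc.symm
    simpa using this
  rcases quadraticChar_dichotomy hc0 with h | h
  · exfalso
    obtain ⟨s, hs⟩ := (quadraticChar_one_iff_isSquare hc0).mp h
    have hs' : (c : K) = s * s := congrArg (fun z : kf σ => (z : K)) hs
    have h1 : (r - s) * (r + s) = 0 := by rw [hc] at hs'; linear_combination hs'
    have h3 : σ r = r := by
      rcases mul_eq_zero.mp h1 with h | h
      · have : r = s := by linear_combination h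
        rw [this, kfix]
      · have : r = -s := by linear_combination h
        rw [this, map_neg, kfix]
    rw [hr] at h3
    have h5 : (2 : K) * r = 0 := by linear_combination -h3
    exact (mul_ne_zero h2 hr0) h5
  · exact h

include h2 in
theorem neg_char {p : K} {g : kf σ} {φ d : kf σ} (hg : quadraticChar (kf σ) g = -1)
    (h : (g : K) = (d : K) ^ 2 * φ) : quadraticChar (kf σ) φ = -1 := by
  have h1 : g = d ^ 2 * φ := Subtype.ext (by push_cast; exact h)
  rw [h1, map_mul] at hg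
  by_cases hd : d = 0
  · rw [hd] at hg
    simp at hg
  · rw [map_pow, quadraticChar_sq_one hd, one_mul] at hg
    exact hg

/-- coefficients -/
def g0 (γ : K) : K := (1 - γ ^ 2) * (1 - (σ (σ γ)) ^ 2)
def GG (γ : K) : K := γ ^ 2 + (σ γ) ^ 2 + (σ (σ γ)) ^ 2 + (σ (σ (σ γ))) ^ 2 - 2
  + 2 * (γ * σ γ * σ (σ γ) * σ (σ (σ γ)))
def ph (γ a : K) : K := g0 σ γ * a ^ 2 + σ (g0 σ γ) * (σ a) ^ 2 + GG σ γ * (a * σ a)

include h8 h4 h2 in
theorem phi_neg {γ : K} (hγ : σ (σ (σ (σ γ))) = γ) (hγ0 : γ ≠ 0)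
    (hno : ∀ H : Vm σ, Om σ γ H = 0 → H = 0) {p : K} (hp0 : p ≠ 0) (hp : σ (σ p) = -p) :
    ∃ c : kf σ, (c : K) = ph σ γ (p ^ 2) ∧ quadraticChar (kf σ) c = -1 := by
  set w' : K := (p - σ p) / 2 with hw'
  have hw2 : σ (σ w') = -w' := by
    rw [hw']
    simp only [map_div₀, map_sub, map_ofNat, hp, map_neg]
    ring
  have e1 : w' + σ w' = p := by
    rw [hw']
    simp only [map_div₀, map_sub, map_ofNat, hp]
    field_simp
    ring
  have e2 : 2 * w' = p - σ p := by rw [hw']; field_simp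
  have hw0 : (⟨w', mem_Fm σ hw2⟩ : Fm σ) ≠ 0 := by
    intro h
    have h0 : w' = 0 := congrArg Subtype.val h
    rw [h0, map_zero, add_zero] at e1
    exact hp0 e1.symm
  obtain ⟨v, ho, hχ⟩ := count σ h8 h4 h2 hγ hγ0 hno ⟨w', mem_Fm σ hw2⟩ hw0
  have ho' : ∀ i j, i ≠ j → BB σ h8 (2 * w') ((w' + σ w') * γ) 0 (v i) (v j) = 0 := ho
  have hχ' : quadraticChar (kf σ) (BB σ h8 (2 * w') ((w' + σ w') * γ) 0 (v 0) (v 0)
        * BB σ h8 (2 * w') ((w' + σ w') * γ) 0 (v 1) (v 1)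
        * BB σ h8 (2 * w') ((w' + σ w') * γ) 0 (v 2) (v 2)
        * BB σ h8 (2 * w') ((w' + σ w') * γ) 0 (v 3) (v 3)) = -1 := hχ
  rw [e1, e2] at ho' hχ'
  obtain ⟨d, hd⟩ := gram σ h8 h2 (a := p - σ p) (b := p * γ) (c := 0)
    (by simp only [map_sub, hp, map_neg, neg_neg])
    (by simp only [map_mul, hp, map_neg, neg_neg, hγ]) (by simp) v ho'
  have hdet : (!![p - σ p, p * γ, 0, -(σ (σ (σ (p * γ)))); p * γ, σ (p - σ p), σ (p * γ), σ 0;
          0, σ (p * γ), σ (σ (p - σ p)), σ (σ (p * γ)); -(σ (σ (σ (p * γ)))), σ 0, σ (σ (p * γ)),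
          σ (σ (σ (p - σ p)))] : Matrix (Fin 4) (Fin 4) K).det = ph σ γ (p ^ 2) := by
    rw [det4]
    simp only [Matrix.of_apply, Matrix.cons_val_zero, Matrix.cons_val_one, Matrix.cons_val]
    unfold ph g0 GG
    simp only [map_mul, map_sub, map_add, map_neg, map_pow, map_one, map_zero, hp]
    ring
  rw [hdet] at hd
  have hphf : σ (ph σ γ (p ^ 2)) = ph σ γ (p ^ 2) := by
    unfold ph g0 GG
    simp only [map_mul, map_sub, map_add, map_neg, map_pow, map_one, map_ofNat, hp, hγ]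
    ring
  refine ⟨⟨_, mem_kf σ hphf⟩, rfl, ?_⟩
  exact neg_char σ h2 (p := p) hχ' hd

include h2 in
/-- elements of `kf` are squares in the middle field -/
theorem sq_kf {τ : K} (hτ0 : τ ≠ 0) (hτ : σ τ = -τ) {c : kf σ} (hc0 : c ≠ 0) :
    ∃ t : K, σ (σ t) = t ∧ t ^ 2 = c ∧ t ≠ 0 := by
  have hτf : σ (τ ^ 2) = τ ^ 2 := by rw [map_pow, hτ]; ring
  rcases quadraticChar_dichotomy hc0 with h | h
  · obtain ⟨s, hs⟩ := (quadraticChar_one_iff_isSquare hc0).mp h
    have hs' : (c : K) = s * s := congrArg (fun z : kf σ => (z : K)) hs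
    refine ⟨s, by rw [kfix, kfix], by rw [hs']; ring, ?_⟩
    intro h0
    rw [h0, mul_zero] at hs'
    exact hc0 (Subtype.ext hs')
  · set D : kf σ := ⟨τ ^ 2, mem_kf σ hτf⟩ with hD
    have hDχ : quadraticChar (kf σ) D = -1 := anti_nonsq σ h2 hτ0 hτ rfl
    have h1 : quadraticChar (kf σ) (c * D) = 1 := by rw [map_mul, h, hDχ]; norm_num
    have hD0 : D ≠ 0 := by
      intro h0; rw [h0] at hDχ; simp at hDχ
    obtain ⟨s, hs⟩ := (quadraticChar_one_iff_isSquare (mul_ne_zero hc0 hD0)).mp h1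
    have hs' : (c : K) * τ ^ 2 = s * s := congrArg (fun z : kf σ => (z : K)) hs
    have hc' : (c : K) = ((s : K) / τ) ^ 2 := by
      rw [div_pow, eq_div_iff (pow_ne_zero 2 hτ0), hs']; ring
    refine ⟨s / τ, by rw [map_div₀, map_div₀, kfix, kfix, hτ, map_neg, hτ, neg_neg],
      hc'.symm, ?_⟩
    intro h0
    rw [h0] at hc'
    apply hc0
    apply Subtype.ext
    rw [hc']
    show (0 : K) ^ 2 = 0
    ring

include h2 in
theorem sq_F2 {τ : K} (hτ0 : τ ≠ 0) (hτ : σ τ = -τ) {y : K} (hy0 : y ≠ 0) (hy : σ (σ y) = y)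
    {N : kf σ} (hN : (N : K) = y * σ y) (hχ : quadraticChar (kf σ) N = 1) :
    ∃ b : K, σ (σ b) = b ∧ b ^ 2 = y := by
  have hN0 : N ≠ 0 := by
    intro h0; rw [h0] at hχ; simp at hχ
  obtain ⟨s, hs⟩ := (quadraticChar_one_iff_isSquare hN0).mp hχ
  have hs' : y * σ y = s * s := by rw [← hN]; exact congrArg (fun z : kf σ => (z : K)) hs
  have main : ∀ s : kf σ, y * σ y = s * s → y + σ y + 2 * s ≠ 0 → ∃ b : K, σ (σ b) = b ∧ b ^ 2 = y := by
    intro s hs' hne
    have hf : σ (y + σ y + 2 * s) = y + σ y + 2 * s := by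
      simp only [map_add, map_mul, map_ofNat, hy, kfix]; ring
    obtain ⟨t, ht1, ht2, ht0⟩ := sq_kf σ h2 hτ0 hτ (c := ⟨_, mem_kf σ hf⟩)
      (fun h => hne (congrArg (fun z : kf σ => (z : K)) h))
    have ht2' : t ^ 2 = y + σ y + 2 * s := ht2
    refine ⟨(y + s) / t, ?_, ?_⟩
    · simp only [map_div₀, map_add, hy, kfix, ht1]
    · rw [div_pow, div_eq_iff (pow_ne_zero 2 ht0), ht2']
      linear_combination -hs'
  by_cases hne : y + σ y + 2 * (s : K) = 0
  · apply main (-s)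
    · push_cast; rw [hs']; ring
    · push_cast
      intro h
      have hs0 : (s : K) ≠ 0 := by
        intro h0
        rw [h0, mul_zero] at hs'
        rcases mul_eq_zero.mp hs' with h | h
        · exact hy0 h
        · exact hy0 (by simpa using h)
      have h3 : (2 : K) * (2 * s) = 0 := by linear_combination hne - h
      exact (mul_ne_zero h2 (mul_ne_zero h2 hs0)) h3
  · exact main s hs' hne

include h8 h4 h2 in
/-- `a` in the middle field with nonsquare norm is the square of an element of `Fm` -/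
theorem nonsq_F2 {τ : K} (hτ0 : τ ≠ 0) (hτ : σ τ = -τ) {a : K} (ha : σ (σ a) = a)
    {N : kf σ} (hN : (N : K) = a * σ a) (hχ : quadraticChar (kf σ) N = -1) :
    ∃ p : K, p ≠ 0 ∧ σ (σ p) = -p ∧ p ^ 2 = a := by
  obtain ⟨p1, hp1, hp2⟩ := exists_p σ h8 h4
  have ha0 : a ≠ 0 := by
    rintro rfl
    have : N = 0 := Subtype.ext (by rw [hN, zero_mul]; rfl)
    rw [this] at hχ
    simp at hχ
  have hσp1 : σ p1 ≠ 0 := by simpa using hp1
  have hr0 : p1 * σ p1 ≠ 0 := mul_ne_zero hp1 hσp1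
  have hr : σ (p1 * σ p1) = -(p1 * σ p1) := by rw [map_mul, hp2]; ring
  have hrf : σ ((p1 * σ p1) ^ 2) = (p1 * σ p1) ^ 2 := by rw [map_pow, hr]; ring
  set R : kf σ := ⟨_, mem_kf σ hrf⟩ with hR
  have hRχ : quadraticChar (kf σ) R = -1 := anti_nonsq σ h2 hr0 hr rfl
  have hRN : quadraticChar (kf σ) (N * R) = 1 := by rw [map_mul, hχ, hRχ]; norm_num
  obtain ⟨b, hb1, hb2⟩ := sq_F2 σ h2 hτ0 hτ (y := a * p1 ^ 2)
    (mul_ne_zero ha0 (pow_ne_zero 2 hp1))
    (by simp only [map_mul, map_pow, ha, hp2]; ring) (N := N * R)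
    (by
      show (N : K) * (p1 * σ p1) ^ 2 = _
      rw [hN]; simp only [map_mul, map_pow]; ring) hRN
  refine ⟨b / p1, ?_, ?_, ?_⟩
  · intro h
    rw [div_eq_zero_iff] at h
    rcases h with h | h
    · rw [h] at hb2
      have : a * p1 ^ 2 = 0 := by rw [← hb2]; ring
      exact (mul_ne_zero ha0 (pow_ne_zero 2 hp1)) this
    · exact hp1 h
  · rw [map_div₀, map_div₀, hb1, hp2, div_neg]
  · rw [div_pow, hb2]; field_simp

end ctx

end Pool.Agent.V11152.MO
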