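import Pool.Agent.V11152.MOf

namespace Pool.Agent.V11152.MO

section ctx

variable {K : Type} [Field K] [Fintype K] (σ : K →+* K)
variable (h8 : ∀ x, σ (σ (σ (σ (σ (σ (σ (σ x))))))) = x)
variable (h4 : ∃ x, σ (σ (σ (σ x))) ≠ x)
variable (h2 : (2 : K) ≠ 0)

include h2 in
theorem frob_F2 {τ : K} (hτ0 : τ ≠ 0) (hτ : σ τ = -τ) {a : K} (ha : σ (σ a) = a) :
    a ^ (Fintype.card (kf σ)) = σ a := by
  obtain ⟨x, y, rfl⟩ := F2rep σ h2 hτ0 hτ ha
  obtain ⟨p, hp⟩ := CharP.exists K
  have hcp : CharP (kf σ) p :=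
    (RingHom.charP_iff (kf σ).subtype Subtype.coe_injective p).mpr hp
  obtain ⟨n, hpr, hn⟩ := FiniteField.card (kf σ) p
  have : Fact p.Prime := ⟨hpr⟩
  have hx : ∀ x : kf σ, (x : K) ^ (Fintype.card (kf σ)) = x := by
    intro x
    exact congrArg (fun z : kf σ => (z : K)) (FiniteField.pow_card x)
  have hodd : Fintype.card (kf σ) % 2 = 1 := FiniteField.odd_card_of_char_ne_two (ringChar_kf σ h2)
  have hτf : σ (τ ^ 2) = τ ^ 2 := by rw [map_pow, hτ]; ring
  have hτq : τ ^ (Fintype.card (kf σ)) = -τ := by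
    set D : kf σ := ⟨τ ^ 2, mem_kf σ hτf⟩ with hD
    have hDχ : quadraticChar (kf σ) D = -1 := anti_nonsq σ h2 hτ0 hτ rfl
    have h1 := quadraticChar_eq_pow_of_char_ne_two' (ringChar_kf σ h2) D
    rw [hDχ] at h1
    have h3 : (τ ^ 2) ^ (Fintype.card (kf σ) / 2) = -1 := by
      have := congrArg (fun z : kf σ => (z : K)) h1
      push_cast at this
      exact this.symm
    have h5 : Fintype.card (kf σ) = 2 * (Fintype.card (kf σ) / 2) + 1 := by omega
    rw [h5, pow_succ, pow_mul, h3]; ring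
  have hadd : ((x : K) + y * τ) ^ (Fintype.card (kf σ))
      = (x : K) ^ (Fintype.card (kf σ)) + (y * τ) ^ (Fintype.card (kf σ)) := by
    rw [hn]
    exact add_pow_char_pow _ _ p _
  rw [hadd, mul_pow, hx, hx, hτq, map_add, map_mul, kfix, kfix, hτ]

include h2 in
theorem poly_contra {τ : K} (hτ0 : τ ≠ 0) (hτ : σ τ = -τ) {g g' G : K} (hg : g ≠ 0)
    (h : ∀ a : K, σ (σ a) = a → (g * a ^ 2 + g' * (σ a) ^ 2 + G * (a * σ a))
      ^ (Fintype.card (kf σ) / 2) = (a * σ a) ^ (Fintype.card (kf σ) / 2)) : False := by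
  classical
  set q := Fintype.card (kf σ) with hq
  have hodd : q % 2 = 1 := FiniteField.odd_card_of_char_ne_two (ringChar_kf σ h2)
  have hq1 : 1 < q := Fintype.one_lt_card
  set m := q / 2 with hm
  have hqm : q = 2 * m + 1 := by omega
  have hm1 : 1 ≤ m := by omega
  set Bp : Polynomial K := Polynomial.C g + Polynomial.C g' * Polynomial.X ^ (2 * (2 * m))
    + Polynomial.C G * Polynomial.X ^ (2 * m) with hBp
  set P : Polynomial K := Polynomial.X ^ (2 * m) * (Bp ^ m - Polynomial.X ^ ((2 * m) * m)) with hP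
  have hBd : Bp.natDegree ≤ 2 * (2 * m) := by
    rw [hBp]
    refine (Polynomial.natDegree_add_le _ _).trans (max_le ?_ ?_)
    · refine (Polynomial.natDegree_add_le _ _).trans (max_le ?_ ?_)
      · rw [Polynomial.natDegree_C]; omega
      · exact Polynomial.natDegree_C_mul_X_pow_le _ _
    · exact (Polynomial.natDegree_C_mul_X_pow_le _ _).trans (by omega)
  have hPd : P.natDegree < Fintype.card (kf σ × kf σ) := by
    rw [Fintype.card_prod, ← hq]
    have h1 : P.natDegree ≤ 2 * m + (2 * (2 * m)) * m := by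
      rw [hP]
      refine Polynomial.natDegree_mul_le.trans ?_
      rw [Polynomial.natDegree_X_pow]
      apply Nat.add_le_add_left
      refine (Polynomial.natDegree_sub_le _ _).trans (max_le ?_ ?_)
      · refine Polynomial.natDegree_pow_le.trans ?_
        rw [mul_comm]
        exact Nat.mul_le_mul_right _ hBd
      · rw [Polynomial.natDegree_X_pow]
        nlinarith
    have h3 : 2 * m + (2 * (2 * m)) * m < q * q := by
      rw [hqm]; nlinarith
    omega
  have hinj : Function.Injective (fun z : kf σ × kf σ => (z.1 : K) + z.2 * τ) := by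
    rintro ⟨a, b⟩ ⟨a', b'⟩ hh
    have hh' : (a : K) + b * τ = a' + b' * τ := hh
    obtain ⟨h1, h3⟩ := F2inj σ h2 hτ0 hτ (a := a - a') (b := b - b') (by
      push_cast; linear_combination hh')
    rw [sub_eq_zero.mp h1, sub_eq_zero.mp h3]
  have hP0 : P = 0 := by
    apply Polynomial.eq_zero_of_natDegree_lt_card_of_eval_eq_zero P hinj
    · rintro ⟨x, y⟩
      show Polynomial.eval ((x : K) + y * τ) P = 0
      set a : K := (x : K) + y * τ with ha
      have haf : σ (σ a) = a := by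
        rw [ha]; simp only [map_add, map_mul, kfix, hτ, map_neg, neg_neg]
      have hfr := frob_F2 σ h2 hτ0 hτ haf
      have h1 := h a haf
      rw [← hq, ← hm] at *
      rw [← hfr] at h1
      rw [hP, hBp]
      simp only [Polynomial.eval_mul, Polynomial.eval_pow, Polynomial.eval_X, Polynomial.eval_sub,
        Polynomial.eval_add, Polynomial.eval_C]
      rw [hqm] at h1
      have e1 : a ^ (2 * m) * ((g + g' * a ^ (2 * (2 * m)) + G * a ^ (2 * m)) ^ m
          - a ^ (2 * m * m)) = (g * a ^ 2 + g' * (a ^ (2 * m + 1)) ^ 2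
            + G * (a * a ^ (2 * m + 1))) ^ m - (a * a ^ (2 * m + 1)) ^ m := by
        rw [mul_sub, pow_mul a 2 m, ← mul_pow, mul_comm 2 m, pow_mul a (m * 2) m, ← mul_pow]
        congr 2 <;> ring
      rw [e1, h1, sub_self]
    · exact hPd
  rw [hP] at hP0
  have h1 : Bp ^ m - Polynomial.X ^ ((2 * m) * m) = 0 := by
    rcases mul_eq_zero.mp hP0 with h | h
    · exact absurd h (pow_ne_zero _ Polynomial.X_ne_zero)
    · exact h
  have h3 := congrArg (Polynomial.eval 0) h1
  rw [hBp] at h3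
  simp only [Polynomial.eval_pow, Polynomial.eval_X, Polynomial.eval_sub,
        Polynomial.eval_add, Polynomial.eval_C, Polynomial.eval_mul, Polynomial.eval_zero] at h3
  rw [zero_pow (by omega), zero_pow (by omega), zero_pow (by positivity)] at h3
  apply hg
  have h5 : g ^ m = 0 := by linear_combination h3
  exact pow_eq_zero_iff (by omega) |>.mp h5

theorem s4_alg {γ : K} (h2 : (2 : K) ≠ 0) (hγ : σ (σ (σ (σ γ))) = γ) (hγ0 : γ ≠ 0)
    (hn : γ * σ (σ γ) + σ γ * σ (σ (σ γ)) = 0) (hg : g0 σ γ = σ (g0 σ γ)) : False := by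
  unfold g0 at hg
  simp only [map_mul, map_sub, map_one, map_pow] at hg
  have hγ1 : σ γ ≠ 0 := by simpa using hγ0
  have hs : γ ^ 2 + (σ (σ γ)) ^ 2 = (σ γ) ^ 2 + (σ (σ (σ γ))) ^ 2 := by
    linear_combination -hg + (γ * σ (σ γ) - σ γ * σ (σ (σ γ))) * hn
  set D0 : K := γ ^ 2 - (σ (σ γ)) ^ 2 with hD0
  have hσD : σ D0 = (σ γ) ^ 2 - (σ (σ (σ γ))) ^ 2 := by
    rw [hD0]; simp only [map_sub, map_pow]
  have hσσD : σ (σ D0) = -D0 := by
    rw [hσD, hD0]; simp only [map_sub, map_pow, hγ]; ring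
  have h1 : (σ D0 - D0) * (σ D0 + D0) = 0 := by
    rw [hσD, hD0]
    linear_combination -(γ ^ 2 + (σ (σ γ)) ^ 2 + ((σ γ) ^ 2 + (σ (σ (σ γ))) ^ 2)) * hs
      + 4 * (γ * σ (σ γ) - σ γ * σ (σ (σ γ))) * hn
  have h3 : D0 = 0 := by
    have h5 : σ (σ D0) = D0 := by
      rcases mul_eq_zero.mp h1 with h | h
      · have h7 : σ D0 = D0 := by linear_combination h
        rw [h7, h7]
      · have h7 : σ D0 = -D0 := by linear_combination h
        rw [h7, map_neg, h7, neg_neg]
    rw [hσσD] at h5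
    have h9 : (2 : K) * D0 = 0 := by linear_combination -h5
    exact (mul_eq_zero.mp h9).resolve_left h2
  have h5 : σ D0 = 0 := by rw [h3, map_zero]
  rw [hσD] at h5
  have h6 : (γ - σ (σ γ)) * (γ + σ (σ γ)) = 0 := by
    have : γ ^ 2 - (σ (σ γ)) ^ 2 = 0 := by rw [← hD0]; exact h3
    linear_combination this
  have h7 : γ ^ 2 = (σ γ) ^ 2 := by
    have e1 : γ ^ 2 - (σ (σ γ)) ^ 2 = 0 := by rw [← hD0]; exact h3
    have : (2 : K) * (γ ^ 2 - (σ γ) ^ 2) = 0 := by linear_combination hs + e1 - h5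
    have := (mul_eq_zero.mp this).resolve_left h2
    linear_combination this
  rcases mul_eq_zero.mp h6 with h | h
  · have e1 : σ (σ γ) = γ := by linear_combination -h
    rw [e1] at hn
    have : (2 : K) * γ ^ 2 = 0 := by linear_combination hn + h7
    exact (mul_ne_zero h2 (pow_ne_zero 2 hγ0)) this
  · have e1 : σ (σ γ) = -γ := by linear_combination h
    rw [e1, map_neg] at hn
    have : (2 : K) * γ ^ 2 = 0 := by linear_combination -hn + h7
    exact (mul_ne_zero h2 (pow_ne_zero 2 hγ0)) this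

end ctx

end Pool.Agent.V11152.MO
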