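import Pool.Agent.V11152.MOg

namespace Pool.Agent.V11152.MO

section ctx

variable {K : Type} [Field K] [Fintype K] (σ : K →+* K)
variable (h8 : ∀ x, σ (σ (σ (σ (σ (σ (σ (σ x))))))) = x)
variable (h4 : ∃ x, σ (σ (σ (σ x))) ≠ x)
variable (h2 : (2 : K) ≠ 0)

include h8 h4 h2 in
theorem exists_H {γ : K} (hγ : σ (σ (σ (σ γ))) = γ) (hγ0 : γ ≠ 0) (hγ1 : 1 - γ ^ 2 ≠ 0) :
    ∃ H : Vm σ, Om σ γ H = 0 ∧ H ≠ 0 := by
  by_contra hno'
  push Not at hno'
  have hno : ∀ H : Vm σ, Om σ γ H = 0 → H = 0 := hno'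
  have hch := ringChar_kf σ h2
  obtain ⟨τ, hτ0, hτ⟩ := exists_tau σ h8 h4
  have hτf : σ (τ ^ 2) = τ ^ 2 := by rw [map_pow, hτ]; ring
  set D : kf σ := ⟨τ ^ 2, mem_kf σ hτf⟩ with hD
  have hDc : (D : K) = τ ^ 2 := rfl
  have hDχ : quadraticChar (kf σ) D = -1 := anti_nonsq σ h2 hτ0 hτ rfl
  have hD0 : D ≠ 0 := by intro h0; rw [h0] at hDχ; simp at hDχ
  have hg0' : σ (σ γ) ≠ 0 := by simpa using hγ0
  have hg2 : 1 - (σ (σ γ)) ^ 2 ≠ 0 := by
    have : 1 - (σ (σ γ)) ^ 2 = σ (σ (1 - γ ^ 2)) := by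
      simp only [map_sub, map_one, map_pow]
    rw [this]
    exact (map_ne_zero σ).mpr ((map_ne_zero σ).mpr hγ1)
  have hg0 : g0 σ γ ≠ 0 := mul_ne_zero hγ1 hg2
  have hgσσ : σ (σ (g0 σ γ)) = g0 σ γ := by
    unfold g0
    simp only [map_mul, map_sub, map_one, map_pow, hγ]; ring
  have hGf : σ (GG σ γ) = GG σ γ := by
    unfold GG
    simp only [map_mul, map_sub, map_add, map_pow, map_ofNat, hγ]; ring
  have hnf : σ (γ * σ (σ γ) + σ γ * σ (σ (σ γ))) = γ * σ (σ γ) + σ γ * σ (σ (σ γ)) := by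
    simp only [map_mul, map_add, hγ]; ring
  set n : kf σ := ⟨_, mem_kf σ hnf⟩ with hn
  have hBf : σ (2 * τ * (g0 σ γ - σ (g0 σ γ))) = 2 * τ * (g0 σ γ - σ (g0 σ γ)) := by
    simp only [map_mul, map_sub, map_ofNat, hτ, hgσσ]; ring
  set B : kf σ := ⟨_, mem_kf σ hBf⟩ with hB
  have hCf : σ (τ ^ 2 * (g0 σ γ + σ (g0 σ γ) - GG σ γ))
      = τ ^ 2 * (g0 σ γ + σ (g0 σ γ) - GG σ γ) := by
    simp only [map_mul, map_sub, map_add, map_pow, hτ, hgσσ, hGf]; ring
  set C : kf σ := ⟨_, mem_kf σ hCf⟩ with hC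
  have hn2 : (γ * σ (σ γ) + σ γ * σ (σ (σ γ))) ^ 2 = g0 σ γ + σ (g0 σ γ) + GG σ γ := by
    unfold g0 GG
    simp only [map_mul, map_sub, map_one, map_pow]
    ring
  have hΦ : ∀ x y : kf σ, ((n ^ 2 * x ^ 2 + B * x * y + C * y ^ 2 : kf σ) : K)
      = ph σ γ ((x : K) + y * τ) := by
    intro x y
    show (γ * σ (σ γ) + σ γ * σ (σ (σ γ))) ^ 2 * (x : K) ^ 2
      + (2 * τ * (g0 σ γ - σ (g0 σ γ))) * x * y
      + (τ ^ 2 * (g0 σ γ + σ (g0 σ γ) - GG σ γ)) * y ^ 2 = _
    rw [hn2]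
    unfold ph
    simp only [map_add, map_mul, kfix, hτ]
    ring
  have hN : ∀ x y : kf σ, ((x ^ 2 + (-D) * y ^ 2 : kf σ) : K)
      = ((x : K) + y * τ) * σ ((x : K) + y * τ) := by
    intro x y
    push_cast
    rw [hDc]
    simp only [map_add, map_mul, kfix, hτ]
    ring
  have hxy : ∀ x y : kf σ, σ (σ ((x : K) + y * τ)) = (x : K) + y * τ := by
    intro x y
    simp only [map_add, map_mul, kfix, hτ, map_neg, neg_neg]
  have hyp : ∀ x y : kf σ, quadraticChar (kf σ) (x ^ 2 + (-D) * y ^ 2) = -1 →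
      quadraticChar (kf σ) (n ^ 2 * x ^ 2 + B * x * y + C * y ^ 2) = -1 := by
    intro x y hχ
    obtain ⟨p, hp0, hp, hpa⟩ := nonsq_F2 σ h8 h4 h2 hτ0 hτ (hxy x y) (hN x y) hχ
    obtain ⟨c, hc1, hc2⟩ := phi_neg σ h8 h4 h2 hγ hγ0 hno hp0 hp
    have : c = n ^ 2 * x ^ 2 + B * x * y + C * y ^ 2 := by
      apply Subtype.ext
      rw [hc1, hpa, hΦ]
    rw [← this]
    exact hc2
  have hNsum : ∑ x : kf σ, ∑ y : kf σ, quadraticChar (kf σ) (x ^ 2 + (-D) * y ^ 2) = 0 := by
    have := bin_zero hch (A := (1 : kf σ)) (B := -D) one_ne_zero (neg_ne_zero.mpr hD0)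
    simpa using this
  have hN0 : ∀ x y : kf σ, x ^ 2 + (-D) * y ^ 2 = 0 → x = 0 ∧ y = 0 := by
    intro x y h0
    have h1 := hN x y
    rw [h0] at h1
    have h3 : (x : K) + y * τ = 0 := by
      rcases mul_eq_zero.mp h1.symm with h | h
      · exact h
      · exact (map_eq_zero σ).mp h
    exact F2inj σ h2 hτ0 hτ h3
  -- the sum of the form cannot vanish
  have key : ∑ x : kf σ, ∑ y : kf σ,
      quadraticChar (kf σ) (n ^ 2 * x ^ 2 + B * x * y + C * y ^ 2) = 0 → False := by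
    intro hs
    have hle : ∀ x y : kf σ, 0 ≤ quadraticChar (kf σ) (x ^ 2 + (-D) * y ^ 2)
        - quadraticChar (kf σ) (n ^ 2 * x ^ 2 + B * x * y + C * y ^ 2) := by
      intro x y
      by_cases h0 : x ^ 2 + (-D) * y ^ 2 = 0
      · obtain ⟨hx, hy⟩ := hN0 x y h0
        rw [hx, hy]; simp
      · rcases quadraticChar_dichotomy h0 with h | h
        · rw [h]
          by_cases h1 : n ^ 2 * x ^ 2 + B * x * y + C * y ^ 2 = 0
          · rw [h1]; simp
          · rcases quadraticChar_dichotomy h1 with h3 | h3 <;> rw [h3] <;> norm_num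
        · rw [h, hyp x y h]; norm_num
    have hsum : ∑ x : kf σ, ∑ y : kf σ, (quadraticChar (kf σ) (x ^ 2 + (-D) * y ^ 2)
        - quadraticChar (kf σ) (n ^ 2 * x ^ 2 + B * x * y + C * y ^ 2)) = 0 := by
      simp_rw [Finset.sum_sub_distrib]
      rw [hNsum, hs]; ring
    have heq : ∀ x y : kf σ, quadraticChar (kf σ) (n ^ 2 * x ^ 2 + B * x * y + C * y ^ 2)
        = quadraticChar (kf σ) (x ^ 2 + (-D) * y ^ 2) := by
      intro x y
      have h1 := (Finset.sum_eq_zero_iff_of_nonneg (fun x _ =>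
        Finset.sum_nonneg (fun y _ => hle x y))).mp hsum x (Finset.mem_univ _)
      have h3 := (Finset.sum_eq_zero_iff_of_nonneg (fun y _ => hle x y)).mp h1 y
        (Finset.mem_univ _)
      linarith
    apply poly_contra σ h2 hτ0 hτ hg0 (g' := σ (g0 σ γ)) (G := GG σ γ)
    intro a ha
    obtain ⟨x, y, rfl⟩ := F2rep σ h2 hτ0 hτ ha
    have h1 := heq x y
    have h3 := quadraticChar_eq_pow_of_char_ne_two' hch
      (n ^ 2 * x ^ 2 + B * x * y + C * y ^ 2)
    have h5 := quadraticChar_eq_pow_of_char_ne_two' hch (x ^ 2 + (-D) * y ^ 2)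
    rw [h1, h5] at h3
    have h7 := congrArg (fun z : kf σ => (z : K)) h3
    have h9 : ((x ^ 2 + (-D) * y ^ 2 : kf σ) : K) ^ (Fintype.card (kf σ) / 2)
        = ((n ^ 2 * x ^ 2 + B * x * y + C * y ^ 2 : kf σ) : K) ^ (Fintype.card (kf σ) / 2) := by
      rw [← SubmonoidClass.coe_pow, ← SubmonoidClass.coe_pow]
      exact h7
    rw [hN, hΦ] at h9
    rw [h9]
    rfl
  by_cases hn0 : n = 0
  · by_cases hB0 : B = 0
    · -- algebraic contradiction
      have e1 : γ * σ (σ γ) + σ γ * σ (σ (σ γ)) = 0 := congrArg (fun z : kf σ => (z : K)) hn0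
      have e2 : 2 * τ * (g0 σ γ - σ (g0 σ γ)) = 0 := congrArg (fun z : kf σ => (z : K)) hB0
      have e3 : g0 σ γ = σ (g0 σ γ) := by
        rcases mul_eq_zero.mp e2 with h | h
        · exact absurd h (mul_ne_zero h2 hτ0)
        · linear_combination h
      exact s4_alg σ h2 hγ hγ0 e1 e3
    · apply key
      rw [hn0, Finset.sum_comm]
      apply Finset.sum_eq_zero
      intro y _
      by_cases hy : y = 0
      · rw [hy]; simp
      · let e : kf σ ≃ kf σ :=
          (Equiv.mulLeft₀ (B * y) (mul_ne_zero hB0 hy)).trans (Equiv.addRight (C * y ^ 2))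
        have h1 := Equiv.sum_comp e (fun z => quadraticChar (kf σ) z)
        rw [quadraticChar_sum_zero hch] at h1
        rw [← h1]
        apply Finset.sum_congr rfl
        intro x _
        congr 1
        show _ = B * y * x + C * y ^ 2
        ring
  · set β : kf σ := B / (2 * n) with hβ
    have h2n : (2 : kf σ) * n ≠ 0 := mul_ne_zero (two_kf σ h2) hn0
    have hform : ∀ x y : kf σ, n ^ 2 * x ^ 2 + B * x * y + C * y ^ 2
        = (n * x + β * y) ^ 2 + (C - β ^ 2) * y ^ 2 := by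
      intro x y
      have : B = 2 * n * β := by rw [hβ, mul_div_cancel₀ _ h2n]
      rw [this]; ring
    by_cases hC' : C - β ^ 2 = 0
    · -- all values are squares
      have hex : ∃ x y : kf σ, quadraticChar (kf σ) (x ^ 2 + (-D) * y ^ 2) = -1 := by
        by_contra hne
        push Not at hne
        have hnn : ∀ x y : kf σ, 0 ≤ quadraticChar (kf σ) (x ^ 2 + (-D) * y ^ 2) := by
          intro x y
          by_cases h0 : x ^ 2 + (-D) * y ^ 2 = 0
          · rw [h0]; simp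
          · rcases quadraticChar_dichotomy h0 with h | h
            · rw [h]; norm_num
            · exact absurd h (hne x y)
        have h1 := (Finset.sum_eq_zero_iff_of_nonneg (fun x _ =>
          Finset.sum_nonneg (fun y _ => hnn x y))).mp hNsum 1 (Finset.mem_univ _)
        have h3 := (Finset.sum_eq_zero_iff_of_nonneg (fun y _ => hnn 1 y)).mp h1 0
          (Finset.mem_univ _)
        simp at h3
      obtain ⟨x, y, hxyN⟩ := hex
      have h1 := hyp x y hxyN
      rw [hform, hC', zero_mul, add_zero] at h1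
      by_cases h0 : n * x + β * y = 0
      · rw [h0] at h1; simp at h1
      · rw [map_pow, quadraticChar_sq_one h0] at h1
        norm_num at h1
    · apply key
      rw [Finset.sum_comm]
      have h1 : ∀ y : kf σ, ∑ x : kf σ,
          quadraticChar (kf σ) (n ^ 2 * x ^ 2 + B * x * y + C * y ^ 2)
          = ∑ x : kf σ, quadraticChar (kf σ) (1 * x ^ 2 + (C - β ^ 2) * y ^ 2) := by
        intro y
        let e : kf σ ≃ kf σ :=
          (Equiv.mulLeft₀ n hn0).trans (Equiv.addRight (β * y))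
        rw [← Equiv.sum_comp e
          (fun x => quadraticChar (kf σ) (1 * x ^ 2 + (C - β ^ 2) * y ^ 2))]
        apply Finset.sum_congr rfl
        intro x _
        rw [hform]
        congr 1
        show _ = 1 * (n * x + β * y) ^ 2 + (C - β ^ 2) * y ^ 2
        ring
      simp_rw [h1]
      rw [Finset.sum_comm]
      exact bin_zero hch one_ne_zero hC'

end ctx

end Pool.Agent.V11152.MO
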