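import Pool.Agent.V11152.MOh

namespace Pool.Agent.V11152.MO

section ctx

variable {K : Type} [Field K] [Fintype K] (σ : K →+* K)
variable (h8 : ∀ x, σ (σ (σ (σ (σ (σ (σ (σ x))))))) = x)
variable (h4 : ∃ x, σ (σ (σ (σ x))) ≠ x)
variable (h2 : (2 : K) ≠ 0)

include h4 h2 in
theorem repV (φ : Vm σ →ₗ[kf σ] kf σ) : ∃ x : Vm σ, ∀ H, φ H = BB σ h8 1 0 0 x H := by
  have : FiniteDimensional (kf σ) (Vm σ) := Module.Finite.of_finite
  have hinj : Function.Injective (BB σ h8 1 0 0 : Vm σ →ₗ[kf σ] (Vm σ →ₗ[kf σ] kf σ)) := by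
    rw [← LinearMap.ker_eq_bot, LinearMap.ker_eq_bot']
    intro x hx
    apply Subtype.ext
    apply nondegV σ h8 h4 h2 x.2
    intro X hX
    have h1 : BB σ h8 1 0 0 x ⟨X, hX⟩ = 0 := by rw [hx]; rfl
    rw [BB_apply] at h1
    have h3 := (mul_eq_zero.mp h1).resolve_left (inv_ne_zero (two_kf σ h2))
    rw [← h3]
    congr 1
    unfold Lam
    simp
    ring
  have hfr : Module.finrank (kf σ) (Vm σ) = Module.finrank (kf σ) (Vm σ →ₗ[kf σ] kf σ) :=
    (Subspace.dual_finrank_eq (K := kf σ) (V := Vm σ)).symm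
  have hsurj := (LinearMap.injective_iff_surjective_of_finrank_eq_finrank hfr).mp hinj
  obtain ⟨x, hx⟩ := hsurj φ
  exact ⟨x, fun H => by rw [hx]⟩

include h2 in
theorem BB_u {γ : K} (hγ : σ (σ (σ (σ γ))) = γ) (u : Fm σ) (H : Vm σ) :
    BB σ h8 1 γ u H H = BB σ h8 1 γ 0 H H + ell σ h8 ((H : K) * σ (σ H)) u := by
  apply Subtype.ext
  rw [Subfield.coe_add, BB_exp σ h8 h2 (by simp) hγ (Ffix σ u),
    BB_exp σ h8 h2 (by simp) hγ (by simp)]
  have e : (2 : K) * ((ell σ h8 ((H : K) * σ (σ H)) u : kf σ) : K)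
      = ((Tr σ h8 ((u : K) * ((H : K) * σ (σ H))) : kf σ) : K) := by
    have e1 : (2 : kf σ) * ell σ h8 ((H : K) * σ (σ H)) u
        = Tr σ h8 ((u : K) * ((H : K) * σ (σ H))) := by
      rw [ell_apply, ← mul_assoc, mul_inv_cancel₀ (two_kf σ h2), one_mul]
    exact congrArg (fun z : kf σ => (z : K)) e1
  rw [Tr_coe] at e
  simp only [map_mul, map_add, map_sub, map_neg, map_one, map_zero, Vfix, Ffix, hγ] at e ⊢
  apply mul_left_cancel₀ h2
  linear_combination -e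

include h8 h4 h2 in
theorem exists_xyz {γ : K} (hγ : σ (σ (σ (σ γ))) = γ) (hγ0 : γ ≠ 0) (hγ1 : 1 - γ ^ 2 ≠ 0) :
    ∃ x y z : K, σ (σ (σ (σ x))) = -x ∧ σ (σ (σ (σ y))) = -y ∧ σ (σ (σ (σ z))) = -z ∧
      x ^ 2 + y * z = 1 ∧ 2 * x * σ x + y * σ z + z * σ y = 2 * γ := by
  have hch := ringChar_kf σ h2
  have hV := finrank_Vm σ h8 h4 h2
  obtain ⟨H, hΩ, hH⟩ := exists_H σ h8 h4 h2 hγ hγ0 hγ1
  have hH0 : (H : K) ≠ 0 := fun h => hH (Subtype.ext h)
  have hHH : σ (σ (H : K)) ≠ 0 := by simpa using hH0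
  set u0 : K := -((H : K) + γ * σ H - σ (σ (σ γ)) * σ (σ (σ H))) / σ (σ H) with hu0
  have hu02 : σ (σ u0) = -u0 := by
    rw [hu0]
    simp only [map_div₀, map_neg, map_sub, map_add, map_mul, Vfix, hγ]
    rw [div_eq_iff (neg_ne_zero.mpr hH0)]
    unfold Om at hΩ
    field_simp
    linear_combination hΩ
  have hrad : ∀ X : Vm σ, BB σ h8 1 γ u0 X H = 0 := by
    intro X
    rw [BB_apply]
    have : Lam σ 1 γ u0 (H : K) = 0 := by
      unfold Lam
      rw [hu0]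
      field_simp
      ring
    rw [this, mul_zero, map_zero, mul_zero]
  -- some form of the family is of the shape `X^2 + Y Z`
  have hex : ∃ u : Fm σ, ∃ X Y Z : Vm σ →ₗ[kf σ] kf σ, ∀ H,
      BB σ h8 1 γ u H H = X H ^ 2 + Y H * Z H := by
    by_contra hno
    push Not at hno
    have hC : ∀ u : Fm σ, ∑ H : Vm σ, quadraticChar (kf σ) (BB σ h8 1 γ u H H) ≤ 0 := by
      intro u
      rcases formC hch hV (BB σ h8 1 γ u) (BB_symm σ h8 h2 (by simp) hγ (Ffix σ u)) with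
        ⟨X, Y, Z, h⟩ | ⟨-, h⟩ | h
      · obtain ⟨H', hH'⟩ := hno u X Y Z
        exact absurd (h H') hH'
      · exact h.le
      · exact h.le
    have hC0 : ∑ H : Vm σ, quadraticChar (kf σ) (BB σ h8 1 γ u0 H H) < 0 := by
      rcases formC hch hV (BB σ h8 1 γ u0) (BB_symm σ h8 h2 (by simp) hγ hu02) with
        ⟨X, Y, Z, h⟩ | ⟨h, -⟩ | h
      · obtain ⟨H', hH'⟩ := hno ⟨u0, mem_Fm σ hu02⟩ X Y Z
        exact absurd (h H') hH'
      · exact absurd (h H hrad) hH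
      · exact h
    have hsum : ∑ u : Fm σ, ∑ H : Vm σ, quadraticChar (kf σ) (BB σ h8 1 γ u H H) = 0 := by
      rw [Finset.sum_comm]
      apply Finset.sum_eq_zero
      intro H _
      simp_rw [BB_u σ h8 h2 hγ]
      by_cases h0 : H = 0
      · apply Finset.sum_eq_zero
        intro u _
        have e1 : ell σ h8 ((H : K) * σ (σ H)) u = 0 := by
          rw [h0, ell_apply]; simp
        rw [e1, h0]; simp
      · have hK0 : (H : K) ≠ 0 := fun h => h0 (Subtype.ext h)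
        have hy0 : (H : K) * σ (σ H) ≠ 0 := mul_ne_zero hK0 (by simpa using hK0)
        have hy2 : σ (σ ((H : K) * σ (σ H))) = -((H : K) * σ (σ H)) := by
          simp only [map_mul, Vfix]; ring
        have h5 := shift_sum (ell σ h8 ((H : K) * σ (σ H))) (ell_ne σ h8 h2 hy0 hy2)
          (fun s => quadraticChar (kf σ) s) (BB σ h8 1 γ 0 H H)
        rw [quadraticChar_sum_zero hch, mul_zero] at h5
        have hq : (Fintype.card (kf σ) : ℤ) ≠ 0 := by exact_mod_cast Fintype.card_ne_zero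
        exact (mul_eq_zero.mp h5).resolve_left hq
    have h9 := (Finset.sum_eq_zero_iff_of_nonpos (fun u _ => hC u)).mp hsum
      ⟨u0, mem_Fm σ hu02⟩ (Finset.mem_univ _)
    exact absurd h9 (ne_of_lt hC0)
  obtain ⟨u, X, Y, Z, hXYZ⟩ := hex
  obtain ⟨x, hx⟩ := repV σ h8 h4 h2 X
  obtain ⟨y, hy⟩ := repV σ h8 h4 h2 Y
  obtain ⟨z, hz⟩ := repV σ h8 h4 h2 Z
  have hs := BB_symm σ h8 h2 (a := 1) (by simp) hγ (Ffix σ u)
  -- polarise
  have hpol : ∀ A C : Vm σ, 2 * BB σ h8 1 γ u A C = 2 * X A * X C + Y A * Z C + Y C * Z A := by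
    intro A C
    have h1 := hXYZ (A + C)
    have h3 := hXYZ A
    have h5 := hXYZ C
    simp only [map_add, LinearMap.add_apply] at h1
    rw [hs C A] at h1
    linear_combination h1 - h3 - h5
  have hLam : ∀ C : Vm σ, 2 * Lam σ 1 γ u (C : K) - (2 * (x : K) * (X C : kf σ)
      + y * (Z C : kf σ) + z * (Y C : kf σ)) = 0 := by
    intro C
    apply nondegV σ h8 h4 h2
    · apply mem_Vm
      unfold Lam
      simp only [map_mul, map_add, map_sub, map_neg, map_one, map_ofNat, Vfix, Ffix, hγ, kfix]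
      ring
    · intro A hA
      have h1 := hpol ⟨A, hA⟩ C
      rw [hx ⟨A, hA⟩, hy ⟨A, hA⟩, hz ⟨A, hA⟩, BB_apply, BB_apply, BB_apply, BB_apply] at h1
      have e1 : ∀ B : K, Lam σ 1 0 0 B = B := by
        intro B; unfold Lam; simp
      rw [e1] at h1
      have e2 : A * (2 * Lam σ 1 γ u (C : K) - (2 * (x : K) * (X C : kf σ)
          + y * (Z C : kf σ) + z * (Y C : kf σ)))
          = ((2 : kf σ) : K) * (A * Lam σ 1 γ u (C : K)) - (((2 * X C : kf σ) : K) * ((x : K) * A)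
            + ((Z C : kf σ) : K) * ((y : K) * A) + ((Y C : kf σ) : K) * ((z : K) * A)) := by
        have e0 : ((2 : kf σ) : K) = 2 := rfl
        rw [Subfield.coe_mul, e0]; ring
      rw [e2, map_sub, map_add, map_add, Tr_mul, Tr_mul, Tr_mul, Tr_mul]
      have h3 : (2 : kf σ) ≠ 0 := two_kf σ h2
      have h7 : (2 : kf σ) * (2 : kf σ)⁻¹ = 1 := mul_inv_cancel₀ h3
      linear_combination (2 : kf σ) * h1
        + (-(2 : kf σ) * Tr σ h8 (A * Lam σ 1 γ u (C : K)) + 2 * X C * Tr σ h8 ((x : K) * A)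
          + Z C * Tr σ h8 ((y : K) * A) + Y C * Tr σ h8 ((z : K) * A)) * h7
  have hd := dedV σ h8 h4 (a0 := 2 - (2 * (x : K) * x + y * z + z * y))
    (a1 := 2 * γ - (2 * (x : K) * σ x + y * σ z + z * σ y))
    (a2 := 2 * (u : K) - (2 * (x : K) * σ (σ x) + y * σ (σ z) + z * σ (σ y)))
    (a3 := -2 * σ (σ (σ γ)) - (2 * (x : K) * σ (σ (σ x)) + y * σ (σ (σ z))
      + z * σ (σ (σ y)))) (by
      intro C hC
      have h1 := hLam ⟨C, hC⟩
      rw [hx, hy, hz, BB_exp σ h8 h2 (by simp) (by simp) (by simp),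
        BB_exp σ h8 h2 (by simp) (by simp) (by simp),
        BB_exp σ h8 h2 (by simp) (by simp) (by simp)] at h1
      unfold Lam at h1
      simp only [map_one, map_zero] at h1
      linear_combination h1)
  obtain ⟨d0, d1, -, -⟩ := hd
  refine ⟨x, y, z, Vfix σ x, Vfix σ y, Vfix σ z, ?_, ?_⟩
  · apply mul_left_cancel₀ h2
    linear_combination -d0
  · linear_combination -d1

end ctx

end Pool.Agent.V11152.MO
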