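import Pool.Agent.V11152.MOi

namespace Pool.Agent.V11152.MO

section ctx

variable {K : Type} [Field K] [Fintype K] (σ : K →+* K)
variable (h8 : ∀ x, σ (σ (σ (σ (σ (σ (σ (σ x))))))) = x)
variable (h4 : ∃ x, σ (σ (σ (σ x))) ≠ x)
variable (h2 : (2 : K) ≠ 0)

include h8 h4 in
theorem reduction {δ t : K} (hδ : δ ≠ 0) (ht : σ t ≠ t) (ht' : σ (σ (σ (σ (σ t)))) ≠ t)
    (hP : (σ t - t) * (σ (σ (σ (σ (σ t)))) - σ (σ (σ (σ t))))
      = δ * σ (σ (σ (σ δ))) * ((σ (σ (σ (σ (σ t)))) - t) * (σ t - σ (σ (σ (σ t)))))) :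
    ∃ a x0 t : K, x0 ≠ 0 ∧ σ t ≠ t ∧
      a * x0 + σ x0 + δ * σ (σ (σ (σ (σ x0)))) = 0 ∧
      a * (t * x0) + σ (t * x0) + δ * σ (σ (σ (σ (σ (t * x0))))) = 0 := by
  have n2 : σ (σ (σ (σ (σ t)))) - t ≠ 0 := sub_ne_zero.mpr ht'
  have n3 : σ (σ (σ (σ δ))) ≠ 0 := by simpa using hδ
  have n4 : σ t - σ (σ (σ (σ t))) ≠ 0 := by
    have := (map_ne_zero (σ.comp (σ.comp (σ.comp σ)))).mpr n2
    simpa [h8] using this
  set v : K := -(σ t - t) / (δ * (σ (σ (σ (σ (σ t)))) - t)) with hv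
  have hvδ : δ * (σ (σ (σ (σ (σ t)))) - t) * v = -(σ t - t) := by
    rw [hv]; field_simp
  have hvv : v * σ (σ (σ (σ v))) = 1 := by
    rw [hv]
    simp only [map_div₀, map_neg, map_sub, map_mul, h8]
    rw [div_mul_div_comm, div_eq_one_iff_eq
      (mul_ne_zero (mul_ne_zero hδ n2) (mul_ne_zero n3 n4))]
    linear_combination hP
  set v' : K := σ (σ (σ (σ (σ (σ (σ v)))))) with hv'
  have hσv' : σ v' = v := by rw [hv', h8]
  have hv'v' : v' * σ (σ (σ (σ v'))) = 1 := by
    have h1 := congrArg (fun z => σ (σ (σ (σ (σ (σ (σ z))))))) hvv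
    simp only [map_mul, map_one] at h1
    rw [hv']
    simp only [h8] at h1 ⊢
    exact h1
  obtain ⟨x0, hx0, hx1⟩ : ∃ x0 : K, x0 ≠ 0 ∧ σ (σ (σ (σ x0))) = v' * x0 := by
    by_cases h1 : v' = -1
    · obtain ⟨ε, hε, hε2⟩ := exists_eps σ h8 h4
      refine ⟨ε, hε, ?_⟩
      rw [h1, hε2]; ring
    · refine ⟨1 + σ (σ (σ (σ v'))), ?_, ?_⟩
      · intro h
        apply h1
        have h3 : σ (σ (σ (σ v'))) = -1 := by linear_combination h
        rw [h3] at hv'v'
        linear_combination -hv'v'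
      · simp only [map_add, map_one, h8]
        linear_combination -hv'v'
  have h5 : σ (σ (σ (σ (σ x0)))) = v * σ x0 := by
    rw [hx1, map_mul, hσv']
  refine ⟨-(σ x0 + δ * σ (σ (σ (σ (σ x0))))) / x0, x0, t, hx0, ht, ?_, ?_⟩
  · rw [div_mul_cancel₀ _ hx0]; ring
  · have e1 : -(σ x0 + δ * σ (σ (σ (σ (σ x0))))) / x0 * (t * x0)
        = -t * (σ x0 + δ * σ (σ (σ (σ (σ x0))))) := by
      field_simp
    rw [e1]
    simp only [map_mul]
    rw [h5]
    linear_combination σ x0 * hvδ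

include h8 h4 h2 in
theorem main {δ : K} (hδ : δ ≠ 0) (hδ1 : δ * σ (σ (σ (σ δ))) ≠ -1) :
    ∃ a x0 t : K, x0 ≠ 0 ∧ σ t ≠ t ∧
      a * x0 + σ x0 + δ * σ (σ (σ (σ (σ x0)))) = 0 ∧
      a * (t * x0) + σ (t * x0) + δ * σ (σ (σ (σ (σ (t * x0))))) = 0 := by
  have hδ' : σ (σ (σ (σ δ))) ≠ 0 := by simpa using hδ
  set c : K := δ * σ (σ (σ (σ δ))) with hc
  have hcf : σ (σ (σ (σ c))) = c := by
    rw [hc]; simp only [map_mul, h8]; ring
  have hc0 : c ≠ 0 := mul_ne_zero hδ hδ'
  by_cases hc1 : c = 1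
  · obtain ⟨p, hp0, hp⟩ := exists_p σ h8 h4
    have hp4 : σ (σ (σ (σ p))) = p := by rw [hp, map_neg, map_neg, hp, neg_neg]
    have hp1 : σ p ≠ p := by
      intro h
      rw [h, h] at hp
      have : (2 : K) * p = 0 := by linear_combination hp
      exact (mul_ne_zero h2 hp0) this
    apply reduction σ h8 h4 (t := p) hδ hp1
    · rw [hp4]; exact hp1
    · rw [← hc, hc1, hp4]; ring
  · have hc1' : 1 - c ≠ 0 := fun h => hc1 (by linear_combination -h)
    have hc2 : 1 + c ≠ 0 := fun h => hδ1 (by linear_combination h)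
    set γ : K := (1 + c) / (1 - c) with hγ
    have hγ4 : σ (σ (σ (σ γ))) = γ := by
      rw [hγ]; simp only [map_div₀, map_add, map_sub, map_one, hcf]
    have hγ0 : γ ≠ 0 := div_ne_zero hc2 hc1'
    have e1 : 1 - γ = -2 * c / (1 - c) := by rw [hγ]; field_simp; ring
    have e2 : 1 + γ = 2 / (1 - c) := by rw [hγ]; field_simp; ring
    have hm : 1 - γ ≠ 0 := by
      rw [e1]
      exact div_ne_zero (mul_ne_zero (neg_ne_zero.mpr h2) hc0) hc1'
    have hp : 1 + γ ≠ 0 := by
      rw [e2]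
      exact div_ne_zero h2 hc1'
    have hγ1 : 1 - γ ^ 2 ≠ 0 := by
      have : 1 - γ ^ 2 = (1 - γ) * (1 + γ) := by ring
      rw [this]; exact mul_ne_zero hm hp
    have hrel : 1 - γ = -c * (1 + γ) := by rw [e1, e2]; ring
    obtain ⟨x, y, z, hx, hy, hz, h1, h3⟩ := exists_xyz σ h8 h4 h2 hγ4 hγ0 hγ1
    have hz0 : z ≠ 0 := by
      intro h
      rw [h, mul_zero, add_zero] at h1
      have h5 : (x - 1) * (x + 1) = 0 := by linear_combination h1
      rcases mul_eq_zero.mp h5 with h | h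
      · have h7 : x = 1 := by linear_combination h
        rw [h7] at hx
        simp only [map_one] at hx
        exact h2 (by linear_combination hx)
      · have h7 : x = -1 := by linear_combination h
        rw [h7] at hx
        simp only [map_neg, map_one] at hx
        exact h2 (by linear_combination -hx)
    have hσz : σ z ≠ 0 := by simpa using hz0
    set t : K := (1 + x) / z with ht
    have f1 : σ t = (1 + σ x) / σ z := by rw [ht]; simp only [map_div₀, map_add, map_one]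
    have f4 : σ (σ (σ (σ t))) = (x - 1) / z := by
      rw [ht]; simp only [map_div₀, map_add, map_one, hx, hz]
      rw [div_eq_div_iff (neg_ne_zero.mpr hz0) hz0]; ring
    have f5 : σ (σ (σ (σ (σ t)))) = (σ x - 1) / σ z := by
      rw [f4]; simp only [map_div₀, map_sub, map_one]
    have h1' : (σ x) ^ 2 + σ y * σ z = 1 := by
      rw [← map_pow, ← map_mul, ← map_add, h1, map_one]
    have hPP : (σ t - t) * (σ (σ (σ (σ (σ t)))) - σ (σ (σ (σ t)))) = 2 * (1 - γ) / (z * σ z) := by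
      rw [f5, f4, f1, ht, div_sub_div _ _ hσz hz0, div_sub_div _ _ hσz hz0, div_mul_div_comm,
        div_eq_div_iff (mul_ne_zero (mul_ne_zero hσz hz0) (mul_ne_zero hσz hz0))
          (mul_ne_zero hz0 hσz)]
      linear_combination (z * σ z) * (z ^ 2 * h1' + (σ z) ^ 2 * h1 - z * σ z * h3)
    have hQQ : (σ (σ (σ (σ (σ t)))) - t) * (σ t - σ (σ (σ (σ t)))) = -2 * (1 + γ) / (z * σ z) := by
      rw [f5, f4, f1, ht, div_sub_div _ _ hσz hz0, div_sub_div _ _ hσz hz0, div_mul_div_comm,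
        div_eq_div_iff (mul_ne_zero (mul_ne_zero hσz hz0) (mul_ne_zero hσz hz0))
          (mul_ne_zero hz0 hσz)]
      linear_combination (z * σ z) * (z ^ 2 * h1' + (σ z) ^ 2 * h1 - z * σ z * h3)
    have hP0 : 2 * (1 - γ) / (z * σ z) ≠ 0 :=
      div_ne_zero (mul_ne_zero h2 hm) (mul_ne_zero hz0 hσz)
    have hQ0 : -2 * (1 + γ) / (z * σ z) ≠ 0 :=
      div_ne_zero (mul_ne_zero (neg_ne_zero.mpr h2) hp) (mul_ne_zero hz0 hσz)
    apply reduction σ h8 h4 (t := t) hδ
    · intro h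
      apply hP0
      rw [← hPP, h, sub_self, zero_mul]
    · intro h
      apply hQ0
      rw [← hQQ, h, sub_self, zero_mul]
    · rw [hPP, hQQ, ← hc, hrel]
      ring

include h8 h2 in
/-- the case `N(δ) = -1` -/
theorem converse {δ a x0 t : K} (hδ1 : δ * σ (σ (σ (σ δ))) = -1) (hx0 : x0 ≠ 0)
    (e1 : a * x0 + σ x0 + δ * σ (σ (σ (σ (σ x0)))) = 0)
    (e2 : a * (t * x0) + σ (t * x0) + δ * σ (σ (σ (σ (σ (t * x0))))) = 0) : σ t = t := by
  by_contra hne
  have hσx0 : σ x0 ≠ 0 := by simpa using hx0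
  simp only [map_mul] at e2
  have h1 : (σ t - t) * σ x0 + δ * (σ (σ (σ (σ (σ t)))) - t) * σ (σ (σ (σ (σ x0)))) = 0 := by
    linear_combination e2 - t * e1
  have h3 := congrArg (fun z => σ (σ (σ (σ z)))) h1
  simp only [map_mul, map_add, map_sub, map_zero, h8] at h3
  have h5x : σ (σ (σ (σ (σ x0)))) ≠ 0 := by simpa using hx0
  have hPQ : (σ t - t) * (σ (σ (σ (σ (σ t)))) - σ (σ (σ (σ t))))
      + (σ (σ (σ (σ (σ t)))) - t) * (σ t - σ (σ (σ (σ t)))) = 0 := by
    have : (σ x0 * σ (σ (σ (σ (σ x0))))) * ((σ t - t) * (σ (σ (σ (σ (σ t)))) - σ (σ (σ (σ t))))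
      + (σ (σ (σ (σ (σ t)))) - t) * (σ t - σ (σ (σ (σ t))))) = 0 := by
      linear_combination ((σ (σ (σ (σ (σ t)))) - σ (σ (σ (σ t)))) * σ (σ (σ (σ (σ x0))))) * h1
        - δ * (σ (σ (σ (σ (σ t)))) - t) * σ (σ (σ (σ (σ x0)))) * h3
        + (σ (σ (σ (σ (σ t)))) - t) * (σ t - σ (σ (σ (σ t)))) * σ x0
          * σ (σ (σ (σ (σ x0)))) * hδ1
    exact (mul_eq_zero.mp this).resolve_left (mul_ne_zero hσx0 h5x)
  -- trace and norm to the quartic field
  set s : K := t + σ (σ (σ (σ t))) with hs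
  set N : K := t * σ (σ (σ (σ t))) with hN
  have hs4 : σ (σ (σ (σ s))) = s := by rw [hs]; simp only [map_add, h8]; ring
  have hN4 : σ (σ (σ (σ N))) = N := by rw [hN]; simp only [map_mul, h8]; ring
  have r0 : 2 * (N + σ N) = s * σ s := by
    rw [hs, hN]
    simp only [map_add, map_mul]
    linear_combination hPQ
  have r1 := congrArg σ r0
  have r2 := congrArg σ r1
  have r3 := congrArg σ r2
  simp only [map_mul, map_add, map_ofNat, hs4, hN4] at r1 r2 r3
  have hN0 : σ (σ N) = N ∧ σ (σ s) = s := by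
    by_cases h13 : σ s = σ (σ (σ s))
    · have k1 : s = σ (σ s) := by
        have := congrArg σ h13
        rw [hs4] at this
        exact this.symm
      refine ⟨?_, k1.symm⟩
      have k3 : (2 : K) * (σ (σ N) - N) = 0 := by
        rw [← k1] at r1
        linear_combination r1 - r0
      have := (mul_eq_zero.mp k3).resolve_left h2
      linear_combination this
    · exfalso
      apply h13
      have k1 : (σ (σ s) - s) * (σ s - σ (σ (σ s))) = 0 := by
        linear_combination r0 - r1 + r2 - r3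
      have k3 := (mul_eq_zero.mp k1).resolve_right (fun h => h13 (by linear_combination h))
      have k5 : σ (σ s) = s := by linear_combination k3
      rw [k5]
  obtain ⟨kN, ks⟩ := hN0
  set e : K := t - σ (σ (σ (σ t))) with he
  have he4 : σ (σ (σ (σ e))) = -e := by rw [he]; simp only [map_sub, h8]; ring
  have hee : e ^ 2 = s ^ 2 - 4 * N := by rw [he, hs, hN]; ring
  have hee2 : (σ (σ e)) ^ 2 = e ^ 2 := by
    rw [← map_pow, ← map_pow, hee]
    simp only [map_sub, map_mul, map_pow, map_ofNat, kN, ks]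
  have he0 : e = 0 := by
    have k1 : (σ (σ e) - e) * (σ (σ e) + e) = 0 := by linear_combination hee2
    have k3 : σ (σ (σ (σ e))) = e := by
      rcases mul_eq_zero.mp k1 with h | h
      · have : σ (σ e) = e := by linear_combination h
        rw [this, this]
      · have : σ (σ e) = -e := by linear_combination h
        rw [this, map_neg, map_neg, this, neg_neg]
    rw [he4] at k3
    have : (2 : K) * e = 0 := by linear_combination -k3
    exact (mul_eq_zero.mp this).resolve_left h2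
  have ht4 : σ (σ (σ (σ t))) = t := by
    rw [he] at he0
    linear_combination -he0
  rw [ht4] at hPQ
  have : (2 : K) * (σ t - t) ^ 2 = 0 := by linear_combination hPQ
  have h7 := (mul_eq_zero.mp this).resolve_left h2
  have h9 : σ t - t = 0 := by simpa using h7
  exact hne (by linear_combination h9)

end ctx

end Pool.Agent.V11152.MO
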