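import Mathlib

namespace Pool.Agent.V11152.MR

/-- sums over a shifted set with sign change vanish -/
theorem sum_shift {G : Type} [AddGroup G] (S : Finset G) (v : G)
    (hS : ∀ x, x ∈ S ↔ x + v ∈ S) (f : G → ℤ) (hf : ∀ x ∈ S, f (x + v) = -f x) :
    ∑ x ∈ S, f x = 0 := by
  have h1 : ∑ x ∈ S, f (x + v) = ∑ x ∈ S, f x := by
    apply Finset.sum_bij (fun x _ => x + v)
    · intro x hx; exact (hS x).mp hx
    · intro x _ y _ h; exact add_right_cancel h
    · intro y hy
      refine ⟨y - v, ?_, by simp⟩
      rw [hS]; simpa using hy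
    · intro x _; rfl
  have h2 : ∑ x ∈ S, f (x + v) = -∑ x ∈ S, f x := by
    rw [← Finset.sum_neg_distrib]
    exact Finset.sum_congr rfl hf
  linarith

theorem sum_shift_univ {G : Type} [AddGroup G] [Fintype G] (v : G) (f : G → ℤ)
    (hf : ∀ x, f (x + v) = -f x) : ∑ x, f x = 0 :=
  sum_shift Finset.univ v (by simp) f (fun x _ => hf x)

section psi

variable (k : Type) [Field k] [Fintype k] [CharP k 2]

/-- the Artin-Schreier map -/
def wp : k →+ k where
  toFun x := x ^ 2 + x
  map_zero' := by ring
  map_add' x y := by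
    rw [CharTwo.add_sq]; ring

theorem wp_ker : Nat.card (wp k).ker = 2 := by
  have h : ((wp k).ker : Set k) = {0, 1} := by
    ext x
    constructor
    · intro hx
      have h1 : x ^ 2 + x = 0 := hx
      have h2 : x * (x + 1) = 0 := by linear_combination h1
      rcases mul_eq_zero.mp h2 with h3 | h3
      · left; exact h3
      · right
        show x = 1
        linear_combination (norm := (ring_nf; try reduce_mod_char!)) h3
    · rintro (rfl | rfl)
      · show (0 : k) ^ 2 + 0 = 0
        ring
      · show (1 : k) ^ 2 + 1 = 0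
        rw [one_pow, CharTwo.add_self_eq_zero]
  have h2 : Nat.card (wp k).ker = Set.ncard ((wp k).ker : Set k) := rfl
  rw [h2, h, Set.ncard_pair zero_ne_one]

theorem wp_index : (wp k).range.index = 2 := by
  have h1 := AddSubgroup.card_mul_index (wp k).ker
  have h2 := AddSubgroup.card_mul_index (wp k).range
  rw [AddSubgroup.index_ker, wp_ker] at h1
  have h3 : 0 < Nat.card (wp k).range := Nat.card_pos
  have h4 : Nat.card (wp k).range * (wp k).range.index = Nat.card (wp k).range * 2 := by
    rw [h2, ← h1, mul_comm]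
  exact Nat.eq_of_mul_eq_mul_left h3 h4

variable {k}

open Classical in
/-- the quadratic additive character of `k` -/
noncomputable def psi (x : k) : ℤ := if x ∈ (wp k).range then 1 else -1

theorem psi_add (x y : k) : psi (x + y) = psi x * psi y := by
  have h := AddSubgroup.add_mem_iff_of_index_two (wp_index k) (a := x) (b := y)
  unfold psi
  by_cases hx : x ∈ (wp k).range <;> by_cases hy : y ∈ (wp k).range <;>
    simp [h, hx, hy]

theorem psi_zero : psi (0 : k) = 1 := if_pos (AddSubgroup.zero_mem _)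

theorem psi_wp (x : k) : psi (x ^ 2 + x) = 1 := if_pos ⟨x, rfl⟩

theorem psi_one_or (x : k) : psi x = 1 ∨ psi x = -1 := by
  unfold psi
  split_ifs <;> simp

theorem psi_sq_one (x : k) : psi x * psi x = 1 := by
  rcases psi_one_or x with h | h <;> rw [h] <;> norm_num

theorem psi_sq (x : k) : psi (x ^ 2) = psi x := by
  have h := psi_wp x
  rw [psi_add] at h
  rcases psi_one_or x with h1 | h1 <;> rw [h1] at h ⊢ <;> linarith

theorem psi_eq_one {x : k} (h : psi x = 1) : ∃ m : k, x = m ^ 2 + m := by
  unfold psi at h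
  split_ifs at h with h1
  · obtain ⟨m, hm⟩ := h1
    exact ⟨m, hm.symm⟩

theorem psi_nontriv : ∃ z : k, psi z = -1 := by
  by_contra hno
  push Not at hno
  have h : (wp k).range = ⊤ := by
    rw [eq_top_iff]
    intro x _
    have := hno x
    unfold psi at this
    split_ifs at this with h1
    · exact h1
    · exact absurd rfl this
  have h2 := wp_index k
  rw [h, AddSubgroup.index_top] at h2
  omega

theorem psi_mul_nontriv {c : k} (hc : c ≠ 0) : ∃ s : k, psi (s * c) = -1 := by
  obtain ⟨z, hz⟩ := psi_nontriv (k := k)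
  exact ⟨z / c, by rw [div_mul_cancel₀ _ hc]; exact hz⟩

theorem sum_psi_mul {c : k} (hc : c ≠ 0) : ∑ s : k, psi (s * c) = 0 := by
  obtain ⟨v, hv⟩ := psi_mul_nontriv hc
  apply sum_shift_univ v
  intro x
  rw [add_mul, psi_add, hv]; ring

theorem exists_sqrt (x : k) : ∃ y : k, y ^ 2 = x := by
  have hinj : Function.Injective (fun y : k => y ^ 2) := by
    intro a b h
    have h1 : (a + b) ^ 2 = 0 := by
      rw [CharTwo.add_sq]
      have : a ^ 2 = b ^ 2 := h
      rw [this, CharTwo.add_self_eq_zero]
    have h2 : a + b = 0 := by simpa using h1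
    linear_combination (norm := (ring_nf; try reduce_mod_char!)) h2
  exact (Finite.injective_iff_surjective.mp hinj) x

theorem sum_psi_sq {c : k} (hc : c ≠ 0) : ∑ x : k, psi (c * x ^ 2) = 0 := by
  obtain ⟨r, hr⟩ := exists_sqrt c
  have hr0 : r ≠ 0 := by rintro rfl; apply hc; rw [← hr]; ring
  rw [← sum_psi_mul hr0]
  apply Finset.sum_congr rfl
  intro x _
  rw [← psi_sq (x * r), mul_pow, hr, mul_comm]

theorem sum_D {a b f : k} (hf : f ≠ 0) :
    ∑ y : k, ∑ x : k, psi (a * x ^ 2 + b * y ^ 2 + f * x * y)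
      = (Fintype.card k : ℤ) * psi (a * b / f ^ 2) := by
  have key : ∀ y x : k, psi (a * x ^ 2 + b * y ^ 2 + f * x * y)
      = psi (b * y ^ 2) * psi ((a + f ^ 2 * y ^ 2) * x ^ 2) := by
    intro y x
    have h1 : psi ((a + f ^ 2 * y ^ 2) * x ^ 2) = psi (a * x ^ 2) * psi (f * x * y) := by
      rw [← psi_sq (f * x * y), ← psi_add]
      congr 1; ring
    rw [h1, psi_add, psi_add]; ring
  obtain ⟨r, hr⟩ := exists_sqrt a
  rw [Finset.sum_eq_single (r / f)]
  · simp_rw [key]
    rw [← Finset.mul_sum]
    have h0 : a + f ^ 2 * (r / f) ^ 2 = 0 := by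
      rw [div_pow, mul_div_cancel₀ _ (pow_ne_zero 2 hf), hr]
      exact CharTwo.add_self_eq_zero _
    have h1 : b * (r / f) ^ 2 = a * b / f ^ 2 := by
      rw [div_pow, hr]; ring
    rw [h0, h1]
    simp [psi_zero]
    ring
  · intro y _ hy
    simp_rw [key]
    rw [← Finset.mul_sum, sum_psi_sq, mul_zero]
    intro h
    apply hy
    have h1 : (f * y + r) ^ 2 = 0 := by
      rw [CharTwo.add_sq, mul_pow, hr, add_comm]; exact h
    have h2 : f * y + r = 0 := by simpa using h1
    rw [eq_div_iff hf]
    linear_combination (norm := (ring_nf; try reduce_mod_char!)) h2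
  · simp

theorem lemK_core {a b c d e f : k} (hf : f ≠ 0)
    (h : 0 < ∑ z : k, ∑ y : k, ∑ x : k,
      psi (a * x ^ 2 + b * y ^ 2 + c * z ^ 2 + d * y * z + e * x * z + f * x * y)) :
    ∃ r1 r2 r3 s1 s2 s3 : k, ∀ x y z : k,
      a * x ^ 2 + b * y ^ 2 + c * z ^ 2 + d * y * z + e * x * z + f * x * y
        = (r1 * x + r2 * y + r3 * z) * (s1 * x + s2 * y + s3 * z) := by
  set c' : k := c + a * (d / f) ^ 2 + b * (e / f) ^ 2 + d * e / f with hc'
  have hid : ∀ x y z : k,
      a * x ^ 2 + b * y ^ 2 + c * z ^ 2 + d * y * z + e * x * z + f * x * y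
      = (a * (x + d / f * z) ^ 2 + b * (y + e / f * z) ^ 2
          + f * (x + d / f * z) * (y + e / f * z)) + c' * z ^ 2 := by
    intro x y z
    rw [hc']
    have h1 : d = f * (d / f) := by field_simp
    have h2 : e = f * (e / f) := by field_simp
    have h3 : d * e / f = f * (d / f) * (e / f) := by field_simp
    rw [h3]
    set d1 := d / f
    set e1 := e / f
    rw [h1, h2]
    ring_nf
    reduce_mod_char!
  set D : ℤ := ∑ y : k, ∑ x : k, psi (a * x ^ 2 + b * y ^ 2 + f * x * y) with hD
  have hz : ∀ z : k, ∑ y : k, ∑ x : k,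
      psi (a * x ^ 2 + b * y ^ 2 + c * z ^ 2 + d * y * z + e * x * z + f * x * y)
      = D * psi (c' * z ^ 2) := by
    intro z
    have h1 : ∀ y : k, ∑ x : k,
      psi (a * x ^ 2 + b * y ^ 2 + c * z ^ 2 + d * y * z + e * x * z + f * x * y)
      = (∑ x : k, psi (a * x ^ 2 + b * (y + e / f * z) ^ 2 + f * x * (y + e / f * z)))
        * psi (c' * z ^ 2) := by
      intro y
      have h2 := Equiv.sum_comp (Equiv.addRight (d / f * z))
        (fun x => psi (a * x ^ 2 + b * (y + e / f * z) ^ 2 + f * x * (y + e / f * z)))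
      rw [← h2, Finset.sum_mul]
      apply Finset.sum_congr rfl
      intro x _
      rw [hid, psi_add]
      rfl
    simp_rw [h1]
    rw [← Finset.sum_mul, hD]
    congr 1
    exact Equiv.sum_comp (Equiv.addRight (e / f * z))
      (fun y => ∑ x : k, psi (a * x ^ 2 + b * y ^ 2 + f * x * y))
  simp_rw [hz] at h
  rw [← Finset.mul_sum] at h
  have hc0 : c' = 0 := by
    by_contra hne
    rw [sum_psi_sq hne, mul_zero] at h
    exact lt_irrefl _ h
  rw [hc0] at h
  simp only [zero_mul, psi_zero, Finset.sum_const, Finset.card_univ, nsmul_eq_mul, mul_one] at h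
  rw [hD, sum_D hf] at h
  have h1 : psi (a * b / f ^ 2) = 1 := by
    rcases psi_one_or (a * b / f ^ 2) with h2 | h2
    · exact h2
    · exfalso
      rw [h2] at h
      have h3 : (0 : ℤ) < (Fintype.card k : ℤ) := by exact_mod_cast Fintype.card_pos
      nlinarith
  obtain ⟨m, hm⟩ := psi_eq_one h1
  by_cases ha : a = 0
  · refine ⟨0, 1, e / f, f, b, d + b * (e / f), ?_⟩
    intro x y z
    rw [hid, hc0, ha]
    have h1 : d = f * (d / f) := by field_simp
    set d1 := d / f
    set e1 := e / f
    rw [h1]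
    ring
  · refine ⟨a, f * m, a * (d / f) + f * m * (e / f), 1, f / a * (m + 1),
      d / f + f / a * (m + 1) * (e / f), ?_⟩
    intro x y z
    rw [hid, hc0]
    have hb : b = f ^ 2 * (m ^ 2 + m) / a := by
      rw [← hm]; field_simp
    set d1 := d / f
    set e1 := e / f
    rw [hb]
    field_simp
    ring_nf
    reduce_mod_char!

theorem lemK {a b c d e f : k}
    (h : 0 < ∑ z : k, ∑ y : k, ∑ x : k,
      psi (a * x ^ 2 + b * y ^ 2 + c * z ^ 2 + d * y * z + e * x * z + f * x * y)) :
    ∃ r1 r2 r3 s1 s2 s3 : k, ∀ x y z : k,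
      a * x ^ 2 + b * y ^ 2 + c * z ^ 2 + d * y * z + e * x * z + f * x * y
        = (r1 * x + r2 * y + r3 * z) * (s1 * x + s2 * y + s3 * z) := by
  by_cases hf : f = 0
  · by_cases he : e = 0
    · by_cases hd : d = 0
      · obtain ⟨a', ha⟩ := exists_sqrt a
        obtain ⟨b', hb⟩ := exists_sqrt b
        obtain ⟨c', hc⟩ := exists_sqrt c
        refine ⟨a', b', c', a', b', c', ?_⟩
        intro x y z
        rw [hf, he, hd, ← ha, ← hb, ← hc]
        ring_nf
        reduce_mod_char!
      · -- swap x and z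
        have h' : 0 < ∑ z : k, ∑ y : k, ∑ x : k,
          psi (c * x ^ 2 + b * y ^ 2 + a * z ^ 2 + f * y * z + e * x * z + d * x * y) := by
          refine lt_of_lt_of_eq h ?_
          have h1 : ∀ z : k, ∑ y : k, ∑ x : k,
              psi (a * x ^ 2 + b * y ^ 2 + c * z ^ 2 + d * y * z + e * x * z + f * x * y)
              = ∑ x : k, ∑ y : k,
              psi (a * x ^ 2 + b * y ^ 2 + c * z ^ 2 + d * y * z + e * x * z + f * x * y) :=
            fun z => Finset.sum_comm
          simp_rw [h1]
          rw [Finset.sum_comm]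
          apply Finset.sum_congr rfl; intro x _
          rw [Finset.sum_comm]
          apply Finset.sum_congr rfl; intro y _
          apply Finset.sum_congr rfl; intro z _
          congr 1; ring
        obtain ⟨r1, r2, r3, s1, s2, s3, hr⟩ := lemK_core hd h'
        refine ⟨r3, r2, r1, s3, s2, s1, ?_⟩
        intro x y z
        linear_combination hr z y x
    · -- swap y and z
      have h' : 0 < ∑ z : k, ∑ y : k, ∑ x : k,
          psi (a * x ^ 2 + c * y ^ 2 + b * z ^ 2 + d * y * z + f * x * z + e * x * y) := by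
        refine lt_of_lt_of_eq h ?_
        rw [Finset.sum_comm]
        apply Finset.sum_congr rfl; intro x _
        apply Finset.sum_congr rfl; intro y _
        apply Finset.sum_congr rfl; intro z _
        congr 1; ring
      obtain ⟨r1, r2, r3, s1, s2, s3, hr⟩ := lemK_core he h'
      refine ⟨r1, r3, r2, s1, s3, s2, ?_⟩
      intro x y z
      linear_combination hr x z y
  · exact lemK_core hf h

end psi

end Pool.Agent.V11152.MR
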