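import Pool.Agent.V11152.MRa

namespace Pool.Agent.V11152.MR

section ctx

variable {F : Type} [Field F] [Fintype F] [CharP F 2] (σ : F →+* F)

/-- the fixed field of `σ` -/
def kk : Subfield F := σ.eqLocusField (RingHom.id F)

noncomputable instance : Fintype (kk σ) := Fintype.ofFinite _

instance : CharP (kk σ) 2 :=
  (RingHom.charP_iff (kk σ).subtype Subtype.coe_injective 2).mpr inferInstance

omit [Fintype F] [CharP F 2] in
theorem fix (x : kk σ) : σ (x : F) = x := x.2

omit [Fintype F] [CharP F 2] in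
theorem mem_kk {x : F} (h : σ x = x) : x ∈ kk σ := h

variable (h4 : ∀ x, σ (σ (σ (σ x))) = x)

/-- the trace to the fixed field -/
def T : F →ₗ[kk σ] kk σ where
  toFun x := ⟨x + σ x + σ (σ x) + σ (σ (σ x)), by
    show σ (x + σ x + σ (σ x) + σ (σ (σ x))) = x + σ x + σ (σ x) + σ (σ (σ x))
    simp only [map_add, h4]; ring⟩
  map_add' x y := Subtype.ext (by
    show (x + y) + σ (x + y) + σ (σ (x + y)) + σ (σ (σ (x + y)))
      = (x + σ x + σ (σ x) + σ (σ (σ x))) + (y + σ y + σ (σ y) + σ (σ (σ y)))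
    simp only [map_add]; ring)
  map_smul' c x := Subtype.ext (by
    show (c : F) * x + σ ((c : F) * x) + σ (σ ((c : F) * x)) + σ (σ (σ ((c : F) * x)))
      = (c : F) * (x + σ x + σ (σ x) + σ (σ (σ x)))
    simp only [map_mul, fix]; ring)

omit [Fintype F] [CharP F 2] in
theorem T_coe (x : F) : ((T σ h4 x : kk σ) : F) = x + σ x + σ (σ x) + σ (σ (σ x)) := rfl

omit [Fintype F] [CharP F 2] in
theorem T_mul (c : kk σ) (x : F) : T σ h4 ((c : F) * x) = c * T σ h4 x :=
  (T σ h4).map_smul c x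

omit [Fintype F] [CharP F 2] in
theorem T_sig (x : F) : T σ h4 (σ x) = T σ h4 x := by
  apply Subtype.ext
  rw [T_coe, T_coe, h4]; ring

omit [Fintype F] in
theorem T_sq (x : F) : T σ h4 (x ^ 2) = (T σ h4 x) ^ 2 := by
  apply Subtype.ext
  rw [T_coe]
  show _ = (x + σ x + σ (σ x) + σ (σ (σ x))) ^ 2
  simp only [map_pow]
  ring_nf
  reduce_mod_char!

variable (h2 : ∃ x, σ (σ x) ≠ x)

include h4 h2 in
omit [Fintype F] [CharP F 2] in
theorem ded {a0 a1 a2 a3 : F}
    (h : ∀ x, a0 * x + a1 * σ x + a2 * σ (σ x) + a3 * σ (σ (σ x)) = 0) :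
    a0 = 0 ∧ a1 = 0 ∧ a2 = 0 ∧ a3 = 0 := by
  have hord : orderOf σ = 2 ^ (1 + 1) := by
    have : Fact (Nat.Prime 2) := ⟨Nat.prime_two⟩
    apply orderOf_eq_prime_pow
    · intro hh
      obtain ⟨x, hx⟩ := h2
      apply hx
      have := RingHom.congr_fun hh x
      simpa [pow_succ] using this
    · ext x
      have := h4 x
      simpa [pow_succ] using this
  have hinj : Function.Injective (fun i : Fin 4 => ((σ ^ (i : ℕ) : F →+* F) : F →* F)) := by
    intro i j hij
    have h1 : (σ ^ (i : ℕ) : F →+* F) = σ ^ (j : ℕ) := RingHom.coe_monoidHom_injective hij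
    have h3 := pow_injOn_Iio_orderOf (x := σ) (by rw [hord]; exact i.2) (by rw [hord]; exact j.2) h1
    exact Fin.ext h3
  have hli := (linearIndependent_monoidHom F F).comp _ hinj
  rw [Fintype.linearIndependent_iff] at hli
  have h5 := hli ![a0, a1, a2, a3] (by
    funext x
    have := h x
    simpa [Fin.sum_univ_four, pow_succ] using this)
  exact ⟨h5 0, h5 1, h5 2, h5 3⟩

include h2 in
omit [Fintype F] [CharP F 2] in
theorem T_nondeg {a : F} (h : ∀ x, T σ h4 (a * x) = 0) : a = 0 := by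
  refine (ded σ h4 h2 (a0 := a) (a1 := σ a) (a2 := σ (σ a)) (a3 := σ (σ (σ a))) ?_).1
  intro x
  have := congrArg (fun z : kk σ => (z : F)) (h x)
  simp only [T_coe, map_mul] at this
  exact this

include h2 in
omit [Fintype F] [CharP F 2] in
theorem T_one : ∃ z, T σ h4 z = 1 := by
  have : ∃ z, T σ h4 z ≠ 0 := by
    by_contra hno
    push Not at hno
    have := T_nondeg σ h4 h2 (a := 1) (fun x => by rw [one_mul]; exact hno x)
    exact one_ne_zero this
  obtain ⟨z, hz⟩ := this
  refine ⟨((T σ h4 z)⁻¹ : kk σ) • z, ?_⟩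
  rw [map_smul, smul_eq_mul, inv_mul_cancel₀ hz]

include h4 h2 in
omit [Fintype F] in
theorem exists_omega : ∃ w : F, w + σ (σ w) = 1 := by
  obtain ⟨x, hx⟩ := h2
  have hd : x + σ (σ x) ≠ 0 := by
    intro h
    apply hx
    linear_combination (norm := (ring_nf; try reduce_mod_char!)) h
  refine ⟨x / (x + σ (σ x)), ?_⟩
  rw [map_div₀, map_div₀]
  simp only [map_add, h4]
  rw [add_comm (σ (σ x)) x, ← add_div, div_self hd]

variable {ω : F} (hω : ω + σ (σ ω) = 1)

/-- the character on `F₂` -/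
noncomputable def P2 (ω y : F) : ℤ := psi (T σ h4 (ω * y))

theorem P2_add (y z : F) : P2 σ h4 ω (y + z) = P2 σ h4 ω y * P2 σ h4 ω z := by
  unfold P2
  rw [mul_add, map_add, psi_add]

include hω in
omit [Fintype F] [CharP F 2] in
theorem T_om {y : F} (hy : σ (σ y) = y) {c : kk σ} (hc : y + σ y = c) :
    T σ h4 (ω * y) = c := by
  apply Subtype.ext
  rw [T_coe, ← hc]
  simp only [map_mul, hy]
  have h1 : σ ω + σ (σ (σ ω)) = 1 := by rw [← map_add, hω, map_one]
  linear_combination y * hω + σ y * h1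

include hω in
omit [Fintype F] [CharP F 2] in
theorem T_om_coe {y : F} (hy : σ (σ y) = y) :
    ((T σ h4 (ω * y) : kk σ) : F) = y + σ y := by
  rw [T_coe]
  simp only [map_mul, hy]
  have h1 : σ ω + σ (σ (σ ω)) = 1 := by rw [← map_add, hω, map_one]
  linear_combination y * hω + σ y * h1

include hω in
omit [Fintype F] [CharP F 2] in
theorem T_om_nn (x : F) : T σ h4 (ω * (x + σ (σ x))) = T σ h4 x := by
  apply Subtype.ext
  rw [T_om_coe σ h4 hω (by simp only [map_add, h4]; ring), T_coe]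
  simp only [map_add]; ring

open Classical in
/-- the middle field -/
noncomputable def F2 : Finset F := Finset.univ.filter (fun y => σ (σ y) = y)

theorem mem_F2 {y : F} : y ∈ F2 σ ↔ σ (σ y) = y := by simp [F2]

include h4 h2 in
omit [Fintype F] in
theorem exists_y1 : ∃ y : F, σ (σ y) = y ∧ y + σ y = 1 := by
  obtain ⟨z, hz⟩ := T_one σ h4 h2
  refine ⟨z + σ (σ z), by simp only [map_add, h4]; ring, ?_⟩
  have := congrArg (fun z : kk σ => (z : F)) hz
  simp only [T_coe] at this
  simp only [map_add]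
  rw [show ((1 : kk σ) : F) = 1 from rfl] at this
  linear_combination this

include h4 h2 in
theorem card_F2 : (F2 σ).card = Fintype.card (kk σ) ^ 2 := by
  obtain ⟨y1, hy1, hy2⟩ := exists_y1 σ h4 h2
  rw [sq, ← Fintype.card_prod, ← Finset.card_univ]
  symm
  have hy1n : y1 ∉ kk σ := by
    intro hm
    have h3 : σ y1 = y1 := hm
    rw [h3, CharTwo.add_self_eq_zero] at hy2
    exact zero_ne_one hy2
  apply Finset.card_bij (fun (p : kk σ × kk σ) _ => (p.1 : F) + (p.2 : F) * y1)
  · intro p _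
    rw [mem_F2]
    simp only [map_add, map_mul, fix, hy1]
  · intro p _ q _ h
    have h3 : ((p.2 : F) - q.2) * y1 = (q.1 : F) - p.1 := by linear_combination h
    by_cases h5 : (p.2 : F) - q.2 = 0
    · rw [h5, zero_mul] at h3
      ext
      · linear_combination h3
      · linear_combination h5
    · exfalso
      apply hy1n
      have : y1 = (((q.1 - p.1) / (p.2 - q.2) : kk σ) : F) := by
        push_cast
        rw [eq_div_iff h5]
        linear_combination h3
      rw [this]
      exact Subtype.property _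
  · intro y hy
    rw [mem_F2] at hy
    have hb : σ (y + σ y) = y + σ y := by rw [map_add, hy, add_comm]
    have ha : σ (y + (y + σ y) * y1) = y + (y + σ y) * y1 := by
      have h3 : σ y1 = y1 + 1 := by
        linear_combination (norm := (ring_nf; try reduce_mod_char!)) hy2
      simp only [map_add, map_mul, hy, h3]
      ring_nf
      reduce_mod_char!
    refine ⟨(⟨_, mem_kk σ ha⟩, ⟨_, mem_kk σ hb⟩), Finset.mem_univ _, ?_⟩
    show (y + (y + σ y) * y1) + (y + σ y) * y1 = y
    ring_nf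
    reduce_mod_char!

include hω h2 in
theorem P2_nontriv {c : F} (hc : c ≠ 0) (hc2 : σ (σ c) = c) :
    ∃ v ∈ F2 σ, P2 σ h4 ω (v * c) = -1 := by
  obtain ⟨y1, hy1, hy2⟩ := exists_y1 σ h4 h2
  obtain ⟨s, hs⟩ := psi_nontriv (k := kk σ)
  refine ⟨(s : F) * y1 / c, ?_, ?_⟩
  · rw [mem_F2]; simp only [map_div₀, map_mul, fix, hy1, hc2]
  · unfold P2
    rw [div_mul_cancel₀ _ hc, T_om σ h4 hω (c := s)]
    · exact hs
    · simp only [map_mul, fix, hy1]
    · simp only [map_mul, fix]
      linear_combination (s : F) * hy2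

include hω h2 in
theorem sum_P2 {c : F} (hc : c ≠ 0) (hc2 : σ (σ c) = c) :
    ∑ y ∈ F2 σ, P2 σ h4 ω (y * c) = 0 := by
  obtain ⟨v, hv, hv2⟩ := P2_nontriv σ h4 h2 hω hc hc2
  rw [mem_F2] at hv
  apply sum_shift (F2 σ) v
  · intro x
    rw [mem_F2, mem_F2, map_add, map_add, hv]
    simp
  · intro x _
    rw [add_mul, P2_add, hv2]; ring

end ctx

end Pool.Agent.V11152.MR
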