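import Pool.Agent.V11152.MRb

namespace Pool.Agent.V11152.MR

section ctx

variable {F : Type} [Field F] [Fintype F] [CharP F 2] (σ : F →+* F)
variable (h4 : ∀ x, σ (σ (σ (σ x))) = x) (h2 : ∃ x, σ (σ x) ≠ x)

omit [Fintype F] in
theorem sq_inj2 {x y : F} (h : x ^ 2 = y ^ 2) : x = y := by
  have h1 : (x + y) ^ 2 = 0 := by
    rw [CharTwo.add_sq, h, CharTwo.add_self_eq_zero]
  have h3 : x + y = 0 := by simpa using h1
  linear_combination (norm := (ring_nf; try reduce_mod_char!)) h3

include h2 in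
theorem AS {y : F} (h : psi (T σ h4 y) = 1) : ∃ z : F, z ^ 2 + z = y := by
  obtain ⟨s, hs⟩ := psi_nontriv (k := kk σ)
  obtain ⟨z1, hz1⟩ := T_one σ h4 h2
  have hy1 : psi (T σ h4 ((s : F) * z1)) = -1 := by rw [T_mul, hz1, mul_one]; exact hs
  have hr : ∀ y : F, y ∈ (wp F).range → psi (T σ h4 y) = 1 := by
    rintro _ ⟨z, rfl⟩
    show psi (T σ h4 (z ^ 2 + z)) = 1
    rw [map_add, T_sq]; exact psi_wp _
  have h1 : (s : F) * z1 ∉ (wp F).range := by
    intro hm
    have := hr _ hm
    rw [hy1] at this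
    norm_num at this
  by_contra hno
  have h3 : y ∉ (wp F).range := fun ⟨z, hz⟩ => hno ⟨z, hz⟩
  have h5 : y + (s : F) * z1 ∈ (wp F).range := by
    rw [AddSubgroup.add_mem_iff_of_index_two (wp_index F)]
    exact iff_of_false h3 h1
  have h6 := hr _ h5
  rw [map_add, psi_add, h, hy1] at h6
  norm_num at h6

variable {ω : F} (hω : ω + σ (σ ω) = 1)

include hω h2 in
theorem lem1_step {b : F} (hb : σ (σ b) = b) {c : kk σ} {κ : F}
    (hκ2 : σ (σ κ) = κ) (hκ : κ + σ κ = (c : F) ^ 2) (hκ0 : κ ≠ 0)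
    (hP : P2 σ h4 ω (b / κ) = -1) : ∃ x, x * σ (σ x) = b ∧ T σ h4 x = c := by
  have hbk : σ (σ (b / κ)) = b / κ := by simp only [map_div₀, hb, hκ2]
  have hT : T σ h4 (b / κ) = 0 := by
    apply Subtype.ext
    rw [T_coe, hbk]
    show _ = (0 : F)
    generalize σ (b / κ) = r
    ring_nf
    reduce_mod_char!
  obtain ⟨z, hz⟩ := AS σ h4 h2 (y := b / κ) (by rw [hT]; exact psi_zero)
  have h1 : (z + σ (σ z)) * (z + σ (σ z) + 1) = 0 := by
    have h3 : (σ (σ z)) ^ 2 + σ (σ z) = b / κ := by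
      rw [← map_pow, ← map_pow, ← map_add, ← map_add, hz, hbk]
    generalize b / κ = r at hz h3
    linear_combination (norm := (ring_nf; try reduce_mod_char!)) hz + h3
  rcases mul_eq_zero.mp h1 with h3 | h3
  · exfalso
    have hz2 : σ (σ z) = z := by
      linear_combination (norm := (ring_nf; try reduce_mod_char!)) h3
    have h6 : P2 σ h4 ω (b / κ) = 1 := by
      rw [← hz]
      unfold P2
      have h5 : T σ h4 (ω * (z ^ 2 + z)) = (T σ h4 (ω * z)) ^ 2 + T σ h4 (ω * z) := by
        apply Subtype.ext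
        rw [T_om_coe σ h4 hω (by simp only [map_add, map_pow, hz2])]
        show _ = ((T σ h4 (ω * z) : kk σ) : F) ^ 2 + ((T σ h4 (ω * z) : kk σ) : F)
        rw [T_om_coe σ h4 hω hz2]
        simp only [map_add, map_pow]
        ring_nf
        reduce_mod_char!
      rw [h5]
      exact psi_wp _
    rw [h6] at hP
    norm_num at hP
  · obtain ⟨u, hu⟩ := exists_sqrt κ
    have hu2 : σ (σ u) = u := by
      apply sq_inj2
      rw [← map_pow, ← map_pow, hu, hκ2]
    have huc : u + σ u = c := by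
      apply sq_inj2
      rw [CharTwo.add_sq, ← map_pow, hu, hκ]
    have hz2 : σ (σ z) = z + 1 := by
      linear_combination (norm := (ring_nf; try reduce_mod_char!)) h3
    refine ⟨u * z, ?_, ?_⟩
    · simp only [map_mul, hu2]
      rw [hz2]
      have h7 : b = κ * (z ^ 2 + z) := by rw [hz]; field_simp
      rw [h7, ← hu]; ring
    · apply Subtype.ext
      rw [T_coe]
      simp only [map_mul, hu2]
      rw [hz2, map_add, map_one]
      linear_combination (norm := (ring_nf; try reduce_mod_char!)) huc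

include h2 in
theorem lem1 {b : F} (hb : σ (σ b) = b) (hb0 : b ≠ 0) {c : kk σ} (hc : c ≠ 0) :
    ∃ x, x * σ (σ x) = b ∧ T σ h4 x = c := by
  classical
  obtain ⟨ω, hω⟩ := exists_omega σ h4 h2
  obtain ⟨y1, hy1, hy2⟩ := exists_y1 σ h4 h2
  set θ : F := (c : F) ^ 2 with hθ
  have hθ0 : θ ≠ 0 := pow_ne_zero 2 (by simpa using hc)
  have hθf : σ θ = θ := by rw [hθ, map_pow, fix]
  by_contra hno
  set K : Finset F := Finset.univ.filter (fun κ => σ (σ κ) = κ ∧ κ + σ κ = θ) with hK
  have memK : ∀ κ, κ ∈ K ↔ (σ (σ κ) = κ ∧ κ + σ κ = θ) := by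
    intro κ; rw [hK]; simp
  have hK0 : ∀ κ ∈ K, κ ≠ 0 := by
    intro κ hκ h0
    rw [memK, h0] at hκ
    apply hθ0
    rw [← hκ.2]; simp
  have hKσ : ∀ κ ∈ K, σ κ = κ + θ := by
    intro κ hκ
    rw [memK] at hκ
    linear_combination (norm := (ring_nf; try reduce_mod_char!)) hκ.2
  have hP : ∀ κ ∈ K, P2 σ h4 ω (b / κ) = 1 := by
    intro κ hκ
    rcases psi_one_or (T σ h4 (ω * (b / κ))) with h | h
    · exact h
    · exfalso
      apply hno
      have := (memK κ).mp hκ
      exact lem1_step σ h4 h2 hω hb this.1 this.2 (hK0 κ hκ) h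
  have cardK : K.card = Fintype.card (kk σ) := by
    rw [← Finset.card_univ]
    symm
    apply Finset.card_bij (fun (s : kk σ) _ => (s : F) + θ * y1)
    · intro s _
      rw [memK]
      simp only [map_add, map_mul, fix, hθf, hy1, true_and]
      linear_combination (norm := (ring_nf; try reduce_mod_char!)) θ * hy2
    · intro s _ s' _ h
      apply Subtype.ext
      exact add_right_cancel h
    · intro κ hκ
      have h1 : σ (κ + θ * y1) = κ + θ * y1 := by
        have h3 : σ y1 = y1 + 1 := by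
          linear_combination (norm := (ring_nf; try reduce_mod_char!)) hy2
        rw [map_add, map_mul, hKσ κ hκ, hθf, h3]
        ring_nf
        reduce_mod_char!
      refine ⟨⟨_, mem_kk σ h1⟩, Finset.mem_univ _, ?_⟩
      show κ + θ * y1 + θ * y1 = κ
      rw [add_assoc, CharTwo.add_self_eq_zero, add_zero]
  set Bad : Finset F := (F2 σ).filter (fun b' => ∀ κ ∈ K, P2 σ h4 ω (b' / κ) = 1) with hBad
  have memBad : ∀ b', b' ∈ Bad ↔ (σ (σ b') = b' ∧ ∀ κ ∈ K, P2 σ h4 ω (b' / κ) = 1) := by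
    intro b'; rw [hBad, Finset.mem_filter, mem_F2]
  have hclos : ∀ b' ∈ Bad, ∀ κ1 ∈ K, b' * (1 + θ / κ1) ∈ Bad := by
    intro b' hb' κ1 hκ1
    rw [memBad] at hb' ⊢
    have e1 := (memK κ1).mp hκ1
    refine ⟨by simp only [map_mul, map_add, map_one, map_div₀, hθf, e1.1, hb'.1], ?_⟩
    intro κ hκ
    have e := (memK κ).mp hκ
    have n1 := hK0 κ1 hκ1
    have n := hK0 κ hκ
    by_cases hs : κ + κ1 + θ = 0
    · have h5 : b' * (1 + θ / κ1) / κ = b' / κ1 := by
        have h6 : κ1 + θ = κ := by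
          linear_combination (norm := (ring_nf; try reduce_mod_char!)) hs
        rw [show (1 : F) + θ / κ1 = κ / κ1 by rw [← h6]; field_simp]
        field_simp
      rw [h5]
      exact hb'.2 κ1 hκ1
    · have hsf : σ (κ + κ1 + θ) = κ + κ1 + θ := by
        rw [map_add, map_add, hKσ κ hκ, hKσ κ1 hκ1, hθf]
        ring_nf
        reduce_mod_char!
      have hm : κ * κ1 / (κ + κ1 + θ) ∈ K := by
        rw [memK]
        constructor
        · rw [map_div₀, map_div₀, hsf, hsf, map_mul, map_mul, e.1, e1.1]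
        · rw [map_div₀, hsf, map_mul, hKσ κ hκ, hKσ κ1 hκ1, ← add_div, div_eq_iff hs]
          ring_nf
          reduce_mod_char!
      have h5 := hb'.2 _ hm
      have h6 := hb'.2 κ1 hκ1
      have h7 : b' / (κ * κ1 / (κ + κ1 + θ)) = b' / κ1 + b' * (1 + θ / κ1) / κ := by
        field_simp
        ring
      rw [h7, P2_add, h6, one_mul] at h5
      exact h5
  have hsum : ∑ b' ∈ F2 σ, (∑ κ ∈ K, P2 σ h4 ω (b' / κ)) ^ 2
      = (K.card : ℤ) * ((F2 σ).card : ℤ) := by
    have h1 : ∀ b' ∈ F2 σ, (∑ κ ∈ K, P2 σ h4 ω (b' / κ)) ^ 2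
        = ∑ κ ∈ K, ∑ κ' ∈ K, P2 σ h4 ω (b' * (1 / κ + 1 / κ')) := by
      intro b' _
      rw [sq, Finset.sum_mul_sum]
      apply Finset.sum_congr rfl; intro κ _
      apply Finset.sum_congr rfl; intro κ' _
      rw [← P2_add]
      congr 1; ring
    rw [Finset.sum_congr rfl h1, Finset.sum_comm]
    have h3 : ∀ κ ∈ K, ∑ b' ∈ F2 σ, ∑ κ' ∈ K, P2 σ h4 ω (b' * (1 / κ + 1 / κ'))
        = ((F2 σ).card : ℤ) := by
      intro κ hκ
      rw [Finset.sum_comm, Finset.sum_eq_single κ]
      · have h5 : 1 / κ + 1 / κ = 0 := CharTwo.add_self_eq_zero _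
        have h6 : ∀ x ∈ F2 σ, P2 σ h4 ω (x * (1 / κ + 1 / κ)) = 1 := by
          intro x _
          rw [h5]
          simp [P2, psi_zero]
        rw [Finset.sum_congr rfl h6]
        simp
      · intro κ' hκ' hne
        apply sum_P2 σ h4 h2 hω
        · intro h0
          apply hne
          have h6 : 1 / κ = 1 / κ' := by
            have := h0
            linear_combination (norm := (ring_nf; try reduce_mod_char!)) h0
          simpa using h6.symm
        · have e := (memK κ).mp hκ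
          have e' := (memK κ').mp hκ'
          simp only [map_add, map_div₀, map_one, e.1, e'.1]
      · intro h; exact absurd hκ h
    rw [Finset.sum_congr rfl h3]; simp
  have hBadle : (Bad.card : ℤ) * (K.card : ℤ) ^ 2 ≤ (K.card : ℤ) * ((F2 σ).card : ℤ) := by
    rw [← hsum]
    have h1 : ∑ b' ∈ Bad, (∑ κ ∈ K, P2 σ h4 ω (b' / κ)) ^ 2 = (Bad.card : ℤ) * (K.card : ℤ) ^ 2 := by
      have h3 : ∀ b' ∈ Bad, (∑ κ ∈ K, P2 σ h4 ω (b' / κ)) ^ 2 = (K.card : ℤ) ^ 2 := by
        intro b' hb'
        rw [Finset.sum_congr rfl ((memBad b').mp hb').2]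
        simp
      rw [Finset.sum_congr rfl h3]; simp
    rw [← h1]
    exact Finset.sum_le_sum_of_subset_of_nonneg (Finset.filter_subset _ _)
      (fun _ _ _ => sq_nonneg _)
  have hBadge : K.card + 1 ≤ Bad.card := by
    have hbm : b ∈ Bad := by rw [memBad]; exact ⟨hb, hP⟩
    have h1 : insert 0 (K.image (fun κ => b * (1 + θ / κ))) ⊆ Bad := by
      intro x hx
      rw [Finset.mem_insert, Finset.mem_image] at hx
      rcases hx with rfl | ⟨κ, hκ, rfl⟩
      · rw [memBad]
        refine ⟨by simp, ?_⟩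
        intro κ _
        simp [P2, psi_zero]
      · exact hclos b hbm κ hκ
    have h3 : (insert 0 (K.image (fun κ => b * (1 + θ / κ)))).card = K.card + 1 := by
      rw [Finset.card_insert_of_notMem, Finset.card_image_of_injOn]
      · intro κ hκ κ' hκ' h
        have h5 : b * (1 + θ / κ) = b * (1 + θ / κ') := h
        have h6 := mul_left_cancel₀ hb0 h5
        have h7 : θ / κ = θ / κ' := add_left_cancel h6
        have n := hK0 κ hκ
        have n' := hK0 κ' hκ'
        rw [div_eq_div_iff n n'] at h7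
        exact (mul_left_cancel₀ hθ0 h7).symm
      · rw [Finset.mem_image]
        rintro ⟨κ, hκ, h⟩
        have n := hK0 κ hκ
        rcases mul_eq_zero.mp h with h5 | h5
        · exact hb0 h5
        · have h6 : κ + θ = 0 := by
            have : κ * (1 + θ / κ) = 0 := by rw [h5, mul_zero]
            rw [mul_add, mul_one, mul_div_cancel₀ _ n] at this
            exact this
          rw [← hKσ κ hκ] at h6
          exact n (by simpa using h6)
    rw [← h3]
    exact Finset.card_le_card h1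
  rw [card_F2 σ h4 h2, cardK] at hBadle
  rw [cardK] at hBadge
  have hq : 0 < Fintype.card (kk σ) := Fintype.card_pos
  have h1 : ((Fintype.card (kk σ) : ℤ) + 1) ≤ (Bad.card : ℤ) := by exact_mod_cast hBadge
  have h3 : (0 : ℤ) < (Fintype.card (kk σ) : ℤ) := by exact_mod_cast hq
  push_cast at hBadle
  nlinarith [sq_nonneg (Fintype.card (kk σ) : ℤ), mul_pos h3 h3]

end ctx

end Pool.Agent.V11152.MR
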