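import Pool.Agent.V11152.MRc

namespace Pool.Agent.V11152.MR

section ctx

variable {F : Type} [Field F] [Fintype F] [CharP F 2] (σ : F →+* F)
variable (h4 : ∀ x, σ (σ (σ (σ x))) = x) (h2 : ∃ x, σ (σ x) ≠ x)

include h2 in
/-- the auxiliary element `g` -/
theorem exists_g {E e m : F} (hTm : T σ h4 m = 1) (hE : E + σ E = m ^ 2 + m)
    (he0 : e ≠ 0) (he1 : e ≠ 1) (hθ : T σ h4 (e + m) ≠ 0) :
    ∃ g : F, g + σ (σ g) = 1 ∧
      T σ h4 (E * g ^ 2) + T σ h4 ((e + m) * (g * σ g) * (1 + g + σ g))
        = (T σ h4 ((e + m) * (g * σ g))) ^ 2 := by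
  obtain ⟨a, ha⟩ := exists_sqrt (e ^ 2 + e)
  have ha0 : a ≠ 0 := by
    rintro rfl
    have h1 : e * (e + 1) = 0 := by linear_combination -ha
    rcases mul_eq_zero.mp h1 with h | h
    · exact he0 h
    · apply he1
      linear_combination (norm := (ring_nf; try reduce_mod_char!)) h
  obtain ⟨c, hc⟩ := exists_sqrt (T σ h4 (e + m))
  have hc0 : c ≠ 0 := by
    rintro rfl
    apply hθ
    rw [← hc]; ring
  have haa : a * σ (σ a) ≠ 0 := mul_ne_zero ha0 (by simpa using ha0)
  obtain ⟨x, hx1, hx2⟩ := lem1 σ h4 h2 (b := a * σ (σ a))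
    (by simp only [map_mul, h4]; ring) haa hc0
  set η : F := x / a with hη
  have hxa : x = a * η := by rw [hη]; field_simp
  have hηη : η * σ (σ η) = 1 := by
    have h1 : a * σ (σ a) * (η * σ (σ η)) = a * σ (σ a) * 1 := by
      have h3 : x * σ (σ x) = a * σ (σ a) * (η * σ (σ η)) := by
        rw [hxa]
        simp only [map_mul]
        ring
      rw [← h3, hx1, mul_one]
    exact mul_left_cancel₀ haa h1
  have hTη : T σ h4 η ≠ 0 := by
    intro h0
    have h1 : η + σ η + σ (σ η) + σ (σ (σ η)) = 0 := by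
      have := congrArg (fun z : kk σ => (z : F)) h0
      simp only [T_coe] at this
      exact this
    set u : F := η + σ (σ η) with hu
    have hσu : σ u = u := by
      rw [hu, map_add]
      linear_combination (norm := (ring_nf; try reduce_mod_char!)) h1
    have hηf : σ (σ η) = η := by
      by_cases hu0 : u = 0
      · linear_combination (norm := (ring_nf; try reduce_mod_char!)) hu0 - hu
      · set z : F := η / u with hz
        have hηz : η = u * z := by rw [hz]; field_simp
        have h3 : z ^ 2 + z = 1 / u ^ 2 := by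
          rw [hz]
          field_simp
          rw [hu]
          linear_combination (norm := (ring_nf; try reduce_mod_char!)) hηη
        have h5 : (σ z) ^ 2 + σ z = z ^ 2 + z := by
          rw [h3, ← map_pow, ← map_add, h3, map_div₀, map_one, map_pow, hσu]
        have h6 : (σ z + z) * (σ z + z + 1) = 0 := by
          linear_combination (norm := (ring_nf; try reduce_mod_char!)) h5
        have h7 : σ (σ z) = z := by
          rcases mul_eq_zero.mp h6 with h | h
          · have h8 : σ z = z := by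
              linear_combination (norm := (ring_nf; try reduce_mod_char!)) h
            rw [h8, h8]
          · have h8 : σ z = z + 1 := by
              linear_combination (norm := (ring_nf; try reduce_mod_char!)) h
            rw [h8, map_add, map_one, h8]
            ring_nf
            reduce_mod_char!
        rw [hηz, map_mul, map_mul, hσu, hσu, h7]
    have hη1 : η = 1 := by
      apply sq_inj2
      rw [one_pow, sq]
      rw [hηf] at hηη
      exact hηη
    rw [hη1, mul_one] at hxa
    have h8 : (T σ h4 e) ^ 2 + T σ h4 e = T σ h4 e + 1 := by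
      rw [← T_sq, ← map_add, ← ha, T_sq, ← hxa, hx2, hc, map_add, hTm]
    have h9 : T σ h4 e = 1 := by
      apply sq_inj2
      rw [one_pow]
      exact add_left_cancel (a := T σ h4 e) (by rw [← h8]; ring)
    apply hθ
    rw [map_add, hTm, h9, CharTwo.add_self_eq_zero]
  -- the normalised element
  set r : kk σ := T σ h4 η with hr
  set y : F := ((r⁻¹ : kk σ) : F) * η with hy
  have hTy : T σ h4 y = 1 := by rw [hy, T_mul, ← hr, inv_mul_cancel₀ hTη]
  set n : kk σ := (r⁻¹) ^ 2 with hn
  have hyn : y * σ (σ y) = n := by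
    rw [hy, map_mul, map_mul, fix, fix, hn]
    push_cast
    linear_combination ((r : F)⁻¹) ^ 2 * hηη
  have hTe : T σ h4 ((e ^ 2 + e) * y ^ 2) = n * T σ h4 (e + m) := by
    have h1 : (e ^ 2 + e) * y ^ 2 = ((n : kk σ) : F) * x ^ 2 := by
      rw [hy, hxa, ← ha, hn]; push_cast; ring
    rw [h1, T_mul, T_sq, hx2, hc]
  have hTy' : y + σ y + σ (σ y) + σ (σ (σ y)) = 1 := by
    have := congrArg (fun z : kk σ => (z : F)) hTy
    simp only [T_coe] at this
    exact this
  have hyn' : σ y * σ (σ (σ y)) = n := by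
    rw [← map_mul, hyn, fix]
  set g : F := y + σ (σ (σ y)) with hg
  have hσg : σ g = σ y + y := by rw [hg, map_add, h4]
  have hgg : g * σ g = y := by
    rw [hσg, hg]
    have h1 : σ (σ y) = 1 + y + σ y + σ (σ (σ y)) := by
      linear_combination (norm := (ring_nf; try reduce_mod_char!)) hTy'
    have h3 : y * σ (σ y) = σ y * σ (σ (σ y)) := by rw [hyn, hyn']
    linear_combination (norm := (ring_nf; try reduce_mod_char!)) h3 + y * h1
  have hg1 : 1 + g + σ g = y + σ (σ y) := by
    rw [hσg, hg]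
    linear_combination (norm := (ring_nf; try reduce_mod_char!)) hTy'
  refine ⟨g, ?_, ?_⟩
  · rw [hσg, map_add, hg]
    linear_combination (norm := (ring_nf; try reduce_mod_char!)) hTy'
  · rw [hgg, hg1]
    have A1 : T σ h4 (E * g ^ 2) = T σ h4 (m ^ 2 * y ^ 2) + T σ h4 (m * y ^ 2) := by
      have h1 : E * g ^ 2 = E * y ^ 2 + E * (σ (σ (σ y))) ^ 2 := by
        rw [hg, CharTwo.add_sq]; ring
      have h5 : T σ h4 (E * (σ (σ (σ y))) ^ 2) = T σ h4 (σ E * y ^ 2) := by
        rw [← T_sig σ h4 (E * (σ (σ (σ y))) ^ 2), map_mul σ, map_pow σ, h4]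
      rw [h1, map_add, h5, ← map_add, ← map_add]
      congr 1
      linear_combination y ^ 2 * hE
    have A2 : T σ h4 ((e + m) * y * (y + σ (σ y)))
        = T σ h4 ((e + m) * y ^ 2) + n * T σ h4 (e + m) := by
      rw [← T_mul, ← map_add]
      congr 1
      linear_combination (e + m) * hyn
    rw [A1, A2, ← hTe, ← T_sq, ← map_add, ← map_add, ← map_add]
    congr 1
    ring_nf
    reduce_mod_char!

/-- the linear map of the polar form -/
def L (b u h : F) : F := b * σ h + σ (σ (σ (b * h))) + u * σ (σ h)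

/-- the quadratic form -/
def Q (ω E b u x : F) : kk σ :=
  T σ h4 (E * x ^ 2) + T σ h4 (b * (x * σ x)) + T σ h4 (ω * (u * (x * σ (σ x))))

/-- the polar form -/
def B (b u x h : F) : kk σ := T σ h4 (x * L σ b u h)

theorem L_add (b u x y : F) : L σ b u (x + y) = L σ b u x + L σ b u y := by
  unfold L
  simp only [mul_add, map_add]; ring

theorem L_smul (b u : F) (c : kk σ) (x : F) : L σ b u ((c : F) * x) = (c : F) * L σ b u x := by
  unfold L
  simp only [map_mul, fix]; ring

theorem B_add_left (b u x y h : F) : B σ h4 b u (x + y) h = B σ h4 b u x h + B σ h4 b u y h := by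
  unfold B
  rw [add_mul, map_add]

theorem B_add_right (b u x y h : F) : B σ h4 b u h (x + y) = B σ h4 b u h x + B σ h4 b u h y := by
  unfold B
  rw [L_add, mul_add, map_add]

theorem B_smul_left (b u : F) (c : kk σ) (x h : F) :
    B σ h4 b u ((c : F) * x) h = c * B σ h4 b u x h := by
  unfold B
  rw [mul_assoc, T_mul]

theorem B_smul_right (b u : F) (c : kk σ) (x h : F) :
    B σ h4 b u x ((c : F) * h) = c * B σ h4 b u x h := by
  unfold B
  rw [L_smul, mul_left_comm, T_mul]

variable {ω : F} (hω : ω + σ (σ ω) = 1)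

theorem Q_smul (E b u : F) (c : kk σ) (x : F) :
    Q σ h4 ω E b u ((c : F) * x) = c ^ 2 * Q σ h4 ω E b u x := by
  unfold Q
  have e1 : E * ((c : F) * x) ^ 2 = ((c ^ 2 : kk σ) : F) * (E * x ^ 2) := by push_cast; ring
  have e2 : b * ((c : F) * x * σ ((c : F) * x)) = ((c ^ 2 : kk σ) : F) * (b * (x * σ x)) := by
    rw [map_mul, fix]; push_cast; ring
  have e3 : ω * (u * ((c : F) * x * σ (σ ((c : F) * x))))
      = ((c ^ 2 : kk σ) : F) * (ω * (u * (x * σ (σ x)))) := by
    rw [map_mul, map_mul, fix, fix]; push_cast; ring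
  rw [e1, e2, e3, T_mul, T_mul, T_mul]; ring

include hω in
theorem Q_add (E b : F) {u : F} (hu : σ (σ u) = u) (x h : F) :
    Q σ h4 ω E b u (x + h) = Q σ h4 ω E b u x + Q σ h4 ω E b u h + B σ h4 b u x h := by
  have e1 : T σ h4 (E * (x + h) ^ 2) = T σ h4 (E * x ^ 2) + T σ h4 (E * h ^ 2) := by
    rw [← map_add]; congr 1; rw [CharTwo.add_sq]; ring
  have e2 : T σ h4 (b * ((x + h) * σ (x + h)))
      = T σ h4 (b * (x * σ x)) + T σ h4 (b * (h * σ h)) + T σ h4 (x * (b * σ h))
        + T σ h4 (x * σ (σ (σ (b * h)))) := by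
    have e3 : T σ h4 (x * σ (σ (σ (b * h)))) = T σ h4 (σ x * (b * h)) := by
      rw [← T_sig σ h4 (x * σ (σ (σ (b * h)))), map_mul, h4]
    rw [e3, ← map_add, ← map_add, ← map_add]
    congr 1
    rw [map_add]; ring
  have e4 : T σ h4 (ω * (u * ((x + h) * σ (σ (x + h)))))
      = T σ h4 (ω * (u * (x * σ (σ x)))) + T σ h4 (ω * (u * (h * σ (σ h))))
        + T σ h4 (x * (u * σ (σ h))) := by
    rw [← T_om_nn σ h4 hω (x * (u * σ (σ h))), ← map_add, ← map_add]
    congr 1
    simp only [map_add, map_mul, hu, h4]; ring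
  unfold Q B
  rw [e1, e2, e4]
  unfold L
  rw [mul_add, mul_add, map_add, map_add]
  ring

include hω in
theorem B_self (b : F) {u : F} (hu : σ (σ u) = u) (x : F) : B σ h4 b u x x = 0 := by
  have h1 := Q_add σ h4 hω 0 b hu x x
  rw [CharTwo.add_self_eq_zero, CharTwo.add_self_eq_zero, zero_add] at h1
  rw [← h1]
  unfold Q
  simp

include hω in
theorem B_symm (b : F) {u : F} (hu : σ (σ u) = u) (x h : F) :
    B σ h4 b u x h = B σ h4 b u h x := by
  have h1 := Q_add σ h4 hω 0 b hu x h
  have h3 := Q_add σ h4 hω 0 b hu h x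
  rw [add_comm x h, h3] at h1
  linear_combination -h1

include hω in
theorem Q_exp (E b : F) {u : F} (hu : σ (σ u) = u) (z g x h : F) (j s t : kk σ) :
    Q σ h4 ω E b u (z + ((j : F) * g + (s : F) * x + (t : F) * h))
      = Q σ h4 ω E b u z + (j * B σ h4 b u z g + s * B σ h4 b u z x + t * B σ h4 b u z h)
        + (j ^ 2 * Q σ h4 ω E b u g + s ^ 2 * Q σ h4 ω E b u x + t ^ 2 * Q σ h4 ω E b u h
          + s * t * B σ h4 b u x h + j * t * B σ h4 b u g h + j * s * B σ h4 b u g x) := by
  rw [Q_add σ h4 hω E b hu, Q_add σ h4 hω E b hu, Q_add σ h4 hω E b hu]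
  simp only [Q_smul, B_add_left, B_add_right, B_smul_left, B_smul_right]
  ring

end ctx

end Pool.Agent.V11152.MR
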