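import Pool.Agent.V11152.MRd

namespace Pool.Agent.V11152.MR

section ctx

variable {F : Type} [Field F] [Fintype F] [CharP F 2] (σ : F →+* F)
variable (h4 : ∀ x, σ (σ (σ (σ x))) = x) (h2 : ∃ x, σ (σ x) ≠ x)
variable {ω : F} (hω : ω + σ (σ ω) = 1)

include hω in
/-- the special parameter `u` attached to `g` -/
theorem exists_u {E b g : F} (hg : g + σ (σ g) = 1)
    (hA : T σ h4 (E * g ^ 2) + T σ h4 (b * (g * σ g) * (1 + g + σ g))
        = (T σ h4 (b * (g * σ g))) ^ 2) :
    ∃ u : F, σ (σ u) = u ∧ (∀ x, B σ h4 b u x g = T σ h4 (b * (g * σ g)) * T σ h4 x) ∧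
      Q σ h4 ω E b u g = (T σ h4 (b * (g * σ g))) ^ 2 := by
  have hg0 : g ≠ 0 := by
    rintro rfl
    simp at hg
  have hgg0 : σ (σ g) ≠ 0 := by simpa using hg0
  set l : kk σ := T σ h4 (b * (g * σ g)) with hl
  have hlc : (l : F) = b * g * σ g + σ b * σ g * σ (σ g) + σ (σ b) * σ (σ g) * σ (σ (σ g))
      + σ (σ (σ b)) * σ (σ (σ g)) * g := by
    rw [hl, T_coe]
    simp only [map_mul, h4]; ring
  set u : F := ((l : F) + b * σ g + σ (σ (σ (b * g)))) / σ (σ g) with hu
  have huw : u * σ (σ g) = (l : F) + b * σ g + σ (σ (σ (b * g))) := by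
    rw [hu]; field_simp
  have hu2 : σ (σ u) = u := by
    rw [hu, map_div₀, map_div₀]
    simp only [map_add, map_mul, h4, fix]
    rw [div_eq_div_iff hg0 hgg0]
    linear_combination (norm := (ring_nf; try reduce_mod_char!)) (l : F) * hg + hlc
  refine ⟨u, hu2, ?_, ?_⟩
  · intro x
    unfold B
    have hL : L σ b u g = (l : F) := by
      unfold L
      rw [huw]
      linear_combination (norm := (ring_nf; try reduce_mod_char!)) (0 : F) = 0
    rw [hL, mul_comm, T_mul]
  · have h3 : T σ h4 (ω * (u * (g * σ (σ g)))) = T σ h4 (b * (g * σ g) * (g + σ g)) := by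
      apply Subtype.ext
      have e1 : u * (g * σ (σ g)) = g * ((l : F) + b * σ g + σ (σ (σ (b * g)))) := by
        rw [← huw]; ring
      rw [T_om_coe σ h4 hω (by simp only [map_mul, hu2, h4]; ring), T_coe, e1]
      have e2 : σ (σ g) = 1 + g := by
        linear_combination (norm := (ring_nf; try reduce_mod_char!)) hg
      have e3 : σ (σ (σ g)) = 1 + σ g := by rw [e2, map_add, map_one]
      simp only [map_add, map_mul, h4, fix]
      rw [hlc]
      simp only [e3]
      simp only [e2]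
      ring_nf
      reduce_mod_char!
    have e4 : T σ h4 (b * (g * σ g) * (1 + g + σ g))
        = T σ h4 (b * (g * σ g)) + T σ h4 (b * (g * σ g) * (g + σ g)) := by
      rw [← map_add]; congr 1; ring
    unfold Q
    rw [h3, ← hA, e4]; ring

include h2 in
theorem exists_xh {b u : F} (hu : σ (σ u) = u) (hb : T σ h4 b ≠ 0) :
    ∃ x h, T σ h4 x = 0 ∧ T σ h4 h = 0 ∧ B σ h4 b u x h ≠ 0 := by
  by_contra hno
  push Not at hno
  have hT0 : ∀ w, T σ h4 (w + σ w) = 0 := by
    intro w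
    rw [map_add, T_sig, CharTwo.add_self_eq_zero]
  have key : ∀ z, L σ b u (z + σ z) + σ (L σ b u (z + σ z)) = 0 := by
    intro z
    have h1 : L σ b u (z + σ z) + σ (σ (σ (L σ b u (z + σ z)))) = 0 := by
      apply T_nondeg σ h4 h2
      intro w
      have h3 := hno (w + σ w) (z + σ z) (hT0 w) (hT0 z)
      unfold B at h3
      set M := L σ b u (z + σ z)
      have h5 : T σ h4 (σ w * M) = T σ h4 (w * σ (σ (σ M))) := by
        rw [← T_sig σ h4 (w * σ (σ (σ M))), map_mul σ, h4]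
      rw [add_mul, map_add, h5, ← map_add] at h3
      rw [← h3]; congr 1; ring
    have h6 := congrArg σ h1
    rw [map_add, h4, map_zero] at h6
    linear_combination h6
  have hd := ded σ h4 h2 (a0 := σ (σ (σ b)) + b + σ u) (a1 := 0) (a2 := b + u + σ b)
    (a3 := σ (σ (σ b)) + u + σ b + σ u) (by
      intro z
      have h1 := key z
      unfold L at h1
      simp only [map_add, map_mul, h4, hu] at h1
      linear_combination (norm := (ring_nf; try reduce_mod_char!)) h1)
  obtain ⟨d0, -, d2, -⟩ := hd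
  apply hb
  apply Subtype.ext
  rw [T_coe]
  have d3 := congrArg σ d2
  rw [map_add, map_add, map_zero] at d3
  show _ = (0 : F)
  linear_combination (norm := (ring_nf; try reduce_mod_char!)) d0 + d3

/-- the character sum -/
noncomputable def S (ω E b z g x h u : F) : ℤ :=
  ∑ t : kk σ, ∑ s : kk σ, ∑ j : kk σ,
    psi (Q σ h4 ω E b u (z + ((j : F) * g + (s : F) * x + (t : F) * h)))

include hω in
theorem S_ne {E b z g x h u : F} (hu : σ (σ u) = u) {l : kk σ}
    (hBg : ∀ x, B σ h4 b u x g = l * T σ h4 x) (hQg : Q σ h4 ω E b u g = l ^ 2)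
    (hz : T σ h4 z = 1) (hx : T σ h4 x = 0) (hh : T σ h4 h = 0)
    (hf : B σ h4 b u x h ≠ 0) : S σ h4 ω E b z g x h u ≠ 0 := by
  have e1 : B σ h4 b u z g = l := by rw [hBg, hz, mul_one]
  have e2 : B σ h4 b u g h = 0 := by rw [B_symm σ h4 hω b hu, hBg, hh, mul_zero]
  have e3 : B σ h4 b u g x = 0 := by rw [B_symm σ h4 hω b hu, hBg, hx, mul_zero]
  have key : ∀ t s j : kk σ,
      psi (Q σ h4 ω E b u (z + ((j : F) * g + (s : F) * x + (t : F) * h)))
      = psi (Q σ h4 ω E b u z) *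
        psi ((Q σ h4 ω E b u x + (B σ h4 b u z x) ^ 2) * s ^ 2
          + (Q σ h4 ω E b u h + (B σ h4 b u z h) ^ 2) * t ^ 2 + B σ h4 b u x h * s * t) := by
    intro t s j
    rw [Q_exp σ h4 hω E b hu, e1, e2, e3, hQg]
    set A := Q σ h4 ω E b u x
    set C := Q σ h4 ω E b u h
    set f := B σ h4 b u x h
    set B1 := B σ h4 b u z x
    set B2 := B σ h4 b u z h
    set Z := Q σ h4 ω E b u z
    have h1 : Z + (j * l + s * B1 + t * B2) + (j ^ 2 * l ^ 2 + s ^ 2 * A + t ^ 2 * C
        + s * t * f + j * t * 0 + j * s * 0)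
        = Z + (((j * l) ^ 2 + j * l) + (s * B1 + (t * B2 + (A * s ^ 2 + C * t ^ 2 + f * s * t)))) := by
      ring
    have h3 : (A + B1 ^ 2) * s ^ 2 + (C + B2 ^ 2) * t ^ 2 + f * s * t
        = (s * B1) ^ 2 + ((t * B2) ^ 2 + (A * s ^ 2 + C * t ^ 2 + f * s * t)) := by ring
    rw [h1, h3, psi_add, psi_add, psi_wp, one_mul, psi_add (s * B1), psi_add (t * B2),
      psi_add ((s * B1) ^ 2), psi_add ((t * B2) ^ 2), psi_sq, psi_sq]
  unfold S
  simp_rw [key]
  simp only [Finset.sum_const, Finset.card_univ, nsmul_eq_mul]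
  simp_rw [← Finset.mul_sum]
  rw [sum_D hf]
  have hq : (Fintype.card (kk σ) : ℤ) ≠ 0 := by
    exact_mod_cast Fintype.card_ne_zero
  have hp : ∀ y : kk σ, psi y ≠ 0 := by
    intro y
    rcases psi_one_or y with h | h <;> rw [h] <;> norm_num
  exact mul_ne_zero hq (mul_ne_zero (hp _) (mul_ne_zero hq (hp _)))

include hω h2 in
theorem S_sum {E b z g x h : F} (hz : T σ h4 z = 1) (hg : T σ h4 g = 0) (hx : T σ h4 x = 0)
    (hh : T σ h4 h = 0) : ∑ u ∈ F2 σ, S σ h4 ω E b z g x h u = 0 := by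
  unfold S
  rw [Finset.sum_comm]
  apply Finset.sum_eq_zero; intro t _
  rw [Finset.sum_comm]
  apply Finset.sum_eq_zero; intro s _
  rw [Finset.sum_comm]
  apply Finset.sum_eq_zero; intro j _
  set X : F := z + ((j : F) * g + (s : F) * x + (t : F) * h) with hX
  have hTX : T σ h4 X = 1 := by
    rw [hX, map_add, map_add, map_add, T_mul, T_mul, T_mul, hz, hg, hx, hh]; simp
  have hX0 : X ≠ 0 := by
    intro h0
    rw [h0, map_zero] at hTX
    exact zero_ne_one hTX
  have h1 : ∀ u ∈ F2 σ, psi (Q σ h4 ω E b u X)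
      = psi (T σ h4 (E * X ^ 2) + T σ h4 (b * (X * σ X))) * P2 σ h4 ω (u * (X * σ (σ X))) := by
    intro u _
    unfold Q P2
    rw [psi_add]
  rw [Finset.sum_congr rfl h1, ← Finset.mul_sum, sum_P2 σ h4 h2 hω, mul_zero]
  · exact mul_ne_zero hX0 (by simpa using hX0)
  · simp only [map_mul, h4]; ring

end ctx

end Pool.Agent.V11152.MR
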