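import Pool.Agent.V11152.MRe

namespace Pool.Agent.V11152.MR

section ctx

variable {F : Type} [Field F] [Fintype F] [CharP F 2] (σ : F →+* F)
variable (h4 : ∀ x, σ (σ (σ (σ x))) = x) (h2 : ∃ x, σ (σ x) ≠ x)

include h4 h2 in
theorem card_F : Fintype.card F = Fintype.card (kk σ) ^ 4 := by
  obtain ⟨ω, hω⟩ := exists_omega σ h4 h2
  have h1 : (F2 σ ×ˢ F2 σ).card = (Finset.univ : Finset F).card := by
    apply Finset.card_bij (fun (p : F × F) _ => p.1 + p.2 * ω)
    · intro p _; exact Finset.mem_univ _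
    · rintro ⟨a, b⟩ hp ⟨a', b'⟩ hp' h
      rw [Finset.mem_product, mem_F2, mem_F2] at hp hp'
      have h3 : a + b * ω = a' + b' * ω := h
      have h5 := congrArg (fun x => σ (σ x)) h3
      simp only [map_add, map_mul] at h5
      have e1 : σ (σ a) = a := hp.1
      have e2 : σ (σ b) = b := hp.2
      have e3 : σ (σ a') = a' := hp'.1
      have e4 : σ (σ b') = b' := hp'.2
      rw [e1, e2, e3, e4] at h5
      have h6 : b = b' := by
        linear_combination (norm := (ring_nf; try reduce_mod_char!)) h3 + h5 - (b - b') * hω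
      have h7 : a = a' := by
        rw [h6] at h3
        exact add_right_cancel h3
      rw [h6, h7]
    · intro x _
      refine ⟨(x + (x + σ (σ x)) * ω, x + σ (σ x)), ?_, ?_⟩
      · rw [Finset.mem_product, mem_F2, mem_F2]
        simp only [map_add, map_mul, h4]
        constructor
        · linear_combination (norm := (ring_nf; try reduce_mod_char!)) (x + σ (σ x)) * hω
        · ring
      · show x + (x + σ (σ x)) * ω + (x + σ (σ x)) * ω = x
        rw [add_assoc, CharTwo.add_self_eq_zero, add_zero]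
  rw [Finset.card_product, card_F2 σ h4 h2, Finset.card_univ] at h1
  rw [← h1]; ring

include h4 h2 in
theorem finrank_F : Module.finrank (kk σ) F = 4 := by
  have h1 := Module.card_eq_pow_finrank (K := kk σ) (V := F)
  rw [card_F σ h4 h2] at h1
  have h3 : 2 ≤ Fintype.card (kk σ) := Fintype.one_lt_card
  exact (Nat.pow_right_injective h3 h1).symm

include h2 in
/-- every functional is a trace functional -/
theorem repT (φ : F →ₗ[kk σ] kk σ) : ∃ α, ∀ x, φ x = T σ h4 (α * x) := by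
  have : FiniteDimensional (kk σ) F := Module.Finite.of_finite
  set Φ : F →ₗ[kk σ] (F →ₗ[kk σ] kk σ) := (LinearMap.mul (kk σ) F).compr₂ (T σ h4) with hΦ
  have hΦa : ∀ α x, Φ α x = T σ h4 (α * x) := fun α x => rfl
  have hinj : Function.Injective Φ := by
    rw [← LinearMap.ker_eq_bot, LinearMap.ker_eq_bot']
    intro α hα
    apply T_nondeg σ h4 h2
    intro x
    rw [← hΦa, hα]; rfl
  have hfr : Module.finrank (kk σ) F = Module.finrank (kk σ) (F →ₗ[kk σ] kk σ) :=
    (Subspace.dual_finrank_eq (K := kk σ) (V := F)).symm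
  have hsurj := (LinearMap.injective_iff_surjective_of_finrank_eq_finrank hfr).mp hinj
  obtain ⟨α, hα⟩ := hsurj φ
  exact ⟨α, fun x => by rw [← hα]; rfl⟩

theorem shift3 {k : Type} [Field k] [Fintype k] (G : k → k → k → ℤ) (j0 s0 t0 : k) :
    ∑ t : k, ∑ s : k, ∑ j : k, G (j + j0) (s + s0) (t + t0) = ∑ t : k, ∑ s : k, ∑ j : k, G j s t := by
  rw [← Equiv.sum_comp (Equiv.addRight t0) (fun t => ∑ s : k, ∑ j : k, G j s t)]
  apply Finset.sum_congr rfl; intro t _
  show _ = ∑ s : k, ∑ j : k, G j s (t + t0)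
  rw [← Equiv.sum_comp (Equiv.addRight s0) (fun s => ∑ j : k, G j s (t + t0))]
  apply Finset.sum_congr rfl; intro s _
  show _ = ∑ j : k, G j (s + s0) (t + t0)
  rw [← Equiv.sum_comp (Equiv.addRight j0) (fun j => G j (s + s0) (t + t0))]
  rfl

include h2 in
theorem extract {ω : F} (hω : ω + σ (σ ω) = 1) {E b z g x h u : F} (hu : σ (σ u) = u)
    (hz : T σ h4 z = 1) (hg : T σ h4 g = 0) (hx : T σ h4 x = 0) (hh : T σ h4 h = 0)
    (hind : ∀ j s t : kk σ, (j : F) * g + (s : F) * x + (t : F) * h = 0 → j = 0 ∧ s = 0 ∧ t = 0)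
    (hS : 0 < S σ h4 ω E b z g x h u) :
    ∃ α β γ : F, ∀ y, Q σ h4 ω E b u y
      = (T σ h4 (α * y)) ^ 2 + T σ h4 (α * y) * T σ h4 y + T σ h4 (β * y) * T σ h4 (γ * y) := by
  -- a good base point
  have h1 : ∃ j0 s0 t0 : kk σ,
      psi (Q σ h4 ω E b u (z + ((j0 : F) * g + (s0 : F) * x + (t0 : F) * h))) = 1 := by
    by_contra hno
    push Not at hno
    apply absurd hS
    rw [not_lt]
    unfold S
    apply Finset.sum_nonpos; intro t _
    apply Finset.sum_nonpos; intro s _
    apply Finset.sum_nonpos; intro j _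
    rcases psi_one_or (Q σ h4 ω E b u (z + ((j : F) * g + (s : F) * x + (t : F) * h))) with h | h
    · exact absurd h (hno j s t)
    · rw [h]; norm_num
  obtain ⟨j0, s0, t0, hz1⟩ := h1
  set z1 : F := z + ((j0 : F) * g + (s0 : F) * x + (t0 : F) * h) with hz1d
  have hTz1 : T σ h4 z1 = 1 := by
    rw [hz1d, map_add, map_add, map_add, T_mul, T_mul, T_mul, hz, hg, hx, hh]; simp
  have hS1 : S σ h4 ω E b z g x h u = ∑ t : kk σ, ∑ s : kk σ, ∑ j : kk σ,
      psi (Q σ h4 ω E b u (z1 + ((j : F) * g + (s : F) * x + (t : F) * h))) := by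
    unfold S
    rw [← shift3 (fun (j s t : kk σ) => psi (Q σ h4 ω E b u
      (z + ((j : F) * g + (s : F) * x + (t : F) * h)))) j0 s0 t0]
    apply Finset.sum_congr rfl; intro t _
    apply Finset.sum_congr rfl; intro s _
    apply Finset.sum_congr rfl; intro j _
    congr 2
    rw [hz1d]; push_cast; ring
  set l1 := B σ h4 b u z1 g with hl1
  set l2 := B σ h4 b u z1 x with hl2
  set l3 := B σ h4 b u z1 h with hl3
  have key : ∀ t s j : kk σ,
      psi (Q σ h4 ω E b u (z1 + ((j : F) * g + (s : F) * x + (t : F) * h)))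
      = psi ((Q σ h4 ω E b u g + l1 ^ 2) * j ^ 2 + (Q σ h4 ω E b u x + l2 ^ 2) * s ^ 2
          + (Q σ h4 ω E b u h + l3 ^ 2) * t ^ 2 + B σ h4 b u x h * s * t
          + B σ h4 b u g h * j * t + B σ h4 b u g x * j * s) := by
    intro t s j
    rw [Q_exp σ h4 hω E b hu, psi_add, psi_add, hz1, one_mul,
      ← psi_sq (j * B σ h4 b u z1 g + s * B σ h4 b u z1 x + t * B σ h4 b u z1 h), ← psi_add,
      ← hl1, ← hl2, ← hl3]
    congr 1
    rw [CharTwo.add_sq, CharTwo.add_sq]; ring
  rw [hS1] at hS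
  simp_rw [key] at hS
  obtain ⟨r1, r2, r3, s1, s2, s3, hrs⟩ := lemK hS
  obtain ⟨m0, hm0⟩ := psi_eq_one hz1
  -- basis
  have hli : LinearIndependent (kk σ) ![z1, g, x, h] := by
    rw [Fintype.linearIndependent_iff]
    intro c hc
    rw [Fin.sum_univ_four] at hc
    have hc' : ((c 0 : kk σ) : F) * z1 + ((c 1 : kk σ) : F) * g + ((c 2 : kk σ) : F) * x
        + ((c 3 : kk σ) : F) * h = 0 := hc
    have hc0 : c 0 = 0 := by
      have := congrArg (T σ h4) hc'
      rw [map_add, map_add, map_add, T_mul, T_mul, T_mul, T_mul, hTz1, hg, hx, hh, map_zero]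
        at this
      simpa using this
    rw [hc0] at hc'
    have hc1 := hind (c 1) (c 2) (c 3) (by
      have : ((0 : kk σ) : F) = 0 := rfl
      rw [this] at hc'
      linear_combination hc')
    intro i
    fin_cases i
    · exact hc0
    · exact hc1.1
    · exact hc1.2.1
    · exact hc1.2.2
  set Bs := basisOfLinearIndependentOfCardEqFinrank hli (by simp [finrank_F σ h4 h2]) with hBs
  have hB0 : Bs 0 = z1 := by simp [hBs]
  have hB1 : Bs 1 = g := by simp [hBs]
  have hB2 : Bs 2 = x := by simp [hBs]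
  have hB3 : Bs 3 = h := by simp [hBs]
  obtain ⟨β, hβ⟩ := repT σ h4 h2 (Bs.constr (kk σ) ![0, r1, r2, r3])
  obtain ⟨γ, hγ⟩ := repT σ h4 h2 (Bs.constr (kk σ) ![0, s1, s2, s3])
  have b0 : T σ h4 (β * z1) = 0 := by
    rw [← hβ, ← hB0, Module.Basis.constr_basis]; rfl
  have b1 : T σ h4 (β * g) = r1 := by
    rw [← hβ, ← hB1, Module.Basis.constr_basis]; rfl
  have b2 : T σ h4 (β * x) = r2 := by
    rw [← hβ, ← hB2, Module.Basis.constr_basis]; rfl
  have b3 : T σ h4 (β * h) = r3 := by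
    rw [← hβ, ← hB3, Module.Basis.constr_basis]; rfl
  have c0 : T σ h4 (γ * z1) = 0 := by
    rw [← hγ, ← hB0, Module.Basis.constr_basis]; rfl
  have c1 : T σ h4 (γ * g) = s1 := by
    rw [← hγ, ← hB1, Module.Basis.constr_basis]; rfl
  have c2 : T σ h4 (γ * x) = s2 := by
    rw [← hγ, ← hB2, Module.Basis.constr_basis]; rfl
  have c3 : T σ h4 (γ * h) = s3 := by
    rw [← hγ, ← hB3, Module.Basis.constr_basis]; rfl
  have a_ : ∀ y, T σ h4 (((m0 : F) + L σ b u z1) * y) = m0 * T σ h4 y + B σ h4 b u z1 y := by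
    intro y
    rw [add_mul, map_add, T_mul, B_symm σ h4 hω b hu]
    unfold B
    rw [mul_comm y]
  refine ⟨(m0 : F) + L σ b u z1, β, γ, ?_⟩
  intro y
  obtain ⟨c, hc⟩ : ∃ c : Fin 4 → kk σ, y = ((c 0 : kk σ) : F) * z1 + (((c 1 : kk σ) : F) * g
      + ((c 2 : kk σ) : F) * x + ((c 3 : kk σ) : F) * h) := by
    refine ⟨fun i => Bs.repr y i, ?_⟩
    have := Bs.sum_repr y
    rw [Fin.sum_univ_four, hB0, hB1, hB2, hB3] at this
    nth_rw 1 [← this]
    show ((Bs.repr y 0 : kk σ) : F) * z1 + ((Bs.repr y 1 : kk σ) : F) * g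
      + ((Bs.repr y 2 : kk σ) : F) * x + ((Bs.repr y 3 : kk σ) : F) * h = _
    ring
  have hTy : T σ h4 y = c 0 := by
    rw [hc, map_add, map_add, map_add, T_mul, T_mul, T_mul, T_mul, hTz1, hg, hx, hh]; simp
  have hβy : T σ h4 (β * y) = r1 * c 1 + r2 * c 2 + r3 * c 3 := by
    have e : β * y = ((c 0 : kk σ) : F) * (β * z1) + ((c 1 : kk σ) : F) * (β * g)
      + ((c 2 : kk σ) : F) * (β * x) + ((c 3 : kk σ) : F) * (β * h) := by rw [hc]; ring
    rw [e, map_add, map_add, map_add, T_mul, T_mul, T_mul, T_mul, b0, b1, b2, b3]; ring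
  have hγy : T σ h4 (γ * y) = s1 * c 1 + s2 * c 2 + s3 * c 3 := by
    have e : γ * y = ((c 0 : kk σ) : F) * (γ * z1) + ((c 1 : kk σ) : F) * (γ * g)
      + ((c 2 : kk σ) : F) * (γ * x) + ((c 3 : kk σ) : F) * (γ * h) := by rw [hc]; ring
    rw [e, map_add, map_add, map_add, T_mul, T_mul, T_mul, T_mul, c0, c1, c2, c3]; ring
  have hαy : T σ h4 (((m0 : F) + L σ b u z1) * y)
      = m0 * c 0 + (c 1 * l1 + c 2 * l2 + c 3 * l3) := by
    rw [a_, hTy]
    congr 1
    rw [hc]
    simp only [B_add_right, B_smul_right]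
    rw [B_self σ h4 hω b hu, ← hl1, ← hl2, ← hl3]; ring
  rw [hαy, hβy, hγy, hTy, ← hrs (c 1) (c 2) (c 3), hc, Q_exp σ h4 hω E b hu, Q_smul,
    B_smul_left, B_smul_left, B_smul_left, ← hl1, ← hl2, ← hl3, hm0]
  have h2k : (2 : kk σ) = 0 := CharTwo.two_eq_zero
  ring_nf
  simp only [h2k, mul_zero, add_zero, zero_add]

include h2 in
/-- Theorem F -/
theorem thmF {E e m : F} (hTm : T σ h4 m = 1) (hE : E + σ E = m ^ 2 + m)
    (he0 : e ≠ 0) (he1 : e ≠ 1) (hθ : T σ h4 (e + m) ≠ 0) :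
    ∃ α β γ : F, E = α ^ 2 + α + β * γ ∧ e + m = α + σ α + β * σ γ + σ β * γ := by
  obtain ⟨ω, hω⟩ := exists_omega σ h4 h2
  obtain ⟨g, hg1, hgA⟩ := exists_g σ h4 h2 hTm hE he0 he1 hθ
  obtain ⟨u0, hu0, hBg, hQg⟩ := exists_u σ h4 hω hg1 hgA
  obtain ⟨x, h, hx, hh, hf⟩ := exists_xh σ h4 h2 hu0 hθ
  obtain ⟨z, hz⟩ := T_one σ h4 h2
  have hg : T σ h4 g = 0 := by
    apply Subtype.ext
    rw [T_coe]
    show _ = (0 : F)
    have h1 := congrArg σ hg1
    rw [map_add, map_one] at h1
    linear_combination (norm := (ring_nf; try reduce_mod_char!)) hg1 + h1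
  have hg0 : g ≠ 0 := by
    rintro rfl
    simp at hg1
  have hne := S_ne σ h4 hω (E := E) hu0 hBg hQg hz hx hh hf
  have hsum := S_sum σ h4 h2 hω (E := E) (b := e + m) hz hg hx hh
  obtain ⟨u, hu, hpos⟩ := Finset.exists_pos_of_sum_zero_of_exists_nonzero _ hsum
    ⟨u0, (mem_F2 σ).mpr hu0, hne⟩
  rw [mem_F2] at hu
  have hind : ∀ j s t : kk σ, (j : F) * g + (s : F) * x + (t : F) * h = 0 →
      j = 0 ∧ s = 0 ∧ t = 0 := by
    intro j s t h0
    have e1 : B σ h4 (e + m) u0 g h = 0 := by rw [B_symm σ h4 hω _ hu0, hBg, hh, mul_zero]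
    have e2 : B σ h4 (e + m) u0 g x = 0 := by rw [B_symm σ h4 hω _ hu0, hBg, hx, mul_zero]
    have e3 : B σ h4 (e + m) u0 h x ≠ 0 := by rw [B_symm σ h4 hω _ hu0]; exact hf
    have f1 : B σ h4 (e + m) u0 ((j : F) * g + (s : F) * x + (t : F) * h) h
        = s * B σ h4 (e + m) u0 x h := by
      simp only [B_add_left, B_smul_left]
      rw [e1, B_self σ h4 hω _ hu0]; ring
    have f2 : B σ h4 (e + m) u0 ((j : F) * g + (s : F) * x + (t : F) * h) x
        = t * B σ h4 (e + m) u0 h x := by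
      simp only [B_add_left, B_smul_left]
      rw [e2, B_self σ h4 hω _ hu0]; ring
    have f0 : ∀ y, B σ h4 (e + m) u0 0 y = 0 := by
      intro y; unfold B; simp
    rw [h0, f0] at f1 f2
    have hs : s = 0 := by
      rcases mul_eq_zero.mp f1.symm with h | h
      · exact h
      · exact absurd h hf
    have ht : t = 0 := by
      rcases mul_eq_zero.mp f2.symm with h | h
      · exact h
      · exact absurd h e3
    rw [hs, ht] at h0
    have : ((0 : kk σ) : F) = 0 := rfl
    rw [this] at h0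
    have hj : (j : F) * g = 0 := by linear_combination h0
    rcases mul_eq_zero.mp hj with h | h
    · exact ⟨Subtype.ext h, hs, ht⟩
    · exact absurd h hg0
  obtain ⟨α, β, γ, hQ⟩ := extract σ h4 h2 hω hu hz hg hx hh hind hpos
  -- polarise
  have hL : ∀ y, L σ (e + m) u y = α * T σ h4 y + T σ h4 (α * y) + β * T σ h4 (γ * y)
      + γ * T σ h4 (β * y) := by
    intro y
    have h1 : L σ (e + m) u y + (α * T σ h4 y + T σ h4 (α * y) + β * T σ h4 (γ * y)
      + γ * T σ h4 (β * y)) = 0 := by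
      apply T_nondeg σ h4 h2
      intro w
      have h3 := Q_add σ h4 hω E (e + m) hu w y
      rw [hQ, hQ, hQ] at h3
      simp only [mul_add, map_add] at h3
      have h5 : (L σ (e + m) u y + (α * T σ h4 y + T σ h4 (α * y) + β * T σ h4 (γ * y)
          + γ * T σ h4 (β * y))) * w
          = w * L σ (e + m) u y + ((T σ h4 y : kk σ) : F) * (α * w)
            + ((T σ h4 (α * y) : kk σ) : F) * w + ((T σ h4 (γ * y) : kk σ) : F) * (β * w)
            + ((T σ h4 (β * y) : kk σ) : F) * (γ * w) := by ring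
      rw [h5, map_add, map_add, map_add, map_add, T_mul, T_mul, T_mul, T_mul]
      change _ = _ + _ + T σ h4 (w * L σ (e + m) u y) at h3
      have h2k : (2 : kk σ) = 0 := CharTwo.two_eq_zero
      linear_combination (norm := (ring_nf; simp only [h2k, mul_zero, add_zero, zero_add])) -h3
    linear_combination (norm := (ring_nf; try reduce_mod_char!)) h1
  have hd := ded σ h4 h2 (a0 := 0)
    (a1 := (e + m) + α + σ α + β * σ γ + γ * σ β)
    (a2 := u + α + σ (σ α) + β * σ (σ γ) + γ * σ (σ β))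
    (a3 := σ (σ (σ (e + m))) + α + σ (σ (σ α)) + β * σ (σ (σ γ)) + γ * σ (σ (σ β))) (by
      intro y
      have h1 := hL y
      unfold L at h1
      rw [T_coe, T_coe, T_coe, T_coe] at h1
      simp only [map_mul] at h1
      linear_combination (norm := (ring_nf; try reduce_mod_char!)) h1)
  obtain ⟨-, d1, d2, -⟩ := hd
  have hb : e + m = α + σ α + β * σ γ + σ β * γ := by
    linear_combination (norm := (ring_nf; try reduce_mod_char!)) d1
  have hu' : u = α + σ (σ α) + β * σ (σ γ) + γ * σ (σ β) := by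
    linear_combination (norm := (ring_nf; try reduce_mod_char!)) d2
  refine ⟨α, β, γ, ?_, hb⟩
  have hE0 : E + α ^ 2 + α + β * γ = 0 := by
    apply T_nondeg σ h4 h2
    intro v
    obtain ⟨y, hy⟩ := exists_sqrt v
    have h1 := hQ y
    unfold Q at h1
    have h3 := congrArg (fun z : kk σ => (z : F)) h1
    push_cast at h3
    rw [T_om_coe σ h4 hω (by simp only [map_mul, hu, h4]; ring)] at h3
    simp only [T_coe] at h3
    rw [hb, hu'] at h3
    apply Subtype.ext
    rw [T_coe, ← hy]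
    show _ = (0 : F)
    simp only [map_add, map_mul, map_pow, h4] at h3 ⊢
    linear_combination (norm := (ring_nf; try reduce_mod_char!)) h3
  linear_combination (norm := (ring_nf; try reduce_mod_char!)) hE0

end ctx

end Pool.Agent.V11152.MR
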