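import Pool.Agent.V11152.MRf

namespace Pool.Agent.V11152.MR

section ctxK

variable {K : Type} [Field K] [Fintype K] [CharP K 2] (σ : K →+* K)

/-- the field fixed by `σ^4` -/
def Fs : Subfield K := (σ.comp (σ.comp (σ.comp σ))).eqLocusField (RingHom.id K)

noncomputable instance : Fintype (Fs σ) := Fintype.ofFinite _

instance : CharP (Fs σ) 2 :=
  (RingHom.charP_iff (Fs σ).subtype Subtype.coe_injective 2).mpr inferInstance

theorem Fs_fix (x : Fs σ) : σ (σ (σ (σ (x : K)))) = x := x.2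

theorem mem_Fs {x : K} (h : σ (σ (σ (σ x))) = x) : x ∈ Fs σ := h

/-- the restriction of `σ` -/
def sF : Fs σ →+* Fs σ := σ.restrict (Fs σ) (Fs σ) (fun x hx => by
  apply mem_Fs
  have h : σ (σ (σ (σ x))) = x := hx
  rw [h])

theorem sF_coe (x : Fs σ) : ((sF σ x : Fs σ) : K) = σ x := rfl

theorem sF4 (x : Fs σ) : sF σ (sF σ (sF σ (sF σ x))) = x := Subtype.ext (Fs_fix σ x)

variable (h8 : ∀ x, σ (σ (σ (σ (σ (σ (σ (σ x))))))) = x)
variable (h4 : ∃ x, σ (σ (σ (σ x))) ≠ x)

include h8 h4 in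
theorem ded8 {a : Fin 8 → K} (h : ∀ x, ∑ i, a i * (σ ^ (i : ℕ)) x = 0) : ∀ i, a i = 0 := by
  have hord : orderOf σ = 2 ^ (2 + 1) := by
    have : Fact (Nat.Prime 2) := ⟨Nat.prime_two⟩
    apply orderOf_eq_prime_pow
    · intro hh
      obtain ⟨x, hx⟩ := h4
      apply hx
      have := RingHom.congr_fun hh x
      simpa [pow_succ] using this
    · ext x
      have := h8 x
      simpa [pow_succ] using this
  have hinj : Function.Injective (fun i : Fin 8 => ((σ ^ (i : ℕ) : K →+* K) : K →* K)) := by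
    intro i j hij
    have h1 : (σ ^ (i : ℕ) : K →+* K) = σ ^ (j : ℕ) := RingHom.coe_monoidHom_injective hij
    have h3 := pow_injOn_Iio_orderOf (x := σ) (by rw [hord]; exact i.2) (by rw [hord]; exact j.2) h1
    exact Fin.ext h3
  have hli := (linearIndependent_monoidHom K K).comp _ hinj
  rw [Fintype.linearIndependent_iff] at hli
  exact hli a (by
    funext x
    have := h x
    simpa [Finset.sum_apply] using this)

include h8 h4 in
theorem exists_rho : ∃ r : K, r + σ (σ (σ (σ r))) = 1 := by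
  obtain ⟨x, hx⟩ := h4
  have hd : x + σ (σ (σ (σ x))) ≠ 0 := by
    intro h
    apply hx
    linear_combination (norm := (ring_nf; try reduce_mod_char!)) h
  refine ⟨x / (x + σ (σ (σ (σ x)))), ?_⟩
  simp only [map_div₀, map_add, h8]
  rw [add_comm (σ (σ (σ (σ x)))) x, ← add_div, div_self hd]

include h8 h4 in
theorem sF2 : ∃ x, sF σ (sF σ x) ≠ x := by
  by_contra hno
  push Not at hno
  have h := ded8 σ h8 h4 (a := ![1, 0, 1, 0, 1, 0, 1, 0]) (by
    intro x
    have h1 : σ (σ (σ (σ (x + σ (σ (σ (σ x))))))) = x + σ (σ (σ (σ x))) := by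
      simp only [map_add, h8]; ring
    have h3 := congrArg (fun z : Fs σ => (z : K)) (hno ⟨_, mem_Fs σ h1⟩)
    have h5 : σ (σ (x + σ (σ (σ (σ x))))) = x + σ (σ (σ (σ x))) := h3
    simp only [map_add] at h5
    simp only [Fin.sum_univ_eight]
    simp [pow_succ]
    linear_combination (norm := (ring_nf; try reduce_mod_char!)) h5)
  have := h 0
  simp at this

/-- additive Hilbert 90 for the cyclic degree four case -/
theorem ah90 {F : Type} [Field F] [CharP F 2] (σ : F →+* F)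
    (h4 : ∀ x, σ (σ (σ (σ x))) = x) (h2 : ∃ x, σ (σ x) ≠ x) {x : F} (hx : T σ h4 x = 0) :
    ∃ v, v + σ v = x := by
  obtain ⟨z, hz⟩ := T_one σ h4 h2
  have hx' : x + σ x + σ (σ x) + σ (σ (σ x)) = 0 := by
    have := congrArg (fun z : kk σ => (z : F)) hx
    simp only [T_coe] at this
    exact this
  have hz' : z + σ z + σ (σ z) + σ (σ (σ z)) = 1 := by
    have := congrArg (fun z : kk σ => (z : F)) hz
    simp only [T_coe] at this
    exact this
  refine ⟨x * σ z + (x + σ x) * σ (σ z) + (x + σ x + σ (σ x)) * σ (σ (σ z)), ?_⟩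
  simp only [map_add, map_mul, h4]
  linear_combination (norm := (ring_nf; try reduce_mod_char!)) x * hz' + z * hx'

include h8 in
/-- reduction step -/
theorem reduction {δ t : K} (hδ : δ ≠ 0) (ht : σ t ≠ t) (ht' : σ (σ (σ (σ (σ t)))) ≠ t)
    (hP : (σ t + t) * (σ (σ (σ (σ (σ t)))) + σ (σ (σ (σ t))))
      = δ * σ (σ (σ (σ δ))) * ((σ (σ (σ (σ (σ t)))) + t) * (σ t + σ (σ (σ (σ t)))))) :
    ∃ a x0 t : K, x0 ≠ 0 ∧ σ t ≠ t ∧
      a * x0 + σ x0 + δ * σ (σ (σ (σ (σ x0)))) = 0 ∧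
      a * (t * x0) + σ (t * x0) + δ * σ (σ (σ (σ (σ (t * x0))))) = 0 := by
  have n1 : t + σ t ≠ 0 := by
    intro h; apply ht
    linear_combination (norm := (ring_nf; try reduce_mod_char!)) h
  have n2 : t + σ (σ (σ (σ (σ t)))) ≠ 0 := by
    intro h; apply ht'
    linear_combination (norm := (ring_nf; try reduce_mod_char!)) h
  have n3 : σ (σ (σ (σ δ))) ≠ 0 := by simpa using hδ
  have n4 : σ (σ (σ (σ t))) + σ t ≠ 0 := by
    have := (map_ne_zero (σ.comp (σ.comp (σ.comp σ)))).mpr n2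
    simpa [h8] using this
  set v : K := (t + σ t) / (δ * (t + σ (σ (σ (σ (σ t)))))) with hv
  have hvδ : δ * (t + σ (σ (σ (σ (σ t))))) * v = t + σ t := by
    rw [hv]; field_simp
  have hvv : v * σ (σ (σ (σ v))) = 1 := by
    rw [hv]
    simp only [map_div₀, map_add, map_mul, h8]
    rw [div_mul_div_comm, div_eq_one_iff_eq
      (mul_ne_zero (mul_ne_zero hδ n2) (mul_ne_zero n3 n4))]
    linear_combination hP
  set v' : K := σ (σ (σ (σ (σ (σ (σ v)))))) with hv'
  have hσv' : σ v' = v := by rw [hv', h8]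
  have hv'v' : v' * σ (σ (σ (σ v'))) = 1 := by
    have h1 := congrArg (fun z => σ (σ (σ (σ (σ (σ (σ z))))))) hvv
    simp only [map_mul, map_one] at h1
    rw [hv']
    simp only [h8] at h1 ⊢
    exact h1
  obtain ⟨x0, hx0, hx1⟩ : ∃ x0 : K, x0 ≠ 0 ∧ σ (σ (σ (σ x0))) = v' * x0 := by
    by_cases h1 : v' = 1
    · refine ⟨1, one_ne_zero, ?_⟩
      rw [h1]; simp
    · refine ⟨1 + σ (σ (σ (σ v'))), ?_, ?_⟩
      · intro h
        apply h1
        have h3 : σ (σ (σ (σ v'))) = 1 := by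
          linear_combination (norm := (ring_nf; try reduce_mod_char!)) h
        rw [h3, mul_one] at hv'v'
        exact hv'v'
      · simp only [map_add, map_one, h8]
        linear_combination -hv'v'
  have h5 : σ (σ (σ (σ (σ x0)))) = v * σ x0 := by
    rw [hx1, map_mul, hσv']
  refine ⟨(σ x0 + δ * σ (σ (σ (σ (σ x0))))) / x0, x0, t, hx0, ht, ?_, ?_⟩
  · rw [div_mul_cancel₀ _ hx0]
    generalize σ (σ (σ (σ (σ x0)))) = y
    ring_nf
    reduce_mod_char!
  · have e1 : (σ x0 + δ * σ (σ (σ (σ (σ x0))))) / x0 * (t * x0)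
        = t * (σ x0 + δ * σ (σ (σ (σ (σ x0))))) := by
      field_simp
    rw [e1]
    simp only [map_mul]
    rw [h5]
    linear_combination (norm := (ring_nf; try reduce_mod_char!)) σ x0 * hvδ

end ctxK

end Pool.Agent.V11152.MR
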