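import Pool.Agent.V11152.MRg

namespace Pool.Agent.V11152.MR

section ctxK

variable {K : Type} [Field K] [Fintype K] [CharP K 2] (σ : K →+* K)
variable (h8 : ∀ x, σ (σ (σ (σ (σ (σ (σ (σ x))))))) = x)
variable (h4 : ∃ x, σ (σ (σ (σ x))) ≠ x)

include h8 h4 in
theorem main {δ : K} (hδ : δ ≠ 0) :
    ∃ a x0 t : K, x0 ≠ 0 ∧ σ t ≠ t ∧
      a * x0 + σ x0 + δ * σ (σ (σ (σ (σ x0)))) = 0 ∧
      a * (t * x0) + σ (t * x0) + δ * σ (σ (σ (σ (σ (t * x0))))) = 0 := by
  have g4 := sF4 σ
  have g2 := sF2 σ h8 h4
  have hδ' : σ (σ (σ (σ δ))) ≠ 0 := by simpa using hδ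
  set c : K := δ * σ (σ (σ (σ δ))) with hc
  have hcf : σ (σ (σ (σ c))) = c := by
    rw [hc]; simp only [map_mul, h8]; ring
  have hc0 : c ≠ 0 := mul_ne_zero hδ hδ'
  by_cases hc1 : c = 1
  · obtain ⟨x, hx⟩ := g2
    have hx4 : σ (σ (σ (σ (x : K)))) = x := Fs_fix σ x
    have hx1 : σ (x : K) ≠ x := by
      intro h
      apply hx
      apply Subtype.ext
      show σ (σ (x : K)) = x
      rw [h, h]
    apply reduction σ h8 (t := (x : K)) hδ hx1
    · rw [hx4]; exact hx1
    · rw [← hc, hc1, hx4]; ring
  · have hc1' : 1 + c ≠ 0 := by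
      intro h
      apply hc1
      linear_combination (norm := (ring_nf; try reduce_mod_char!)) h
    set e : K := c / (1 + c) with he
    have hef : σ (σ (σ (σ e))) = e := by
      rw [he]; simp only [map_div₀, map_add, map_one, hcf]
    have hec : e = c * (e + 1) := by
      have h1 : e + 1 = 1 / (1 + c) := by
        rw [he]
        field_simp
        linear_combination (norm := (ring_nf; try reduce_mod_char!)) (0 : K) = 0
      rw [h1, he]; ring
    have he0 : e ≠ 0 := div_ne_zero hc0 hc1'
    have he1 : e + 1 ≠ 0 := by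
      intro h
      rw [h, mul_zero] at hec
      exact he0 hec
    obtain ⟨ρ, hρ⟩ := exists_rho σ h8 h4
    have hρ4 : σ (σ (σ (σ ρ))) = ρ + 1 := by
      linear_combination (norm := (ring_nf; try reduce_mod_char!)) hρ
    set eF : Fs σ := ⟨e, mem_Fs σ hef⟩ with heF
    have hmf : σ (σ (σ (σ (ρ + σ ρ)))) = ρ + σ ρ := by
      simp only [map_add, hρ4, map_one]
      linear_combination (norm := (ring_nf; try reduce_mod_char!)) (0 : K) = 0
    set m : Fs σ := ⟨ρ + σ ρ, mem_Fs σ hmf⟩ with hm
    have hEf : σ (σ (σ (σ (ρ ^ 2 + ρ)))) = ρ ^ 2 + ρ := by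
      simp only [map_add, map_pow, hρ4]
      linear_combination (norm := (ring_nf; try reduce_mod_char!)) (0 : K) = 0
    set E : Fs σ := ⟨ρ ^ 2 + ρ, mem_Fs σ hEf⟩ with hE
    have hTm : T (sF σ) g4 m = 1 := by
      apply Subtype.ext
      rw [T_coe]
      apply Subtype.ext
      show (ρ + σ ρ) + σ (ρ + σ ρ) + σ (σ (ρ + σ ρ)) + σ (σ (σ (ρ + σ ρ))) = 1
      simp only [map_add, hρ4]
      linear_combination (norm := (ring_nf; try reduce_mod_char!)) (0 : K) = 0
    have hEE : E + sF σ E = m ^ 2 + m := by
      apply Subtype.ext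
      show (ρ ^ 2 + ρ) + σ (ρ ^ 2 + ρ) = (ρ + σ ρ) ^ 2 + (ρ + σ ρ)
      simp only [map_add, map_pow]
      linear_combination (norm := (ring_nf; try reduce_mod_char!)) (0 : K) = 0
    by_cases hθ : T (sF σ) g4 (eF + m) = 0
    · obtain ⟨r, hr⟩ := exists_sqrt eF
      have hrK : (r : K) ^ 2 = e := congrArg (fun z : Fs σ => (z : K)) hr
      have hTe : T (sF σ) g4 eF = 1 := by
        rw [map_add, hTm] at hθ
        have h1 : T (sF σ) g4 eF = T (sF σ) g4 eF + 1 + 1 := by
          rw [add_assoc, CharTwo.add_self_eq_zero, add_zero]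
        rw [h1, hθ, zero_add]
      have hTr : T (sF σ) g4 r = 1 := by
        apply sq_inj2
        rw [← T_sq, hr, hTe, one_pow]
      obtain ⟨v, hv⟩ := ah90 (sF σ) g4 g2 (x := r + m) (by
        rw [map_add, hTr, hTm, CharTwo.add_self_eq_zero])
      have hvK : (v : K) + σ v = (r : K) + (ρ + σ ρ) :=
        congrArg (fun z : Fs σ => (z : K)) hv
      have hr0 : (r : K) ≠ 0 := by
        intro h
        rw [h] at hrK
        apply he0
        rw [← hrK]; ring
      have hr1 : (r : K) + 1 ≠ 0 := by
        intro h
        apply he1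
        rw [← hrK]
        have : (r : K) ^ 2 + 1 = ((r : K) + 1) ^ 2 := by
          rw [CharTwo.add_sq, one_pow]
        rw [this, h]; ring
      set w : K := ρ + v with hw
      have hw4 : σ (σ (σ (σ w))) = w + 1 := by
        rw [hw]
        simp only [map_add, hρ4, Fs_fix]; ring
      have hσw : σ w = w + r := by
        rw [hw, map_add]
        linear_combination (norm := (ring_nf; try reduce_mod_char!)) hvK
      apply reduction σ h8 (t := w) hδ
      · rw [hσw]
        intro h
        apply hr0
        linear_combination h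
      · rw [hw4, map_add, map_one, hσw]
        intro h
        apply hr1
        linear_combination h
      · have hσw1 : σ (w + 1) = w + r + 1 := by rw [map_add, map_one, hσw]
        rw [← hc, hw4, hσw1, hσw]
        rw [← hrK] at hec
        linear_combination (norm := (ring_nf; try reduce_mod_char!)) hec
    · have he0F : eF ≠ 0 := by
        intro h
        exact he0 (congrArg (fun z : Fs σ => (z : K)) h)
      have he1F : eF ≠ 1 := by
        intro h
        apply he1
        have : e = 1 := congrArg (fun z : Fs σ => (z : K)) h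
        rw [this, CharTwo.add_self_eq_zero]
      obtain ⟨α, β, γ, hF1, hF2⟩ := thmF (sF σ) g4 g2 hTm hEE he0F he1F hθ
      have hK1 : ρ ^ 2 + ρ = (α : K) ^ 2 + α + β * γ := congrArg (fun z : Fs σ => (z : K)) hF1
      have hK2 : e + (ρ + σ ρ) = (α : K) + σ α + β * σ γ + σ β * γ :=
        congrArg (fun z : Fs σ => (z : K)) hF2
      have hβ : (β : K) ≠ 0 := by
        intro h
        rw [h, zero_mul, add_zero] at hK1
        have h1 : (ρ + α) * (ρ + α + 1) = 0 := by
          linear_combination (norm := (ring_nf; try reduce_mod_char!)) hK1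
        have h3 : σ (σ (σ (σ ρ))) = ρ := by
          rcases mul_eq_zero.mp h1 with h | h
          · have h5 : ρ = α := by
              linear_combination (norm := (ring_nf; try reduce_mod_char!)) h
            rw [h5, Fs_fix]
          · have h5 : ρ = α + 1 := by
              linear_combination (norm := (ring_nf; try reduce_mod_char!)) h
            rw [h5]
            simp only [map_add, map_one, Fs_fix]
        rw [h3] at hρ4
        have : (1 : K) = 0 := by linear_combination -hρ4
        exact one_ne_zero this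
      have hσβ : σ (β : K) ≠ 0 := by simpa using hβ
      set w : K := α + ρ with hw
      have hww : w ^ 2 + w = β * γ := by
        rw [hw]
        linear_combination (norm := (ring_nf; try reduce_mod_char!)) hK1
      have hww' : (σ w) ^ 2 + σ w = σ β * σ γ := by
        rw [← map_pow, ← map_add, hww, map_mul]
      have hK2' : e = (β : K) * σ γ + σ β * γ + (σ w + w) := by
        rw [hw, map_add]
        linear_combination (norm := (ring_nf; try reduce_mod_char!)) hK2
      set t : K := w / β with ht
      have e1 : σ t = σ w / σ β := by rw [ht, map_div₀]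
      have e4 : σ (σ (σ (σ t))) = (w + 1) / β := by
        rw [ht]
        simp only [map_div₀, Fs_fix]
        congr 1
        rw [hw]; simp only [map_add, hρ4, Fs_fix]; ring
      have e5 : σ (σ (σ (σ (σ t)))) = (σ w + 1) / σ β := by
        rw [e4, map_div₀, map_add, map_one]
      have hPP : (σ t + t) * (σ (σ (σ (σ (σ t)))) + σ (σ (σ (σ t)))) = e / (β * σ β) := by
        rw [e5, e4, e1, ht, div_add_div _ _ hσβ hβ, div_add_div _ _ hσβ hβ, div_mul_div_comm,
          div_eq_div_iff (mul_ne_zero (mul_ne_zero hσβ hβ) (mul_ne_zero hσβ hβ))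
            (mul_ne_zero hβ hσβ)]
        rw [hK2']
        generalize σ (β : K) = b' at *
        generalize (β : K) = b at *
        generalize σ w = w' at *
        generalize σ (γ : K) = g' at *
        generalize (γ : K) = g at *
        linear_combination (norm := (ring_nf; try reduce_mod_char!))
          (b * b') * (b ^ 2 * hww' + b' ^ 2 * hww)
      have hQQ : (σ (σ (σ (σ (σ t)))) + t) * (σ t + σ (σ (σ (σ t)))) = (e + 1) / (β * σ β) := by
        rw [e5, e4, e1, ht, div_add_div _ _ hσβ hβ, div_add_div _ _ hσβ hβ, div_mul_div_comm,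
          div_eq_div_iff (mul_ne_zero (mul_ne_zero hσβ hβ) (mul_ne_zero hσβ hβ))
            (mul_ne_zero hβ hσβ)]
        rw [hK2']
        generalize σ (β : K) = b' at *
        generalize (β : K) = b at *
        generalize σ w = w' at *
        generalize σ (γ : K) = g' at *
        generalize (γ : K) = g at *
        linear_combination (norm := (ring_nf; try reduce_mod_char!))
          (b * b') * (b ^ 2 * hww' + b' ^ 2 * hww)
      have hP0 : e / ((β : K) * σ β) ≠ 0 := div_ne_zero he0 (mul_ne_zero hβ hσβ)
      have hQ0 : (e + 1) / ((β : K) * σ β) ≠ 0 := div_ne_zero he1 (mul_ne_zero hβ hσβ)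
      apply reduction σ h8 (t := t) hδ
      · intro h
        apply hP0
        rw [← hPP, h, CharTwo.add_self_eq_zero, zero_mul]
      · intro h
        apply hQ0
        rw [← hQQ, h, CharTwo.add_self_eq_zero, zero_mul]
      · rw [hPP, hQQ, ← hc]
        nth_rw 1 [hec]
        ring

end ctxK

end Pool.Agent.V11152.MR
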