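import Pool.Agent.V11152.MetJohn

/-! The farthest points of the metric polytope are the balanced cuts. -/

set_option autoImplicit false

open Matrix Finset

noncomputable section

namespace Pool.Agent.V11152.Met

variable {n : ℕ}

theorem frac_sum {ι : Type*} [DecidableEq ι] (s : Finset ι) (x : ι → ℝ) :
    ∀ (_ : ∀ i ∈ s, 0 ≤ x i ∧ x i ≤ 1) (m : ℤ) (σ : ℝ) (_ : 0 ≤ σ) (_ : σ ≤ 1)
      (_ : ∑ i ∈ s, x i = m + σ), σ * (1 - σ) ≤ ∑ i ∈ s, x i * (1 - x i) := by
  induction s using Finset.induction_on with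
  | empty =>
    intro _ m σ h1 h2 h
    simp only [Finset.sum_empty] at h ⊢
    have hm : (m : ℝ) = -σ := by linarith
    have h3 : m ≤ 0 := by
      have : (m : ℝ) ≤ 0 := by linarith
      exact_mod_cast this
    have h4 : -1 ≤ m := by
      have : (-1 : ℝ) ≤ m := by linarith
      exact_mod_cast this
    have h5 : m = 0 ∨ m = -1 := by omega
    rcases h5 with h5 | h5
    · rw [h5] at hm; simp at hm; rw [hm]; simp
    · rw [h5] at hm
      have : σ = 1 := by push_cast at hm; linarith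
      rw [this]; simp
  | insert a s ha ih =>
    intro hx m σ h1 h2 h
    rw [Finset.sum_insert ha] at h ⊢
    have hxa := hx a (Finset.mem_insert_self a s)
    have hxs : ∀ i ∈ s, 0 ≤ x i ∧ x i ≤ 1 := fun i hi => hx i (Finset.mem_insert_of_mem hi)
    rcases le_or_gt (x a) σ with hle | hlt
    · have := ih hxs m (σ - x a) (by linarith) (by linarith) (by linarith)
      nlinarith [mul_nonneg (sub_nonneg.2 hle) hxa.1]
    · have := ih hxs (m - 1) (1 + σ - x a) (by linarith) (by linarith) (by push_cast; linarith)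
      nlinarith [mul_nonneg (sub_nonneg.2 hlt.le) (sub_nonneg.2 hxa.2)]

theorem card_E : (Fintype.card (E n) : ℝ) = n * (n - 1) / 2 := by
  have h1 := sum_deg (fun _ : E n => (1 : ℝ))
  simp_rw [deg_const] at h1
  simp only [Finset.sum_const, Finset.card_univ, Fintype.card_fin, nsmul_eq_mul, mul_one] at h1
  linarith

theorem form_eq (hn : 3 ≤ n) {δ : ℝ} (h0 : 0 < δ) (h1 : δ < 1) (x : E n → ℝ) (K : ℝ) :
    ((2 - 3 * δ) * K + n * (n - 1) / 2 * δ ^ 2) / (δ * (1 - δ)) -
      (x - fun _ => δ) ⬝ᵥ (Hm n δ *ᵥ (x - fun _ => δ)) =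
    ((n - 2) * (2 - 3 * δ) * (K - ∑ e, x e) +
      (n - 2) * (2 - δ) * (∑ e, x e - ∑ e, x e * x e) +
      (1 - δ) * (∑ i, deg x i * deg x i - n * ∑ e, x e * x e)) / ((n - 2) * δ * (1 - δ)) := by
  have h2 : (0:ℝ) < n - 2 := by
    have : (3:ℝ) ≤ n := by exact_mod_cast hn
    linarith
  have h3 : (0:ℝ) < 1 - δ := by linarith
  rw [Hm_dot' hn δ h0]
  have e1 : ∑ e, (x - fun _ : E n => δ) e * (x - fun _ : E n => δ) e =
      ∑ e, x e * x e - 2 * δ * ∑ e, x e + n * (n - 1) / 2 * δ ^ 2 := by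
    have : ∀ e, (x - fun _ : E n => δ) e * (x - fun _ : E n => δ) e =
        x e * x e - 2 * δ * x e + δ ^ 2 := by
      intro e; simp only [Pi.sub_apply]; ring
    simp_rw [this, Finset.sum_add_distrib, Finset.sum_sub_distrib, ← Finset.mul_sum]
    rw [Finset.sum_const, Finset.card_univ, nsmul_eq_mul, card_E]
  have e2 : ∑ i, deg (x - fun _ => δ) i * deg (x - fun _ => δ) i =
      ∑ i, deg x i * deg x i - 4 * (n - 1) * δ * ∑ e, x e + n * (n - 1) ^ 2 * δ ^ 2 := by
    have : ∀ i, deg (x - fun _ => δ) i * deg (x - fun _ => δ) i =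
        deg x i * deg x i - 2 * (n - 1) * δ * deg x i + (n - 1) ^ 2 * δ ^ 2 := by
      intro i; rw [deg_sub, deg_const]; ring
    simp_rw [this, Finset.sum_add_distrib, Finset.sum_sub_distrib, ← Finset.mul_sum]
    rw [sum_deg, Finset.sum_const, Finset.card_univ, nsmul_eq_mul, Fintype.card_fin]
    ring
  rw [e1, e2]
  field_simp
  ring

theorem deg_add_ge {x : E n → ℝ} (hx : x ∈ metricPolytope n) {i j : Fin n} (hij : i ≠ j) :
    n * val x i j ≤ deg x i + deg x j := by
  have h1 : (n : ℝ) * val x i j = ∑ _k : Fin n, val x i j := by simp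
  rw [h1]
  unfold deg
  rw [← Finset.sum_add_distrib]
  refine Finset.sum_le_sum fun k _ => ?_
  by_cases h2 : k = i
  · subst h2; rw [val_self, zero_add, val_symm]
  · by_cases h3 : k = j
    · subst h3; rw [val_self, add_zero]
    · have := hx.2 i k j (Ne.symm h2) h3 hij
      rw [val_symm x k j] at this
      linarith

theorem form_le (hn : 3 ≤ n) {δ : ℝ} (h0 : 3 / 5 < δ) (h1 : δ < 2 / 3) {x : E n → ℝ}
    (hx : x ∈ metricPolytope n) (K : ℕ) (hK : n ^ 2 ≤ 4 * K + 1) :
    (x - fun _ => δ) ⬝ᵥ (Hm n δ *ᵥ (x - fun _ => δ)) ≤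
      ((2 - 3 * δ) * K + n * (n - 1) / 2 * δ ^ 2) / (δ * (1 - δ)) := by
  have hnr : (3:ℝ) ≤ n := by exact_mod_cast hn
  have h2 : (0:ℝ) < n - 2 := by linarith
  have h3 : (0:ℝ) < 1 - δ := by linarith
  have h4 : (0:ℝ) < δ := by linarith
  rw [← sub_nonneg, form_eq hn h4 (by linarith)]
  apply div_nonneg _ (by positivity)
  set S1 := ∑ e, x e with hS1
  set S2 := ∑ e, x e * x e with hS2
  set Q := ∑ i, deg x i * deg x i with hQ
  have hX' : S1 - S2 = ∑ e, x e * (1 - x e) := by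
    rw [hS1, hS2, ← Finset.sum_sub_distrib]
    exact Finset.sum_congr rfl fun e _ => by ring
  have hX : 0 ≤ S1 - S2 := by
    rw [hX']
    exact Finset.sum_nonneg fun e _ => mul_nonneg (hx.1 e).1 (sub_nonneg.2 (hx.1 e).2)
  have hY : 0 ≤ Q - n * S2 := by
    rw [hQ, sum_deg_mul, hS2, Finset.mul_sum, ← Finset.sum_sub_distrib]
    refine Finset.sum_nonneg fun e _ => ?_
    have := deg_add_ge hx e.2.ne
    rw [val_pair] at this
    nlinarith [(hx.1 e).1]
  have hCS : 4 * S1 ^ 2 ≤ n * Q := by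
    have := sq_sum_le_card_mul_sum_sq (s := Finset.univ) (f := deg x)
    rw [sum_deg, Finset.card_univ, Fintype.card_fin] at this
    have h5 : ∑ i, deg x i ^ 2 = Q := Finset.sum_congr rfl fun i _ => sq _
    rw [h5] at this
    have h6 : (2 * S1) ^ 2 = 4 * S1 ^ 2 := by ring
    linarith
  rcases le_or_gt S1 K with hle | hgt
  · have : 0 ≤ (n - 2) * (2 - 3 * δ) * (K - S1) :=
      mul_nonneg (mul_nonneg h2.le (by linarith)) (by linarith)
    have h6 : 0 ≤ (n - 2) * (2 - δ) * (S1 - S2) :=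
      mul_nonneg (mul_nonneg h2.le (by linarith)) hX
    have h7 : 0 ≤ (1 - δ) * (Q - n * S2) := mul_nonneg h3.le hY
    linarith
  · set σ := S1 - K with hσ
    have hσ0 : 0 < σ := by rw [hσ]; linarith
    rcases le_or_gt σ (6 / 7) with hs | hs
    · have hfr := frac_sum Finset.univ x (fun e _ => hx.1 e) K σ hσ0.le (by linarith)
        (by rw [hσ]; push_cast; ring)
      rw [← hX'] at hfr
      have h7 : 0 ≤ (1 - δ) * (Q - n * S2) := mul_nonneg h3.le hY
      have h8 : (2 - 3 * δ) ≤ (2 - δ) * (1 - σ) := by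
        have : (2 - δ) * (1 / 7) ≤ (2 - δ) * (1 - σ) :=
          mul_le_mul_of_nonneg_left (by linarith) (by linarith)
        linarith
      have h9 : (2 - δ) * (σ * (1 - σ)) ≤ (2 - δ) * (S1 - S2) :=
        mul_le_mul_of_nonneg_left hfr (by linarith)
      have h10 : (2 - 3 * δ) * σ ≤ (2 - δ) * (S1 - S2) := by
        have e1 := mul_le_mul_of_nonneg_right h8 hσ0.le
        have e2 : (2 - δ) * (1 - σ) * σ = (2 - δ) * (σ * (1 - σ)) := by ring
        linarith
      have h11 : (n - 2) * ((2 - 3 * δ) * σ) ≤ (n - 2) * ((2 - δ) * (S1 - S2)) :=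
        mul_le_mul_of_nonneg_left h10 h2.le
      have : (n - 2) * (2 - 3 * δ) * (K - S1) = - ((n - 2) * ((2 - 3 * δ) * σ)) := by
        rw [hσ]; ring
      have h12 : (n - 2) * (2 - δ) * (S1 - S2) = (n - 2) * ((2 - δ) * (S1 - S2)) := by ring
      rw [this, h12]; linarith
    · have hKr : (n:ℝ) ^ 2 ≤ 4 * K + 1 := by exact_mod_cast hK
      have hS : S1 = K + σ := by rw [hσ]; ring
      have h8 : 4 * σ - 1 ≤ 4 * S1 - n ^ 2 := by rw [hS]; linarith
      have h9 : (n ^ 2 - 1) / 4 + σ ≤ S1 := by rw [hS]; linarith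
      have h10 : ((n ^ 2 - 1) / 4 + σ) * (4 * σ - 1) ≤ S1 * (4 * S1 - n ^ 2) := by
        apply mul_le_mul h9 h8 (by linarith)
        have : (0:ℝ) ≤ (n ^ 2 - 1) / 4 + σ := by nlinarith
        linarith
      have h11 : n * (n - 2) * σ / 2 ≤ (((n:ℝ) ^ 2 - 1) / 4 + σ) * (4 * σ - 1) := by
        have e : (((n:ℝ) ^ 2 - 1) / 4 + σ) * (4 * σ - 1) - n * (n - 2) * σ / 2 =
          n ^ 2 * (2 * σ - 1) / 4 + n * σ + (4 * σ - 1) ^ 2 / 4 := by ring
        have e2 : 0 ≤ (n:ℝ) ^ 2 * (2 * σ - 1) / 4 + n * σ + (4 * σ - 1) ^ 2 / 4 := by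
          have : 0 ≤ 2 * σ - 1 := by linarith
          positivity
        linarith
      -- Y ≥ S1 (4 S1 - n^2) / n
      have h12 : S1 * (4 * S1 - n ^ 2) ≤ n * (Q - n * S2) := by
        have e1 : (n:ℝ) ^ 2 * S2 ≤ n ^ 2 * S1 :=
          mul_le_mul_of_nonneg_left (by linarith) (sq_nonneg _)
        have e2 : n * (Q - n * S2) = n * Q - n ^ 2 * S2 := by ring
        have e3 : S1 * (4 * S1 - n ^ 2) = 4 * S1 ^ 2 - n ^ 2 * S1 := by ring
        rw [e2, e3]; linarith
      have hn0 : (0:ℝ) < n := by linarith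
      have h13 : (n - 2) * σ / 2 ≤ Q - n * S2 := by
        have : n * ((n - 2) * σ / 2) ≤ n * (Q - n * S2) := by
          have e1 : n * ((n - 2) * σ / 2) = n * (n - 2) * σ / 2 := by ring
          rw [e1]; linarith
        exact le_of_mul_le_mul_left this hn0
      have h14 : (n - 2) * (2 - 3 * δ) * σ ≤ (1 - δ) * (Q - n * S2) := by
        have h15 : (1 - δ) * ((n - 2) * σ / 2) ≤ (1 - δ) * (Q - n * S2) :=
          mul_le_mul_of_nonneg_left h13 h3.le
        have h16 : (n - 2) * (2 - 3 * δ) * σ ≤ (1 - δ) * ((n - 2) * σ / 2) := by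
          have h17 : 2 - 3 * δ ≤ (1 - δ) / 2 := by linarith
          have h18 : 0 < (n - 2) * σ := mul_pos h2 hσ0
          have h20 := mul_le_mul_of_nonneg_right h17 h18.le
          have e1 : (n - 2) * (2 - 3 * δ) * σ = (2 - 3 * δ) * ((n - 2) * σ) := by ring
          have e2 : (1 - δ) * ((n - 2) * σ / 2) = (1 - δ) / 2 * ((n - 2) * σ) := by ring
          rw [e1, e2]; exact h20
        linarith
      have h19 : 0 ≤ (n - 2) * (2 - δ) * (S1 - S2) :=
        mul_nonneg (mul_nonneg h2.le (by linarith)) hX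
      have : (n - 2) * (2 - 3 * δ) * (K - S1) = - ((n - 2) * (2 - 3 * δ) * σ) := by
        rw [hσ]; ring
      rw [this]; linarith

/-- side of the cut -/
def gs (m : ℕ) (i : Fin n) : ℝ := if i.val < m then 1 else 0

/-- the cut semimetric -/
def cutv (n m : ℕ) : E n → ℝ := fun e => (gs m e.1.1 - gs m e.1.2) ^ 2

theorem gs_cases (m : ℕ) (i : Fin n) : gs m i = 0 ∨ gs m i = 1 := by
  unfold gs; split_ifs <;> simp

theorem val_cutv (m : ℕ) (i j : Fin n) : val (cutv n m) i j = (gs m i - gs m j) ^ 2 := by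
  unfold val cutv
  rcases lt_trichotomy i j with h | h | h
  · rw [dif_pos h]
  · subst h; simp
  · rw [dif_neg (not_lt_of_gt h), dif_pos h]
    simp only; ring

theorem cutv_mem (m : ℕ) : cutv n m ∈ metricPolytope n := by
  constructor
  · intro e
    unfold cutv
    rcases gs_cases m e.1.1 with h | h <;> rcases gs_cases m e.1.2 with h' | h' <;>
      rw [h, h'] <;> norm_num
  · intro i j k _ _ _
    rw [val_cutv, val_cutv, val_cutv]
    rcases gs_cases m i with h | h <;> rcases gs_cases m j with h' | h' <;>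
      rcases gs_cases m k with h'' | h'' <;> rw [h, h', h''] <;> norm_num

theorem sum_gs {m : ℕ} (hm : m ≤ n) : ∑ i : Fin n, gs m i = m := by
  unfold gs
  rw [Finset.sum_boole]
  congr 1
  have : (Finset.univ.filter (fun i : Fin n => i.val < m)).card = m := by
    rw [Fin.card_filter_val_lt]
    exact min_eq_right hm
  exact this

theorem deg_cutv {m : ℕ} (hm : m ≤ n) (i : Fin n) :
    deg (cutv n m) i = (n - 2 * m) * gs m i + m := by
  unfold deg
  simp_rw [val_cutv]
  have h1 : ∀ j : Fin n, (gs m i - gs m j) ^ 2 = gs m i - 2 * gs m i * gs m j + gs m j := by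
    intro j
    rcases gs_cases m i with h | h <;> rcases gs_cases m j with h' | h' <;>
      rw [h, h'] <;> norm_num
  simp_rw [h1, Finset.sum_add_distrib, Finset.sum_sub_distrib, ← Finset.mul_sum, sum_gs hm]
  rw [Finset.sum_const, Finset.card_univ, Fintype.card_fin, nsmul_eq_mul]
  ring

theorem form_cut (hn : 3 ≤ n) {δ : ℝ} (h0 : 0 < δ) (h1 : δ < 1) {m : ℕ} (hm : m ≤ n) :
    (cutv n m - fun _ => δ) ⬝ᵥ (Hm n δ *ᵥ (cutv n m - fun _ => δ)) =
      ((2 - 3 * δ) * (m * (n - m)) + n * (n - 1) / 2 * δ ^ 2) / (δ * (1 - δ)) := by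
  have h := form_eq hn h0 h1 (cutv n m) (m * (n - m))
  have s1 : ∑ e, cutv n m e = m * (n - m) := by
    have := sum_deg (cutv n m)
    simp_rw [deg_cutv hm, Finset.sum_add_distrib, ← Finset.mul_sum, sum_gs hm] at this
    rw [Finset.sum_const, Finset.card_univ, Fintype.card_fin, nsmul_eq_mul] at this
    linarith
  have s2 : ∑ e, cutv n m e * cutv n m e = m * (n - m) := by
    rw [← s1]
    refine Finset.sum_congr rfl fun e _ => ?_
    unfold cutv
    rcases gs_cases m e.1.1 with h | h <;> rcases gs_cases m e.1.2 with h' | h' <;>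
      rw [h, h'] <;> norm_num
  have s3 : ∑ i, deg (cutv n m) i * deg (cutv n m) i = n * (m * (n - m)) := by
    have : ∀ i, deg (cutv n m) i * deg (cutv n m) i =
        ((n - 2 * m) ^ 2 + 2 * m * (n - 2 * m)) * gs m i + m ^ 2 := by
      intro i
      rw [deg_cutv hm]
      rcases gs_cases m i with h | h <;> rw [h] <;> ring
    simp_rw [this, Finset.sum_add_distrib, ← Finset.mul_sum, sum_gs hm]
    rw [Finset.sum_const, Finset.card_univ, Fintype.card_fin, nsmul_eq_mul]
    ring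
  rw [s1, s2, s3] at h
  have h2 : ((n:ℝ) - 2) * (2 - 3 * δ) * (m * (n - m) - m * (n - m)) +
      (n - 2) * (2 - δ) * (m * (n - m) - m * (n - m)) +
      (1 - δ) * (n * (m * (n - m)) - n * (m * (n - m))) = 0 := by ring
  rw [h2, zero_div] at h
  linarith

end Pool.Agent.V11152.Met
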