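import Pool.Agent.V11152.MetPoly
import Pool.Agent.V11152.JohnGen

/-! The quadratic form of the ellipsoid of maximal volume in the metric polytope. -/

set_option autoImplicit false

open Matrix Finset

noncomputable section

namespace Pool.Agent.V11152.Met

/-- The cubic whose root in `(0,1)` gives the centre. -/
def cub (n : ℕ) (δ : ℝ) : ℝ :=
  (6 * n ^ 2 - 14 * n + 8) - (15 * n ^ 2 - 30 * n + 16) * δ + (10 * n ^ 2 - 14 * n + 8) * δ ^ 2
    - (2 * n ^ 2 - 2 * n + 4) * δ ^ 3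

variable {n : ℕ}

/-- Facets: the upper bounds and the triangle inequalities. -/
abbrev Fac (n : ℕ) := E n ⊕ Tr n

def fa : Fac n → E n → ℝ
  | .inl e => ind e.1.1 e.1.2
  | .inr t => -(ind t.1.1 t.1.2.1 + ind t.1.2.1 t.1.2.2 - ind t.1.1 t.1.2.2)

def fb : Fac n → ℝ
  | .inl _ => 1
  | .inr _ => 0

def fw (δ : ℝ) : Fac n → ℝ
  | .inl _ => 1 - δ
  | .inr _ => δ

def fm (δ : ℝ) : Fac n → ℝ
  | .inl _ => 1 / (1 - δ)
  | .inr _ => 1 / (2 * (n - 2) * δ)

theorem fa_inl (e : E n) (x : E n → ℝ) : fa (.inl e) ⬝ᵥ x = x e := by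
  change ind e.1.1 e.1.2 ⬝ᵥ x = x e
  rw [ind_dot, val_pair]

theorem fa_inr (t : Tr n) (x : E n → ℝ) :
    fa (.inr t) ⬝ᵥ x = - tri x t.1.1 t.1.2.1 t.1.2.2 := by
  change (-(ind t.1.1 t.1.2.1 + ind t.1.2.1 t.1.2.2 - ind t.1.1 t.1.2.2)) ⬝ᵥ x = _
  rw [neg_dotProduct, sub_dotProduct, add_dotProduct, ind_dot, ind_dot, ind_dot]
  rfl

/-- The matrix of the form. -/
def Hm (n : ℕ) (δ : ℝ) : Matrix (E n) (E n) ℝ :=
  ∑ F : Fac n, fm δ F • Matrix.vecMulVec (fa F) (fa F)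

theorem Hm_dot (δ : ℝ) (x y : E n → ℝ) :
    x ⬝ᵥ (Hm n δ *ᵥ y) = 1 / (1 - δ) * ∑ e, x e * y e +
      1 / (2 * (n - 2) * δ) *
        ∑ t : Tr n, tri x t.1.1 t.1.2.1 t.1.2.2 * tri y t.1.1 t.1.2.1 t.1.2.2 := by
  have h1 : x ⬝ᵥ (Hm n δ *ᵥ y) = ∑ F : Fac n, fm δ F * ((fa F ⬝ᵥ x) * (fa F ⬝ᵥ y)) := by
    unfold Hm
    rw [Matrix.sum_mulVec, dotProduct_sum]
    refine Finset.sum_congr rfl fun F _ => ?_
    rw [Matrix.smul_mulVec, dotProduct_smul, Matrix.vecMulVec_mulVec]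
    simp only [smul_eq_mul]
    congr 1
    rw [show (MulOpposite.op (fa F ⬝ᵥ y) • fa F) = (fa F ⬝ᵥ y) • fa F from by
      funext e; simp [mul_comm]]
    rw [dotProduct_smul, smul_eq_mul, dotProduct_comm x (fa F)]; ring
  rw [h1, Fintype.sum_sum_type, Finset.mul_sum, Finset.mul_sum]
  congr 1
  · refine Finset.sum_congr rfl fun e _ => ?_
    rw [fa_inl, fa_inl]; rfl
  · refine Finset.sum_congr rfl fun t _ => ?_
    rw [fa_inr, fa_inr, neg_mul_neg]; rfl

theorem Hm_dot' (hn : 3 ≤ n) (δ : ℝ) (hδ : 0 < δ) (x y : E n → ℝ) :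
    x ⬝ᵥ (Hm n δ *ᵥ y) = (1 / (1 - δ) + (3 * n - 4) / ((n - 2) * δ)) * ∑ e, x e * y e
      - 1 / ((n - 2) * δ) * ∑ i, deg x i * deg y i := by
  rw [Hm_dot, sum_tri]
  have h2 : (0:ℝ) < n - 2 := by
    have : (3:ℝ) ≤ n := by exact_mod_cast hn
    linarith
  field_simp
  ring

theorem Hm_mulVec (hn : 3 ≤ n) (δ : ℝ) (hδ : 0 < δ) (y : E n → ℝ) (e : E n) :
    (Hm n δ *ᵥ y) e = (1 / (1 - δ) + (3 * n - 4) / ((n - 2) * δ)) * y e
      - 1 / ((n - 2) * δ) * (deg y e.1.1 + deg y e.1.2) := by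
  have h := Hm_dot' hn δ hδ (Pi.single e 1) y
  rw [single_dotProduct, one_mul] at h
  rw [h, sum_deg_mul]
  congr 2
  · rw [Finset.sum_eq_single e]
    · simp
    · intro f _ hf; simp [hf]
    · intro h'; exact absurd (Finset.mem_univ _) h'
  · rw [Finset.sum_eq_single e]
    · simp
    · intro f _ hf; simp [hf]
    · intro h'; exact absurd (Finset.mem_univ _) h'

section coeffs

variable (n : ℕ) (δ : ℝ)

def cu : ℝ := 3 * n - 4 - (2 * n - 2) * δ
def cv : ℝ := 2 * n - 2 - n * δ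
def cp : ℝ := (n - 2) * δ * (1 - δ) / cu n δ
def cq : ℝ := (n - 2) * δ * (1 - δ) ^ 2 / (cu n δ * cv n δ)
def cs : ℝ := 4 * δ * (1 - δ) ^ 3 / (cu n δ * cv n δ)

variable {n δ}

theorem cu_pos (hn : 3 ≤ n) (h0 : 0 < δ) (h1 : δ < 1) : 0 < cu n δ := by
  have : (3:ℝ) ≤ n := by exact_mod_cast hn
  unfold cu; nlinarith

theorem cv_pos (hn : 3 ≤ n) (h0 : 0 < δ) (h1 : δ < 1) : 0 < cv n δ := by
  have : (3:ℝ) ≤ n := by exact_mod_cast hn
  unfold cv; nlinarith

theorem cp_eq (hn : 3 ≤ n) (h0 : 0 < δ) (h1 : δ < 1) :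
    (1 / (1 - δ) + (3 * n - 4) / ((n - 2) * δ)) * cp n δ = 1 := by
  have h2 : (0:ℝ) < n - 2 := by
    have : (3:ℝ) ≤ n := by exact_mod_cast hn
    linarith
  have h3 : (0:ℝ) < 1 - δ := by linarith
  have h4 := cu_pos hn h0 h1
  have h5 := cv_pos hn h0 h1
  unfold cp
  rw [div_add_div _ _ h3.ne' (by positivity), div_mul_div_comm, div_eq_one_iff_eq (by positivity)]
  unfold cu; ring

theorem cq_eq (hn : 3 ≤ n) (h0 : 0 < δ) (h1 : δ < 1) :
    (1 / (1 - δ) + (3 * n - 4) / ((n - 2) * δ)) * cq n δ =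
      1 / ((n - 2) * δ) * (cp n δ + (n - 2) * cq n δ) := by
  have h2 : (0:ℝ) < n - 2 := by
    have : (3:ℝ) ≤ n := by exact_mod_cast hn
    linarith
  have h3 : (0:ℝ) < 1 - δ := by linarith
  have h4 := cu_pos hn h0 h1
  have h5 := cv_pos hn h0 h1
  have e1 : cq n δ = cp n δ * ((1 - δ) / cv n δ) := by
    unfold cq cp; field_simp
  have h6 : (1 / (1 - δ) + (3 * n - 4) / ((n - 2) * δ)) * cq n δ = (1 - δ) / cv n δ := by
    rw [e1, ← mul_assoc, cp_eq hn h0 h1, one_mul]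
  rw [h6]
  have e2 : cp n δ + (n - 2) * cq n δ = (n - 2) * δ * (1 - δ) / cv n δ := by
    unfold cp cq
    rw [eq_div_iff h5.ne']
    field_simp
    unfold cu cv; ring
  rw [e2]
  field_simp

theorem cs_eq (hn : 3 ≤ n) (h0 : 0 < δ) (h1 : δ < 1) :
    (1 / (1 - δ) + (3 * n - 4) / ((n - 2) * δ)) * cs n δ =
      1 / ((n - 2) * δ) * (2 * (2 * cq n δ + (n - 1) * cs n δ)) := by
  have h2 : (0:ℝ) < n - 2 := by
    have : (3:ℝ) ≤ n := by exact_mod_cast hn
    linarith
  have h3 : (0:ℝ) < 1 - δ := by linarith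
  have h4 := cu_pos hn h0 h1
  have h5 := cv_pos hn h0 h1
  unfold cs cq
  field_simp
  ring

theorem diag_eq (hn : 3 ≤ n) (h0 : 0 < δ) (h1 : δ < 1) (hc : cub n δ = 0) :
    cp n δ + 2 * cq n δ + cs n δ = (1 - δ) ^ 2 := by
  have h3 : (0:ℝ) < 1 - δ := by linarith
  have h4 := cu_pos hn h0 h1
  have h5 := cv_pos hn h0 h1
  have e : cp n δ + 2 * cq n δ + cs n δ - (1 - δ) ^ 2 =
      - (1 - δ) * cub n δ / (cu n δ * cv n δ) := by
    unfold cp cq cs
    rw [eq_div_iff (by positivity)]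
    field_simp
    unfold cu cv cub; ring
  rw [hc] at e
  simp at e
  linarith

theorem tri_eq (hn : 3 ≤ n) (h0 : 0 < δ) (h1 : δ < 1) (hc : cub n δ = 0) :
    3 * cp n δ + 4 * cq n δ + cs n δ = δ ^ 2 := by
  have h3 : (0:ℝ) < 1 - δ := by linarith
  have h4 := cu_pos hn h0 h1
  have h5 := cv_pos hn h0 h1
  have e : 3 * cp n δ + 4 * cq n δ + cs n δ - δ ^ 2 =
      δ * cub n δ / (cu n δ * cv n δ) := by
    unfold cp cq cs
    rw [eq_div_iff (by positivity)]
    field_simp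
    unfold cu cv cub; ring
  rw [hc] at e
  simp at e
  linarith

end coeffs

/-- The inverse of the form. -/
def Gop (δ : ℝ) (a : E n → ℝ) : E n → ℝ := fun e =>
  cp n δ * a e + cq n δ * (deg a e.1.1 + deg a e.1.2) + cs n δ * ∑ f, a f

theorem val_Gop (δ : ℝ) (a : E n → ℝ) {i j : Fin n} (hij : i ≠ j) :
    val (Gop δ a) i j = cp n δ * val a i j + cq n δ * (deg a i + deg a j) + cs n δ * ∑ f, a f := by
  unfold val
  rcases lt_or_gt_of_ne hij with h | h
  · rw [dif_pos h, dif_pos h]; rfl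
  · rw [dif_neg (not_lt_of_gt h), dif_pos h, dif_neg (not_lt_of_gt h), dif_pos h]
    unfold Gop; simp only; ring

theorem deg_Gop (δ : ℝ) (a : E n → ℝ) (i : Fin n) :
    deg (Gop δ a) i = (cp n δ + (n - 2) * cq n δ) * deg a i +
      (2 * cq n δ + (n - 1) * cs n δ) * ∑ f, a f := by
  have h1 : deg (Gop δ a) i = ∑ j ∈ Finset.univ.erase i,
      (cp n δ * val a i j + cq n δ * (deg a i + deg a j) + cs n δ * ∑ f, a f) := by
    unfold deg
    rw [← Finset.add_sum_erase _ _ (Finset.mem_univ i), val_self, zero_add]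
    exact Finset.sum_congr rfl fun j hj => val_Gop δ a (Finset.ne_of_mem_erase hj).symm
  have h2 : ∑ j ∈ Finset.univ.erase i, val a i j = deg a i := by
    unfold deg
    rw [← Finset.add_sum_erase _ _ (Finset.mem_univ i), val_self, zero_add]
  have h3 : ∑ j ∈ Finset.univ.erase i, deg a j = 2 * ∑ f, a f - deg a i := by
    rw [← sum_deg, ← Finset.add_sum_erase _ _ (Finset.mem_univ i)]; ring
  have hcard : ((Finset.univ.erase i).card : ℝ) = n - 1 := by
    rw [Finset.card_erase_of_mem (Finset.mem_univ i), Finset.card_univ, Fintype.card_fin]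
    have : 0 < n := i.pos
    rw [Nat.cast_sub (by omega)]; push_cast; ring
  rw [h1]
  simp only [Finset.sum_add_distrib, ← Finset.mul_sum, Finset.sum_const, nsmul_eq_mul, hcard, h2, h3]
  ring

theorem Hm_Gop (hn : 3 ≤ n) (δ : ℝ) (h0 : 0 < δ) (h1 : δ < 1) (a : E n → ℝ) :
    Hm n δ *ᵥ Gop δ a = a := by
  funext e
  rw [Hm_mulVec hn δ h0, deg_Gop, deg_Gop]
  have e1 := cp_eq hn h0 h1
  have e2 := cq_eq hn h0 h1
  have e3 := cs_eq hn h0 h1
  unfold Gop
  linear_combination (a e) * e1 + (deg a e.1.1 + deg a e.1.2) * e2 + (∑ f, a f) * e3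

theorem dot_Gop (δ : ℝ) (a : E n → ℝ) :
    a ⬝ᵥ Gop δ a = cp n δ * ∑ e, a e * a e + cq n δ * ∑ i, deg a i * deg a i +
      cs n δ * (∑ e, a e) * (∑ e, a e) := by
  rw [sum_deg_mul]
  have hu : a ⬝ᵥ Gop δ a = ∑ e, (a e * (cp n δ * a e) +
      a e * (cq n δ * (deg a e.1.1 + deg a e.1.2)) + a e * (cs n δ * ∑ f, a f)) := by
    unfold Gop dotProduct
    exact Finset.sum_congr rfl fun e _ => by ring
  rw [hu, Finset.sum_add_distrib, Finset.sum_add_distrib]
  have h1 : ∑ e, a e * (cp n δ * a e) = cp n δ * ∑ e, a e * a e := by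
    rw [Finset.mul_sum]; exact Finset.sum_congr rfl fun e _ => by ring
  have h2 : ∑ e : E n, a e * (cq n δ * (deg a e.1.1 + deg a e.1.2)) =
      cq n δ * ∑ e : E n, a e * (deg a e.1.1 + deg a e.1.2) := by
    rw [Finset.mul_sum]; exact Finset.sum_congr rfl fun e _ => by ring
  have h3 : ∑ e, a e * (cs n δ * ∑ f, a f) = cs n δ * (∑ e, a e) * (∑ e, a e) := by
    rw [← Finset.sum_mul]; ring
  rw [h1, h2, h3]

theorem fa_Gop (hn : 3 ≤ n) (δ : ℝ) (h0 : 0 < δ) (h1 : δ < 1) (hc : cub n δ = 0) (F : Fac n) :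
    fa F ⬝ᵥ Gop δ (fa F) = fw δ F ^ 2 := by
  rcases F with e | t
  · rw [fa_inl]
    have hne : e.1.1 ≠ e.1.2 := e.2.ne
    have : Gop δ (fa (.inl e)) e = cp n δ + 2 * cq n δ + cs n δ := by
      change Gop δ (ind e.1.1 e.1.2) e = _
      unfold Gop
      rw [sum_ind hne, deg_ind hne, deg_ind hne, ← single_eq_ind]
      simp [hne, hne.symm]; ring
    rw [this, diag_eq hn h0 h1 hc]; rfl
  · obtain ⟨⟨i, j, k⟩, hij, hjk, hik⟩ := t
    change i ≠ j at hij
    change j ≠ k at hjk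
    change i ≠ k at hik
    have hT : Gop δ (fa (.inr ⟨(i, j, k), hij, hjk, hik⟩)) =
        - Gop δ (ind i j + ind j k - ind i k) := by
      have hneg : ∀ a : E n → ℝ, Gop δ (-a) = - Gop δ a := by
        intro a
        have hd : ∀ i, deg (-a) i = - deg a i := by
          intro i
          have := deg_sub (0 : E n → ℝ) a i
          have h0' : deg (0 : E n → ℝ) i = 0 := by
            have h00 : (0 : E n → ℝ) = fun _ => 0 := rfl
            rw [h00, deg_const, mul_zero]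
          rw [h0', zero_sub, zero_sub] at this
          exact this
        funext e
        unfold Gop
        simp only [Pi.neg_apply, Finset.sum_neg_distrib, hd]; ring
      exact hneg _
    rw [fa_inr, hT]
    have htn : tri (- Gop δ (ind i j + ind j k - ind i k)) i j k =
        - tri (Gop δ (ind i j + ind j k - ind i k)) i j k := by
      have hv : ∀ (x : E n → ℝ) (a b : Fin n), val (-x) a b = - val x a b := by
        intro x a b; unfold val; split_ifs <;> simp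
      unfold tri; rw [hv, hv, hv]; ring
    change - tri (- Gop δ (ind i j + ind j k - ind i k)) i j k = _
    rw [htn, neg_neg]
    set a : E n → ℝ := ind i j + ind j k - ind i k with ha
    have hS : ∑ e, a e = 1 := by
      rw [ha]
      simp only [Pi.sub_apply, Pi.add_apply, Finset.sum_sub_distrib, Finset.sum_add_distrib]
      rw [sum_ind hij, sum_ind hjk, sum_ind hik]; ring
    have hD : ∀ b, deg a b = if b = j then 2 else 0 := by
      intro b
      rw [ha, deg_sub, deg_add, deg_ind hij, deg_ind hjk, deg_ind hik]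
      by_cases hb1 : b = i
      · subst hb1; simp [hij, hik]
      · by_cases hb2 : b = j
        · subst hb2; simp [hb1, hjk]; norm_num
        · by_cases hb3 : b = k
          · subst hb3; simp [hb1, hb2]
          · simp [hb1, hb2, hb3]
    have hV : ∀ x y : Fin n, val a x y = val (ind i j) x y + val (ind j k) x y - val (ind i k) x y := by
      intro x y; rw [ha, val_sub, val_add]
    have v1 : val a i j = 1 := by
      rw [hV, val_ind hij, val_ind hjk, val_ind hik]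
      simp [hij, hjk, hik, hij.symm, hjk.symm, hik.symm]
    have v2 : val a j k = 1 := by
      rw [hV, val_ind hij, val_ind hjk, val_ind hik]
      simp [hij, hjk, hik, hij.symm, hjk.symm, hik.symm]
    have v3 : val a i k = -1 := by
      rw [hV, val_ind hij, val_ind hjk, val_ind hik]
      simp [hij, hjk, hik, hij.symm, hjk.symm, hik.symm]
    unfold tri
    rw [val_Gop δ a hij, val_Gop δ a hjk, val_Gop δ a hik, hS, v1, v2, v3, hD, hD, hD]
    have := tri_eq hn h0 h1 hc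
    simp only [hij, hjk.symm, if_true, if_false]
    change _ = δ ^ 2
    linear_combination this

theorem Hm_symm (δ : ℝ) : (Hm n δ)ᵀ = Hm n δ := by
  unfold Hm
  rw [Matrix.transpose_sum]
  refine Finset.sum_congr rfl fun F _ => ?_
  rw [Matrix.transpose_smul, Matrix.transpose_vecMulVec]

theorem Hm_pos (hn : 3 ≤ n) (δ : ℝ) (h0 : 0 < δ) (h1 : δ < 1) (x : E n → ℝ) (hx : x ≠ 0) :
    0 < x ⬝ᵥ (Hm n δ *ᵥ x) := by
  have h2 : (0:ℝ) < n - 2 := by
    have : (3:ℝ) ≤ n := by exact_mod_cast hn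
    linarith
  have h3 : (0:ℝ) < 1 - δ := by linarith
  rw [Hm_dot]
  have ha : 0 < ∑ e, x e * x e := by
    obtain ⟨e, he⟩ : ∃ e, x e ≠ 0 := by
      by_contra h; push Not at h; exact hx (funext h)
    exact lt_of_lt_of_le (mul_self_pos.2 he)
      (Finset.single_le_sum (fun i _ => mul_self_nonneg (x i)) (Finset.mem_univ e))
  have hb : 0 ≤ ∑ t : Tr n, tri x t.1.1 t.1.2.1 t.1.2.2 * tri x t.1.1 t.1.2.1 t.1.2.2 :=
    Finset.sum_nonneg fun t _ => mul_self_nonneg _
  positivity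

open scoped MatrixOrder in
theorem exists_B (hn : 3 ≤ n) (δ : ℝ) (h0 : 0 < δ) (h1 : δ < 1) :
    ∃ B : Matrix (E n) (E n) ℝ, IsUnit B.det ∧ Bᵀ * B = Hm n δ := by
  have hpd : (Hm n δ).PosDef := by
    apply Matrix.PosDef.of_dotProduct_mulVec_pos
    · rw [Matrix.IsHermitian, Matrix.conjTranspose_eq_transpose_of_trivial, Hm_symm]
    · intro x hx
      simpa using Hm_pos hn δ h0 h1 x hx
  obtain ⟨R, hR, hRR⟩ := JohnGen.exists_sqrt (Hm n δ) hpd.posSemidef
  have hRt : Rᵀ = R := by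
    have := hR.isHermitian
    rw [Matrix.IsHermitian, Matrix.conjTranspose_eq_transpose_of_trivial] at this
    exact this
  refine ⟨R, ?_, by rw [hRt, hRR]⟩
  have hdet : (Hm n δ).det ≠ 0 := hpd.det_pos.ne'
  rw [← hRR, Matrix.det_mul] at hdet
  exact isUnit_iff_ne_zero.2 (left_ne_zero_of_mul hdet)

end Pool.Agent.V11152.Met
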