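import Pool.Agent.V11152.MetForm

/-! The ellipsoid of maximal volume in the metric polytope. -/

set_option autoImplicit false

open Matrix Finset MeasureTheory

noncomputable section

namespace Pool.Agent.V11152.Met

variable {n : ℕ}

/-- The ellipsoid `c + L B`, where `B` is the closed Euclidean unit ball. -/
def ellipsoid (c : E n → ℝ) (L : Matrix (E n) (E n) ℝ) : Set (E n → ℝ) :=
  {x | ∃ u : E n → ℝ, ∑ e, u e ^ 2 ≤ 1 ∧ x = c + L *ᵥ u}

/-- `c + L B` is an ellipsoid of largest volume contained in the metric polytope. -/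
def IsJohn (n : ℕ) (c : E n → ℝ) (L : Matrix (E n) (E n) ℝ) : Prop :=
  ellipsoid c L ⊆ metricPolytope n ∧
    ∀ (c' : E n → ℝ) (L' : Matrix (E n) (E n) ℝ), ellipsoid c' L' ⊆ metricPolytope n →
      volume (ellipsoid c' L') ≤ volume (ellipsoid c L)

/-- the unit ball -/
def Bl (n : ℕ) : Set (E n → ℝ) := {u | ∑ e, u e ^ 2 ≤ 1}

theorem ellipsoid_eq (c : E n → ℝ) (L : Matrix (E n) (E n) ℝ) :
    ellipsoid c L = (fun x => c + x) '' ((Matrix.toLin' L) '' Bl n) := by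
  ext x
  constructor
  · rintro ⟨u, hu, rfl⟩
    exact ⟨L *ᵥ u, ⟨u, hu, by simp⟩, rfl⟩
  · rintro ⟨_, ⟨u, hu, rfl⟩, rfl⟩
    exact ⟨u, hu, by simp⟩

theorem volume_ellipsoid (c : E n → ℝ) (L : Matrix (E n) (E n) ℝ) :
    volume (ellipsoid c L) = ENNReal.ofReal |L.det| * volume (Bl n) := by
  rw [ellipsoid_eq, Set.image_add_left, measure_preimage_add,
    Measure.addHaar_image_linearMap, LinearMap.det_toLin']

theorem volume_Bl_pos : 0 < volume (Bl n) := by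
  have ho : IsOpen {u : E n → ℝ | ∑ e, u e ^ 2 < 1} := by
    apply isOpen_lt
    · exact continuous_finsetSum _ fun e _ => (continuous_apply e).pow 2
    · exact continuous_const
  have hne : {u : E n → ℝ | ∑ e, u e ^ 2 < 1}.Nonempty := ⟨0, by simp⟩
  refine lt_of_lt_of_le (ho.measure_pos volume hne) (measure_mono ?_)
  intro u hu
  exact le_of_lt (show ∑ e, u e ^ 2 < 1 from hu)

theorem volume_Bl_lt_top : volume (Bl n) < ⊤ := by
  have : Bl n ⊆ Metric.closedBall 0 1 := by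
    intro u hu
    rw [mem_closedBall_zero_iff, pi_norm_le_iff_of_nonneg zero_le_one]
    intro e
    have h1 : u e ^ 2 ≤ 1 := le_trans
      (Finset.single_le_sum (fun i _ => sq_nonneg (u i)) (Finset.mem_univ e)) hu
    rw [Real.norm_eq_abs]
    exact abs_le_one_iff_mul_self_le_one.2 (by nlinarith)
  exact lt_of_le_of_lt (measure_mono this) Metric.isBounded_closedBall.measure_lt_top

theorem volume_le_iff (c c' : E n → ℝ) (L L' : Matrix (E n) (E n) ℝ) :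
    volume (ellipsoid c L) ≤ volume (ellipsoid c' L') ↔ |L.det| ≤ |L'.det| := by
  rw [volume_ellipsoid, volume_ellipsoid,
    ENNReal.mul_le_mul_iff_left volume_Bl_pos.ne' volume_Bl_lt_top.ne,
    ENNReal.ofReal_le_ofReal_iff (abs_nonneg _)]

theorem fa_le_of_mem {x : E n → ℝ} (hx : x ∈ metricPolytope n) (F : Fac n) :
    fa F ⬝ᵥ x ≤ fb F := by
  rcases F with e | t
  · rw [fa_inl]; exact (hx.1 e).2
  · rw [fa_inr]
    have := hx.2 t.1.1 t.1.2.1 t.1.2.2 t.2.1 t.2.2.1 t.2.2.2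
    change - tri x _ _ _ ≤ 0
    unfold tri; linarith

theorem mem_of_fa_le (hn : 3 ≤ n) {x : E n → ℝ} (h : ∀ F, fa F ⬝ᵥ x ≤ fb F) :
    x ∈ metricPolytope n := by
  have ht : ∀ i j k : Fin n, i ≠ j → j ≠ k → i ≠ k → 0 ≤ val x i j + val x j k - val x i k := by
    intro i j k h1 h2 h3
    have := h (.inr ⟨(i, j, k), h1, h2, h3⟩)
    rw [fa_inr] at this
    change - tri x i j k ≤ 0 at this
    unfold tri at this; linarith
  refine ⟨fun e => ⟨?_, ?_⟩, ht⟩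
  · obtain ⟨k, hk⟩ : ∃ k : Fin n, k ∉ ({e.1.1, e.1.2} : Finset (Fin n)) := by
      by_contra hcon
      push Not at hcon
      have h1 : (Finset.univ : Finset (Fin n)) ⊆ {e.1.1, e.1.2} := fun k _ => hcon k
      have h2 := Finset.card_le_card h1
      have h3 : ({e.1.1, e.1.2} : Finset (Fin n)).card ≤ 2 := Finset.card_le_two
      rw [Finset.card_univ, Fintype.card_fin] at h2
      omega
    simp only [Finset.mem_insert, Finset.mem_singleton, not_or] at hk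
    have a1 := ht e.1.1 e.1.2 k e.2.ne (Ne.symm hk.2) (Ne.symm hk.1)
    have a2 := ht e.1.2 e.1.1 k e.2.ne' (Ne.symm hk.1) (Ne.symm hk.2)
    rw [val_pair] at a1
    rw [val_pair'] at a2
    linarith
  · have := h (.inl e)
    rw [fa_inl] at this
    exact this

section

variable {δ : ℝ}

theorem fw_pos (h0 : 0 < δ) (h1 : δ < 1) (F : Fac n) : 0 < fw δ F := by
  rcases F with e | t
  · change 0 < 1 - δ; linarith
  · exact h0

theorem fm_nonneg (hn : 3 ≤ n) (h0 : 0 < δ) (h1 : δ < 1) (F : Fac n) : 0 ≤ fm δ F := by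
  have h2 : (0:ℝ) < n - 2 := by
    have : (3:ℝ) ≤ n := by exact_mod_cast hn
    linarith
  rcases F with e | t
  · change 0 ≤ 1 / (1 - δ)
    have : 0 < 1 - δ := by linarith
    positivity
  · change 0 ≤ 1 / (2 * (n - 2) * δ)
    positivity

theorem fa_centre (F : Fac n) : fa F ⬝ᵥ (fun _ => δ) + fw δ F = fb F := by
  rcases F with e | t
  · rw [fa_inl]; change δ + (1 - δ) = 1; ring
  · rw [fa_inr]
    unfold tri
    rw [val_const δ t.2.1, val_const δ t.2.2.1, val_const δ t.2.2.2]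
    change -(δ + δ - δ) + δ = 0; ring

theorem sum_zero (hn : 3 ≤ n) (h0 : 0 < δ) (h1 : δ < 1) (x : E n → ℝ) :
    ∑ F : Fac n, fm δ F * fw δ F * (fa F ⬝ᵥ x) = 0 := by
  have h2 : (0:ℝ) < n - 2 := by
    have : (3:ℝ) ≤ n := by exact_mod_cast hn
    linarith
  have h3 : (0:ℝ) < 1 - δ := by linarith
  rw [Fintype.sum_sum_type]
  have e1 : ∑ e : E n, fm δ (.inl e : Fac n) * fw δ (.inl e : Fac n) * (fa (.inl e) ⬝ᵥ x) =
      ∑ e, x e := by
    refine Finset.sum_congr rfl fun e _ => ?_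
    rw [fa_inl]
    change 1 / (1 - δ) * (1 - δ) * x e = x e
    rw [one_div, inv_mul_cancel₀ h3.ne', one_mul]
  have e2 : ∑ t : Tr n, fm δ (.inr t : Fac n) * fw δ (.inr t : Fac n) * (fa (.inr t) ⬝ᵥ x) =
      - (1 / (2 * (n - 2))) * ∑ t : Tr n, tri x t.1.1 t.1.2.1 t.1.2.2 := by
    rw [Finset.mul_sum]
    refine Finset.sum_congr rfl fun t _ => ?_
    rw [fa_inr]
    change 1 / (2 * (n - 2) * δ) * δ * (- tri x t.1.1 t.1.2.1 t.1.2.2) = _
    field_simp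
  rw [e1, e2, sum_tri_one]
  field_simp
  ring

variable (hn : 3 ≤ n) (h0 : 0 < δ) (h1 : δ < 1) (hc : cub n δ = 0)
  (B : Matrix (E n) (E n) ℝ) (hB : IsUnit B.det) (hBH : Bᵀ * B = Hm n δ)

include hn h0 h1 hc hB hBH

theorem john_bound (c' : E n → ℝ) (L : Matrix (E n) (E n) ℝ)
    (hL : ellipsoid c' L ⊆ metricPolytope n) :
    |L.det| * |B.det| ≤ 1 ∧ (|L.det| * |B.det| = 1 → (B * L) * (B * L)ᵀ = 1) := by
  refine JohnGen.john (Φ := Fac n) fa fb (fw δ) (fm δ) (fun _ => δ) B hB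
    (fun F => Gop δ (fa F)) (fw_pos h0 h1) (fm_nonneg hn h0 h1) fa_centre ?_ ?_ ?_ ?_ c' L ?_
  · intro F; rw [hBH]; exact Hm_Gop hn δ h0 h1 _
  · intro F; exact fa_Gop hn δ h0 h1 hc F
  · rw [hBH]; rfl
  · exact sum_zero hn h0 h1
  · intro F u hu
    exact fa_le_of_mem (hL ⟨u, hu, rfl⟩) F

omit hc hB in
theorem fa_z (F : Fac n) : fa F = Bᵀ *ᵥ (B *ᵥ Gop δ (fa F)) := by
  rw [Matrix.mulVec_mulVec, hBH, Hm_Gop hn δ h0 h1]

theorem z_z (F : Fac n) : (B *ᵥ Gop δ (fa F)) ⬝ᵥ (B *ᵥ Gop δ (fa F)) = fw δ F ^ 2 := by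
  rw [← fa_Gop hn δ h0 h1 hc F]
  nth_rewrite 3 [fa_z hn h0 h1 B hBH F]
  rw [JohnGen.tmul]

theorem john_exists : IsJohn n (fun _ => δ) B⁻¹ := by
  have hBB : B * B⁻¹ = 1 := Matrix.mul_nonsing_inv B hB
  refine ⟨?_, ?_⟩
  · rintro x ⟨u, hu, rfl⟩
    apply mem_of_fa_le hn
    intro F
    rw [dotProduct_add]
    have e1 : fa F ⬝ᵥ (B⁻¹ *ᵥ u) = (B *ᵥ Gop δ (fa F)) ⬝ᵥ u := by
      nth_rewrite 1 [fa_z hn h0 h1 B hBH F]
      rw [JohnGen.tmul, Matrix.mulVec_mulVec, hBB, Matrix.one_mulVec]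
    have e2 := z_z hn h0 h1 hc B hB hBH F
    set z := B *ᵥ Gop δ (fa F) with hz
    have e3 : (z ⬝ᵥ u) ^ 2 ≤ fw δ F ^ 2 := by
      have h := Finset.sum_mul_sq_le_sq_mul_sq Finset.univ z u
      have h' : ∑ i, z i ^ 2 = fw δ F ^ 2 := by
        rw [← e2]; simp [dotProduct, sq]
      rw [h'] at h
      have h'' : (z ⬝ᵥ u) ^ 2 ≤ fw δ F ^ 2 * ∑ i, u i ^ 2 := h
      have h3 : fw δ F ^ 2 * ∑ i, u i ^ 2 ≤ fw δ F ^ 2 * 1 :=
        mul_le_mul_of_nonneg_left hu (sq_nonneg _)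
      linarith
    have e4 : z ⬝ᵥ u ≤ fw δ F := le_of_sq_le_sq e3 (fw_pos h0 h1 F).le
    rw [e1, ← fa_centre (δ := δ) F]
    linarith
  · intro c' L' h
    rw [volume_le_iff]
    have h2 := (john_bound hn h0 h1 hc B hB hBH c' L' h).1
    have h3 : |B⁻¹.det| * |B.det| = 1 := by
      rw [← abs_mul, ← Matrix.det_mul, Matrix.nonsing_inv_mul B hB, Matrix.det_one, abs_one]
    have h4 : 0 < |B.det| := abs_pos.2 (isUnit_iff_ne_zero.1 hB)
    rw [← h3] at h2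
    exact le_of_mul_le_mul_right h2 h4

theorem john_unique (c' : E n → ℝ) (L : Matrix (E n) (E n) ℝ) (hJ : IsJohn n c' L) :
    c' = (fun _ => δ) ∧ (B * L) * (B * L)ᵀ = 1 := by
  obtain ⟨hsub, hmax⟩ := hJ
  have hex := john_exists hn h0 h1 hc B hB hBH
  have h4 : 0 < |B.det| := abs_pos.2 (isUnit_iff_ne_zero.1 hB)
  have h3 : |B⁻¹.det| * |B.det| = 1 := by
    rw [← abs_mul, ← Matrix.det_mul, Matrix.nonsing_inv_mul B hB, Matrix.det_one, abs_one]
  have hge := (volume_le_iff _ _ _ _).1 (hmax _ _ hex.1)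
  obtain ⟨hb1, hb2⟩ := john_bound hn h0 h1 hc B hB hBH c' L hsub
  have heq : |L.det| * |B.det| = 1 := by
    apply le_antisymm hb1
    rw [← h3]
    exact mul_le_mul_of_nonneg_right hge h4.le
  have hO := hb2 heq
  refine ⟨?_, hO⟩
  -- the centre
  have hF : ∀ F, fa F ⬝ᵥ c' + fw δ F ≤ fb F := by
    intro F
    have hw := fw_pos (n := n) h0 h1 F
    set z := B *ᵥ Gop δ (fa F) with hz
    have e2 : z ⬝ᵥ z = fw δ F ^ 2 := z_z hn h0 h1 hc B hB hBH F
    set u : E n → ℝ := (fw δ F)⁻¹ • ((B * L)ᵀ *ᵥ z) with hu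
    have e3 : ((B * L)ᵀ *ᵥ z) ⬝ᵥ ((B * L)ᵀ *ᵥ z) = fw δ F ^ 2 := by
      rw [JohnGen.tmul, Matrix.mulVec_mulVec, hO, Matrix.one_mulVec, e2]
    have e4 : ∑ e, u e ^ 2 ≤ 1 := by
      have : ∑ e, u e ^ 2 = (fw δ F)⁻¹ ^ 2 * (((B * L)ᵀ *ᵥ z) ⬝ᵥ ((B * L)ᵀ *ᵥ z)) := by
        rw [hu]
        simp only [dotProduct, Finset.mul_sum, Pi.smul_apply, smul_eq_mul]
        exact Finset.sum_congr rfl fun e _ => by ring
      rw [this, e3, inv_pow, inv_mul_cancel₀ (pow_ne_zero 2 hw.ne')]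
    have e5 : fa F ⬝ᵥ (L *ᵥ u) = fw δ F := by
      have : fa F ⬝ᵥ (L *ᵥ u) = z ⬝ᵥ (B *ᵥ (L *ᵥ u)) := by
        nth_rewrite 1 [fa_z hn h0 h1 B hBH F]
        rw [JohnGen.tmul]
      rw [this, hu, Matrix.mulVec_smul, Matrix.mulVec_smul, dotProduct_smul,
        Matrix.mulVec_mulVec, Matrix.mulVec_mulVec, hO, Matrix.one_mulVec, e2, smul_eq_mul, sq,
        ← mul_assoc, inv_mul_cancel₀ hw.ne', one_mul]
    have e6 := fa_le_of_mem (hsub ⟨u, e4, rfl⟩) F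
    rw [dotProduct_add, e5] at e6
    exact e6
  have hx : ∀ F, fa F ⬝ᵥ (c' - fun _ => δ) ≤ 0 := by
    intro F
    rw [dotProduct_sub]
    have := hF F
    rw [← fa_centre (δ := δ) F] at this
    linarith
  set x : E n → ℝ := c' - fun _ => δ with hxd
  have hx1 : ∀ e, x e ≤ 0 := fun e => by
    have := hx (.inl e); rwa [fa_inl] at this
  have hx2 : 0 ≤ ∑ t : Tr n, tri x t.1.1 t.1.2.1 t.1.2.2 :=
    Finset.sum_nonneg fun t _ => by
      have := hx (.inr t); rw [fa_inr] at this; linarith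
  rw [sum_tri_one] at hx2
  have h2 : (0:ℝ) < n - 2 := by
    have : (3:ℝ) ≤ n := by exact_mod_cast hn
    linarith
  have hx3 : 0 ≤ ∑ e, x e := by
    by_contra hneg
    push Not at hneg
    nlinarith
  have hx4 : ∀ e ∈ Finset.univ, 0 ≤ - x e := fun e _ => by have := hx1 e; linarith
  have hx5 := (Finset.sum_eq_zero_iff_of_nonneg hx4).1 (le_antisymm (by
    rw [Finset.sum_neg_distrib]; linarith) (Finset.sum_nonneg hx4))
  have hx6 : x = 0 := funext fun e => by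
    have := hx5 e (Finset.mem_univ e); simp only [Pi.zero_apply]; linarith
  rw [hxd] at hx6
  exact sub_eq_zero.1 hx6

omit hc in
theorem mem_scaled (L : Matrix (E n) (E n) ℝ) (hO : (B * L) * (B * L)ᵀ = 1) (c x : E n → ℝ)
    {r : ℝ} (hr : 0 < r) :
    x ∈ ellipsoid c (r • L) ↔ (x - c) ⬝ᵥ (Hm n δ *ᵥ (x - c)) ≤ r ^ 2 := by
  have hO' : (B * L)ᵀ * (B * L) = 1 := mul_eq_one_comm.1 hO
  have hform : ∀ v : E n → ℝ, v ⬝ᵥ (Hm n δ *ᵥ v) = (B *ᵥ v) ⬝ᵥ (B *ᵥ v) := by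
    intro v
    rw [← hBH, ← Matrix.mulVec_mulVec, ← JohnGen.tmul Bᵀ, Matrix.transpose_transpose]
  have hsq : ∀ v : E n → ℝ, v ⬝ᵥ v = ∑ e, v e ^ 2 := fun v => by simp [dotProduct, sq]
  rw [hform]
  constructor
  · rintro ⟨u, hu, rfl⟩
    have e1 : B *ᵥ (c + (r • L) *ᵥ u - c) = r • ((B * L) *ᵥ u) := by
      rw [add_sub_cancel_left, Matrix.smul_mulVec, Matrix.mulVec_smul, Matrix.mulVec_mulVec]
    rw [e1, smul_dotProduct, dotProduct_smul]
    have e2 : ((B * L) *ᵥ u) ⬝ᵥ ((B * L) *ᵥ u) = u ⬝ᵥ u := by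
      have := JohnGen.tmul (B * L)ᵀ u ((B * L) *ᵥ u)
      rw [Matrix.transpose_transpose] at this
      rw [this, Matrix.mulVec_mulVec, hO', Matrix.one_mulVec]
    rw [e2, hsq]
    simp only [smul_eq_mul]
    nlinarith [sq_nonneg r]
  · intro h
    refine ⟨r⁻¹ • ((B * L)ᵀ *ᵥ (B *ᵥ (x - c))), ?_, ?_⟩
    · rw [← hsq, smul_dotProduct, dotProduct_smul, JohnGen.tmul, Matrix.mulVec_mulVec, hO,
        Matrix.one_mulVec]
      simp only [smul_eq_mul]
      rw [← mul_assoc, ← sq, inv_pow]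
      rw [inv_mul_le_iff₀ (by positivity)]
      linarith
    · have e1 : (L * (B * L)ᵀ) * B = 1 := by
        apply mul_eq_one_comm.1
        rw [← Matrix.mul_assoc]; exact hO
      rw [Matrix.smul_mulVec, Matrix.mulVec_smul, smul_smul, mul_inv_cancel₀ hr.ne', one_smul,
        Matrix.mulVec_mulVec, Matrix.mulVec_mulVec, e1, Matrix.one_mulVec]
      abel

end

end Pool.Agent.V11152.Met
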