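import Mathlib

/-! Functions on the unordered pairs of `Fin n`. -/

set_option autoImplicit false

open Matrix Finset

namespace Pool.Agent.V11152.Met

/-- The unordered pairs of distinct elements of `Fin n`. -/
abbrev E (n : ℕ) := {p : Fin n × Fin n // p.1 < p.2}

variable {n : ℕ}

/-- The coordinate `d_{ij}`; it is zero for `i = j`. -/
def val (d : E n → ℝ) (i j : Fin n) : ℝ :=
  if h : i < j then d ⟨(i, j), h⟩ else if h : j < i then d ⟨(j, i), h⟩ else 0

/-- The metric polytope: the semimetrics on `Fin n` with values in `[0,1]`. -/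
def metricPolytope (n : ℕ) : Set (E n → ℝ) :=
  {d | (∀ e, 0 ≤ d e ∧ d e ≤ 1) ∧
    ∀ i j k : Fin n, i ≠ j → j ≠ k → i ≠ k → 0 ≤ val d i j + val d j k - val d i k}

theorem val_self (d : E n → ℝ) (i : Fin n) : val d i i = 0 := by simp [val]

theorem val_symm (d : E n → ℝ) (i j : Fin n) : val d i j = val d j i := by
  unfold val
  rcases lt_trichotomy i j with h | h | h
  · rw [dif_pos h, dif_neg (not_lt_of_gt h), dif_pos h]
  · subst h; rfl
  · rw [dif_neg (not_lt_of_gt h), dif_pos h, dif_pos h]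

theorem val_pair (d : E n → ℝ) (e : E n) : val d e.1.1 e.1.2 = d e := by
  simp [val, e.2]

theorem val_pair' (d : E n → ℝ) (e : E n) : val d e.1.2 e.1.1 = d e := by
  rw [val_symm, val_pair]

theorem exists_val (d : E n → ℝ) {i j : Fin n} (h : i ≠ j) : ∃ e : E n, val d i j = d e := by
  rcases lt_or_gt_of_ne h with h | h
  · exact ⟨⟨(i, j), h⟩, val_pair d ⟨(i, j), h⟩⟩
  · exact ⟨⟨(j, i), h⟩, val_pair' d ⟨(j, i), h⟩⟩

theorem val_add (x y : E n → ℝ) (i j : Fin n) : val (x + y) i j = val x i j + val y i j := by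
  unfold val; split_ifs <;> simp

theorem val_sub (x y : E n → ℝ) (i j : Fin n) : val (x - y) i j = val x i j - val y i j := by
  unfold val; split_ifs <;> simp

theorem val_const (t : ℝ) {i j : Fin n} (h : i ≠ j) : val (fun _ : E n => t) i j = t := by
  unfold val
  rcases lt_or_gt_of_ne h with h | h
  · rw [dif_pos h]
  · rw [dif_neg (not_lt_of_gt h), dif_pos h]

/-- Sums over ordered pairs. -/
theorem sum_pairs (f : Fin n → Fin n → ℝ) (hs : ∀ i j, f i j = f j i) (h0 : ∀ i, f i i = 0) :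
    ∑ i, ∑ j, f i j = 2 * ∑ e : E n, f e.1.1 e.1.2 := by
  have h1 : ∑ i, ∑ j, f i j = ∑ p : Fin n × Fin n, f p.1 p.2 :=
    (Fintype.sum_prod_type (fun p : Fin n × Fin n => f p.1 p.2)).symm
  have h2 : ∑ e : E n, f e.1.1 e.1.2 =
      ∑ p ∈ Finset.univ.filter (fun p : Fin n × Fin n => p.1 < p.2), f p.1 p.2 := by
    rw [← Finset.sum_subtype_eq_sum_filter]
    apply Finset.sum_bij (fun e _ => (⟨e.1, by exact e.2⟩ : {p : Fin n × Fin n // p.1 < p.2}))
    · intro a _; simp
    · intro a _ b _ h; simpa using h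
    · intro b _; exact ⟨b, by simp, rfl⟩
    · intro a _; rfl
  have h3 : ∑ p ∈ Finset.univ.filter (fun p : Fin n × Fin n => p.2 < p.1), f p.1 p.2 =
      ∑ p ∈ Finset.univ.filter (fun p : Fin n × Fin n => p.1 < p.2), f p.1 p.2 := by
    apply Finset.sum_bij (fun p _ => (p.2, p.1))
    · intro a ha; simpa using ha
    · intro a _ b _ h
      simp only [Prod.mk.injEq] at h
      exact Prod.ext h.2 h.1
    · intro b hb; exact ⟨(b.2, b.1), by simpa using hb, rfl⟩
    · intro a _; exact hs _ _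
  have h4 : ∑ p ∈ Finset.univ.filter (fun p : Fin n × Fin n => ¬ p.1 < p.2), f p.1 p.2 =
      ∑ p ∈ Finset.univ.filter (fun p : Fin n × Fin n => p.2 < p.1), f p.1 p.2 := by
    symm
    apply Finset.sum_subset
    · intro p hp
      simp only [Finset.mem_filter, Finset.mem_univ, true_and] at hp ⊢
      exact not_lt_of_gt hp
    · intro p hp hp2
      simp only [Finset.mem_filter, Finset.mem_univ, true_and] at hp hp2
      have : p.1 = p.2 := le_antisymm (not_lt.1 hp2) (not_lt.1 hp)
      rw [this]; exact h0 _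
  rw [h1, ← Finset.sum_filter_add_sum_filter_not Finset.univ (fun p : Fin n × Fin n => p.1 < p.2),
    h4, h3, h2]
  ring

/-- The degree sum at a point. -/
def deg (d : E n → ℝ) (i : Fin n) : ℝ := ∑ j, val d i j

theorem deg_sub (x y : E n → ℝ) (i : Fin n) : deg (x - y) i = deg x i - deg y i := by
  unfold deg; rw [← Finset.sum_sub_distrib]; exact Finset.sum_congr rfl fun j _ => val_sub x y i j

theorem deg_add (x y : E n → ℝ) (i : Fin n) : deg (x + y) i = deg x i + deg y i := by
  unfold deg; rw [← Finset.sum_add_distrib]; exact Finset.sum_congr rfl fun j _ => val_add x y i j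

theorem sum_deg (d : E n → ℝ) : ∑ i, deg d i = 2 * ∑ e, d e := by
  unfold deg
  rw [sum_pairs (val d) (val_symm d) (val_self d)]
  simp_rw [val_pair]

theorem sum_val_mul (x y : E n → ℝ) : ∑ i, ∑ j, val x i j * val y i j = 2 * ∑ e, x e * y e := by
  rw [sum_pairs (fun i j => val x i j * val y i j) (fun i j => by simp only [val_symm x i j, val_symm y i j])
    (fun i => by simp [val_self])]
  simp_rw [val_pair]

theorem sum_deg_mul (x y : E n → ℝ) :
    ∑ i, deg x i * deg y i = ∑ e : E n, x e * (deg y e.1.1 + deg y e.1.2) := by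
  have h1 : ∑ i, deg x i * deg y i = ∑ i, ∑ j, val x i j * deg y i := by
    refine Finset.sum_congr rfl fun i _ => ?_
    unfold deg; rw [Finset.sum_mul]
  have h2 : ∑ i, ∑ j, val x i j * deg y i = ∑ i, ∑ j, val x i j * deg y j := by
    rw [Finset.sum_comm]
    refine Finset.sum_congr rfl fun i _ => Finset.sum_congr rfl fun j _ => ?_
    rw [val_symm]
  have h3 := sum_pairs (fun i j => val x i j * (deg y i + deg y j))
    (fun i j => by simp only [val_symm x i j]; ring) (fun i => by simp [val_self])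
  have h4 : ∑ i, ∑ j, val x i j * (deg y i + deg y j) =
      ∑ i, ∑ j, val x i j * deg y i + ∑ i, ∑ j, val x i j * deg y j := by
    rw [← Finset.sum_add_distrib]
    refine Finset.sum_congr rfl fun i _ => ?_
    rw [← Finset.sum_add_distrib]
    exact Finset.sum_congr rfl fun j _ => by ring
  simp_rw [val_pair] at h3
  rw [h4, ← h2] at h3
  rw [h1]; linarith

theorem deg_const (t : ℝ) (i : Fin n) : deg (fun _ : E n => t) i = (n - 1) * t := by
  unfold deg
  rw [← Finset.add_sum_erase _ _ (Finset.mem_univ i), val_self, zero_add]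
  have : ∀ j ∈ Finset.univ.erase i, val (fun _ : E n => t) i j = t := by
    intro j hj
    exact val_const t (Finset.ne_of_mem_erase hj).symm
  rw [Finset.sum_congr rfl this]
  simp only [Finset.sum_const, Finset.card_erase_of_mem (Finset.mem_univ i), Finset.card_univ,
    Fintype.card_fin, nsmul_eq_mul]
  have : 0 < n := i.pos
  rw [Nat.cast_sub (by omega)]
  push_cast; ring

/-- Ordered triples of distinct elements. -/
abbrev Tr (n : ℕ) := {t : Fin n × Fin n × Fin n // t.1 ≠ t.2.1 ∧ t.2.1 ≠ t.2.2 ∧ t.1 ≠ t.2.2}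

/-- The triangle functional. -/
def tri (x : E n → ℝ) (i j k : Fin n) : ℝ := val x i j + val x j k - val x i k

theorem sum_tri_all (x y : E n → ℝ) :
    ∑ i, ∑ j, ∑ k, tri x i j k * tri y i j k =
      3 * n * (2 * ∑ e, x e * y e) - 2 * ∑ i, deg x i * deg y i := by
  have hX := sum_val_mul x y
  set X := ∑ i, ∑ j, val x i j * val y i j with hXd
  set Y := ∑ i, deg x i * deg y i with hY
  have a1 : ∑ i, ∑ j, ∑ _k : Fin n, val x i j * val y i j = n * X := by
    rw [hXd, Finset.mul_sum]
    refine Finset.sum_congr rfl fun i _ => ?_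
    rw [Finset.mul_sum]
    exact Finset.sum_congr rfl fun j _ => by simp
  have a2 : ∑ _i : Fin n, ∑ j, ∑ k, val x j k * val y j k = n * X := by
    simp [hXd]
  have a3 : ∑ i, ∑ _j : Fin n, ∑ k, val x i k * val y i k = n * X := by
    rw [hXd, Finset.mul_sum]
    refine Finset.sum_congr rfl fun i _ => ?_
    simp
  have dd : ∀ j, ∑ i, ∑ k, val x i j * val y j k = deg x j * deg y j := by
    intro j
    unfold deg
    rw [Finset.sum_mul_sum]
    refine Finset.sum_congr rfl fun i _ => Finset.sum_congr rfl fun k _ => by rw [val_symm x i j]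
  have b1 : ∑ i, ∑ j, ∑ k, val x i j * val y j k = Y := by
    rw [Finset.sum_comm]
    exact Finset.sum_congr rfl fun j _ => dd j
  have dd2 : ∀ j, ∑ i, ∑ k, val x j k * val y i j = deg x j * deg y j := by
    intro j
    unfold deg
    rw [mul_comm, Finset.sum_mul_sum]
    refine Finset.sum_congr rfl fun i _ => Finset.sum_congr rfl fun k _ => by
      rw [val_symm y i j]; ring
  have b2 : ∑ i, ∑ j, ∑ k, val x j k * val y i j = Y := by
    rw [Finset.sum_comm]
    exact Finset.sum_congr rfl fun j _ => dd2 j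
  have b3 : ∑ i, ∑ j, ∑ k, val x i j * val y i k = Y := by
    refine Finset.sum_congr rfl fun i _ => ?_
    unfold deg
    rw [Finset.sum_mul_sum]
  have b4 : ∑ i, ∑ j, ∑ k, val x i k * val y i j = Y := by
    refine Finset.sum_congr rfl fun i _ => ?_
    unfold deg
    rw [mul_comm, Finset.sum_mul_sum]
    exact Finset.sum_congr rfl fun j _ => Finset.sum_congr rfl fun k _ => by ring
  have dd5 : ∀ k, ∑ i, ∑ j, val x j k * val y i k = deg x k * deg y k := by
    intro k
    unfold deg
    rw [mul_comm, Finset.sum_mul_sum]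
    refine Finset.sum_congr rfl fun i _ => Finset.sum_congr rfl fun j _ => by
      rw [val_symm y i k, val_symm x j k]; ring
  have c3 : ∀ f : Fin n → Fin n → Fin n → ℝ,
      ∑ i, ∑ j, ∑ k, f i j k = ∑ k, ∑ i, ∑ j, f i j k := by
    intro f
    have : ∀ i, ∑ j, ∑ k, f i j k = ∑ k, ∑ j, f i j k := fun i => Finset.sum_comm
    simp_rw [this]
    exact Finset.sum_comm
  have b5 : ∑ i, ∑ j, ∑ k, val x j k * val y i k = Y := by
    rw [c3]; exact Finset.sum_congr rfl fun k _ => dd5 k
  have dd6 : ∀ k, ∑ i, ∑ j, val x i k * val y j k = deg x k * deg y k := by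
    intro k
    unfold deg
    rw [Finset.sum_mul_sum]
    refine Finset.sum_congr rfl fun i _ => Finset.sum_congr rfl fun j _ => by
      rw [val_symm x i k, val_symm y j k]
  have b6 : ∑ i, ∑ j, ∑ k, val x i k * val y j k = Y := by
    rw [c3]; exact Finset.sum_congr rfl fun k _ => dd6 k
  have hexp : ∑ i, ∑ j, ∑ k, tri x i j k * tri y i j k =
      ∑ i, ∑ j, ∑ _k : Fin n, val x i j * val y i j +
      ∑ _i : Fin n, ∑ j, ∑ k, val x j k * val y j k +
      ∑ i, ∑ _j : Fin n, ∑ k, val x i k * val y i k +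
      ∑ i, ∑ j, ∑ k, val x i j * val y j k + ∑ i, ∑ j, ∑ k, val x j k * val y i j -
      ∑ i, ∑ j, ∑ k, val x i j * val y i k - ∑ i, ∑ j, ∑ k, val x i k * val y i j -
      ∑ i, ∑ j, ∑ k, val x j k * val y i k - ∑ i, ∑ j, ∑ k, val x i k * val y j k := by
    simp only [← Finset.sum_add_distrib, ← Finset.sum_sub_distrib]
    refine Finset.sum_congr rfl fun i _ => Finset.sum_congr rfl fun j _ =>
      Finset.sum_congr rfl fun k _ => ?_
    unfold tri; ring
  rw [hexp, a1, a2, a3, b1, b2, b3, b4, b5, b6, ← hX]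
  ring

theorem sum_tri (x y : E n → ℝ) :
    ∑ t : Tr n, tri x t.1.1 t.1.2.1 t.1.2.2 * tri y t.1.1 t.1.2.1 t.1.2.2 =
      2 * ((3 * n - 4) * ∑ e, x e * y e - ∑ i, deg x i * deg y i) := by
  have h1 : ∑ i, ∑ j, ∑ k, tri x i j k * tri y i j k =
      ∑ t : Fin n × Fin n × Fin n, tri x t.1 t.2.1 t.2.2 * tri y t.1 t.2.1 t.2.2 := by
    rw [Fintype.sum_prod_type]
    refine Finset.sum_congr rfl fun i _ => ?_
    rw [Fintype.sum_prod_type]
  have h2 : ∑ t : Tr n, tri x t.1.1 t.1.2.1 t.1.2.2 * tri y t.1.1 t.1.2.1 t.1.2.2 =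
      ∑ t ∈ Finset.univ.filter (fun t : Fin n × Fin n × Fin n =>
        t.1 ≠ t.2.1 ∧ t.2.1 ≠ t.2.2 ∧ t.1 ≠ t.2.2),
        tri x t.1 t.2.1 t.2.2 * tri y t.1 t.2.1 t.2.2 := by
    apply Finset.sum_bij (fun (t : Tr n) _ => t.1)
    · intro t _; exact Finset.mem_filter.2 ⟨Finset.mem_univ _, t.2⟩
    · intro a _ b _ h; exact Subtype.ext h
    · intro b hb; exact ⟨⟨b, (Finset.mem_filter.1 hb).2⟩, Finset.mem_univ _, rfl⟩
    · intro a _; rfl
  have h3 : ∑ t ∈ Finset.univ.filter (fun t : Fin n × Fin n × Fin n =>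
        ¬ (t.1 ≠ t.2.1 ∧ t.2.1 ≠ t.2.2 ∧ t.1 ≠ t.2.2)),
        tri x t.1 t.2.1 t.2.2 * tri y t.1 t.2.1 t.2.2 =
      4 * ∑ i, ∑ j, val x i j * val y i j := by
    have h4 : ∑ t ∈ Finset.univ.filter (fun t : Fin n × Fin n × Fin n =>
        ¬ (t.1 ≠ t.2.1 ∧ t.2.1 ≠ t.2.2 ∧ t.1 ≠ t.2.2)),
        tri x t.1 t.2.1 t.2.2 * tri y t.1 t.2.1 t.2.2 =
        ∑ t ∈ Finset.univ.filter (fun t : Fin n × Fin n × Fin n => t.1 = t.2.2),
        tri x t.1 t.2.1 t.2.2 * tri y t.1 t.2.1 t.2.2 := by
      symm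
      apply Finset.sum_subset
      · intro t ht
        simp only [Finset.mem_filter, Finset.mem_univ, true_and] at ht ⊢
        tauto
      · intro t ht ht2
        simp only [Finset.mem_filter, Finset.mem_univ, true_and] at ht ht2
        have : t.1 = t.2.1 ∨ t.2.1 = t.2.2 := by tauto
        rcases this with h | h
        · unfold tri; rw [h, val_self]; simp
        · unfold tri; rw [h, val_self]; simp
    rw [h4, Finset.mul_sum]
    simp_rw [Finset.mul_sum]
    rw [← Fintype.sum_prod_type (f := fun p : Fin n × Fin n => 4 * (val x p.1 p.2 * val y p.1 p.2))]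
    symm
    apply Finset.sum_bij (fun p _ => (p.1, p.2, p.1))
    · intro a _; simp
    · intro a _ b _ h
      simp only [Prod.mk.injEq] at h
      exact Prod.ext h.1 h.2.1
    · intro b hb
      simp only [Finset.mem_filter, Finset.mem_univ, true_and] at hb
      exact ⟨(b.1, b.2.1), by simp, by ext <;> simp [hb]⟩
    · intro a _
      unfold tri
      simp only [val_self, val_symm x a.2 a.1, val_symm y a.2 a.1]; ring
  have h5 := Finset.sum_filter_add_sum_filter_not Finset.univ
    (fun t : Fin n × Fin n × Fin n => t.1 ≠ t.2.1 ∧ t.2.1 ≠ t.2.2 ∧ t.1 ≠ t.2.2)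
    (fun t => tri x t.1 t.2.1 t.2.2 * tri y t.1 t.2.1 t.2.2)
  rw [← h2, h3, ← h1, sum_tri_all, sum_val_mul] at h5
  linarith

theorem sum_tri_one (x : E n → ℝ) :
    ∑ t : Tr n, tri x t.1.1 t.1.2.1 t.1.2.2 = 2 * (n - 2) * ∑ e, x e := by
  have h := sum_tri x (fun _ => 1)
  have h1 : ∀ t : Tr n, tri (fun _ : E n => (1 : ℝ)) t.1.1 t.1.2.1 t.1.2.2 = 1 := by
    intro t
    unfold tri
    rw [val_const 1 t.2.1, val_const 1 t.2.2.1, val_const 1 t.2.2.2]; ring
  simp_rw [h1, mul_one] at h
  rw [h]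
  have h2 : ∑ i, deg x i * deg (fun _ : E n => (1:ℝ)) i = (n - 1) * (2 * ∑ e, x e) := by
    rw [← sum_deg, Finset.mul_sum]
    refine Finset.sum_congr rfl fun i _ => ?_
    rw [deg_const]; ring
  rw [h2]; ring

/-- The indicator vector of the pair `{i,j}`. -/
def ind (i j : Fin n) : E n → ℝ := fun e =>
  if (e.1.1 = i ∧ e.1.2 = j) ∨ (e.1.1 = j ∧ e.1.2 = i) then 1 else 0

theorem ind_dot (i j : Fin n) (x : E n → ℝ) : ind i j ⬝ᵥ x = val x i j := by
  unfold ind dotProduct val
  simp only [ite_mul, one_mul, zero_mul]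
  rcases lt_trichotomy i j with h | h | h
  · rw [dif_pos h, Finset.sum_eq_single (⟨(i, j), h⟩ : E n)]
    · simp
    · intro e _ he
      rw [if_neg]
      rintro (⟨h1, h2⟩ | ⟨h1, h2⟩)
      · exact he (Subtype.ext (Prod.ext h1 h2))
      · have := e.2; rw [h1, h2] at this; exact absurd this (not_lt_of_gt h)
    · intro h'; exact absurd (Finset.mem_univ _) h'
  · subst h
    simp only [lt_irrefl, dite_false]
    apply Finset.sum_eq_zero
    intro e _
    rw [if_neg]
    rintro (⟨h1, h2⟩ | ⟨h1, h2⟩) <;> · have := e.2; rw [h1, h2] at this; exact lt_irrefl _ this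
  · rw [dif_neg (not_lt_of_gt h), dif_pos h, Finset.sum_eq_single (⟨(j, i), h⟩ : E n)]
    · simp
    · intro e _ he
      rw [if_neg]
      rintro (⟨h1, h2⟩ | ⟨h1, h2⟩)
      · have := e.2; rw [h1, h2] at this; exact absurd this (not_lt_of_gt h)
      · exact he (Subtype.ext (Prod.ext h1 h2))
    · intro h'; exact absurd (Finset.mem_univ _) h'

theorem val_ind {i j a b : Fin n} (hij : i ≠ j) :
    val (ind i j) a b = if (a = i ∧ b = j) ∨ (a = j ∧ b = i) then 1 else 0 := by
  unfold val
  rcases lt_trichotomy a b with h | h | h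
  · rw [dif_pos h]; rfl
  · subst h
    simp only [lt_irrefl, dite_false]
    rw [if_neg]
    rintro (⟨h1, h2⟩ | ⟨h1, h2⟩)
    · exact hij (h1.symm.trans h2)
    · exact hij (h2.symm.trans h1)
  · rw [dif_neg (not_lt_of_gt h), dif_pos h]
    unfold ind
    simp only
    congr 1
    apply propext
    constructor <;> (rintro (⟨h1, h2⟩ | ⟨h1, h2⟩)) <;> simp [h1, h2]

theorem deg_ind {i j : Fin n} (hij : i ≠ j) (a : Fin n) :
    deg (ind i j) a = (if a = i then 1 else 0) + (if a = j then 1 else 0) := by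
  unfold deg
  simp_rw [val_ind hij]
  by_cases h1 : a = i
  · subst h1
    have h2 : ∀ b, (if (a = a ∧ b = j) ∨ (a = j ∧ b = a) then (1:ℝ) else 0) =
        if b = j then 1 else 0 := by
      intro b; congr 1; apply propext
      constructor
      · rintro (⟨_, h⟩ | ⟨h, _⟩)
        · exact h
        · exact absurd h hij
      · intro h; exact Or.inl ⟨rfl, h⟩
    rw [Finset.sum_congr rfl fun b _ => h2 b]
    simp [hij]
  · by_cases h3 : a = j
    · subst h3
      have h2 : ∀ b, (if (a = i ∧ b = a) ∨ (a = a ∧ b = i) then (1:ℝ) else 0) =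
          if b = i then 1 else 0 := by
        intro b; congr 1; apply propext
        constructor
        · rintro (⟨h, _⟩ | ⟨_, h⟩)
          · exact absurd h h1
          · exact h
        · intro h; exact Or.inr ⟨rfl, h⟩
      rw [Finset.sum_congr rfl fun b _ => h2 b]
      simp [h1]
    · simp [h1, h3]

theorem sum_ind {i j : Fin n} (hij : i ≠ j) : ∑ e, ind i j e = 1 := by
  have := ind_dot i j (fun _ => (1:ℝ))
  rw [val_const 1 hij] at this
  simpa [dotProduct] using this

theorem single_eq_ind (e : E n) : (Pi.single e 1 : E n → ℝ) = ind e.1.1 e.1.2 := by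
  funext f
  unfold ind
  by_cases h : f = e
  · subst h; simp
  · rw [Pi.single_eq_of_ne h, if_neg]
    rintro (⟨h1, h2⟩ | ⟨h1, h2⟩)
    · exact h (Subtype.ext (Prod.ext h1 h2))
    · have h3 := f.2; rw [h1, h2] at h3; exact absurd h3 (not_lt_of_gt e.2)

end Pool.Agent.V11152.Met
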